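import Pool.Agent.H18R3.FB

/-!
Uniqueness of blow-up limits in the planar free boundary problem with right-hand side equal to
the first coordinate.
-/

set_option autoImplicit false
open MeasureTheory Metric Set Filter Topology
open scoped ContDiff InnerProductSpace NNReal

namespace Pool.Agent.H18R3
open Pool.Agent.Helper546

theorem ibpC1 {Ω : Set V} (hΩ : IsOpen Ω) {f g : V → ℝ} (i : Fin 2)
    (hf : ContDiffOn ℝ 1 f Ω) (hg : ContDiff ℝ 1 g) (hgc : HasCompactSupport g)
    (hgs : tsupport g ⊆ Ω) :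
    ∫ x, f x * dd i g x = - ∫ x, dd i f x * g x := by
  have hdf : ContinuousOn (dd i f) Ω :=
    (hf.continuousOn_fderiv_of_isOpen hΩ le_rfl).clm_apply continuousOn_const
  have hdg : Continuous (dd i g) := (hg.continuous_fderiv one_ne_zero).clm_apply continuous_const
  refine integral_mul_fderiv_eq_neg_fderiv_mul_of_integrable (v := ee i) ?_ ?_ ?_ ?_ ?_
  · exact integrable_mul_of_tsupport hΩ hdf hg.continuous hgs hgc
  · exact integrable_mul_of_tsupport hΩ hf.continuousOn hdg ((tsupport_dd i g).trans hgs)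
      (hasCompactSupport_dd i hgc)
  · exact integrable_mul_of_tsupport hΩ hf.continuousOn hg.continuous hgs hgc
  · intro x hx
    exact (hf.contDiffAt (hΩ.mem_nhds (hgs hx))).differentiableAt (by simp)
  · intro x _
    exact hg.differentiable (by simp) x

theorem weak_conv {D : Set V} {u : V → ℝ} (hu : ContDiffOn ℝ 1 u (ball 0 2))
    (hw : ∀ φ : V → ℝ, ContDiff ℝ 1 φ → HasCompactSupport φ → tsupport φ ⊆ ball 0 2 →
      ∫ x, (dd 0 u x * dd 0 φ x + dd 1 u x * dd 1 φ x)
        = - ∫ x, x 0 * D.indicator (fun _ => (1 : ℝ)) x * φ x) :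
    ∀ φ : V → ℝ, ContDiff ℝ 2 φ → HasCompactSupport φ → tsupport φ ⊆ ball (0 : V) 2 →
      ∫ x, u x * lap φ x = ∫ x, x 0 * D.indicator (fun _ => (1 : ℝ)) x * φ x := by
  intro φ h1 h2 h3
  have hd1 : ∀ i : Fin 2, ContDiff ℝ 1 (dd i φ) := fun i =>
    (h1.fderiv_right (m := 1) (by norm_num)).clm_apply contDiff_const
  have hd2 : ∀ i : Fin 2, HasCompactSupport (dd i φ) := fun i => hasCompactSupport_dd i h2
  have hd3 : ∀ i : Fin 2, tsupport (dd i φ) ⊆ ball 0 2 := fun i => (tsupport_dd i φ).trans h3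
  have hduc : ∀ i : Fin 2, ContinuousOn (dd i u) (ball 0 2) := fun i =>
    (hu.continuousOn_fderiv_of_isOpen isOpen_ball le_rfl).clm_apply continuousOn_const
  have e : ∀ i : Fin 2, ∫ x, u x * dd i (dd i φ) x = - ∫ x, dd i u x * dd i φ x := fun i =>
    ibpC1 isOpen_ball i hu (hd1 i) (hd2 i) (hd3 i)
  have hdd : ∀ i : Fin 2, Continuous (dd i (dd i φ)) := fun i =>
    ((hd1 i).continuous_fderiv one_ne_zero).clm_apply continuous_const
  have i1 : ∀ i : Fin 2, Integrable (fun x => u x * dd i (dd i φ) x) := fun i =>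
    integrable_mul_of_tsupport isOpen_ball hu.continuousOn (hdd i)
      ((tsupport_dd i _).trans (hd3 i)) (hasCompactSupport_dd i (hd2 i))
  have i2 : ∀ i : Fin 2, Integrable (fun x => dd i u x * dd i φ x) := fun i =>
    integrable_mul_of_tsupport isOpen_ball (hduc i) (hd1 i).continuous (hd3 i) (hd2 i)
  have h4 := hw φ (h1.of_le (by norm_num)) h2 h3
  rw [integral_add (i2 0) (i2 1)] at h4
  have h5 : ∫ x, u x * lap φ x = (∫ x, u x * dd 0 (dd 0 φ) x) + ∫ x, u x * dd 1 (dd 1 φ) x := by
    rw [← integral_add (i1 0) (i1 1)]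
    congr 1; funext x; rw [lap]; ring
  rw [h5, e, e]
  linarith

theorem scale_weak {D : Set V} {u : V → ℝ}
    (hw : ∀ φ : V → ℝ, ContDiff ℝ 2 φ → HasCompactSupport φ → tsupport φ ⊆ ball (0 : V) 2 →
      ∫ x, u x * lap φ x = ∫ x, x 0 * D.indicator (fun _ => (1 : ℝ)) x * φ x)
    {ψ : V → ℝ} (hψ : Tst Set.univ ψ) :
    ∃ δ > 0, ∀ r : ℝ, 0 < r → r < δ →
      ∫ x, (u (r • x) / r ^ 3) * lap ψ x =
        ∫ x, x 0 * D.indicator (fun _ => (1 : ℝ)) (r • x) * ψ x := by
  obtain ⟨M, hM⟩ := hψ.2.1.isCompact.isBounded.subset_closedBall (0 : V)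
  set M' : ℝ := |M| + 1 with hM'
  have hM0 : 0 < M' := by positivity
  have hMs : tsupport ψ ⊆ ball (0 : V) M' := by
    refine hM.trans (closedBall_subset_ball ?_)
    have := le_abs_self M
    linarith
  refine ⟨2 / M', by positivity, fun r hr hr2 => ?_⟩
  rw [lt_div_iff₀ hM0] at hr2
  set φ : V → ℝ := fun y => ψ ((0 : V) + r⁻¹ • y) with hφ
  have hφc : ContDiff ℝ ∞ φ := contDiff_comp_affine hψ.1 0 r⁻¹
  have hφt : tsupport φ ⊆ closedBall 0 (r * M') := by
    refine closure_minimal (fun y hy => ?_) isClosed_closedBall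
    have h1 : (0 : V) + r⁻¹ • y ∈ ball (0 : V) M' := hMs (subset_tsupport _ hy)
    rw [zero_add, mem_ball, dist_zero_right, norm_smul, norm_inv, Real.norm_eq_abs,
      abs_of_pos hr, inv_mul_lt_iff₀ hr] at h1
    rw [mem_closedBall, dist_zero_right]
    exact h1.le
  have hφk : HasCompactSupport φ :=
    (isCompact_closedBall (0 : V) (r * M')).of_isClosed_subset (isClosed_tsupport _) hφt
  have hφb : tsupport φ ⊆ ball 0 2 := hφt.trans (closedBall_subset_ball hr2)
  have h1 := hw φ (hφc.of_le (by norm_cast)) hφk hφb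
  have hlapφ : ∀ y, lap φ y = r⁻¹ ^ 2 * lap ψ (r⁻¹ • y) := by
    intro y
    have := lap_comp_affine hψ.1 0 r⁻¹ y
    rw [zero_add] at this
    exact this
  have hf : Module.finrank ℝ V = 2 := by simp
  have hL := Measure.integral_comp_smul (volume : Measure V)
    (fun y => u y / r ^ 3 * lap ψ (r⁻¹ • y)) r
  have hR := Measure.integral_comp_smul (volume : Measure V)
    (fun y => r⁻¹ * (y 0 * D.indicator (fun _ => (1 : ℝ)) y * φ y)) r
  rw [hf] at hL hR
  have eL : (fun x : V => u (r • x) / r ^ 3 * lap ψ (r⁻¹ • r • x)) =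
      fun x => u (r • x) / r ^ 3 * lap ψ x := by
    funext x; rw [inv_smul_smul₀ hr.ne']
  have eR : (fun x : V => r⁻¹ * ((r • x) 0 * D.indicator (fun _ => (1 : ℝ)) (r • x) *
      φ (r • x))) = fun x => x 0 * D.indicator (fun _ => (1 : ℝ)) (r • x) * ψ x := by
    funext x
    have h2 : φ (r • x) = ψ x := by
      simp only [hφ]; rw [zero_add, inv_smul_smul₀ hr.ne']
    rw [h2]
    have h3 : (r • x) 0 = r * x 0 := by simp
    rw [h3]
    field_simp
  rw [eL] at hL
  rw [eR] at hR
  rw [hL, hR]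
  congr 1
  rw [integral_const_mul, ← h1, ← integral_const_mul]
  congr 1
  funext y
  rw [hlapφ]
  field_simp

theorem limit_props {F : ℕ → V → ℝ} {v : V → ℝ} (hF : TendstoLocallyUniformly F v atTop)
    (hc : ∀ M : ℝ, ∀ᶠ n in atTop, ContinuousOn (F n) (ball 0 M)) :
    Continuous v ∧ ∀ ψ : V → ℝ, Continuous ψ → HasCompactSupport ψ →
      Tendsto (fun n => ∫ x, F n x * ψ x) atTop (𝓝 (∫ x, v x * ψ x)) := by
  have hv : Continuous v := by
    rw [continuous_iff_continuousAt]
    intro x
    have h1 : ContinuousOn v (ball 0 (‖x‖ + 1)) :=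
      (hF.tendstoLocallyUniformlyOn (s := ball 0 (‖x‖ + 1))).continuousOn (hc _).frequently
    exact h1.continuousAt (isOpen_ball.mem_nhds (by rw [mem_ball, dist_zero_right]; linarith))
  refine ⟨hv, fun ψ hψ hψc => ?_⟩
  obtain ⟨M, hM⟩ := hψc.isCompact.isBounded.subset_closedBall (0 : V)
  have hMs : tsupport ψ ⊆ ball (0 : V) (|M| + 1) := by
    refine hM.trans (closedBall_subset_ball ?_)
    have := le_abs_self M
    linarith
  have hunif : TendstoUniformlyOn F v atTop (tsupport ψ) :=
    (tendstoLocallyUniformlyOn_iff_tendstoUniformlyOn_of_compact hψc.isCompact).1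
      hF.tendstoLocallyUniformlyOn
  refine tendsto_integral_filter_of_dominated_convergence
    (fun x => (|v x| + 1) * |ψ x|) ?_ ?_ ?_ ?_
  · filter_upwards [hc (|M| + 1)] with n hn
    exact (continuous_mul_of_tsupport isOpen_ball hn hψ hMs).aestronglyMeasurable
  · filter_upwards [Metric.tendstoUniformlyOn_iff.1 hunif 1 one_pos] with n hn
    refine Eventually.of_forall fun x => ?_
    rw [norm_mul, Real.norm_eq_abs, Real.norm_eq_abs]
    by_cases hx : x ∈ tsupport ψ
    · have h1 := hn x hx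
      rw [dist_comm, Real.dist_eq] at h1
      have h2 : |F n x| ≤ |v x| + 1 := by
        have := abs_sub_abs_le_abs_sub (F n x) (v x)
        linarith
      exact mul_le_mul_of_nonneg_right h2 (abs_nonneg _)
    · rw [image_eq_zero_of_notMem_tsupport hx]; simp
  · have : Continuous (fun x => (|v x| + 1) * |ψ x|) := by fun_prop
    refine this.integrable_of_hasCompactSupport ?_
    refine HasCompactSupport.mul_left (f := fun x => |v x| + 1) (f' := fun x => |ψ x|) ?_
    exact hψc.comp_left (g := fun t => |t|) abs_zero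
  · refine Eventually.of_forall fun x => ?_
    exact (((tendstoLocallyUniformlyOn_univ.2 hF).tendsto_at (mem_univ x))).mul_const _

theorem tend_slope {g : ℝ → ℝ} {m : ℝ} (hg : HasDerivAt g m 0) (h0 : g 0 = 0) (a : ℝ) :
    Tendsto (fun r => g (r * a) / r) (𝓝[>] 0) (𝓝 (m * a)) := by
  have h1 : HasDerivAt (fun r : ℝ => g (r * a)) (m * a) 0 := by
    have h2 : HasDerivAt (fun r : ℝ => r * a) a 0 := by
      simpa using (hasDerivAt_id (0 : ℝ)).mul_const a
    have h3 : HasDerivAt g m ((fun r : ℝ => r * a) 0) := by simpa using hg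
    exact h3.comp 0 h2
  rw [hasDerivAt_iff_tendsto_slope_zero] at h1
  have h4 := h1.mono_left (nhdsWithin_mono 0 (fun t (ht : (0 : ℝ) < t) => ht.ne') :
    𝓝[>] (0 : ℝ) ≤ 𝓝[≠] 0)
  refine h4.congr fun t => ?_
  simp only [zero_add, zero_mul, h0, sub_zero, smul_eq_mul]
  rw [div_eq_inv_mul]

/-- all blow-up limits agree -/
theorem blow_unique {D : Set V} {u : V → ℝ} (hD : IsOpen D) (hu : ContinuousOn u (ball 0 2))
    (hw : ∀ φ : V → ℝ, ContDiff ℝ 2 φ → HasCompactSupport φ → tsupport φ ⊆ ball (0 : V) 2 →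
      ∫ x, u x * lap φ x = ∫ x, x 0 * D.indicator (fun _ => (1 : ℝ)) x * φ x)
    (hout : ∀ x ∈ ball (0 : V) 2, x ∉ closure D → u x = 0)
    (R : V ≃ₗᵢ[ℝ] V) {g : ℝ → ℝ} (hgC : Continuous g) {m : ℝ} (hg : HasDerivAt g m 0)
    (hg0 : g 0 = 0) {ρ : ℝ} (hρ : 0 < ρ)
    (hgraph : ∀ x ∈ ball (0 : V) ρ, (x ∈ D ↔ g ((R x) 0) < (R x) 1))
    (r s : ℕ → ℝ) (v w : V → ℝ) (hr : ∀ n, 0 < r n) (hs : ∀ n, 0 < s n)
    (hr0 : Tendsto r atTop (𝓝 0)) (hs0 : Tendsto s atTop (𝓝 0))
    (hv : TendstoLocallyUniformly (fun n x => u (r n • x) / r n ^ 3) v atTop)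
    (hv' : TendstoLocallyUniformly (fun n x => u (s n • x) / s n ^ 3) w atTop) : v = w := by
  classical
  set P : Set V := {x : V | m * (R x) 0 < (R x) 1} with hP
  have hRc : ∀ i : Fin 2, Continuous (fun x : V => (R x) i) := fun i =>
    (contDiff_coord i).continuous.comp R.continuous
  -- pointwise behaviour of the rescaled domains
  have hin : ∀ x : V, m * (R x) 0 < (R x) 1 → ∀ᶠ t : ℝ in 𝓝[>] 0, t • x ∈ D := by
    intro x hx
    have h1 := (tend_slope hg hg0 ((R x) 0)).eventually (gt_mem_nhds hx)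
    have h2 : ∀ᶠ t : ℝ in 𝓝[>] 0, t • x ∈ ball (0 : V) ρ := by
      have h3 : Tendsto (fun t : ℝ => t • x) (𝓝[>] 0) (𝓝 0) := by
        have : Tendsto (fun t : ℝ => t • x) (𝓝 0) (𝓝 ((0 : ℝ) • x)) :=
          Continuous.tendsto (by fun_prop) 0
        rw [zero_smul] at this
        exact this.mono_left nhdsWithin_le_nhds
      exact h3.eventually (ball_mem_nhds 0 hρ)
    filter_upwards [h1, h2, self_mem_nhdsWithin] with t ht1 ht2 ht3
    have ht3' : (0 : ℝ) < t := ht3
    rw [hgraph _ ht2]
    rw [div_lt_iff₀ ht3'] at ht1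
    simp only [map_smul]
    simp only [PiLp.smul_apply, smul_eq_mul]
    linarith [mul_comm ((R x) 1) t]
  have hnot : ∀ x : V, (R x) 1 < m * (R x) 0 → ∀ᶠ t : ℝ in 𝓝[>] 0, t • x ∉ closure D := by
    intro x hx
    have h1 := (tend_slope hg hg0 ((R x) 0)).eventually (lt_mem_nhds hx)
    have h2 : ∀ᶠ t : ℝ in 𝓝[>] 0, t • x ∈ ball (0 : V) ρ := by
      have h3 : Tendsto (fun t : ℝ => t • x) (𝓝[>] 0) (𝓝 0) := by
        have : Tendsto (fun t : ℝ => t • x) (𝓝 0) (𝓝 ((0 : ℝ) • x)) :=
          Continuous.tendsto (by fun_prop) 0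
        rw [zero_smul] at this
        exact this.mono_left nhdsWithin_le_nhds
      exact h3.eventually (ball_mem_nhds 0 hρ)
    filter_upwards [h1, h2, self_mem_nhdsWithin] with t ht1 ht2 ht3
    have ht3' : (0 : ℝ) < t := ht3
    rw [lt_div_iff₀ ht3'] at ht1
    have hopen : IsOpen ({y : V | (R y) 1 < g ((R y) 0)} ∩ ball 0 ρ) :=
      (isOpen_lt (hRc 1) (hgC.comp (hRc 0))).inter isOpen_ball
    intro hcl
    rw [_root_.mem_closure_iff] at hcl
    have hmem : t • x ∈ {y : V | (R y) 1 < g ((R y) 0)} ∩ ball 0 ρ := by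
      refine ⟨?_, ht2⟩
      simp only [mem_ofPred_eq, map_smul, PiLp.smul_apply, smul_eq_mul]
      linarith [mul_comm ((R x) 1) t]
    obtain ⟨q, hq1, hq2⟩ := hcl _ hopen hmem
    have h3 := (hgraph q hq1.2).1 hq2
    have h4 : (R q) 1 < g ((R q) 0) := hq1.1
    linarith
  -- the line has measure zero
  have hnull : ∀ᵐ x : V, (R x) 1 ≠ m * (R x) 0 := by
    let l : V →ₗ[ℝ] ℝ :=
      { toFun := fun x => (R x) 1 - m * (R x) 0
        map_add' := fun x y => by simp only [map_add, PiLp.add_apply]; ring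
        map_smul' := fun c x => by
          simp only [map_smul, PiLp.smul_apply, smul_eq_mul, RingHom.id_apply]; ring }
    have hl : LinearMap.ker l ≠ ⊤ := by
      intro h
      have h1 : l (R.symm (ee 1)) = 0 := by
        rw [← LinearMap.mem_ker, h]; trivial
      have h2 : l (R.symm (ee 1)) = 1 := by
        show (R (R.symm (ee 1))) 1 - m * (R (R.symm (ee 1))) 0 = 1
        rw [LinearIsometryEquiv.apply_symm_apply]
        simp [ee]
      linarith
    have h3 := Measure.addHaar_submodule (volume : Measure V) (LinearMap.ker l) hl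
    rw [ae_iff]
    refine measure_mono_null ?_ h3
    intro x hx
    simp only [ne_eq, not_not, mem_ofPred_eq] at hx
    show l x = 0
    show (R x) 1 - m * (R x) 0 = 0
    linarith
  -- limits of sequences
  have hseq : ∀ (r : ℕ → ℝ) (v : V → ℝ), (∀ n, 0 < r n) → Tendsto r atTop (𝓝 0) →
      TendstoLocallyUniformly (fun n x => u (r n • x) / r n ^ 3) v atTop →
      Continuous v ∧ (∀ ψ, Tst Set.univ ψ → ∫ x, v x * lap ψ x =
        ∫ x, x 0 * P.indicator (fun _ => (1 : ℝ)) x * ψ x) ∧
      ∀ x, (R x) 1 < m * (R x) 0 → v x = 0 := by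
    intro r v hr hr0 hv
    have hr0' : Tendsto r atTop (𝓝[>] 0) :=
      tendsto_nhdsWithin_iff.2 ⟨hr0, Eventually.of_forall hr⟩
    have hc : ∀ M : ℝ, ∀ᶠ n in atTop,
        ContinuousOn (fun x : V => u (r n • x) / r n ^ 3) (ball 0 M) := by
      intro M
      have h1 : ∀ᶠ n in atTop, r n < 2 / (|M| + 1) :=
        hr0.eventually (gt_mem_nhds (by positivity))
      filter_upwards [h1] with n hn
      refine ContinuousOn.div_const ?_ _
      refine hu.comp (by fun_prop) ?_
      intro x hx
      rw [mem_ball, dist_zero_right] at hx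
      rw [lt_div_iff₀ (by positivity)] at hn
      rw [mem_ball, dist_zero_right, norm_smul, Real.norm_eq_abs, abs_of_pos (hr n)]
      have h2 : ‖x‖ ≤ |M| + 1 := by
        have := le_abs_self M
        linarith
      calc r n * ‖x‖ ≤ r n * (|M| + 1) := mul_le_mul_of_nonneg_left h2 (hr n).le
        _ < 2 := hn
    obtain ⟨hvc, hvl⟩ := limit_props hv hc
    refine ⟨hvc, fun ψ hψ => ?_, fun x hx => ?_⟩
    · have hls : tsupport (lap ψ) ⊆ tsupport ψ := by
        refine closure_minimal (fun x hx => ?_) (isClosed_tsupport _)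
        by_contra h
        exact hx (lap_eq_zero_of_notMem h)
      have h1 := hvl (lap ψ) (contDiff_lap hψ.1).continuous
        (hψ.2.1.of_isClosed_subset (isClosed_tsupport _) hls)
      obtain ⟨δ, hδ, hsc⟩ := scale_weak hw hψ
      have h2 : Tendsto (fun n => ∫ x : V, x 0 * D.indicator (fun _ => (1 : ℝ)) (r n • x) * ψ x)
          atTop (𝓝 (∫ x, x 0 * P.indicator (fun _ => (1 : ℝ)) x * ψ x)) := by
        refine tendsto_integral_of_dominated_convergence (fun x => |x 0 * ψ x|) ?_ ?_ ?_ ?_
        · intro n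
          have m1 : Measurable (fun x : V => D.indicator (fun _ => (1 : ℝ)) (r n • x)) :=
            (measurable_const.indicator hD.measurableSet).comp (by fun_prop)
          have m2 : Measurable (fun x : V => x 0) := (contDiff_coord 0).continuous.measurable
          exact ((m2.mul m1).mul hψ.1.continuous.measurable).aestronglyMeasurable
        · have : Continuous (fun x : V => x 0 * ψ x) :=
            (contDiff_coord 0).continuous.mul hψ.1.continuous
          exact (this.integrable_of_hasCompactSupport (hψ.2.1.mul_left)).abs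
        · intro n
          refine Eventually.of_forall fun x => ?_
          rw [Real.norm_eq_abs]
          by_cases hx : r n • x ∈ D
          · rw [indicator_of_mem hx, mul_one]
          · rw [indicator_of_notMem hx, mul_zero, zero_mul, abs_zero]; exact abs_nonneg _
        · filter_upwards [hnull] with x hx
          refine Tendsto.mul_const _ (Tendsto.const_mul _ ?_)
          rcases lt_or_gt_of_ne hx with h | h
          · have h3 := hr0'.eventually (hnot x h)
            have h4 : x ∉ P := by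
              simp only [hP, mem_ofPred_eq, not_lt]; exact h.le
            rw [indicator_of_notMem h4]
            refine tendsto_const_nhds.congr' ?_
            filter_upwards [h3] with n hn
            rw [indicator_of_notMem (fun h5 => hn (subset_closure h5))]
          · have h3 := hr0'.eventually (hin x h)
            have h4 : x ∈ P := h
            rw [indicator_of_mem h4]
            refine tendsto_const_nhds.congr' ?_
            filter_upwards [h3] with n hn
            rw [indicator_of_mem hn]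
      refine tendsto_nhds_unique h1 (h2.congr' ?_)
      filter_upwards [hr0.eventually (gt_mem_nhds hδ)] with n hn
      exact (hsc (r n) (hr n) hn).symm
    · have h1 := (tendstoLocallyUniformlyOn_univ.2 hv).tendsto_at (mem_univ x)
      refine tendsto_nhds_unique h1 (tendsto_const_nhds.congr' ?_)
      have h2 : ∀ᶠ t : ℝ in 𝓝[>] 0, t • x ∈ ball (0 : V) 2 := by
        have h3 : Tendsto (fun t : ℝ => t • x) (𝓝[>] 0) (𝓝 0) := by
          have : Tendsto (fun t : ℝ => t • x) (𝓝 0) (𝓝 ((0 : ℝ) • x)) :=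
            Continuous.tendsto (by fun_prop) 0
          rw [zero_smul] at this
          exact this.mono_left nhdsWithin_le_nhds
        exact h3.eventually (ball_mem_nhds 0 two_pos)
      filter_upwards [hr0'.eventually (hnot x hx), hr0'.eventually h2] with n hn1 hn2
      rw [hout _ hn2 hn1, zero_div]
  obtain ⟨c1, e1, z1⟩ := hseq r v hr hr0 hv
  obtain ⟨c2, e2, z2⟩ := hseq s w hs hs0 hv'
  set h : V → ℝ := fun x => v x - w x with hh
  have hweak : ∀ ψ, Tst Set.univ ψ → ∫ x, h x * lap ψ x = 0 := by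
    intro ψ hψ
    have hls : tsupport (lap ψ) ⊆ tsupport ψ := by
      refine closure_minimal (fun x hx => ?_) (isClosed_tsupport _)
      by_contra h
      exact hx (lap_eq_zero_of_notMem h)
    have hk : HasCompactSupport (lap ψ) := hψ.2.1.of_isClosed_subset (isClosed_tsupport _) hls
    have hlc := (contDiff_lap hψ.1).continuous
    have i1 : Integrable (fun x => v x * lap ψ x) :=
      (c1.mul hlc).integrable_of_hasCompactSupport hk.mul_left
    have i2 : Integrable (fun x => w x * lap ψ x) :=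
      (c2.mul hlc).integrable_of_hasCompactSupport hk.mul_left
    have : ∫ x, h x * lap ψ x = (∫ x, v x * lap ψ x) - ∫ x, w x * lap ψ x := by
      rw [← integral_sub i1 i2]
      congr 1; funext x; simp only [hh]; ring
    rw [this, e1 ψ hψ, e2 ψ hψ, sub_self]
  obtain ⟨hhs, hhl⟩ := weyl_cont isOpen_univ (c1.sub c2).continuousOn hweak
  have hhol := grad_holo isOpen_univ hhs hhl
  rw [preimage_univ] at hhol
  set G : ℂ → ℂ := fun z => ((dd 0 h (EE z) : ℝ) : ℂ) - Complex.I * ((dd 1 h (EE z) : ℝ) : ℂ)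
    with hG
  have hGa : AnalyticOnNhd ℂ G Set.univ := hhol.analyticOnNhd isOpen_univ
  -- an open set of zeros
  have hzero : ∀ x, (R x) 1 < m * (R x) 0 → fderiv ℝ h x = 0 := by
    intro x hx
    have hopen : IsOpen {y : V | (R y) 1 < m * (R y) 0} :=
      isOpen_lt (hRc 1) (continuous_const.mul (hRc 0))
    have hev : h =ᶠ[𝓝 x] fun _ => 0 := by
      filter_upwards [hopen.mem_nhds hx] with y hy
      have hy' : (R y) 1 < m * (R y) 0 := hy
      simp only [hh]
      rw [z1 y hy', z2 y hy', sub_zero]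
    rw [hev.fderiv_eq]; simp
  set x0 : V := R.symm (-ee 1) with hx0
  have hx0m : (R x0) 1 < m * (R x0) 0 := by
    rw [hx0, LinearIsometryEquiv.apply_symm_apply]
    simp [ee]
  have hGz : G =ᶠ[𝓝 (EE.symm x0)] fun _ => 0 := by
    have hopen : IsOpen (EE ⁻¹' {y : V | (R y) 1 < m * (R y) 0}) :=
      (isOpen_lt (hRc 1) (continuous_const.mul (hRc 0))).preimage EE.continuous
    have hmem : EE.symm x0 ∈ EE ⁻¹' {y : V | (R y) 1 < m * (R y) 0} := by
      show (R (EE (EE.symm x0))) 1 < m * (R (EE (EE.symm x0))) 0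
      rw [LinearIsometryEquiv.apply_symm_apply]
      exact hx0m
    filter_upwards [hopen.mem_nhds hmem] with z hz
    have := hzero (EE z) hz
    simp only [hG, dd, this]
    simp
  have hG0 : ∀ z, G z = 0 := by
    intro z
    have := hGa.eqOn_zero_of_preconnected_of_eventuallyEq_zero isPreconnected_univ
      (mem_univ _) hGz (mem_univ z)
    simpa using this
  have hfd : ∀ x, fderiv ℝ h x = 0 := by
    intro x
    have h1 := hG0 (EE.symm x)
    simp only [hG, LinearIsometryEquiv.apply_symm_apply] at h1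
    have h2 : dd 0 h x = 0 := by
      have := congrArg Complex.re h1
      simpa using this
    have h3 : dd 1 h x = 0 := by
      have := congrArg Complex.im h1
      simpa using this
    have h4 := norm_fderiv_sq h x
    rw [h2, h3] at h4
    have h5 : ‖fderiv ℝ h x‖ = 0 := by nlinarith [norm_nonneg (fderiv ℝ h x)]
    exact norm_eq_zero.1 h5
  have hdiff : Differentiable ℝ h := (contDiffOn_univ.1 hhs).differentiable (by simp)
  funext x
  have h6 := is_const_of_fderiv_eq_zero hdiff hfd x x0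
  have h7 : h x0 = 0 := by simp only [hh]; rw [z1 x0 hx0m, z2 x0 hx0m, sub_zero]
  rw [h7] at h6
  have h8 : v x - w x = 0 := h6
  linarith

end Pool.Agent.H18R3
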