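import Mathlib
set_option autoImplicit false
open Complex Metric Set Filter Topology
open scoped ComplexConjugate

namespace Pool.Agent.H18R3

theorem real_nhds {P : ℂ → Prop} (h : ∀ᶠ z in 𝓝 (0 : ℂ), P z) : ∀ᶠ x : ℝ in 𝓝 0, P (x : ℂ) := by
  have : Tendsto (fun x : ℝ => (x : ℂ)) (𝓝 0) (𝓝 0) := by
    have := Complex.continuous_ofReal.tendsto 0
    simpa using this
  exact this.eventually h

theorem factor {ρ : ℂ → ℂ} (hρ : AnalyticAt ℂ ρ 0) {r : ℝ → ℝ} {a : ℝ} (ha : 0 < a)
    (hr : ContinuousOn r (Ioo (-a) a)) (hr0 : r 0 = 0)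
    (h : ∀ x : ℝ, |x| < a → ρ x = ((r x ^ 2 : ℝ) : ℂ)) :
    ∃ q : ℂ → ℂ, AnalyticAt ℂ q 0 ∧ q 0 = 0 ∧ ∃ s₁ s₂ ε : ℝ, 0 < ε ∧ ε ≤ a ∧
      (∀ x : ℝ, |x| < ε → (q x).im = 0) ∧ (∀ x : ℝ, 0 < x → x < ε → r x = s₁ * (q x).re) ∧
      (∀ x : ℝ, -ε < x → x < 0 → r x = s₂ * (q x).re) := by
  by_cases hz : ∀ᶠ z in 𝓝 (0 : ℂ), ρ z = 0
  · obtain ⟨ε, hε, hε2⟩ := Metric.eventually_nhds_iff.1 (real_nhds hz)
    have key : ∀ x : ℝ, |x| < min ε a → r x = 0 := by
      intro x hx
      have h1 := hε2 (y := x) (by simpa using lt_of_lt_of_le hx (min_le_left _ _))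
      have h2 := h x (lt_of_lt_of_le hx (min_le_right _ _))
      rw [h1] at h2
      have h3 : (r x ^ 2 : ℝ) = 0 := by exact_mod_cast h2.symm
      exact pow_eq_zero_iff (two_ne_zero) |>.1 h3
    refine ⟨0, analyticAt_const, rfl, 0, 0, min ε a, lt_min hε ha, min_le_right _ _, ?_, ?_, ?_⟩
    · intro x _; simp
    · intro x hx hx2
      rw [key x (by rwa [abs_of_pos hx])]; simp
    · intro x hx hx2
      rw [key x (by rw [abs_of_neg hx2]; linarith)]; simp
  · obtain ⟨n, k, hk, hk0, hfac⟩ := hρ.exists_eventuallyEq_pow_smul_nonzero_iff.2 hz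
    have hfac' : ∀ᶠ x : ℝ in 𝓝 0, ρ x = (x : ℂ) ^ n * k x := by
      have := real_nhds hfac
      simpa using this
    have hkc : ContinuousAt k 0 := hk.continuousAt
    have hkr : Tendsto (fun x : ℝ => k x) (𝓝 0) (𝓝 (k 0)) := by
      have : Tendsto (fun x : ℝ => (x : ℂ)) (𝓝 0) (𝓝 0) := by
        have := Complex.continuous_ofReal.tendsto 0
        simpa using this
      exact hkc.tendsto.comp this
    have hA : ∀ᶠ x : ℝ in 𝓝 0, |x| < a := by
      have := (continuous_abs : Continuous (fun x : ℝ => |x|)).tendsto 0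
      rw [abs_zero] at this
      exact this.eventually (gt_mem_nhds ha)
    -- for nonzero small real x
    have hrel : ∀ᶠ x : ℝ in 𝓝[≠] 0, ((r x ^ 2 : ℝ) : ℂ) = ((x ^ n : ℝ) : ℂ) * k x := by
      filter_upwards [(hfac'.and hA).filter_mono nhdsWithin_le_nhds] with x hx
      rw [← h x hx.2, hx.1]; push_cast; ring
    have hreal : ∀ᶠ x : ℝ in 𝓝[≠] 0, (k x).im = 0 := by
      filter_upwards [hrel, self_mem_nhdsWithin] with x hx hx0
      have h1 := congrArg Complex.im hx
      rw [Complex.ofReal_im, Complex.im_ofReal_mul] at h1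
      have h2 : x ^ n ≠ 0 := pow_ne_zero n hx0
      exact (mul_eq_zero.1 h1.symm).resolve_left h2
    have hrel2 : ∀ᶠ x : ℝ in 𝓝[≠] 0, r x ^ 2 = x ^ n * (k x).re := by
      filter_upwards [hrel] with x hx
      have h1 := congrArg Complex.re hx
      rwa [Complex.ofReal_re, Complex.re_ofReal_mul] at h1
    have him0 : (k 0).im = 0 := by
      have h1 : Tendsto (fun x : ℝ => (k x).im) (𝓝[≠] 0) (𝓝 (k 0).im) :=
        (Complex.continuous_im.tendsto _).comp (hkr.mono_left nhdsWithin_le_nhds)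
      exact tendsto_nhds_unique_of_eventuallyEq h1 tendsto_const_nhds hreal
    have hrene : (k 0).re ≠ 0 := fun h0 => hk0 (Complex.ext h0 him0)
    have hre0 : 0 < (k 0).re := by
      apply lt_of_le_of_ne _ (Ne.symm hrene)
      have h1 : Tendsto (fun x : ℝ => (k x).re) (𝓝[>] 0) (𝓝 (k 0).re) :=
        (Complex.continuous_re.tendsto _).comp (hkr.mono_left nhdsWithin_le_nhds)
      apply ge_of_tendsto h1
      have h2 : ∀ᶠ x : ℝ in 𝓝[>] 0, r x ^ 2 = x ^ n * (k x).re :=
        hrel2.filter_mono (nhdsWithin_mono 0 (fun x hx => ne_of_gt hx))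
      filter_upwards [h2, self_mem_nhdsWithin] with x hx hx0
      have hx0' : (0 : ℝ) < x := hx0
      have h3 : 0 < x ^ n := pow_pos hx0' n
      by_contra hcon
      push Not at hcon
      nlinarith [sq_nonneg (r x), mul_pos_of_neg_of_neg hcon (neg_lt_zero.2 h3)]
    have hkpos : ∀ᶠ x : ℝ in 𝓝 0, 0 < (k x).re := by
      have h1 : Tendsto (fun x : ℝ => (k x).re) (𝓝 0) (𝓝 (k 0).re) :=
        (Complex.continuous_re.tendsto _).comp hkr
      exact h1.eventually (lt_mem_nhds hre0)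
    -- n is even
    have hn0 : n ≠ 0 := by
      intro h0
      have h1 : ρ 0 = k 0 := by
        have := hfac.self_of_nhds
        simpa [h0] using this
      have h2 := h 0 (by simpa using ha)
      rw [hr0] at h2
      simp at h2
      rw [h2] at h1
      exact hk0 h1.symm
    have heven : Even n := by
      by_contra hodd
      rw [Nat.not_even_iff_odd] at hodd
      have h2 : ∀ᶠ x : ℝ in 𝓝[<] 0, r x ^ 2 = x ^ n * (k x).re :=
        hrel2.filter_mono (nhdsWithin_mono 0 (fun x hx => ne_of_lt hx))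
      have h3 : ∀ᶠ x : ℝ in 𝓝[<] 0, False := by
        filter_upwards [h2, hkpos.filter_mono nhdsWithin_le_nhds, self_mem_nhdsWithin]
          with x hx hk hx0
        have h4 : x ^ n < 0 := hodd.pow_neg hx0
        nlinarith [sq_nonneg (r x), mul_neg_of_neg_of_pos h4 hk]
      exact (h3.exists).elim fun _ h => h
    obtain ⟨j, hj⟩ := heven
    have hj0 : j ≠ 0 := by rintro rfl; simp at hj; exact hn0 hj
    have hslit : k 0 ∈ Complex.slitPlane := Complex.mem_slitPlane_iff.2 (Or.inl hre0)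
    set q : ℂ → ℂ := fun z => z ^ j * Complex.exp (Complex.log (k z) / 2) with hq
    have hqa : AnalyticAt ℂ q 0 := by
      apply (analyticAt_id.pow j).mul
      apply AnalyticAt.cexp
      exact (hk.clog hslit).div_const
    have hq0 : q 0 = 0 := by simp [hq, hj0]
    have hall := ((hrel2.and hreal).and self_mem_nhdsWithin)
    rw [eventually_nhdsWithin_iff] at hall
    have hqan : ∀ᶠ x : ℝ in 𝓝 0, AnalyticAt ℂ q x := real_nhds hqa.eventually_analyticAt
    obtain ⟨ε, hε, hε2⟩ := Metric.eventually_nhds_iff.1 ((hall.and hkpos).and (hA.and hqan))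
    have hqx : ∀ x : ℝ, x ≠ 0 → |x| < ε → (q x) = ((x ^ j * Real.exp (Real.log (k x).re / 2) : ℝ) : ℂ) := by
      intro x hx0 hx
      obtain ⟨⟨h1, h2⟩, _⟩ := hε2 (y := x) (by simpa using hx)
      obtain ⟨⟨h3, h4⟩, _⟩ := h1 hx0
      have e : k x = (((k x).re : ℝ) : ℂ) := Complex.ext (by simp) (by simp [h4])
      simp only [hq]
      rw [e, ← Complex.ofReal_log h2.le]
      simp only [Complex.ofReal_re]
      push_cast
      ring
    have hsq : ∀ x : ℝ, x ≠ 0 → |x| < ε → r x ^ 2 = (q x).re ^ 2 := by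
      intro x hx0 hx
      obtain ⟨⟨h1, h2⟩, _⟩ := hε2 (y := x) (by simpa using hx)
      obtain ⟨⟨h3, h4⟩, _⟩ := h1 hx0
      rw [hqx x hx0 hx, Complex.ofReal_re, h3, mul_pow, ← Real.exp_nat_mul]
      have e2 : ((2 : ℕ) : ℝ) * (Real.log (k x).re / 2) = Real.log (k x).re := by
        push_cast; ring
      rw [e2, Real.exp_log h2, hj, pow_add]; ring
    have hne : ∀ x : ℝ, x ≠ 0 → |x| < ε → (q x).re ≠ 0 := by
      intro x hx0 hx
      rw [hqx x hx0 hx, Complex.ofReal_re]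
      exact mul_ne_zero (pow_ne_zero _ hx0) (Real.exp_ne_zero _)
    have hqcont : ∀ x : ℝ, |x| < ε → ContinuousAt (fun x : ℝ => (q x).re) x := by
      intro x hx
      obtain ⟨_, _, h2⟩ := hε2 (y := x) (by simpa using hx)
      exact Complex.continuous_re.continuousAt.comp
        (h2.continuousAt.comp Complex.continuous_ofReal.continuousAt)
    have hεa : ε ≤ a := by
      by_contra hcon
      push Not at hcon
      obtain ⟨_, h1, _⟩ := hε2 (y := a) (by simpa [abs_of_pos ha] using hcon)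
      rw [abs_of_pos ha] at h1
      exact lt_irrefl _ h1
    have habs : ∀ S : Set ℝ, S ⊆ Ioo (-ε) ε → (∀ x ∈ S, x ≠ 0) → IsPreconnected S →
        ∃ s : ℝ, ∀ x ∈ S, r x = s * (q x).re := by
      intro S hS hS0 hSp
      have h1 := hSp.eq_or_eq_neg_of_sq_eq (f := r) (g := fun x : ℝ => (q x).re)
        (hr.mono (hS.trans (Ioo_subset_Ioo (by linarith) hεa)))
        (fun x hx => (hqcont x (abs_lt.2 (hS hx))).continuousWithinAt)
        (fun x hx => by
          have := hsq x (hS0 x hx) (abs_lt.2 (hS hx))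
          simpa using this)
        (fun {x} hx => hne x (hS0 x hx) (abs_lt.2 (hS hx)))
      rcases h1 with h1 | h1
      · exact ⟨1, fun x hx => by rw [one_mul]; exact h1 hx⟩
      · exact ⟨-1, fun x hx => by rw [neg_one_mul]; exact h1 hx⟩
    obtain ⟨s₁, hs₁⟩ := habs (Ioo 0 ε) (Ioo_subset_Ioo (by linarith) le_rfl)
      (fun x hx => hx.1.ne') isPreconnected_Ioo
    obtain ⟨s₂, hs₂⟩ := habs (Ioo (-ε) 0) (Ioo_subset_Ioo le_rfl (by linarith))
      (fun x hx => hx.2.ne) isPreconnected_Ioo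
    refine ⟨q, hqa, hq0, s₁, s₂, ε, hε, hεa, ?_, fun x h1 h2 => hs₁ x ⟨h1, h2⟩,
      fun x h1 h2 => hs₂ x ⟨h1, h2⟩⟩
    intro x hx
    by_cases hx0 : x = 0
    · rw [hx0]; simp [hq0]
    · rw [hqx x hx0 hx, Complex.ofReal_im]

end Pool.Agent.H18R3
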