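import Pool.Agent.H18R3.Refl
import Pool.Agent.H18R3.Factor
set_option autoImplicit false
open Complex Metric Set Filter Topology
open scoped ComplexConjugate

namespace Pool.Agent.H18R3

/-- branch of the logarithm with cut on the negative imaginary axis -/
noncomputable def Lg (ζ : ℂ) : ℂ := Complex.log (-I * ζ) + (Real.pi / 2) * I

theorem Lg_pos {x : ℝ} (hx : 0 < x) : Lg x = Real.log x := by
  rw [Lg, mul_comm, Complex.log_ofReal_mul hx (neg_ne_zero.2 I_ne_zero), Complex.log_neg_I]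
  ring

theorem Lg_neg {x : ℝ} (hx : x < 0) : Lg x = Real.log (-x) + Real.pi * I := by
  have e : -I * (x : ℂ) = ((-x : ℝ) : ℂ) * I := by push_cast; ring
  rw [Lg, e, Complex.log_ofReal_mul (by linarith) I_ne_zero, Complex.log_I]
  ring

theorem Lg_im {y : ℝ} (hy : 0 < y) : Lg (y * I) = Real.log y + Real.pi / 2 * I := by
  have e : -I * ((y : ℂ) * I) = (y : ℂ) := by
    have := Complex.I_mul_I
    linear_combination (-(y : ℂ)) * this
  rw [Lg, e, ← Complex.ofReal_log hy.le]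

theorem slit_of_im_nonneg {ζ : ℂ} (h : 0 ≤ ζ.im) (h0 : ζ ≠ 0) : -I * ζ ∈ Complex.slitPlane := by
  rw [Complex.mem_slitPlane_iff]
  have e1 : (-I * ζ).re = ζ.im := by simp
  have e2 : (-I * ζ).im = -ζ.re := by simp
  rw [e1, e2]
  rcases h.lt_or_eq with h1 | h1
  · exact Or.inl h1
  · right
    intro h2
    exact h0 (Complex.ext (neg_eq_zero.1 h2) h1.symm)

theorem hasDerivAt_Lg {ζ : ℂ} (h : -I * ζ ∈ Complex.slitPlane) : HasDerivAt Lg ζ⁻¹ ζ := by
  have h0 : ζ ≠ 0 := by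
    rintro rfl
    simp at h
  have h1 := ((Complex.hasDerivAt_log h).comp ζ ((hasDerivAt_id ζ).const_mul (-I))).add_const
    ((Real.pi / 2 : ℂ) * I)
  refine h1.congr_deriv ?_
  have := I_ne_zero
  field_simp

theorem analyticAt_Lg {ζ : ℂ} (h : -I * ζ ∈ Complex.slitPlane) : AnalyticAt ℂ Lg ζ := by
  apply AnalyticAt.add _ analyticAt_const
  exact (analyticAt_const.mul analyticAt_id).clog h

theorem norm_Lg_le (ζ : ℂ) : ‖Lg ζ‖ ≤ |Real.log ‖ζ‖| + 2 * Real.pi := by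
  have h1 : ‖Complex.log (-I * ζ)‖ ≤ |(Complex.log (-I * ζ)).re| + |(Complex.log (-I * ζ)).im| :=
    Complex.norm_le_abs_re_add_abs_im _
  have h2 : ‖-I * ζ‖ = ‖ζ‖ := by simp
  rw [Complex.log_re, Complex.log_im, h2] at h1
  have h3 := Complex.abs_arg_le_pi (-I * ζ)
  have h4 : ‖(Real.pi / 2 : ℂ) * I‖ = Real.pi / 2 := by
    have : (Real.pi / 2 : ℂ) = ((Real.pi / 2 : ℝ) : ℂ) := by push_cast; ring
    rw [this, norm_mul, Complex.norm_I, mul_one, Complex.norm_real,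
      Real.norm_of_nonneg (by positivity)]
  have h5 := norm_add_le (Complex.log (-I * ζ)) ((Real.pi / 2 : ℂ) * I)
  have := Real.pi_pos
  rw [Lg]
  linarith

theorem tendsto_norm_mul_log : Tendsto (fun ζ : ℂ => ‖ζ‖ * (|Real.log ‖ζ‖| + 2 * Real.pi))
    (𝓝 0) (𝓝 0) := by
  have ha : Tendsto (fun η : ℂ => ‖η‖) (𝓝 0) (𝓝 0) := by
    simpa using (continuous_norm (E := ℂ)).tendsto 0
  have hb : Tendsto (fun x : ℝ => Real.log x * x) (𝓝 0) (𝓝 0) := by
    have := Real.continuous_mul_log.tendsto 0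
    simp only [Real.log_zero, mul_zero] at this
    simpa [mul_comm] using this
  have hc := (hb.comp ha).abs
  have hd := (ha.mul_const (2 * Real.pi)).add hc
  simp only [zero_mul, abs_zero, add_zero] at hd
  apply hd.congr
  intro ζ
  simp only [Function.comp]
  rw [abs_mul, abs_norm]; ring

theorem tendsto_mul_Lg {q : ℂ → ℂ} (hq : AnalyticAt ℂ q 0) (hq0 : q 0 = 0) :
    Tendsto (fun ζ => q ζ * Lg ζ) (𝓝 0) (𝓝 0) := by
  have h1 : q =O[𝓝 0] fun ζ => ζ := by
    have := hq.differentiableAt.isBigO_sub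
    simpa [hq0] using this
  obtain ⟨C, hC⟩ := h1.bound
  rw [tendsto_zero_iff_norm_tendsto_zero]
  have h2 := tendsto_norm_mul_log.const_mul |C|
  rw [mul_zero] at h2
  apply squeeze_zero' (Eventually.of_forall fun _ => norm_nonneg _) _ h2
  filter_upwards [hC] with ζ hζ
  rw [norm_mul, ← mul_assoc]
  apply mul_le_mul _ (norm_Lg_le ζ) (norm_nonneg _) (by positivity)
  exact hζ.trans (mul_le_mul_of_nonneg_right (le_abs_self C) (norm_nonneg _))

theorem coreExt {Z : ℂ → ℂ} {a : ℝ} {b : ℂ} (ha : 0 < a) (hb : b ≠ 0)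
    (hZc : ContinuousOn Z {ζ | ‖ζ‖ < a ∧ 0 ≤ ζ.im})
    (hZd : DifferentiableOn ℂ Z {ζ | ‖ζ‖ < a ∧ 0 < ζ.im}) (hZ0 : Z 0 = 0) {ρ : ℂ → ℂ}
    (hρc : ContinuousOn ρ {ζ | ‖ζ‖ < a ∧ 0 ≤ ζ.im})
    (hρd : DifferentiableOn ℂ ρ {ζ | ‖ζ‖ < a ∧ 0 < ζ.im})
    (hρ : ∀ x : ℝ, |x| < a → ρ x = (((2 * (b * Z x).re) ^ 2 : ℝ) : ℂ)) :
    ∃ ε : ℝ, 0 < ε ∧ ε ≤ a ∧ ∃ A₁ A₂ X : ℂ → ℂ, AnalyticAt ℂ A₁ 0 ∧ AnalyticAt ℂ A₂ 0 ∧
      (∀ ζ, ‖ζ‖ < ε → -I * ζ ∈ Complex.slitPlane →
        HasDerivAt X (A₁ ζ + A₂ ζ * Lg ζ) ζ ∧ AnalyticAt ℂ X ζ) ∧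
      (∀ ζ, ‖ζ‖ < ε → 0 ≤ ζ.im → X ζ = Z ζ) := by
  obtain ⟨H, hH, hHρ⟩ := refl hρc hρd (fun x hx => by rw [hρ x hx, Complex.ofReal_im])
  have hHa : AnalyticAt ℂ H 0 := hH.analyticAt (isOpen_ball.mem_nhds (mem_ball_self ha))
  have hofr : ∀ x : ℝ, |x| < a → ((x : ℂ) ∈ {ζ : ℂ | ‖ζ‖ < a ∧ 0 ≤ ζ.im}) := by
    intro x hx
    exact ⟨by simpa using hx, by simp⟩
  obtain ⟨q, hqa, hq0, s₁, s₂, ε, hε, hεa, hqr, hs₁, hs₂⟩ := factor hHa (r := fun x : ℝ => 2 * (b * Z x).re) ha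
    (by
      apply continuousOn_const.mul
      apply Complex.continuous_re.comp_continuousOn
      apply continuousOn_const.mul
      apply hZc.comp Complex.continuous_ofReal.continuousOn
      intro x hx
      exact hofr x (abs_lt.2 hx))
    (by simp [hZ0])
    (fun x hx => by rw [hHρ x (by simpa using hx) (by simp), hρ x hx])
  -- shrink
  obtain ⟨ε₁, hε₁, hqan⟩ := Metric.eventually_nhds_iff.1 hqa.eventually_analyticAt
  set δ := min ε ε₁ with hδ
  have hδ0 : 0 < δ := lt_min hε hε₁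
  have hδε : δ ≤ ε := min_le_left _ _
  have hδa : δ ≤ a := hδε.trans hεa
  have hqan' : ∀ ζ, ‖ζ‖ < δ → AnalyticAt ℂ q ζ := fun ζ hζ =>
    hqan (by simpa using lt_of_lt_of_le hζ (min_le_right _ _))
  set A : ℝ := (s₁ - s₂) / Real.pi with hA
  set K : ℂ → ℂ := fun ζ => q ζ * (s₁ + I * A * Lg ζ) with hK
  have hK0 : K 0 = 0 := by simp [hK, hq0]
  have hKt : ContinuousAt K 0 := by
    rw [ContinuousAt, hK0]
    have h1 := (hqa.continuousAt.tendsto.mul_const (s₁ : ℂ)).add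
      ((tendsto_mul_Lg hqa hq0).const_mul (I * A))
    rw [hq0, zero_mul, mul_zero, add_zero] at h1
    apply h1.congr
    intro ζ
    simp only [hK]; ring
  have hKan : ∀ ζ, ‖ζ‖ < δ → -I * ζ ∈ Complex.slitPlane → AnalyticAt ℂ K ζ := by
    intro ζ hζ hs
    exact (hqan' ζ hζ).mul (analyticAt_const.add (analyticAt_const.mul (analyticAt_Lg hs)))
  -- the function `I * T`
  set T : ℂ → ℂ := fun ζ => I * (2 * b * Z ζ - K ζ) with hT
  have hTc : ContinuousOn T {ζ | ‖ζ‖ < δ ∧ 0 ≤ ζ.im} := by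
    apply continuousOn_const.mul
    apply ContinuousOn.sub
    · apply continuousOn_const.mul
      apply hZc.mono
      intro ζ hζ
      exact ⟨lt_of_lt_of_le hζ.1 hδa, hζ.2⟩
    · intro ζ hζ
      by_cases h0 : ζ = 0
      · rw [h0]; exact hKt.continuousWithinAt
      · exact (hKan ζ hζ.1 (slit_of_im_nonneg hζ.2 h0)).continuousAt.continuousWithinAt
  have hTd : DifferentiableOn ℂ T {ζ | ‖ζ‖ < δ ∧ 0 < ζ.im} := by
    apply DifferentiableOn.const_mul
    apply DifferentiableOn.sub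
    · apply DifferentiableOn.const_mul
      apply hZd.mono
      intro ζ hζ
      exact ⟨lt_of_lt_of_le hζ.1 hδa, hζ.2⟩
    · intro ζ hζ
      have h0 : ζ ≠ 0 := by
        rintro rfl
        have := hζ.2
        simp at this
      exact (hKan ζ hζ.1 (slit_of_im_nonneg hζ.2.le h0)).differentiableAt.differentiableWithinAt
  have hTr : ∀ x : ℝ, |x| < δ → (T x).im = 0 := by
    intro x hx
    have hxε : |x| < ε := lt_of_lt_of_le hx hδε
    have e0 : (T x).im = 2 * (b * Z x).re - (K x).re := by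
      simp only [hT]
      have : ∀ w : ℂ, (I * w).im = w.re := by intro w; simp
      rw [this, Complex.sub_re]
      congr 1
      have : (2 : ℂ) * b * Z x = ((2 : ℝ) : ℂ) * (b * Z x) := by push_cast; ring
      rw [this, Complex.re_ofReal_mul]
    rw [e0]
    have hq' : q x = ((q x).re : ℂ) := Complex.ext (by simp) (by simp [hqr x hxε])
    rcases lt_trichotomy x 0 with h0 | h0 | h0
    · have h1 := hs₂ x (by linarith [(abs_lt.1 hxε).1]) h0
      rw [h1]
      have e1 : K x = (((q x).re * s₂ : ℝ) : ℂ) + ((q x).re * A * Real.log (-x) : ℝ) * I := by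
        simp only [hK]
        rw [Lg_neg h0]
        rw [hq']
        have hpi : (Real.pi : ℂ) ≠ 0 := by exact_mod_cast Real.pi_ne_zero
        have hAc : (A : ℂ) * Real.pi = s₁ - s₂ := by
          rw [hA]; push_cast; field_simp
        have hII := Complex.I_mul_I
        simp only [Complex.ofReal_re]
        push_cast
        linear_combination ((q x).re : ℂ) * (A : ℂ) * (Real.pi : ℂ) * hII - ((q x).re : ℂ) * hAc
      rw [e1]
      simp
      ring
    · rw [h0]; simp [hZ0, hK0]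
    · have h1 := hs₁ x h0 (abs_lt.1 hxε).2
      rw [h1]
      have e1 : K x = (((q x).re * s₁ : ℝ) : ℂ) + ((q x).re * A * Real.log x : ℝ) * I := by
        simp only [hK]
        rw [Lg_pos h0, hq']
        simp only [Complex.ofReal_re]
        push_cast
        ring
      rw [e1]
      simp
      ring
  obtain ⟨G, hG, hGT⟩ := refl hTc hTd hTr
  have hGa : ∀ ζ, ‖ζ‖ < δ → AnalyticAt ℂ G ζ := fun ζ hζ =>
    hG.analyticAt (isOpen_ball.mem_nhds (by simpa using hζ))
  have h00 : ‖(0 : ℂ)‖ < δ := by simpa using hδ0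
  refine ⟨δ, hδ0, hδa, fun ζ => (2 * b)⁻¹ * (-I * deriv G ζ + s₁ * deriv q ζ + I * A * dslope q 0 ζ),
    fun ζ => (2 * b)⁻¹ * (I * A * deriv q ζ), fun ζ => (2 * b)⁻¹ * (-I * G ζ + K ζ), ?_, ?_, ?_, ?_⟩
  · apply analyticAt_const.mul
    apply AnalyticAt.add
    · exact (analyticAt_const.mul (hGa 0 h00).deriv).add (analyticAt_const.mul (hqa.deriv))
    · apply analyticAt_const.mul
      have h1 : DifferentiableOn ℂ (dslope q 0) (ball 0 δ) := by
        rw [Complex.differentiableOn_dslope (isOpen_ball.mem_nhds (mem_ball_self hδ0))]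
        intro ζ hζ
        exact (hqan' ζ (by simpa using hζ)).differentiableAt.differentiableWithinAt
      exact h1.analyticAt (isOpen_ball.mem_nhds (mem_ball_self hδ0))
  · exact analyticAt_const.mul (analyticAt_const.mul hqa.deriv)
  · intro ζ hζ hs
    have h0 : ζ ≠ 0 := by
      rintro rfl
      simp at hs
    refine ⟨?_, analyticAt_const.mul ((analyticAt_const.mul (hGa ζ hζ)).add (hKan ζ hζ hs))⟩
    have h1 : HasDerivAt K (deriv q ζ * (s₁ + I * A * Lg ζ) + q ζ * (I * A * ζ⁻¹)) ζ := by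
      apply (hqan' ζ hζ).differentiableAt.hasDerivAt.mul
      exact ((hasDerivAt_Lg hs).const_mul (I * A)).const_add _
    have h2 := (((hGa ζ hζ).differentiableAt.hasDerivAt.const_mul (-I)).add h1).const_mul (2 * b)⁻¹
    refine h2.congr_deriv ?_
    have e1 : dslope q 0 ζ = ζ⁻¹ * q ζ := by
      rw [dslope_of_ne _ h0, slope_def_field, hq0, sub_zero, sub_zero]
      field_simp
    simp only [e1]
    ring
  · intro ζ hζ him
    have h1 := hGT ζ hζ him
    simp only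
    rw [h1]
    simp only [hT]
    have hII := Complex.I_mul_I
    have : (2 * b)⁻¹ * (-I * (I * (2 * b * Z ζ - K ζ)) + K ζ) = (2 * b)⁻¹ * (2 * b * Z ζ) := by
      congr 1
      linear_combination (-(2 * b * Z ζ - K ζ)) * hII
    rw [this]
    field_simp

end Pool.Agent.H18R3
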