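import Pool.Agent.H18R3.Core
set_option autoImplicit false
open Complex Metric Set Filter Topology
open scoped ComplexConjugate

namespace Pool.Agent.H18R3

theorem tendsto_log_abs : Tendsto (fun x : ℝ => -Real.log |x|) (𝓝[≠] 0) atTop := by
  have h1 : Tendsto (fun x : ℝ => Real.log x) (𝓝[≠] 0) atBot := Real.tendsto_log_nhdsNE_zero
  have h2 : Tendsto (fun x : ℝ => -Real.log x) (𝓝[≠] 0) atTop := tendsto_neg_atBot_atTop.comp h1
  apply h2.congr
  intro x
  rw [Real.log_abs]

/-- `x ↦ Lg x` for real `x ≠ 0` -/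
theorem Lg_real {x : ℝ} (hx : x ≠ 0) : ∃ θ : ℝ, 0 ≤ θ ∧ θ ≤ Real.pi ∧
    Lg x = Real.log |x| + θ * I := by
  rcases lt_or_gt_of_ne hx with h | h
  · exact ⟨Real.pi, Real.pi_pos.le, le_rfl, by rw [Lg_neg h, abs_of_neg h]⟩
  · exact ⟨0, le_rfl, Real.pi_pos.le, by rw [Lg_pos h, abs_of_pos h]; simp⟩

theorem coreLim {A₁ A₂ : ℂ → ℂ} (h₁ : AnalyticAt ℂ A₁ 0) (h₂ : AnalyticAt ℂ A₂ 0)
    {c κ : ℝ} (hc : 0 < c) (hκ : κ < 1)
    (hlow : ∀ᶠ y : ℝ in 𝓝[>] 0, c * y ^ κ ≤ ‖A₁ (y * I) + A₂ (y * I) * Lg (y * I)‖) :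
    ∃ v : ℂ, v ≠ 0 ∧ ∃ μ : ℝ → ℝ, (∀ᶠ x in 𝓝[≠] 0, 0 < μ x) ∧
      Tendsto (fun x : ℝ => (A₁ x + A₂ x * Lg x) / (μ x : ℂ)) (𝓝[≠] 0) (𝓝 v) := by
  have hof : Tendsto (fun x : ℝ => (x : ℂ)) (𝓝[≠] 0) (𝓝 0) := by
    have := Complex.continuous_ofReal.tendsto 0
    simp only [Complex.ofReal_zero] at this
    exact this.mono_left nhdsWithin_le_nhds
  by_cases hA : A₂ 0 = 0
  · refine ⟨A₁ 0, ?_, fun _ => 1, by simp, ?_⟩
    · -- lower bound argument
      intro hA1
      have hO1 : A₁ =O[𝓝 0] fun ζ => ζ := by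
        have := h₁.differentiableAt.isBigO_sub
        simpa [hA1] using this
      have hO2 : A₂ =O[𝓝 0] fun ζ => ζ := by
        have := h₂.differentiableAt.isBigO_sub
        simpa [hA] using this
      obtain ⟨C1, hC1⟩ := hO1.bound
      obtain ⟨C2, hC2⟩ := hO2.bound
      have hofI : Tendsto (fun y : ℝ => (y : ℂ) * I) (𝓝[>] 0) (𝓝 0) := by
        have h3 : Continuous (fun y : ℝ => (y : ℂ) * I) := by fun_prop
        have := h3.tendsto 0
        simp only [Complex.ofReal_zero, zero_mul] at this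
        exact this.mono_left nhdsWithin_le_nhds
      have hb : ∀ᶠ y : ℝ in 𝓝[>] 0, c ≤ |C1| * y ^ (1 - κ) +
          |C2| * (y ^ (1 - κ) * (|Real.log y| + 2 * Real.pi)) := by
        filter_upwards [hlow, hofI.eventually hC1, hofI.eventually hC2, self_mem_nhdsWithin]
          with y hy h3 h4 hy0
        have hy0' : (0 : ℝ) < y := hy0
        have hn : ‖(y : ℂ) * I‖ = y := by
          rw [norm_mul, Complex.norm_I, mul_one, Complex.norm_real, Real.norm_of_nonneg hy0'.le]
        rw [hn] at h3 h4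
        have h5 := norm_Lg_le ((y : ℂ) * I)
        rw [hn] at h5
        have h6 : ‖A₁ (y * I) + A₂ (y * I) * Lg (y * I)‖ ≤
            |C1| * y + |C2| * y * (|Real.log y| + 2 * Real.pi) := by
          refine (norm_add_le _ _).trans ?_
          rw [norm_mul]
          apply add_le_add
          · exact h3.trans (mul_le_mul_of_nonneg_right (le_abs_self _) hy0'.le)
          · apply mul_le_mul _ h5 (norm_nonneg _) (by positivity)
            exact h4.trans (mul_le_mul_of_nonneg_right (le_abs_self _) hy0'.le)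
        have h7 := hy.trans h6
        have h8 : y = y ^ κ * y ^ (1 - κ) := by
          rw [← Real.rpow_add hy0']; simp
        have h9 : 0 < y ^ κ := Real.rpow_pos_of_pos hy0' κ
        have h10 : y ^ κ * c ≤ y ^ κ * (|C1| * y ^ (1 - κ) +
            |C2| * (y ^ (1 - κ) * (|Real.log y| + 2 * Real.pi))) := by
          calc y ^ κ * c = c * y ^ κ := by ring
            _ ≤ |C1| * y + |C2| * y * (|Real.log y| + 2 * Real.pi) := h7
            _ = |C1| * (y ^ κ * y ^ (1 - κ)) + |C2| * (y ^ κ * y ^ (1 - κ)) *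
                (|Real.log y| + 2 * Real.pi) := by rw [← h8]
            _ = _ := by ring
        exact le_of_mul_le_mul_left h10 h9
      have hk : 0 < 1 - κ := by linarith
      have ht1 : Tendsto (fun y : ℝ => y ^ (1 - κ)) (𝓝[>] 0) (𝓝 0) := by
        have : ContinuousAt (fun s : ℝ => s ^ (1 - κ)) 0 :=
          Real.continuousAt_rpow_const _ _ (Or.inr hk.le)
        have h5 := this.tendsto
        simp only [Real.zero_rpow hk.ne'] at h5
        exact h5.mono_left nhdsWithin_le_nhds
      have ht2 : Tendsto (fun y : ℝ => y ^ (1 - κ) * (|Real.log y| + 2 * Real.pi))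
          (𝓝[>] 0) (𝓝 0) := by
        have h5 := (tendsto_log_mul_rpow_nhdsGT_zero hk).abs
        have h6 := h5.add (ht1.mul_const (2 * Real.pi))
        simp only [abs_zero, zero_mul, add_zero] at h6
        apply h6.congr'
        filter_upwards [self_mem_nhdsWithin] with y hy
        have hy' : (0 : ℝ) < y := hy
        rw [abs_mul, abs_of_nonneg (Real.rpow_nonneg hy'.le _)]
        ring
      have ht := (ht1.const_mul |C1|).add (ht2.const_mul |C2|)
      simp only [mul_zero, add_zero] at ht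
      have := ge_of_tendsto ht hb
      linarith
    · have h3 := (h₁.continuousAt.tendsto.comp hof).add ((tendsto_mul_Lg h₂ hA).comp hof)
      simp only [add_zero, Function.comp_def] at h3
      simpa using h3
  · refine ⟨-A₂ 0, neg_ne_zero.2 hA, fun x => -Real.log |x|, tendsto_log_abs.eventually_gt_atTop 0, ?_⟩
    have hinv : Tendsto (fun x : ℝ => ((-Real.log |x| : ℝ) : ℂ)⁻¹) (𝓝[≠] 0) (𝓝 0) := by
      have h3 := (tendsto_inv_atTop_zero.comp tendsto_log_abs)
      have h4 := (Complex.continuous_ofReal.tendsto 0).comp h3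
      simp only [Complex.ofReal_zero] at h4
      apply h4.congr
      intro x
      simp [Function.comp]
    have hL : Tendsto (fun x : ℝ => Lg x * ((-Real.log |x| : ℝ) : ℂ)⁻¹) (𝓝[≠] 0) (𝓝 (-1)) := by
      have h3 : Tendsto (fun x : ℝ => Lg x * ((-Real.log |x| : ℝ) : ℂ)⁻¹ + 1) (𝓝[≠] 0) (𝓝 0) := by
        rw [tendsto_zero_iff_norm_tendsto_zero]
        have h4 := hinv.norm.const_mul Real.pi
        simp only [norm_zero, mul_zero] at h4
        apply squeeze_zero' (Eventually.of_forall fun _ => norm_nonneg _) _ h4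
        filter_upwards [self_mem_nhdsWithin, tendsto_log_abs.eventually_gt_atTop 0] with x hx hx2
        obtain ⟨θ, h5, h6, h7⟩ := Lg_real (x := x) hx
        have h8 : ((-Real.log |x| : ℝ) : ℂ) ≠ 0 := by exact_mod_cast hx2.ne'
        have e : Lg x * ((-Real.log |x| : ℝ) : ℂ)⁻¹ + 1 = θ * I * ((-Real.log |x| : ℝ) : ℂ)⁻¹ := by
          rw [h7]
          field_simp
          push_cast
          ring
        rw [e, norm_mul, norm_mul, Complex.norm_I, mul_one, Complex.norm_real,
          Real.norm_of_nonneg h5]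
        exact mul_le_mul_of_nonneg_right h6 (norm_nonneg _)
      have h4 := h3.sub_const 1
      simp only [add_sub_cancel_right, zero_sub] at h4
      exact h4
    have h3 := ((h₁.continuousAt.tendsto.comp hof).mul hinv).add
      ((h₂.continuousAt.tendsto.comp hof).mul hL)
    simp only [mul_zero, zero_add, mul_neg, mul_one] at h3
    apply h3.congr
    intro x
    simp only [Function.comp]
    rw [div_eq_mul_inv]
    ring

end Pool.Agent.H18R3
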