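import Pool.Agent.H18R3.Profile
set_option autoImplicit false
open Complex Metric Set Filter Topology

namespace Pool.Agent.H18R3

/-- the Riemann map of a domain star-shaped with respect to a ball -/
def StarB : Prop := ∀ (U : Set ℂ), IsOpen U → Bornology.IsBounded U → ∀ (z₁ : ℂ) (δ : ℝ),
    0 < δ → ball z₁ δ ⊆ U → (∀ z₂ ∈ ball z₁ δ, StarConvex ℝ z₂ U) →
    ∃ (g : ℂ → ℂ) (κ c : ℝ), 0 < κ ∧ κ < 1 ∧ 0 < c ∧
      ContinuousOn g (closedBall 0 1) ∧ DifferentiableOn ℂ g (ball 0 1) ∧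
      g '' ball 0 1 = U ∧ g '' sphere 0 1 = frontier U ∧
      ∀ w ∈ ball (0 : ℂ) 1, c * (1 - ‖w‖) ^ κ ≤ ‖deriv g w‖

theorem abs_le_norm {y : ℂ} {h : ℝ} (hy : ‖y‖ < h) : |y.re| < h ∧ |y.im| < h :=
  ⟨lt_of_le_of_lt (Complex.abs_re_le_norm y) hy, lt_of_le_of_lt (Complex.abs_im_le_norm y) hy⟩

theorem localC1 (HB : StarB) {f : ℝ → ℝ} {K : NNReal} (hf : LipschitzWith K f) (hf0 : f 0 = 0)
    {r : ℝ} (hr : 0 < r) {b : ℂ} (hb : b ≠ 0) {Q : ℂ → ℂ} (hQc : ContinuousOn Q (ball 0 r))
    (hQd : DifferentiableOn ℂ Q {y | ‖y‖ < r ∧ f y.re < y.im})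
    (hQ : ∀ y : ℂ, ‖y‖ < r → y.im = f y.re → Q y = (((2 * (b * y).re) ^ 2 : ℝ) : ℂ)) :
    ∃ ε : ℝ, 0 < ε ∧ ContDiffOn ℝ 1 f (Ioo (-ε) ε) := by
  set L : ℝ := max K 1 with hL
  have hL1 : 1 ≤ L := le_max_right _ _
  have hfL : ∀ s t : ℝ, |f s - f t| ≤ L * |s - t| := by
    intro s t
    have := hf.dist_le_mul s t
    rw [Real.dist_eq, Real.dist_eq] at this
    exact this.trans (mul_le_mul_of_nonneg_right (le_max_left _ _) (abs_nonneg _))
  have hfL0 : ∀ s : ℝ, |f s| ≤ L * |s| := by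
    intro s
    have := hfL s 0
    rwa [hf0, sub_zero, sub_zero] at this
  set h : ℝ := r / (8 * L) with hh
  have hh0 : 0 < h := by positivity
  have hhr : 8 * L * h = r := by rw [hh]; field_simp
  have hLh : h ≤ L * h := le_mul_of_one_le_left hh0.le hL1
  have hhr' : h < r := by nlinarith
  set U : Set ℂ := {y | |y.re| < h ∧ f y.re < y.im ∧ y.im < 6 * (L * h)} with hU
  have hUo : IsOpen U := by
    apply (isOpen_lt (continuous_abs.comp Complex.continuous_re) continuous_const).inter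
    apply (isOpen_lt (hf.continuous.comp Complex.continuous_re) Complex.continuous_im).inter
    exact isOpen_lt Complex.continuous_im continuous_const
  have hfb : ∀ s : ℝ, |s| < h → |f s| ≤ L * h := fun s hs =>
    (hfL0 s).trans (mul_le_mul_of_nonneg_left hs.le (by linarith))
  have hUn : ∀ y ∈ U, ‖y‖ < r := by
    rintro y ⟨h1, h2, h3⟩
    have h4 := abs_le.1 (hfb y.re h1)
    have h5 : |y.im| ≤ 6 * (L * h) := abs_le.2 ⟨by linarith, h3.le⟩
    have := Complex.norm_le_abs_re_add_abs_im y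
    linarith
  have hUb : Bornology.IsBounded U := by
    apply (isBounded_ball (x := (0 : ℂ)) (r := r)).subset
    intro y hy
    simpa using hUn y hy
  set z₁ : ℂ := (5 * (L * h) : ℝ) * I with hz₁
  have hz1re : z₁.re = 0 := by simp [hz₁]
  have hz1im : z₁.im = 5 * (L * h) := by simp [hz₁]
  have hball : ∀ z ∈ ball z₁ (h / 2), |z.re| < h / 2 ∧ 9 / 2 * (L * h) < z.im ∧
      z.im < 11 / 2 * (L * h) := by
    intro z hz
    rw [mem_ball, dist_eq_norm] at hz
    have h1 := abs_le_norm hz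
    rw [Complex.sub_re, Complex.sub_im, hz1re, hz1im, sub_zero] at h1
    have h2 := abs_lt.1 h1.2
    exact ⟨h1.1, by linarith, by linarith⟩
  have hsub : ball z₁ (h / 2) ⊆ U := by
    intro z hz
    obtain ⟨h1, h2, h3⟩ := hball z hz
    have h4 := abs_le.1 (hfb z.re (by linarith))
    exact ⟨by linarith, by linarith, by linarith⟩
  have hstar : ∀ z₂ ∈ ball z₁ (h / 2), StarConvex ℝ z₂ U := by
    intro z₂ hz₂ y hy s t hs ht hst
    obtain ⟨h1, h2, h3⟩ := hball z₂ hz₂
    obtain ⟨y1, y2, y3⟩ := hy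
    have ere : (s • z₂ + t • y).re = s * z₂.re + t * y.re := by simp
    have eim : (s • z₂ + t • y).im = s * z₂.im + t * y.im := by simp
    have a1 := abs_lt.1 h1
    have a2 := abs_lt.1 y1
    have hs1 : s = 1 - t := by linarith
    have ht1 : t ≤ 1 := by linarith
    have hpre : |s * z₂.re + t * y.re| < h := by
      rw [abs_lt]
      constructor <;> nlinarith
    refine ⟨by rw [ere]; exact hpre, ?_, ?_⟩
    · rw [ere, eim]
      by_cases hy2 : y.im ≤ 2 * (L * h)
      · -- low point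
        have hfp := hfL (s * z₂.re + t * y.re) y.re
        have e1 : s * z₂.re + t * y.re - y.re = s * (z₂.re - y.re) := by rw [hs1]; ring
        rw [e1, abs_mul, abs_of_nonneg hs] at hfp
        have hd : |z₂.re - y.re| ≤ 2 * h := by
          rw [abs_le]; constructor <;> linarith
        have h5 : L * (s * |z₂.re - y.re|) ≤ s * (2 * (L * h)) := by
          have : L * (s * |z₂.re - y.re|) = s * (L * |z₂.re - y.re|) := by ring
          rw [this]
          apply mul_le_mul_of_nonneg_left _ hs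
          nlinarith
        have h6 := (abs_le.1 hfp).2
        have h7 : s * (2 * (L * h)) ≤ s * (z₂.im - y.im) :=
          mul_le_mul_of_nonneg_left (by linarith) hs
        have h8 : s * z₂.im + t * y.im = y.im + s * (z₂.im - y.im) := by
          have : t = 1 - s := by linarith
          rw [this]; ring
        rw [h8]
        linarith
      · push Not at hy2
        have h5 := (abs_le.1 (hfb _ hpre)).2
        have hLh0 : 0 < L * h := by positivity
        have h6 : 2 * (L * h) ≤ s * z₂.im + t * y.im := by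
          have e : 2 * (L * h) = s * (2 * (L * h)) + t * (2 * (L * h)) := by
            rw [← add_mul, hst, one_mul]
          rw [e]
          exact add_le_add (mul_le_mul_of_nonneg_left (by linarith) hs)
            (mul_le_mul_of_nonneg_left hy2.le ht)
        linarith
    · rw [eim]
      have hLh0 : 0 < L * h := by positivity
      rcases hs.eq_or_lt with h0 | h0
      · have : t = 1 := by linarith
        rw [← h0, this]; linarith
      · have h6 : s * z₂.im < s * (6 * (L * h)) := mul_lt_mul_of_pos_left (by linarith) h0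
        have h7 : t * y.im ≤ t * (6 * (L * h)) := mul_le_mul_of_nonneg_left y3.le ht
        have e : 6 * (L * h) = s * (6 * (L * h)) + t * (6 * (L * h)) := by
          rw [← add_mul, hst, one_mul]
        linarith
  -- frontier
  have hclo : ∀ y ∈ closure U, f y.re ≤ y.im := by
    have hcl : IsClosed {y : ℂ | f y.re ≤ y.im} :=
      isClosed_le (hf.continuous.comp Complex.continuous_re) Complex.continuous_im
    exact fun y hy => closure_minimal (fun y (hy : y ∈ U) => hy.2.1.le) hcl hy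
  have hfront : ∀ y ∈ frontier U, ‖y‖ < h → y.im = f y.re := by
    intro y hy hyh
    rw [hUo.frontier_eq] at hy
    have h1 := hclo y hy.1
    apply le_antisymm _ h1
    by_contra hcon
    push Not at hcon
    apply hy.2
    refine ⟨(abs_le_norm hyh).1, hcon, ?_⟩
    have := (abs_lt.1 (abs_le_norm hyh).2).2
    have hLh0 : 0 < L * h := by positivity
    linarith
  have h0f : (0 : ℂ) ∈ frontier U := by
    rw [hUo.frontier_eq]
    constructor
    · have h1 : Tendsto (fun ε : ℝ => (ε : ℂ) * I) (𝓝[>] 0) (𝓝 0) := by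
        have h3 : Continuous (fun y : ℝ => (y : ℂ) * I) := by fun_prop
        have := h3.tendsto 0
        simp only [Complex.ofReal_zero, zero_mul] at this
        exact this.mono_left nhdsWithin_le_nhds
      apply mem_closure_of_tendsto h1
      filter_upwards [Ioo_mem_nhdsGT hh0] with ε hε
      have hLh0 : 0 < L * h := by positivity
      refine ⟨?_, ?_, ?_⟩
      · simpa using hh0
      · have e1 : ((ε : ℂ) * I).re = 0 := by simp
        have e2 : ((ε : ℂ) * I).im = ε := by simp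
        rw [e1, e2, hf0]; exact hε.1
      · have e2 : ((ε : ℂ) * I).im = ε := by simp
        rw [e2]; linarith [hε.2]
    · rintro ⟨_, h2, _⟩
      simp [hf0] at h2
  obtain ⟨g, κ, c, hκ0, hκ1, hc, hgc, hgd, hgU, hgF, hgl⟩ :=
    HB U hUo hUb z₁ (h / 2) (by positivity) hsub hstar
  obtain ⟨w₀, hw₀, hgw₀⟩ : ∃ w₀ ∈ sphere (0 : ℂ) 1, g w₀ = 0 := by
    rw [← hgF] at h0f; exact h0f
  have hw₀n : ‖w₀‖ = 1 := by simpa using hw₀
  set E : ℂ → ℂ := fun ζ => w₀ * Complex.exp (I * ζ) with hE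
  have hEn : ∀ ζ, ‖E ζ‖ = Real.exp (-ζ.im) := by
    intro ζ
    rw [hE, norm_mul, hw₀n, one_mul, Complex.norm_exp]
    congr 1
    simp
  have hEd : ∀ ζ, HasDerivAt E (w₀ * (Complex.exp (I * ζ) * I)) ζ := by
    intro ζ
    have h1 := ((hasDerivAt_id ζ).const_mul I).cexp.const_mul w₀
    simpa using h1
  set Z : ℂ → ℂ := fun ζ => g (E ζ) with hZ
  have hEc : ∀ ζ : ℂ, 0 ≤ ζ.im → E ζ ∈ closedBall (0 : ℂ) 1 := by
    intro ζ hζ
    rw [mem_closedBall_zero_iff, hEn]
    exact Real.exp_le_one_iff.2 (by linarith)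
  have hEo : ∀ ζ : ℂ, 0 < ζ.im → E ζ ∈ ball (0 : ℂ) 1 := by
    intro ζ hζ
    rw [mem_ball_zero_iff, hEn, ← Real.exp_zero]
    exact Real.exp_lt_exp.2 (by linarith)
  have hEcont : Continuous E := continuous_iff_continuousAt.2 fun ζ => (hEd ζ).continuousAt
  have hZcc : ContinuousOn Z {ζ : ℂ | 0 ≤ ζ.im} :=
    hgc.comp hEcont.continuousOn (fun ζ hζ => hEc ζ hζ)
  have hZ0 : Z 0 = 0 := by simp [hZ, hE, hgw₀]
  have hnear : ∀ᶠ ζ in 𝓝[{ζ : ℂ | 0 ≤ ζ.im}] 0, ‖Z ζ‖ < h := by
    have h1 := (hZcc 0 (by simp)).tendsto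
    rw [hZ0] at h1
    have h2 := h1.norm
    rw [norm_zero] at h2
    exact h2.eventually (gt_mem_nhds hh0)
  rw [eventually_nhdsWithin_iff] at hnear
  obtain ⟨a, ha, ha2⟩ := Metric.eventually_nhds_iff.1 hnear
  have hZh : ∀ ζ : ℂ, ‖ζ‖ < a → 0 ≤ ζ.im → ‖Z ζ‖ < h := fun ζ h1 h2 =>
    ha2 (y := ζ) (by simpa using h1) h2
  have hZU : ∀ ζ : ℂ, 0 < ζ.im → Z ζ ∈ U := by
    intro ζ hζ
    rw [← hgU]
    exact ⟨E ζ, hEo ζ hζ, rfl⟩
  have hZd : ∀ ζ : ℂ, 0 < ζ.im → HasDerivAt Z (deriv g (E ζ) * (w₀ * (Complex.exp (I * ζ) * I))) ζ := by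
    intro ζ hζ
    have h1 : HasDerivAt g (deriv g (E ζ)) (E ζ) :=
      (hgd.differentiableAt (isOpen_ball.mem_nhds (hEo ζ hζ))).hasDerivAt
    exact h1.comp ζ (hEd ζ)
  have hZF : ∀ x : ℝ, |x| < a → (Z x).im = f (Z x).re := by
    intro x hx
    apply hfront
    · rw [← hgF]
      refine ⟨E x, ?_, rfl⟩
      rw [mem_sphere_zero_iff_norm, hEn]
      simp
    · exact hZh x (by simpa using hx) (by simp)
  apply profileC1 (Z := Z) (ρ := fun ζ => Q (Z ζ)) (c := c * (1 / 2) ^ κ * Real.exp (-1)) (κ := κ)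
    ha hb
  · exact hZcc.mono fun ζ hζ => hζ.2
  · intro ζ hζ
    exact (hZd ζ hζ.2).differentiableAt.differentiableWithinAt
  · exact hZ0
  · apply hQc.comp (hZcc.mono fun ζ hζ => hζ.2)
    intro ζ hζ
    rw [mem_ball_zero_iff]
    exact (hZh ζ hζ.1 hζ.2).trans hhr'
  · intro ζ hζ
    have h1 : DifferentiableAt ℂ Q (Z ζ) := by
      apply hQd.differentiableAt
      apply IsOpen.mem_nhds
      · exact (isOpen_lt continuous_norm continuous_const).inter
          (isOpen_lt (hf.continuous.comp Complex.continuous_re) Complex.continuous_im)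
      · exact ⟨hUn _ (hZU ζ hζ.2), (hZU ζ hζ.2).2.1⟩
    exact (h1.comp ζ (hZd ζ hζ.2).differentiableAt).differentiableWithinAt
  · intro x hx
    apply hQ
    · exact (hZh x (by simpa using hx) (by simp)).trans hhr'
    · exact hZF x hx
  · positivity
  · exact hκ1
  · filter_upwards [Ioo_mem_nhdsGT (show (0 : ℝ) < 1 by norm_num)] with y hy
    have him : ((y : ℂ) * I).im = y := by simp
    rw [(hZd (y * I) (by rw [him]; exact hy.1)).deriv, norm_mul, norm_mul, norm_mul, hw₀n,
      Complex.norm_I, one_mul, mul_one, Complex.norm_exp]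
    have e1 : (I * ((y : ℂ) * I)).re = -y := by
      rw [mul_comm (y : ℂ) I, ← mul_assoc, Complex.I_mul_I]; simp
    rw [e1]
    have h1 := hgl (E (y * I)) (hEo _ (by rw [him]; exact hy.1))
    rw [hEn, him] at h1
    have h2 : y / 2 ≤ 1 - Real.exp (-y) := by
      have h3 : 1 + y ≤ Real.exp y := by linarith [Real.add_one_le_exp y]
      have h4 : Real.exp (-y) ≤ 1 / (1 + y) := by
        rw [Real.exp_neg, ← one_div]
        exact one_div_le_one_div_of_le (by linarith [hy.1]) h3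
      have h5 : y / 2 ≤ 1 - 1 / (1 + y) := by
        have hy1 : 0 < 1 + y := by linarith [hy.1]
        rw [div_le_iff₀ (by norm_num), sub_mul, div_mul_eq_mul_div, le_sub_iff_add_le,
          ← le_sub_iff_add_le', div_le_iff₀ hy1]
        nlinarith [hy.1, hy.2]
      linarith
    have h3 : (1 / 2) ^ κ * y ^ κ ≤ (1 - Real.exp (-y)) ^ κ := by
      rw [← Real.mul_rpow (by norm_num) hy.1.le]
      apply Real.rpow_le_rpow (by linarith [hy.1]) _ hκ0.le
      linarith
    have h4 : Real.exp (-1) ≤ Real.exp (-y) := Real.exp_le_exp.2 (by linarith [hy.2])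
    calc c * (1 / 2) ^ κ * Real.exp (-1) * y ^ κ
        = c * ((1 / 2) ^ κ * y ^ κ) * Real.exp (-1) := by ring
      _ ≤ c * (1 - Real.exp (-y)) ^ κ * Real.exp (-1) :=
          mul_le_mul_of_nonneg_right (mul_le_mul_of_nonneg_left h3 hc.le) (Real.exp_pos _).le
      _ ≤ ‖deriv g (E (y * I))‖ * Real.exp (-y) :=
          mul_le_mul h1 h4 (Real.exp_pos _).le (norm_nonneg _)
  · exact hf
  · exact hZF

end Pool.Agent.H18R3
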