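import Pool.Agent.H18R3.WeylQ
import Pool.Agent.H18R3.LocalC1
import Pool.Agent.H5R3.StarB

/-!
Boundary regularity of Lipschitz free boundaries with right-hand side equal to the first
coordinate.
-/

set_option autoImplicit false
open MeasureTheory Metric Set Filter Topology
open scoped ContDiff InnerProductSpace NNReal

namespace Pool.Agent.H18R3
open Pool.Agent.Helper546

theorem starB_holds : StarB := by
  intro U hU hb z₁ δ hδ hsub hstar
  exact Pool.Agent.H5R3.starB hU hb hδ hsub hstar

/-- extension of a function which is continuously differentiable on a symmetric interval -/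
theorem extendC1 {f : ℝ → ℝ} {ε : ℝ} (hε : 0 < ε) (hf : ContDiffOn ℝ 1 f (Ioo (-ε) ε)) :
    ∃ g : ℝ → ℝ, ContDiff ℝ 1 g ∧ ∀ t, |t| < ε / 2 → g t = f t := by
  set h : ℝ := ε / 2 with hh
  have hh0 : 0 < h := by positivity
  set c : ℝ → ℝ := fun s => max (-h) (min h s) with hc
  have hcc : Continuous c := by fun_prop
  have hcI : ∀ s, c s ∈ Ioo (-ε) ε := by
    intro s
    constructor
    · have : -h ≤ c s := le_max_left _ _
      linarith
    · have : c s ≤ h := max_le (by linarith) (min_le_left _ _)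
      linarith
  have hcid : ∀ s, |s| ≤ h → c s = s := by
    intro s hs
    rw [abs_le] at hs
    simp only [hc]
    rw [min_eq_right hs.2, max_eq_right hs.1]
  have hdc : ContinuousOn (deriv f) (Ioo (-ε) ε) :=
    hf.continuousOn_deriv_of_isOpen isOpen_Ioo le_rfl
  have hdcc : Continuous (fun s => deriv f (c s)) := hdc.comp_continuous hcc hcI
  have hder : ∀ t, HasDerivAt (fun t => f 0 + ∫ s in (0 : ℝ)..t, deriv f (c s))
      (deriv f (c t)) t := by
    intro t
    exact (intervalIntegral.integral_hasDerivAt_right (hdcc.intervalIntegrable _ _)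
      (hdcc.stronglyMeasurableAtFilter _ _) hdcc.continuousAt).const_add _
  refine ⟨fun t => f 0 + ∫ s in (0 : ℝ)..t, deriv f (c s), ?_, ?_⟩
  · rw [contDiff_one_iff_deriv]
    refine ⟨fun t => (hder t).differentiableAt, ?_⟩
    have : deriv (fun t => f 0 + ∫ s in (0 : ℝ)..t, deriv f (c s)) = fun t => deriv f (c t) :=
      funext fun t => (hder t).deriv
    rw [this]
    exact hdcc
  · intro t ht
    have hsub : ∀ s ∈ uIcc 0 t, |s| ≤ h := by
      intro s hs
      have := abs_sub_left_of_mem_uIcc hs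
      simp only [sub_zero] at this
      linarith
    have h1 : ∫ s in (0 : ℝ)..t, deriv f (c s) = ∫ s in (0 : ℝ)..t, deriv f s := by
      refine intervalIntegral.integral_congr fun s hs => ?_
      show deriv f (c s) = deriv f s
      rw [hcid s (hsub s hs)]
    have h2 : ∫ s in (0 : ℝ)..t, deriv f s = f t - f 0 := by
      refine intervalIntegral.integral_eq_sub_of_hasDerivAt (fun s hs => ?_) ?_
      · have hsI : s ∈ Ioo (-ε) ε := by
          have := hsub s hs
          rw [abs_le] at this
          constructor <;> linarith [this.1, this.2]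
        exact ((hf.differentiableOn one_ne_zero).differentiableAt
          (isOpen_Ioo.mem_nhds hsI)).hasDerivAt
      · refine (hdc.mono fun s hs => ?_).intervalIntegrable
        have := hsub s hs
        rw [abs_le] at this
        constructor <;> linarith [this.1, this.2]
    simp only
    rw [h1, h2]; ring

/-- the free boundary regularity theorem in the plane -/
theorem fb_regular (D : Set V) (u : V → ℝ) (hD : IsOpen D) (h0 : (0 : V) ∈ frontier D)
    {r : ℝ} (hr : 0 < r) (R : V ≃ₗᵢ[ℝ] V) {f : ℝ → ℝ} {L : ℝ≥0} (hf : LipschitzWith L f)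
    (hgraph : ∀ x ∈ ball (0 : V) r, (x ∈ D ↔ f ((R x) 0) < (R x) 1))
    (hu : DifferentiableOn ℝ u (ball 0 2))
    (hLip : ∀ s : ℝ, s < 2 → ∃ C : ℝ≥0, LipschitzOnWith C (fderiv ℝ u) (closedBall (0 : V) s))
    (hw : ∀ φ : V → ℝ, ContDiff ℝ 2 φ → HasCompactSupport φ → tsupport φ ⊆ ball (0 : V) 2 →
      ∫ x, u x * lap φ x = ∫ x, x 0 * D.indicator (fun _ => (1 : ℝ)) x * φ x)
    (hout : ∀ x ∈ ball (0 : V) 2, x ∉ closure D → u x = 0) :
    ∃ ρ : ℝ, 0 < ρ ∧ ∃ g : ℝ → ℝ, ContDiff ℝ 1 g ∧ (∀ t, |t| < ρ → g t = f t) ∧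
        ∀ x ∈ ball (0 : V) ρ, (x ∈ D ↔ g ((R x) 0) < (R x) 1) := by
  -- f 0 = 0
  have hRc : ∀ i : Fin 2, Continuous (fun x : V => (R x) i) := fun i =>
    (contDiff_coord i).continuous.comp R.continuous
  have hf0 : f 0 = 0 := by
    have hR0 : ∀ i : Fin 2, (R 0) i = 0 := by intro i; simp
    have h0D : (0 : V) ∉ D := by
      have := h0.2
      rwa [hD.interior_eq] at this
    have h1 : ¬ f 0 < 0 := by
      intro h
      exact h0D ((hgraph 0 (mem_ball_self hr)).2 (by rw [hR0, hR0]; exact h))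
    have h2 : ¬ 0 < f 0 := by
      intro h
      have hopen : IsOpen {x : V | (R x) 1 < f ((R x) 0)} :=
        isOpen_lt (hRc 1) (hf.continuous.comp (hRc 0))
      have hmem : (0 : V) ∈ {x : V | (R x) 1 < f ((R x) 0)} ∩ ball 0 r := by
        refine ⟨?_, mem_ball_self hr⟩
        simp only [mem_ofPred_eq, hR0]; exact h
      have hcl := h0.1
      rw [_root_.mem_closure_iff] at hcl
      obtain ⟨x, hx1, hx2⟩ := hcl _ (hopen.inter isOpen_ball) hmem
      have := (hgraph x hx1.2).1 hx2
      have h3 : (R x) 1 < f ((R x) 0) := hx1.1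
      linarith
    push Not at h1 h2
    linarith
  -- continuity of the gradient
  have hfc : ContinuousOn (fderiv ℝ u) (ball 0 2) := by
    intro x hx
    rw [mem_ball, dist_zero_right] at hx
    obtain ⟨C, hC⟩ := hLip ((‖x‖ + 2) / 2) (by linarith)
    refine ContinuousAt.continuousWithinAt (hC.continuousOn.continuousAt ?_)
    refine mem_of_superset (isOpen_ball.mem_nhds (x := x) ?_) ball_subset_closedBall
    rw [mem_ball, dist_zero_right]; linarith
  -- vanishing gradient on the free boundary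
  have hgz : ∀ x : V, ‖x‖ < min r 2 → (R x) 1 = f ((R x) 0) → fderiv ℝ u x = 0 := by
    intro x hx hxb
    have hxr : ‖x‖ < r := lt_of_lt_of_le hx (min_le_left _ _)
    have hx2 : ‖x‖ < 2 := lt_of_lt_of_le hx (min_le_right _ _)
    have hopen : IsOpen ({y : V | (R y) 1 < f ((R y) 0)} ∩ ball 0 (min r 2)) :=
      (isOpen_lt (hRc 1) (hf.continuous.comp (hRc 0))).inter isOpen_ball
    have hz : ∀ y ∈ {y : V | (R y) 1 < f ((R y) 0)} ∩ ball 0 (min r 2), fderiv ℝ u y = 0 := by
      intro y hy
      have hev : u =ᶠ[𝓝 y] fun _ => 0 := by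
        filter_upwards [hopen.mem_nhds hy] with w hw'
        have hwn : ‖w‖ < min r 2 := by simpa using hw'.2
        refine hout w (by rw [mem_ball, dist_zero_right]; exact lt_of_lt_of_le hwn (min_le_right _ _)) ?_
        intro hcl
        rw [_root_.mem_closure_iff] at hcl
        obtain ⟨q, hq1, hq2⟩ := hcl _ hopen hw'
        have hqn : ‖q‖ < min r 2 := by simpa using hq1.2
        have := (hgraph q (by rw [mem_ball, dist_zero_right];
                              exact lt_of_lt_of_le hqn (min_le_left _ _))).1 hq2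
        have h3 : (R q) 1 < f ((R q) 0) := hq1.1
        linarith
      rw [hev.fderiv_eq]; simp
    have hcl : x ∈ closure ({y : V | (R y) 1 < f ((R y) 0)} ∩ ball 0 (min r 2)) := by
      have hlim : Tendsto (fun t : ℝ => x - t • R.symm (ee 1)) (𝓝[>] 0) (𝓝 x) := by
        have : Tendsto (fun t : ℝ => x - t • R.symm (ee 1)) (𝓝 0) (𝓝 (x - (0 : ℝ) • R.symm (ee 1))) :=
          (Continuous.tendsto (by fun_prop) 0)
        rw [zero_smul, sub_zero] at this
        exact this.mono_left nhdsWithin_le_nhds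
      refine mem_closure_of_tendsto hlim ?_
      have h1 : ∀ᶠ t : ℝ in 𝓝[>] 0, x - t • R.symm (ee 1) ∈ ball (0 : V) (min r 2) :=
        hlim.eventually (isOpen_ball.mem_nhds (by rw [mem_ball, dist_zero_right]; exact hx))
      filter_upwards [h1, self_mem_nhdsWithin] with t ht1 ht2
      refine ⟨?_, ht1⟩
      have ht2' : (0 : ℝ) < t := ht2
      simp only [mem_ofPred_eq, map_sub, map_smul, LinearIsometryEquiv.apply_symm_apply]
      simp [ee]
      linarith
    have hxb2 : x ∈ ball (0 : V) 2 := by rw [mem_ball, dist_zero_right]; exact hx2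
    have hca : ContinuousAt (fderiv ℝ u) x := hfc.continuousAt (isOpen_ball.mem_nhds hxb2)
    have hmc : fderiv ℝ u x ∈ closure ({0} : Set (V →L[ℝ] ℝ)) := by
      refine closure_mono ?_ (hca.continuousWithinAt.mem_closure_image hcl)
      rintro _ ⟨y, hy, rfl⟩
      exact hz y hy
    simpa using hmc
  -- the holomorphic function
  have hQ := QQ_holo hD hu hw
  have hQc : ContinuousOn (QQ u) (EE ⁻¹' (ball 0 2)) := by
    have hdc : ∀ i : Fin 2, ContinuousOn (fun z : ℂ => ((dd i u (EE z) : ℝ) : ℂ))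
        (EE ⁻¹' (ball 0 2)) := by
      intro i
      have h1 : ContinuousOn (dd i u) (ball 0 2) := hfc.clm_apply continuousOn_const
      exact Complex.continuous_ofReal.comp_continuousOn
        (h1.comp EE.continuous.continuousOn (fun z hz => hz))
    have h2 : Continuous (fun z : ℂ => ((4 * z.re ^ 2 : ℝ) : ℂ)) := by fun_prop
    exact h2.continuousOn.sub (continuousOn_const.mul
      ((hdc 0).sub (continuousOn_const.mul (hdc 1))))
  have hQb : ∀ z : ℂ, ‖z‖ < min r 2 → (R (EE z)) 1 = f ((R (EE z)) 0) →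
      QQ u z = (((2 * z.re) ^ 2 : ℝ) : ℂ) := by
    intro z hz hzb
    have := hgz (EE z) (by rw [EE.norm_map]; exact hz) hzb
    simp only [QQ, dd, this]
    push_cast
    simp
    ring
  -- rotation
  obtain ⟨b, hb, Q, hQc', hQd', hQb'⟩ : ∃ b : ℂ, b ≠ 0 ∧ ∃ Q : ℂ → ℂ,
      ContinuousOn Q (ball 0 (min r 2)) ∧
      DifferentiableOn ℂ Q {y | ‖y‖ < min r 2 ∧ f y.re < y.im} ∧
      ∀ y, ‖y‖ < min r 2 → y.im = f y.re → Q y = (((2 * (b * y).re) ^ 2 : ℝ) : ℂ) := by
    obtain ⟨a, ha⟩ := linear_isometry_complex ((EE.trans R).trans EE.symm)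
    have haT : ∀ y : ℂ, ((EE.trans R).trans EE.symm) y = EE.symm (R (EE y)) := fun y => rfl
    have hab : (a : ℂ) * (a : ℂ)⁻¹ = 1 := mul_inv_cancel₀ (Circle.coe_ne_zero a)
    have han : ‖(a : ℂ)⁻¹‖ = 1 := by rw [norm_inv, Circle.norm_coe, inv_one]
    rcases ha with ha | ha
    · -- orientation preserving
      have hRE : ∀ y : ℂ, R (EE ((a : ℂ)⁻¹ * y)) = EE y := by
        intro y
        have h1 := haT ((a : ℂ)⁻¹ * y)
        rw [ha, rotation_apply, ← mul_assoc, hab, one_mul] at h1
        have h2 := congrArg EE h1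
        rw [LinearIsometryEquiv.apply_symm_apply] at h2
        exact h2.symm
      have hnorm : ∀ y : ℂ, ‖(a : ℂ)⁻¹ * y‖ = ‖y‖ := fun y => by rw [norm_mul, han, one_mul]
      have hlin : Differentiable ℂ (fun y : ℂ => (a : ℂ)⁻¹ * y) := by fun_prop
      refine ⟨(a : ℂ)⁻¹, inv_ne_zero (Circle.coe_ne_zero a), fun y => QQ u ((a : ℂ)⁻¹ * y),
        ?_, ?_, ?_⟩
      · refine hQc.comp hlin.continuous.continuousOn ?_
        intro y hy
        rw [mem_ball, dist_zero_right] at hy
        show EE _ ∈ ball (0 : V) 2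
        rw [mem_ball, dist_zero_right, EE.norm_map, hnorm]
        exact lt_of_lt_of_le hy (min_le_right _ _)
      · refine hQ.comp hlin.differentiableOn ?_
        intro y hy
        refine ⟨(hgraph _ ?_).2 ?_, ?_⟩
        · rw [mem_ball, dist_zero_right, EE.norm_map, hnorm]
          exact lt_of_lt_of_le hy.1 (min_le_left _ _)
        · rw [hRE, EE_zero, EE_one]; exact hy.2
        · rw [mem_ball, dist_zero_right, EE.norm_map, hnorm]
          exact lt_of_lt_of_le hy.1 (min_le_right _ _)
      · intro y hy hyb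
        exact hQb _ (by rw [hnorm]; exact hy) (by rw [hRE, EE_zero, EE_one]; exact hyb)
    · -- orientation reversing
      have hRE : ∀ y : ℂ, R (EE ((starRingEnd ℂ) ((a : ℂ)⁻¹ * y))) = EE y := by
        intro y
        have h1 := haT ((starRingEnd ℂ) ((a : ℂ)⁻¹ * y))
        rw [ha, LinearIsometryEquiv.trans_apply, rotation_apply, Complex.conjLIE_apply,
          Complex.conj_conj, ← mul_assoc, hab, one_mul] at h1
        have h2 := congrArg EE h1
        rw [LinearIsometryEquiv.apply_symm_apply] at h2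
        exact h2.symm
      have hnorm : ∀ y : ℂ, ‖(starRingEnd ℂ) ((a : ℂ)⁻¹ * y)‖ = ‖y‖ := fun y => by
        rw [Complex.norm_conj, norm_mul, han, one_mul]
      have hlin : Differentiable ℂ (fun y : ℂ => (a : ℂ)⁻¹ * y) := by fun_prop
      refine ⟨(a : ℂ)⁻¹, inv_ne_zero (Circle.coe_ne_zero a),
        fun y => (starRingEnd ℂ) (QQ u ((starRingEnd ℂ) ((a : ℂ)⁻¹ * y))), ?_, ?_, ?_⟩
      · refine Complex.continuous_conj.comp_continuousOn (hQc.comp
          (Complex.continuous_conj.comp hlin.continuous).continuousOn ?_)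
        intro y hy
        rw [mem_ball, dist_zero_right] at hy
        show EE _ ∈ ball (0 : V) 2
        rw [mem_ball, dist_zero_right, EE.norm_map]
        show ‖(starRingEnd ℂ) ((a : ℂ)⁻¹ * y)‖ < 2
        rw [hnorm]
        exact lt_of_lt_of_le hy (min_le_right _ _)
      · intro y hy
        have hmem : (starRingEnd ℂ) ((a : ℂ)⁻¹ * y) ∈ EE ⁻¹' (D ∩ ball 0 2) := by
          refine ⟨(hgraph _ ?_).2 ?_, ?_⟩
          · rw [mem_ball, dist_zero_right, EE.norm_map, hnorm]
            exact lt_of_lt_of_le hy.1 (min_le_left _ _)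
          · rw [hRE, EE_zero, EE_one]; exact hy.2
          · rw [mem_ball, dist_zero_right, EE.norm_map, hnorm]
            exact lt_of_lt_of_le hy.1 (min_le_right _ _)
        have hop : IsOpen (EE ⁻¹' (D ∩ ball (0 : V) 2)) :=
          (hD.inter isOpen_ball).preimage EE.continuous
        have h1 : DifferentiableAt ℂ (QQ u) ((starRingEnd ℂ) ((a : ℂ)⁻¹ * y)) :=
          hQ.differentiableAt (hop.mem_nhds hmem)
        have h2 : DifferentiableAt ℂ ((starRingEnd ℂ) ∘ (QQ u) ∘ (starRingEnd ℂ))
            ((a : ℂ)⁻¹ * y) := by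
          rw [← Complex.conj_conj ((a : ℂ)⁻¹ * y)]
          exact h1.conj_conj
        exact (h2.comp y (hlin y)).differentiableWithinAt
      · intro y hy hyb
        simp only
        rw [hQb _ (by rw [hnorm]; exact hy) (by rw [hRE, EE_zero, EE_one]; exact hyb),
          Complex.conj_ofReal, Complex.conj_re]
  obtain ⟨ε, hε, hC1⟩ := localC1 starB_holds hf hf0 (by positivity : 0 < min r 2) hb hQc' hQd' hQb'
  obtain ⟨g, hg1, hg2⟩ := extendC1 hε hC1
  refine ⟨min r (ε / 2), by positivity, g, hg1,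
    fun t ht => hg2 t (lt_of_lt_of_le ht (min_le_right _ _)), ?_⟩
  intro x hx
  rw [mem_ball, dist_zero_right] at hx
  have hxr : x ∈ ball (0 : V) r := by
    rw [mem_ball, dist_zero_right]; exact lt_of_lt_of_le hx (min_le_left _ _)
  have h1 : |(R x) 0| < ε / 2 := by
    have h2 : |(R x) 0| ≤ ‖R x‖ := by
      have := norm_sq_V (R x)
      refine abs_le_of_sq_le_sq ?_ (norm_nonneg _)
      nlinarith [sq_nonneg ((R x) 1)]
    rw [R.norm_map] at h2
    exact lt_of_le_of_lt h2 (lt_of_lt_of_le hx (min_le_right _ _))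
  rw [hgraph x hxr, hg2 _ h1]

end Pool.Agent.H18R3
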