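import Mathlib
set_option autoImplicit false
open Metric Set Filter Topology

namespace Pool.Agent.H18R3

theorem deriv_of_param {α β f : ℝ → ℝ} {x : ℝ} (hα : ContDiffAt ℝ 1 α x) (hα' : deriv α x ≠ 0)
    (hβ : ContDiffAt ℝ 1 β x) (hf : ∀ᶠ y in 𝓝 x, f (α y) = β y) :
    ContDiffAt ℝ 1 f (α x) ∧ deriv f (α x) = deriv β x / deriv α x := by
  set f' : ℝ ≃L[ℝ] ℝ := ContinuousLinearEquiv.unitsEquivAut ℝ (Units.mk0 (deriv α x) hα') with hf'
  have hd : HasDerivAt α (deriv α x) x := (hα.differentiableAt (by norm_num)).hasDerivAt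
  have hfd : HasFDerivAt α (f' : ℝ →L[ℝ] ℝ) x := by
    have := hd.hasFDerivAt
    refine this.congr_fderiv ?_
    ext
    simp [hf']
  have hstrict : HasStrictFDerivAt α (f' : ℝ →L[ℝ] ℝ) x := hα.hasStrictFDerivAt' hfd (by norm_num)
  have hg := hα.to_localInverse hfd (by norm_num)
  set g := hα.localInverse hfd (by norm_num) with hgdef
  have hgx : g (α x) = x := hα.localInverse_apply_image hfd (by norm_num)
  have hright : ∀ᶠ y in 𝓝 (α x), α (g y) = y := hstrict.eventually_right_inverse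
  have hgc : Tendsto g (𝓝 (α x)) (𝓝 x) := by
    have := hg.continuousAt.tendsto
    rwa [hgx] at this
  have hcomp : ContDiffAt ℝ 1 (fun y => β (g y)) (α x) := by
    apply ContDiffAt.comp (g := β)
    · rw [hgx]; exact hβ
    · exact hg
  have hfc : ContDiffAt ℝ 1 f (α x) := by
    apply hcomp.congr_of_eventuallyEq
    filter_upwards [hright, hgc.eventually hf] with y h1 h2
    rw [← h2, h1]
  refine ⟨hfc, ?_⟩
  have h1 : HasDerivAt (fun y => f (α y)) (deriv f (α x) * deriv α x) x :=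
    (hfc.differentiableAt (by norm_num)).hasDerivAt.comp x hd
  have h2 : HasDerivAt (fun y => f (α y)) (deriv β x) x :=
    (hβ.differentiableAt (by norm_num)).hasDerivAt.congr_of_eventuallyEq hf
  rw [eq_div_iff hα']
  exact h1.unique h2

theorem graphC1 {α β f : ℝ → ℝ} {a m₀ : ℝ} (ha : 0 < a) (hα0 : α 0 = 0) (hαc : ContinuousAt α 0)
    (hα : ∀ x, x ≠ 0 → |x| < a → ContDiffAt ℝ 1 α x ∧ 0 < deriv α x)
    (hβ : ∀ x, x ≠ 0 → |x| < a → ContDiffAt ℝ 1 β x)
    (hlim : Tendsto (fun x => deriv β x / deriv α x) (𝓝[≠] 0) (𝓝 m₀))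
    (hf : ∀ x, |x| < a → f (α x) = β x) (hfc : Continuous f) :
    ∃ ε : ℝ, 0 < ε ∧ ContDiffOn ℝ 1 f (Ioo (-ε) ε) := by
  have hcont : ∀ x, |x| < a → ContinuousAt α x := by
    intro x hx
    by_cases h : x = 0
    · rw [h]; exact hαc
    · exact (hα x h hx).1.continuousAt
  have hpos : ∀ η, 0 < η → η < a → 0 < α η := by
    intro η h1 h2
    have hm : StrictMonoOn α (Icc 0 η) := by
      apply strictMonoOn_of_deriv_pos (convex_Icc 0 η)
      · intro x hx
        exact (hcont x (by rw [abs_of_nonneg hx.1]; linarith [hx.2])).continuousWithinAt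
      · intro x hx
        rw [interior_Icc] at hx
        exact (hα x hx.1.ne' (by rw [abs_of_pos hx.1]; linarith [hx.2])).2
    have := hm (left_mem_Icc.2 h1.le) (right_mem_Icc.2 h1.le) h1
    rwa [hα0] at this
  have hneg : ∀ η, 0 < η → η < a → α (-η) < 0 := by
    intro η h1 h2
    have hm : StrictMonoOn α (Icc (-η) 0) := by
      apply strictMonoOn_of_deriv_pos (convex_Icc (-η) 0)
      · intro x hx
        exact (hcont x (by rw [abs_of_nonpos hx.2]; linarith [hx.1])).continuousWithinAt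
      · intro x hx
        rw [interior_Icc] at hx
        exact (hα x hx.2.ne (by rw [abs_of_neg hx.2]; linarith [hx.1])).2
    have := hm (left_mem_Icc.2 (by linarith)) (right_mem_Icc.2 (by linarith)) (by linarith)
    rwa [hα0] at this
  have hsurj : ∀ η, 0 < η → η < a → ∀ t, t ≠ 0 → α (-η) < t → t < α η →
      ∃ x, x ≠ 0 ∧ |x| ≤ η ∧ α x = t := by
    intro η h1 h2 t ht0 h3 h4
    have hc : ContinuousOn α (Icc (-η) η) := by
      intro x hx
      exact (hcont x (lt_of_le_of_lt (abs_le.2 hx) h2)).continuousWithinAt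
    obtain ⟨x, hx, hxt⟩ := intermediate_value_Icc (by linarith) hc ⟨h3.le, h4.le⟩
    refine ⟨x, ?_, abs_le.2 hx, hxt⟩
    rintro rfl
    exact ht0 (hxt.symm.trans hα0)
  have hev : ∀ x, |x| < a → ∀ᶠ y in 𝓝 x, |y| < a := by
    intro x hx
    exact ((continuous_abs : Continuous (fun x : ℝ => |x|)).tendsto x).eventually (gt_mem_nhds hx)
  have hpt : ∀ x, x ≠ 0 → |x| < a → ContDiffAt ℝ 1 f (α x) ∧
      deriv f (α x) = deriv β x / deriv α x := by
    intro x hx hxa
    apply deriv_of_param (hα x hx hxa).1 (hα x hx hxa).2.ne' (hβ x hx hxa)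
    filter_upwards [hev x hxa] with y hy
    exact hf y hy
  set η := a / 2 with hη
  have hη0 : 0 < η := by positivity
  have hηa : η < a := by rw [hη]; linarith
  set ε := min (α η) (-α (-η)) with hε
  have hε0 : 0 < ε := lt_min (hpos η hη0 hηa) (by linarith [hneg η hη0 hηa])
  have hdiff : ∀ t ∈ Ioo (-ε) ε, t ≠ 0 → ContDiffAt ℝ 1 f t := by
    intro t ht ht0
    obtain ⟨x, hx0, hxη, rfl⟩ := hsurj η hη0 hηa t ht0
      (by linarith [ht.1, min_le_right (α η) (-α (-η))])
      (lt_of_lt_of_le ht.2 (min_le_left _ _))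
    exact (hpt x hx0 (lt_of_le_of_lt hxη hηa)).1
  have hlim2 : Tendsto (deriv f) (𝓝[≠] 0) (𝓝 m₀) := by
    intro V hV
    have h1 := hlim hV
    rw [Filter.mem_map, mem_nhdsWithin_iff] at h1
    obtain ⟨δ, hδ, hδ2⟩ := h1
    set η' := min (δ / 2) η with hη'
    have hη'0 : 0 < η' := lt_min (by positivity) hη0
    have hη'a : η' < a := lt_of_le_of_lt (min_le_right _ _) hηa
    rw [Filter.mem_map]
    have h2 : Ioo (α (-η')) (α η') ∈ 𝓝 (0 : ℝ) := Ioo_mem_nhds (hneg η' hη'0 hη'a) (hpos η' hη'0 hη'a)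
    filter_upwards [mem_nhdsWithin_of_mem_nhds h2, self_mem_nhdsWithin] with t ht ht0
    obtain ⟨x, hx0, hxη, rfl⟩ := hsurj η' hη'0 hη'a t ht0 ht.1 ht.2
    have h3 := (hpt x hx0 (lt_of_le_of_lt hxη hη'a)).2
    rw [mem_preimage, h3]
    apply hδ2
    refine ⟨?_, hx0⟩
    rw [mem_ball, Real.dist_eq, sub_zero]
    have := min_le_left (δ / 2) η
    linarith
  have hd0 : HasDerivAt f m₀ 0 := by
    have hr : HasDerivWithinAt f m₀ (Ici 0) 0 := by
      apply hasDerivWithinAt_Ici_of_tendsto_deriv (s := Ioo 0 ε)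
      · intro y hy
        exact ((hdiff y ⟨by linarith [hy.1], hy.2⟩ hy.1.ne').differentiableAt
          (by norm_num)).differentiableWithinAt
      · exact hfc.continuousWithinAt
      · exact Ioo_mem_nhdsGT hε0
      · exact hlim2.mono_left (nhdsWithin_mono 0 fun x hx => ne_of_gt hx)
    have hl : HasDerivWithinAt f m₀ (Iic 0) 0 := by
      apply hasDerivWithinAt_Iic_of_tendsto_deriv (s := Ioo (-ε) 0)
      · intro y hy
        exact ((hdiff y ⟨hy.1, by linarith [hy.2]⟩ hy.2.ne).differentiableAt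
          (by norm_num)).differentiableWithinAt
      · exact hfc.continuousWithinAt
      · exact Ioo_mem_nhdsLT (by linarith)
      · exact hlim2.mono_left (nhdsWithin_mono 0 fun x hx => ne_of_lt hx)
    have := hr.union hl
    rwa [Ici_union_Iic, hasDerivWithinAt_univ] at this
  refine ⟨ε, hε0, ?_⟩
  rw [show (1 : WithTop ℕ∞) = 0 + 1 by norm_num, contDiffOn_succ_iff_deriv_of_isOpen isOpen_Ioo]
  refine ⟨fun t ht => ?_, by simp, ?_⟩
  · by_cases h : t = 0
    · rw [h]; exact hd0.differentiableAt.differentiableWithinAt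
    · exact ((hdiff t ht h).differentiableAt (by norm_num)).differentiableWithinAt
  · rw [contDiffOn_zero]
    intro t ht
    apply ContinuousAt.continuousWithinAt
    by_cases h : t = 0
    · rw [h, ContinuousAt, hd0.deriv]
      have h3 : Tendsto (deriv f) (𝓝[≠] 0 ⊔ pure 0) (𝓝 m₀) := by
        rw [tendsto_sup]
        refine ⟨hlim2, ?_⟩
        rw [tendsto_pure_left]
        intro s hs
        rw [hd0.deriv]
        exact mem_of_mem_nhds hs
      rwa [nhdsNE_sup_pure] at h3
    · have h1 := (hdiff t ht h).fderiv_right (m := 0) (by norm_num)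
      exact h1.continuousAt.clm_apply continuousAt_const

end Pool.Agent.H18R3
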