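import Pool.Agent.H18R3.LogMap
set_option autoImplicit false
open Complex Metric Set Filter Topology

namespace Pool.Agent.H18R3

/-- imaginary part of `Psi (i s)` -/
noncomputable def mm (s : ℝ) : ℝ := s * (3 - Real.log s)

theorem continuous_mm : Continuous mm := by
  have : mm = fun s => 3 * s - s * Real.log s := by
    funext s; simp only [mm]; ring
  rw [this]
  exact (continuous_const.mul continuous_id).sub Real.continuous_mul_log

theorem mm_zero : mm 0 = 0 := by simp [mm]
theorem mm_one : mm 1 = 3 := by simp [mm]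

theorem hasDerivAt_mm {s : ℝ} (hs : 0 < s) : HasDerivAt mm (2 - Real.log s) s := by
  have h1 := (hasDerivAt_id s).mul ((Real.hasDerivAt_log hs.ne').const_sub 3)
  have h2 : (1 : ℝ) * (3 - Real.log s) + id s * (-s⁻¹) = 2 - Real.log s := by
    simp only [id]; field_simp; ring
  rw [h2] at h1
  exact h1

theorem mm_expand {s t : ℝ} (hs : 0 ≤ s) (hst : s ≤ t) (ht : t ≤ 1) :
    2 * (t - s) ≤ mm t - mm s := by
  have hmono : MonotoneOn (fun x => mm x - 2 * x) (Icc 0 1) := by
    apply monotoneOn_of_deriv_nonneg (convex_Icc 0 1)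
    · exact (continuous_mm.sub (continuous_const.mul continuous_id)).continuousOn
    · intro x hx
      rw [interior_Icc] at hx
      exact ((hasDerivAt_mm hx.1).sub ((hasDerivAt_id x).const_mul 2)).differentiableAt.differentiableWithinAt
    · intro x hx
      rw [interior_Icc] at hx
      have := ((hasDerivAt_mm hx.1).sub ((hasDerivAt_id x).const_mul 2)).deriv
      have h2 : deriv (fun x => mm x - 2 * x) x = 2 - Real.log x - 2 * 1 := this
      rw [h2]
      have := Real.log_nonpos hx.1.le hx.2.le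
      linarith
  have := hmono ⟨hs, hst.trans ht⟩ ⟨hs.trans hst, ht⟩ hst
  simp only at this
  linarith

theorem mm_surj {t : ℝ} (h0 : 0 ≤ t) (h3 : t ≤ 3) : ∃ s ∈ Icc (0 : ℝ) 1, mm s = t := by
  have := intermediate_value_Icc (f := mm) (a := 0) (b := 1) zero_le_one continuous_mm.continuousOn
  rw [mm_zero, mm_one] at this
  obtain ⟨s, hs, h⟩ := this ⟨h0, h3⟩
  exact ⟨s, hs, h⟩

/-- the inverse of `mm` on `[0,3]` -/
noncomputable def sig (t : ℝ) : ℝ := Function.invFunOn mm (Icc 0 1) t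

theorem sig_mem {t : ℝ} (h0 : 0 ≤ t) (h3 : t ≤ 3) : sig t ∈ Icc (0 : ℝ) 1 :=
  Function.invFunOn_mem (mm_surj h0 h3)

theorem mm_sig {t : ℝ} (h0 : 0 ≤ t) (h3 : t ≤ 3) : mm (sig t) = t :=
  Function.invFunOn_eq (mm_surj h0 h3)

theorem mm_inj {s t : ℝ} (hs : s ∈ Icc (0 : ℝ) 1) (ht : t ∈ Icc (0 : ℝ) 1) (h : mm s = mm t) :
    s = t := by
  rcases le_total s t with h1 | h1
  · have := mm_expand hs.1 h1 ht.2
    linarith
  · have := mm_expand ht.1 h1 hs.2
    linarith

theorem sig_mm {s : ℝ} (hs : s ∈ Icc (0 : ℝ) 1) : sig (mm s) = s := by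
  have h0 : 0 ≤ mm s := by
    have := mm_expand le_rfl hs.1 hs.2
    rw [mm_zero] at this
    linarith [hs.1]
  have h3 : mm s ≤ 3 := by
    have := mm_expand hs.1 hs.2 le_rfl
    rw [mm_one] at this
    linarith [hs.2]
  exact mm_inj (sig_mem h0 h3) hs (mm_sig h0 h3)

theorem sig_lip {s t : ℝ} (hs : s ∈ Icc (0 : ℝ) 3) (ht : t ∈ Icc (0 : ℝ) 3) :
    |sig s - sig t| ≤ 1 / 2 * |s - t| := by
  have h1 := sig_mem hs.1 hs.2
  have h2 := sig_mem ht.1 ht.2
  have e1 := mm_sig hs.1 hs.2
  have e2 := mm_sig ht.1 ht.2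
  rcases le_total (sig s) (sig t) with h | h
  · have := mm_expand h1.1 h h2.2
    rw [e1, e2] at this
    rw [abs_sub_comm, abs_of_nonneg (by linarith), abs_sub_comm, abs_of_nonneg (by linarith)]
    linarith
  · have := mm_expand h2.1 h h1.2
    rw [e1, e2] at this
    rw [abs_of_nonneg (by linarith), abs_of_nonneg (by linarith)]
    linarith

/-- the boundary profile -/
noncomputable def ff (t : ℝ) : ℝ := Real.pi / 2 * sig (min |t| 3)

theorem min_mem (t : ℝ) : min |t| 3 ∈ Icc (0 : ℝ) 3 :=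
  ⟨le_min (abs_nonneg _) (by norm_num), min_le_right _ _⟩

theorem ff_lip : LipschitzWith 1 ff := by
  apply LipschitzWith.of_dist_le_mul
  intro s t
  rw [Real.dist_eq, Real.dist_eq, NNReal.coe_one, one_mul, ff, ff, ← mul_sub, abs_mul]
  have h1 := sig_lip (min_mem s) (min_mem t)
  have h2 : |min |s| 3 - min |t| 3| ≤ |s - t| := by
    refine (abs_min_sub_min_le_max _ _ _ _).trans ?_
    rw [sub_self, abs_zero]
    exact max_le (abs_abs_sub_abs_le_abs_sub s t) (abs_nonneg _)
  have h3 : |Real.pi / 2| ≤ 2 := by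
    rw [abs_of_pos (by positivity)]
    linarith [Real.pi_le_four]
  calc |Real.pi / 2| * |sig (min |s| 3) - sig (min |t| 3)|
      ≤ 2 * (1 / 2 * |min |s| 3 - min |t| 3|) :=
        mul_le_mul h3 h1 (abs_nonneg _) (by norm_num)
    _ ≤ |s - t| := by linarith

theorem sig_zero : sig 0 = 0 := by
  have := sig_mm (s := 0) ⟨le_rfl, zero_le_one⟩
  rwa [mm_zero] at this

theorem ff_zero : ff 0 = 0 := by
  simp [ff, sig_zero]

theorem ff_nonneg (t : ℝ) : 0 ≤ ff t :=
  mul_nonneg (by positivity) (sig_mem (min_mem t).1 (min_mem t).2).1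

theorem ff_le (t : ℝ) : ff t ≤ |t| := by
  have := ff_lip.dist_le_mul t 0
  rw [Real.dist_eq, Real.dist_eq, ff_zero, sub_zero, sub_zero, NNReal.coe_one, one_mul,
    abs_of_nonneg (ff_nonneg t)] at this
  exact this

theorem ff_continuous : Continuous ff := ff_lip.continuous

/-- the domain -/
def DD : Set ℂ := {z : ℂ | ff z.im < z.re}

/-- the box -/
def BB : Set ℂ := {z : ℂ | |z.re| < 21 / 10 ∧ |z.im| < 21 / 10}

theorem isOpen_DD : IsOpen DD :=
  isOpen_lt (ff_continuous.comp Complex.continuous_im) Complex.continuous_re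

theorem isOpen_BB : IsOpen BB :=
  (isOpen_lt (continuous_abs.comp Complex.continuous_re) continuous_const).inter
    (isOpen_lt (continuous_abs.comp Complex.continuous_im) continuous_const)

theorem convex_BB : Convex ℝ BB := by
  have : BB = (Complex.reLm ⁻¹' Ioo (-(21 / 10)) (21 / 10)) ∩
      (Complex.imLm ⁻¹' Ioo (-(21 / 10)) (21 / 10)) := by
    ext z; simp [BB, abs_lt]
  rw [this]
  exact ((convex_Ioo _ _).linear_preimage _).inter ((convex_Ioo _ _).linear_preimage _)

theorem norm_lt_of_BB {z : ℂ} (hz : z ∈ BB) : ‖z‖ < 3 := by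
  have h1 : ‖z‖ ^ 2 = z.re ^ 2 + z.im ^ 2 := by
    rw [← Complex.normSq_eq_norm_sq, Complex.normSq_apply]; ring
  have h2 : z.re ^ 2 < (21 / 10) ^ 2 := sq_lt_sq' (by linarith [(abs_lt.1 hz.1).1]) (abs_lt.1 hz.1).2
  have h3 : z.im ^ 2 < (21 / 10) ^ 2 := sq_lt_sq' (by linarith [(abs_lt.1 hz.2).1]) (abs_lt.1 hz.2).2
  by_contra hcon
  push Not at hcon
  nlinarith [norm_nonneg z]

theorem ball_subset_BB : ball (0 : ℂ) 2 ⊆ BB := by
  intro z hz
  rw [mem_ball_zero_iff] at hz
  exact ⟨by linarith [Complex.abs_re_le_norm z], by linarith [Complex.abs_im_le_norm z]⟩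

theorem log_mul_I {s : ℝ} (hs : 0 < s) : Complex.log (s * I) = Real.log s + Real.pi / 2 * I := by
  rw [Complex.log_ofReal_mul hs I_ne_zero, Complex.log_I]

theorem log_mul_neg_I {s : ℝ} (hs : 0 < s) :
    Complex.log (s * (-I)) = Real.log s - Real.pi / 2 * I := by
  rw [Complex.log_ofReal_mul hs (neg_ne_zero.2 I_ne_zero), Complex.log_neg_I]
  ring

theorem Psi_I {s : ℝ} (hs : 0 ≤ s) : Psi (s * I) = (Real.pi / 2 * s : ℝ) + (mm s : ℝ) * I := by
  rcases hs.eq_or_lt with h | h
  · rw [← h]; simp [Psi, mm]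
  · rw [Psi, log_mul_I h, mm]
    push_cast
    have := Complex.I_mul_I
    linear_combination (-(Real.pi : ℂ) / 2 * s) * this

theorem Psi_neg_I {s : ℝ} (hs : 0 ≤ s) :
    Psi (s * (-I)) = (Real.pi / 2 * s : ℝ) - (mm s : ℝ) * I := by
  rcases hs.eq_or_lt with h | h
  · rw [← h]; simp [Psi, mm]
  · rw [Psi, log_mul_neg_I h, mm]
    push_cast
    have := Complex.I_mul_I
    linear_combination (-(Real.pi : ℂ) / 2 * s) * this

/-- points of the half disc on the imaginary axis go to the graph of `ff` -/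
theorem graph_of_re_zero {η : ℂ} (h : η ∈ HD) (h0 : η.re = 0) :
    (Psi η).re = ff (Psi η).im ∧ (Psi η).re = Real.pi / 2 * ‖η‖ := by
  have hη : η = η.im * I := Complex.ext (by simp [h0]) (by simp)
  have hn : ‖η‖ = |η.im| := by
    conv_lhs => rw [hη]
    simp
  have him : |η.im| ≤ 1 := by rw [← hn]; exact h.2
  rcases le_total 0 η.im with h1 | h1
  · have e : Psi η = (Real.pi / 2 * η.im : ℝ) + (mm η.im : ℝ) * I := by
      conv_lhs => rw [hη]
      exact Psi_I h1
    have hre : (Psi η).re = Real.pi / 2 * η.im := by rw [e]; simp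
    have him2 : (Psi η).im = mm η.im := by rw [e]; simp
    have hs : η.im ∈ Icc (0 : ℝ) 1 := ⟨h1, (le_abs_self _).trans him⟩
    have hm0 : 0 ≤ mm η.im := by
      have := mm_expand le_rfl hs.1 hs.2
      rw [mm_zero] at this; linarith
    have hm3 : mm η.im ≤ 3 := by
      have := mm_expand hs.1 hs.2 le_rfl
      rw [mm_one] at this; linarith [hs.2]
    rw [hre, him2, ff, abs_of_nonneg hm0, min_eq_left hm3, sig_mm hs, hn, abs_of_nonneg h1]
    exact ⟨rfl, rfl⟩
  · have e : Psi η = (Real.pi / 2 * (-η.im) : ℝ) - (mm (-η.im) : ℝ) * I := by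
      conv_lhs => rw [hη]
      have := Psi_neg_I (s := -η.im) (by linarith)
      rw [← this]
      congr 1
      push_cast; ring
    have hre : (Psi η).re = Real.pi / 2 * (-η.im) := by rw [e]; simp
    have him2 : (Psi η).im = - mm (-η.im) := by rw [e]; simp
    have hs : -η.im ∈ Icc (0 : ℝ) 1 := ⟨by linarith, (neg_le_abs _).trans him⟩
    have hm0 : 0 ≤ mm (-η.im) := by
      have := mm_expand le_rfl hs.1 hs.2
      rw [mm_zero] at this; linarith
    have hm3 : mm (-η.im) ≤ 3 := by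
      have := mm_expand hs.1 hs.2 le_rfl
      rw [mm_one] at this; linarith [hs.2]
    rw [hre, him2, ff, abs_neg, abs_of_nonneg hm0, min_eq_left hm3, sig_mm hs, hn,
      abs_of_nonpos h1]
    exact ⟨rfl, rfl⟩

/-- points of the graph come from the imaginary axis -/
theorem exists_of_graph {z : ℂ} (hz : z.re = ff z.im) (h3 : |z.im| ≤ 3) :
    ∃ η ∈ HD, η.re = 0 ∧ Psi η = z := by
  set s := sig |z.im| with hs
  have hs1 : s ∈ Icc (0 : ℝ) 1 := sig_mem (abs_nonneg _) h3
  have hs2 : mm s = |z.im| := mm_sig (abs_nonneg _) h3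
  have hre : z.re = Real.pi / 2 * s := by
    rw [hz, ff, min_eq_left h3]
  rcases le_total 0 z.im with h | h
  · refine ⟨s * I, ⟨by simp, ?_⟩, by simp, ?_⟩
    · simp [abs_of_nonneg hs1.1, hs1.2]
    · rw [Psi_I hs1.1, hs2, abs_of_nonneg h, ← hre]
      exact Complex.re_add_im z
  · refine ⟨s * (-I), ⟨by simp, ?_⟩, by simp, ?_⟩
    · simp [abs_of_nonneg hs1.1, hs1.2]
    · rw [Psi_neg_I hs1.1, hs2, abs_of_nonpos h, ← hre]
      apply Complex.ext <;> simp

theorem norm_Psi_arc {η : ℂ} (hη : ‖η‖ = 1) : 3 ≤ ‖Psi η‖ := by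
  rw [Psi, norm_mul, hη, one_mul]
  have h1 : (3 - Complex.log η).re = 3 := by
    simp [Complex.log_re, hη]
  calc (3 : ℝ) = (3 - Complex.log η).re := h1.symm
    _ ≤ ‖3 - Complex.log η‖ := Complex.re_le_norm _

theorem Psi_re_nonneg {η : ℂ} (h : η ∈ HD) : 0 ≤ (Psi η).re := by
  by_cases h0 : η = 0
  · rw [h0, Psi_zero]; simp
  have h1 : (Psi η).re = η.re * (3 - Real.log ‖η‖) + η.im * η.arg := by
    rw [Psi, Complex.mul_re]
    simp [Complex.log_re, Complex.log_im]
  rw [h1]
  have h2 : Real.log ‖η‖ ≤ 0 := Real.log_nonpos (norm_nonneg _) h.2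
  have h3 : 0 ≤ η.im * η.arg := by
    rcases le_total 0 η.im with h4 | h4
    · exact mul_nonneg h4 (Complex.arg_nonneg_iff.2 h4)
    · rcases h4.eq_or_lt with h5 | h5
      · rw [h5]; simp
      · exact mul_nonneg_of_nonpos_of_nonpos h4 (Complex.arg_neg_iff.2 h5).le
  have h4 := mul_nonneg h.1 (by linarith : (0 : ℝ) ≤ 3 - Real.log ‖η‖)
  linarith

theorem hasStrictDerivAt_Psi {η : ℂ} (h : η ∈ Complex.slitPlane) :
    HasStrictDerivAt Psi (2 - Complex.log η) η := by
  have h0 : η ≠ 0 := Complex.slitPlane_ne_zero h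
  have h1 := (hasStrictDerivAt_id η).mul ((Complex.hasStrictDerivAt_log h).const_sub 3)
  have h2 : (1 : ℂ) * (3 - Complex.log η) + id η * (-η⁻¹) = 2 - Complex.log η := by
    simp only [id]
    field_simp
    ring
  rw [h2] at h1
  exact h1

theorem two_sub_log_re {η : ℂ} (h1 : ‖η‖ ≤ 1) : 2 ≤ (2 - Complex.log η).re := by
  have : Real.log ‖η‖ ≤ 0 := Real.log_nonpos (norm_nonneg _) h1
  simp only [Complex.sub_re, Complex.log_re]
  have h2 : (2 : ℂ).re = 2 := rfl
  rw [h2]; linarith

theorem two_sub_log_ne {η : ℂ} (h1 : ‖η‖ ≤ 1) : 2 - Complex.log η ≠ 0 := by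
  intro h
  have := two_sub_log_re h1
  rw [h] at this
  simp at this
  linarith

theorem isOpen_image : IsOpen (Psi '' HDo) := by
  rw [isOpen_iff_mem_nhds]
  rintro _ ⟨η, hη, rfl⟩
  have h := hasStrictDerivAt_Psi (Complex.mem_slitPlane_iff.2 (Or.inl hη.1))
  rw [← h.map_nhds_eq (two_sub_log_ne hη.2.le)]
  exact image_mem_map (isOpen_HDo.mem_nhds hη)

theorem continuousOn_Psi : ContinuousOn Psi HD := fun η hη =>
  (continuousAt_Psi hη.1).continuousWithinAt

theorem isClosed_image : IsClosed (Psi '' HD) :=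
  (isCompact_HD.image_of_continuousOn continuousOn_Psi).isClosed

theorem trichotomy {z : ℂ} (hz : z ∈ BB) (h : z ∈ Psi '' HD) (hne : z.re ≠ ff z.im) :
    z ∈ Psi '' HDo := by
  obtain ⟨η, hη, rfl⟩ := h
  have h1 : 0 < η.re := by
    rcases hη.1.eq_or_lt with h2 | h2
    · exact absurd (graph_of_re_zero hη h2.symm).1 hne
    · exact h2
  have h2 : ‖η‖ < 1 := by
    rcases hη.2.eq_or_lt with h2 | h2
    · have := norm_Psi_arc h2
      have := norm_lt_of_BB hz
      linarith
    · exact h2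
  exact ⟨η, ⟨h1, h2⟩, rfl⟩

theorem disj : Disjoint (Psi '' HDo) (Psi '' HD)ᶜ := by
  rw [disjoint_compl_right_iff_subset]
  exact image_mono HDo_subset

theorem connected_right : IsPreconnected (DD ∩ BB) := by
  have : DD ∩ BB = (fun p : ℝ × ℝ => (((1 - p.2) * ff p.1 + p.2 * (21 / 10) : ℝ) : ℂ) + p.1 * I) ''
      (Ioo (-(21 / 10) : ℝ) (21 / 10) ×ˢ Ioo (0 : ℝ) 1) := by
    ext z
    constructor
    · rintro ⟨h1, h2, h3⟩
      have h4 : ff z.im < z.re := h1
      have h5 := abs_lt.1 h2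
      have h6 := abs_lt.1 h3
      refine ⟨(z.im, (z.re - ff z.im) / (21 / 10 - ff z.im)), ⟨⟨by linarith, h6.2⟩, ?_, ?_⟩, ?_⟩
      · exact div_pos (by linarith) (by linarith)
      · rw [div_lt_one (by linarith)]; linarith
      · have h7 : (21 / 10 - ff z.im) ≠ 0 := by
          have : 0 < 21 / 10 - ff z.im := by linarith
          exact this.ne'
        simp only
        have : (1 - (z.re - ff z.im) / (21 / 10 - ff z.im)) * ff z.im +
            (z.re - ff z.im) / (21 / 10 - ff z.im) * (21 / 10) = z.re := by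
          have h8 : (z.re - ff z.im) / (21 / 10 - ff z.im) * (21 / 10 - ff z.im) =
            z.re - ff z.im := div_mul_cancel₀ _ h7
          linear_combination h8
        rw [this]; exact Complex.re_add_im z
    · rintro ⟨⟨t, l⟩, ⟨ht, hl⟩, rfl⟩
      simp only at ht hl ⊢
      have hf0 := ff_nonneg t
      have hf1 := ff_le t
      have ht2 : |t| < 21 / 10 := abs_lt.2 ht
      have e1 : ((((1 - l) * ff t + l * (21 / 10) : ℝ) : ℂ) + t * I).re =
          (1 - l) * ff t + l * (21 / 10) := by simp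
      have e2 : ((((1 - l) * ff t + l * (21 / 10) : ℝ) : ℂ) + t * I).im = t := by simp
      refine ⟨?_, ?_, ?_⟩
      · change ff _ < _
        rw [e1, e2]; nlinarith [hl.1, hl.2]
      · rw [e1, abs_lt]
        constructor <;> nlinarith [hl.1, hl.2]
      · rw [e2]; exact ht2
  rw [this]
  apply IsPreconnected.image
  · exact isPreconnected_Ioo.prod isPreconnected_Ioo
  · have := ff_continuous
    fun_prop

theorem connected_left : IsPreconnected ({z : ℂ | z.re < ff z.im} ∩ BB) := by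
  have : {z : ℂ | z.re < ff z.im} ∩ BB =
      (fun p : ℝ × ℝ => (((1 - p.2) * (-(21 / 10)) + p.2 * ff p.1 : ℝ) : ℂ) + p.1 * I) ''
      (Ioo (-(21 / 10) : ℝ) (21 / 10) ×ˢ Ioo (0 : ℝ) 1) := by
    ext z
    constructor
    · rintro ⟨h1, h2, h3⟩
      have h4 : z.re < ff z.im := h1
      have h5 := abs_lt.1 h2
      have h6 := abs_lt.1 h3
      have hf0 := ff_nonneg z.im
      refine ⟨(z.im, (z.re + 21 / 10) / (21 / 10 + ff z.im)), ⟨⟨by linarith, h6.2⟩, ?_, ?_⟩, ?_⟩
      · exact div_pos (by linarith) (by linarith)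
      · rw [div_lt_one (by linarith)]; linarith
      · have h7 : (21 / 10 + ff z.im) ≠ 0 := by
          have : 0 < 21 / 10 + ff z.im := by linarith
          exact this.ne'
        simp only
        have : (1 - (z.re + 21 / 10) / (21 / 10 + ff z.im)) * (-(21 / 10)) +
            (z.re + 21 / 10) / (21 / 10 + ff z.im) * ff z.im = z.re := by
          field_simp; ring
        rw [this]; exact Complex.re_add_im z
    · rintro ⟨⟨t, l⟩, ⟨ht, hl⟩, rfl⟩
      simp only at ht hl ⊢
      have hf0 := ff_nonneg t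
      have hf1 := ff_le t
      have ht2 : |t| < 21 / 10 := abs_lt.2 ht
      have e1 : ((((1 - l) * (-(21 / 10)) + l * ff t : ℝ) : ℂ) + t * I).re =
          (1 - l) * (-(21 / 10)) + l * ff t := by simp
      have e2 : ((((1 - l) * (-(21 / 10)) + l * ff t : ℝ) : ℂ) + t * I).im = t := by simp
      refine ⟨?_, ?_, ?_⟩
      · change _ < ff _
        rw [e1, e2]; nlinarith [hl.1, hl.2]
      · rw [e1, abs_lt]
        constructor <;> nlinarith [hl.1, hl.2]
      · rw [e2]; exact ht2
  rw [this]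
  apply IsPreconnected.image
  · exact isPreconnected_Ioo.prod isPreconnected_Ioo
  · have := ff_continuous
    fun_prop

theorem DD_subset_image : DD ∩ BB ⊆ Psi '' HDo := by
  apply connected_right.subset_left_of_subset_union isOpen_image isClosed_image.isOpen_compl disj
  · intro z hz
    by_cases h : z ∈ Psi '' HD
    · left
      exact trichotomy hz.2 h (ne_of_gt hz.1)
    · right; exact h
  · refine ⟨Psi (1 / 4 : ℝ), ⟨?_, ?_⟩, (1 / 4 : ℝ), ⟨by simp, by simp; norm_num⟩, rfl⟩
    · have h1 : Psi (1 / 4 : ℝ) = ((1 / 4 * (3 - Real.log (1 / 4)) : ℝ) : ℂ) := by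
        rw [Psi, ← Complex.ofReal_log (by norm_num)]; push_cast; ring
      rw [h1]
      change ff _ < _
      rw [Complex.ofReal_im, Complex.ofReal_re, ff_zero]
      have : Real.log (1 / 4) ≤ 0 := Real.log_nonpos (by norm_num) (by norm_num)
      linarith
    · have h1 : Psi (1 / 4 : ℝ) = ((1 / 4 * (3 - Real.log (1 / 4)) : ℝ) : ℂ) := by
        rw [Psi, ← Complex.ofReal_log (by norm_num)]; push_cast; ring
      rw [h1]
      have h2 : Real.log (1 / 4) = - (2 * Real.log 2) := by
        rw [show (1 / 4 : ℝ) = (2 ^ 2)⁻¹ by norm_num, Real.log_inv, Real.log_pow]; norm_num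
      have h3 := Real.log_two_lt_d9
      have h4 := Real.log_two_gt_d9
      refine ⟨?_, ?_⟩
      · rw [Complex.ofReal_re, h2, abs_lt]; constructor <;> linarith
      · rw [Complex.ofReal_im]; norm_num

theorem image_subset_DD : (Psi '' HDo) ∩ BB ⊆ DD := by
  rintro z ⟨hz1, hz2⟩
  by_contra hcon
  have hle : z.re ≤ ff z.im := not_lt.1 hcon
  rcases hle.lt_or_eq with h | h
  · have hsub : ({z : ℂ | z.re < ff z.im} ∩ BB) ⊆ (Psi '' HD)ᶜ := by
      apply connected_left.subset_left_of_subset_union isClosed_image.isOpen_compl isOpen_image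
        disj.symm
      · intro y hy
        by_cases h : y ∈ Psi '' HD
        · right
          exact trichotomy hy.2 h (ne_of_lt hy.1)
        · left; exact h
      · refine ⟨-1, ⟨?_, ?_⟩, ?_⟩
        · change (-1 : ℂ).re < ff (-1 : ℂ).im
          simp [ff_zero]
        · constructor <;> simp <;> norm_num
        · rintro ⟨η, hη, h⟩
          have := Psi_re_nonneg hη
          rw [h] at this
          simp at this
          linarith
    exact hsub ⟨h, hz2⟩ (image_mono HDo_subset hz1)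
  · obtain ⟨η, hη, h0, h1⟩ := exists_of_graph h (by linarith [hz2.2])
    obtain ⟨η', hη', h'⟩ := hz1
    have : η = η' := injOn_HD hη (HDo_subset hη') (h1.trans h'.symm)
    rw [this] at h0
    exact absurd h0 hη'.1.ne'

end Pool.Agent.H18R3
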