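import Mathlib
set_option autoImplicit false
open Complex Metric Set Filter Topology

namespace Pool.Agent.H18R3

/-- the conformal parametrisation of the free boundary example -/
noncomputable def Psi (η : ℂ) : ℂ := η * (3 - Complex.log η)

/-- closed half disc -/
def HD : Set ℂ := {η : ℂ | 0 ≤ η.re ∧ ‖η‖ ≤ 1}

/-- open half disc -/
def HDo : Set ℂ := {η : ℂ | 0 < η.re ∧ ‖η‖ < 1}

theorem isCompact_HD : IsCompact HD := by
  have : HD = closedBall (0 : ℂ) 1 ∩ {η : ℂ | 0 ≤ η.re} := by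
    ext η; simp [HD, and_comm]
  rw [this]
  exact (isCompact_closedBall _ _).inter_right (isClosed_le continuous_const Complex.continuous_re)

theorem isOpen_HDo : IsOpen HDo := by
  have : HDo = ball (0 : ℂ) 1 ∩ {η : ℂ | 0 < η.re} := by
    ext η; simp [HDo, and_comm]
  rw [this]
  exact isOpen_ball.inter (isOpen_lt continuous_const Complex.continuous_re)

theorem HDo_subset : HDo ⊆ HD := fun η h => ⟨h.1.le, h.2.le⟩

theorem Psi_zero : Psi 0 = 0 := by simp [Psi]

theorem continuousAt_Psi_zero : ContinuousAt Psi 0 := by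
  rw [ContinuousAt, Psi_zero, tendsto_zero_iff_norm_tendsto_zero]
  have h1 : Tendsto (fun η : ℂ => ‖η‖ * (3 + Real.pi) + |Real.log ‖η‖ * ‖η‖|) (𝓝 0) (𝓝 0) := by
    have ha : Tendsto (fun η : ℂ => ‖η‖) (𝓝 0) (𝓝 0) := by
      simpa using (continuous_norm (E := ℂ)).tendsto 0
    have hb : Tendsto (fun x : ℝ => Real.log x * x) (𝓝 0) (𝓝 0) := by
      have := Real.continuous_mul_log.tendsto 0
      simp only [Real.log_zero, mul_zero] at this
      simpa [mul_comm] using this
    have hc := (hb.comp ha).abs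
    have hd := (ha.mul_const (3 + Real.pi)).add hc
    simpa [Function.comp_def] using hd
  refine squeeze_zero (fun _ => norm_nonneg _) (fun η => ?_) h1
  rw [Psi, norm_mul]
  have h2 : ‖(3 : ℂ) - Complex.log η‖ ≤ 3 + (|Real.log ‖η‖| + Real.pi) := by
    refine (norm_sub_le _ _).trans ?_
    have h3 : ‖Complex.log η‖ ≤ |(Complex.log η).re| + |(Complex.log η).im| :=
      Complex.norm_le_abs_re_add_abs_im _
    rw [Complex.log_re, Complex.log_im] at h3
    have h4 := Complex.abs_arg_le_pi η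
    have h5 : ‖(3 : ℂ)‖ = 3 := by simp
    rw [h5]; linarith
  calc ‖η‖ * ‖(3 : ℂ) - Complex.log η‖ ≤ ‖η‖ * (3 + (|Real.log ‖η‖| + Real.pi)) :=
        mul_le_mul_of_nonneg_left h2 (norm_nonneg _)
    _ = ‖η‖ * (3 + Real.pi) + |Real.log ‖η‖ * ‖η‖| := by
        rw [abs_mul, abs_norm]; ring

theorem slit_of_re_nonneg {η : ℂ} (h : 0 ≤ η.re) (h0 : η ≠ 0) : η ∈ Complex.slitPlane := by
  rw [Complex.mem_slitPlane_iff]
  rcases h.lt_or_eq with h1 | h1
  · exact Or.inl h1
  · right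
    intro h2
    exact h0 (Complex.ext h1.symm h2)

theorem hasDerivAt_Psi {η : ℂ} (h : η ∈ Complex.slitPlane) :
    HasDerivAt Psi (2 - Complex.log η) η := by
  have h0 : η ≠ 0 := Complex.slitPlane_ne_zero h
  have h1 := (hasDerivAt_id η).mul ((Complex.hasDerivAt_log h).const_sub 3)
  have h2 : (1 : ℂ) * (3 - Complex.log η) + id η * (-η⁻¹) = 2 - Complex.log η := by
    simp only [id]
    field_simp
    ring
  rw [h2] at h1
  exact h1

theorem continuousAt_Psi {η : ℂ} (h : 0 ≤ η.re) : ContinuousAt Psi η := by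
  by_cases h0 : η = 0
  · rw [h0]; exact continuousAt_Psi_zero
  · exact (hasDerivAt_Psi (slit_of_re_nonneg h h0)).continuousAt

theorem expand_pos {a b : ℂ} (ha : 0 < a.re) (hb : 0 < b.re) (ha2 : ‖a‖ < 2) (hb2 : ‖b‖ < 2) :
    ‖b - a‖ ≤ ‖Psi b - Psi a‖ := by
  -- the function t ↦ Re ((Psi γ(t)) conj (b - a)) - t |b-a|^2 is monotone
  set d : ℂ := b - a with hd
  set γ : ℝ → ℂ := fun t => a + t * d with hγ
  set k : ℝ → ℝ := fun t => (Psi (γ t) * (starRingEnd ℂ) d).re - t * ‖d‖ ^ 2 with hk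
  have hre : ∀ t ∈ Icc (0 : ℝ) 1, 0 < (γ t).re := by
    intro t ht
    have : (γ t).re = (1 - t) * a.re + t * b.re := by
      simp [hγ, hd]; ring
    rw [this]
    rcases eq_or_lt_of_le ht.1 with h | h
    · rw [← h]; simpa using ha
    · have h1 : 0 ≤ (1 - t) * a.re := mul_nonneg (by linarith [ht.2]) ha.le
      have h2 : 0 < t * b.re := mul_pos h hb
      linarith
  have hno : ∀ t ∈ Icc (0 : ℝ) 1, ‖γ t‖ < 2 := by
    intro t ht
    have : γ t = (1 - t : ℝ) • a + (t : ℝ) • b := by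
      simp only [hγ, hd, Complex.real_smul]; push_cast; ring
    rw [this]
    have hc := (convex_ball (0 : ℂ) 2) (x := a) (by simpa using ha2) (y := b) (by simpa using hb2)
      (a := 1 - t) (b := t) (by linarith [ht.2]) ht.1 (by ring)
    simpa using hc
  have hder : ∀ t ∈ Icc (0 : ℝ) 1,
      HasDerivAt k (((2 - Complex.log (γ t)) * d * (starRingEnd ℂ) d).re - ‖d‖ ^ 2) t := by
    intro t ht
    have h1 : HasDerivAt γ d t := by
      have := ((Complex.ofRealCLM.hasDerivAt (x := t)).mul_const d).const_add a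
      simpa [hγ] using this
    have h2 := (hasDerivAt_Psi (η := γ t) (Complex.mem_slitPlane_iff.2 (Or.inl (hre t ht))))
    have h3 := (h2.comp t h1).mul_const ((starRingEnd ℂ) d)
    have h4 : HasDerivAt (fun s : ℝ => (Psi (γ s) * (starRingEnd ℂ) d).re)
        (((2 - Complex.log (γ t)) * d * (starRingEnd ℂ) d).re) t :=
      Complex.reCLM.hasFDerivAt.comp_hasDerivAt t h3
    have h5 := h4.sub ((hasDerivAt_id t).mul_const (‖d‖ ^ 2))
    rw [one_mul] at h5
    exact h5
  have hnonneg : ∀ t ∈ Icc (0 : ℝ) 1,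
      0 ≤ ((2 - Complex.log (γ t)) * d * (starRingEnd ℂ) d).re - ‖d‖ ^ 2 := by
    intro t ht
    have h1 : (2 - Complex.log (γ t)) * d * (starRingEnd ℂ) d =
        (2 - Complex.log (γ t)) * ((‖d‖ ^ 2 : ℝ) : ℂ) := by
      rw [mul_assoc, Complex.mul_conj, Complex.normSq_eq_norm_sq]
    rw [h1, Complex.re_mul_ofReal]
    have h2 : (2 - Complex.log (γ t)).re = 2 - Real.log ‖γ t‖ := by
      simp [Complex.log_re]
    rw [h2]
    have h3 : Real.log ‖γ t‖ ≤ 1 := by
      have hpos : 0 < ‖γ t‖ := by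
        rw [norm_pos_iff]; intro h
        have := hre t ht
        rw [h] at this; simp at this
      rw [Real.log_le_iff_le_exp hpos]
      have := Real.add_one_le_exp (1 : ℝ)
      linarith [hno t ht]
    nlinarith [sq_nonneg ‖d‖]
  have hmono : MonotoneOn k (Icc 0 1) := by
    apply monotoneOn_of_deriv_nonneg (convex_Icc 0 1)
    · intro t ht
      exact (hder t ht).continuousAt.continuousWithinAt
    · intro t ht
      rw [interior_Icc] at ht
      exact (hder t ⟨ht.1.le, ht.2.le⟩).differentiableAt.differentiableWithinAt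
    · intro t ht
      rw [interior_Icc] at ht
      rw [(hder t ⟨ht.1.le, ht.2.le⟩).deriv]
      exact hnonneg t ⟨ht.1.le, ht.2.le⟩
  have h01 := hmono (left_mem_Icc.2 zero_le_one) (right_mem_Icc.2 zero_le_one) zero_le_one
  have hγ0 : γ 0 = a := by simp [hγ]
  have hγ1 : γ 1 = b := by simp [hγ, hd]
  simp only [hk, hγ0, hγ1, zero_mul, sub_zero, one_mul] at h01
  have h6 : ‖d‖ ^ 2 ≤ ((Psi b - Psi a) * (starRingEnd ℂ) d).re := by
    rw [sub_mul, Complex.sub_re]; linarith
  have h7 : ((Psi b - Psi a) * (starRingEnd ℂ) d).re ≤ ‖Psi b - Psi a‖ * ‖d‖ := by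
    refine (Complex.re_le_norm _).trans ?_
    rw [norm_mul, RCLike.norm_conj]
  by_cases hd0 : ‖d‖ = 0
  · rw [hd0]; exact norm_nonneg _
  · have hpos : 0 < ‖d‖ := lt_of_le_of_ne (norm_nonneg _) (Ne.symm hd0)
    by_contra hcon
    push Not at hcon
    nlinarith

theorem expand {a b : ℂ} (ha : 0 ≤ a.re) (hb : 0 ≤ b.re) (ha2 : ‖a‖ < 2) (hb2 : ‖b‖ < 2) :
    ‖b - a‖ ≤ ‖Psi b - Psi a‖ := by
  have key : ∀ c : ℂ, 0 ≤ c.re → Tendsto (fun ε : ℝ => Psi (c + ε)) (𝓝[>] 0) (𝓝 (Psi c)) := by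
    intro c hc
    have h1 : Tendsto (fun ε : ℝ => c + (ε : ℂ)) (𝓝[>] 0) (𝓝 c) := by
      have : Continuous (fun ε : ℝ => c + (ε : ℂ)) := by fun_prop
      have h2 := this.tendsto 0
      simp only [Complex.ofReal_zero, add_zero] at h2
      exact h2.mono_left nhdsWithin_le_nhds
    exact (continuousAt_Psi hc).tendsto.comp h1
  have h1 := ((key b hb).sub (key a ha)).norm
  have h2 : ∀ᶠ ε : ℝ in 𝓝[>] 0, ‖b - a‖ ≤ ‖Psi (b + ε) - Psi (a + ε)‖ := by
    have hs : ∀ c : ℂ, ‖c‖ < 2 → ∀ᶠ ε : ℝ in 𝓝[>] 0, ‖c + ε‖ < 2 := by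
      intro c hc
      have : Continuous (fun ε : ℝ => ‖c + (ε : ℂ)‖) := by fun_prop
      have h2 := this.tendsto 0
      simp only [Complex.ofReal_zero, add_zero] at h2
      exact (h2.mono_left nhdsWithin_le_nhds).eventually (gt_mem_nhds hc)
    filter_upwards [hs a ha2, hs b hb2, self_mem_nhdsWithin] with ε h3 h4 h5
    have h6 := expand_pos (a := a + ε) (b := b + ε) (by simp; linarith [mem_Ioi.1 h5])
      (by simp; linarith [mem_Ioi.1 h5]) h3 h4
    simpa using h6
  exact ge_of_tendsto h1 h2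

theorem injOn_HD : InjOn Psi HD := by
  intro a ha b hb hab
  have := expand ha.1 hb.1 (lt_of_le_of_lt ha.2 one_lt_two) (lt_of_le_of_lt hb.2 one_lt_two)
  rw [hab, sub_self, norm_zero] at this
  have h2 := norm_le_zero_iff.1 this
  exact (sub_eq_zero.1 h2).symm

end Pool.Agent.H18R3
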