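import Pool.Agent.H18R3.LogSol2
set_option autoImplicit false
open Complex Metric Set Filter Topology MeasureTheory

namespace Pool.Agent.H18R3

theorem ff_even (t : ℝ) : ff (-t) = ff t := by simp [ff]

theorem ff_eq {t : ℝ} (h : |t| ≤ 3) : ff t = Real.pi / 2 * sig |t| := by
  rw [ff, min_eq_left h]

theorem sig_pos {t : ℝ} (h0 : 0 < t) (h3 : t ≤ 3) : 0 < sig t := by
  rcases (sig_mem h0.le h3).1.eq_or_lt with h | h
  · have := mm_sig h0.le h3
    rw [← h, mm_zero] at this
    exact absurd this h0.ne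
  · exact h

theorem sig_continuousOn : ContinuousOn sig (Icc 0 3) := by
  have : LipschitzOnWith 1 sig (Icc 0 3) := by
    apply LipschitzOnWith.of_dist_le_mul
    intro z hz w hw
    rw [Real.dist_eq, Real.dist_eq, NNReal.coe_one, one_mul]
    have := sig_lip hz hw
    have h2 := abs_nonneg (z - w)
    linarith
  exact this.continuousOn

theorem two_sub_pos {t : ℝ} (h0 : 0 ≤ t) (h3 : t ≤ 3) : 2 ≤ 2 - Real.log (sig t) := by
  have := sig_mem h0 h3
  have := Real.log_nonpos this.1 this.2
  linarith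

theorem hasDerivAt_sig {t : ℝ} (h0 : 0 < t) (h3 : t < 3) :
    HasDerivAt sig (2 - Real.log (sig t))⁻¹ t := by
  have hn : Icc (0 : ℝ) 3 ∈ 𝓝 t := Icc_mem_nhds h0 h3
  apply HasDerivAt.of_local_left_inverse (f := mm)
  · exact sig_continuousOn.continuousAt hn
  · exact hasDerivAt_mm (sig_pos h0 h3.le)
  · have := two_sub_pos h0.le h3.le
    linarith
  · filter_upwards [hn] with y hy
    exact mm_sig hy.1 hy.2

/-- derivative of the profile -/
noncomputable def dff (t : ℝ) : ℝ := (t / |t|) * (Real.pi / 2 * (2 - Real.log (sig |t|))⁻¹)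

theorem hasDerivAt_ff_pos {t : ℝ} (h0 : 0 < t) (h3 : t < 3) : HasDerivAt ff (dff t) t := by
  have h1 := (hasDerivAt_sig h0 h3).const_mul (Real.pi / 2)
  have e : dff t = Real.pi / 2 * (2 - Real.log (sig t))⁻¹ := by
    rw [dff, abs_of_pos h0, div_self h0.ne', one_mul]
  rw [e]
  apply h1.congr_of_eventuallyEq
  filter_upwards [Ioo_mem_nhds h0 h3] with y hy
  rw [ff_eq (by rw [abs_of_pos hy.1]; exact hy.2.le), abs_of_pos hy.1]

theorem dff_odd (t : ℝ) : dff (-t) = - dff t := by
  simp only [dff, abs_neg]; ring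

theorem hasDerivAt_ff_neg {t : ℝ} (h0 : t < 0) (h3 : -3 < t) : HasDerivAt ff (dff t) t := by
  have h1 := hasDerivAt_ff_pos (t := -t) (by linarith) (by linarith)
  have h2 := h1.comp t (hasDerivAt_neg t)
  have e : (ff ∘ fun y => -y) = ff := by funext y; simp [ff_even]
  have e2 : dff (-t) * -1 = dff t := by rw [dff_odd]; ring
  rw [e2] at h2
  have e3 : (ff ∘ Neg.neg) = ff := by funext y; simp [ff_even]
  rwa [e3] at h2

theorem dff_zero : dff 0 = 0 := by simp [dff]

theorem dff_tendsto : Tendsto dff (𝓝 0) (𝓝 0) := by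
  rw [tendsto_zero_iff_norm_tendsto_zero]
  have hb : ∀ t : ℝ, ‖dff t‖ ≤ (if t = 0 then 0 else
      Real.pi / 2 * |(2 - Real.log (sig |t|))⁻¹|) := by
    intro t
    by_cases h : t = 0
    · rw [h, dff_zero]; simp
    · rw [if_neg h, dff, norm_mul]
      have h1 : ‖t / |t|‖ = 1 := by
        rw [norm_div, Real.norm_eq_abs, Real.norm_eq_abs, abs_abs, div_self (abs_ne_zero.2 h)]
      rw [h1, one_mul, norm_mul, Real.norm_of_nonneg (by positivity), Real.norm_eq_abs]
  have h1 : Tendsto (fun t : ℝ => Real.pi / 2 * |(2 - Real.log (sig |t|))⁻¹|) (𝓝[≠] 0) (𝓝 0) := by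
    have ha : Tendsto (fun t : ℝ => |t|) (𝓝[≠] 0) (𝓝[>] 0) := by
      apply tendsto_nhdsWithin_of_tendsto_nhds_of_eventually_within
      · have := (continuous_abs : Continuous (fun x : ℝ => |x|)).tendsto 0
        rw [abs_zero] at this
        exact this.mono_left nhdsWithin_le_nhds
      · filter_upwards [self_mem_nhdsWithin] with t ht
        exact abs_pos.2 ht
    have hb : Tendsto sig (𝓝[>] 0) (𝓝[>] 0) := by
      apply tendsto_nhdsWithin_of_tendsto_nhds_of_eventually_within
      · have h1 := sig_continuousOn 0 ⟨le_rfl, by norm_num⟩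
        have h2 : Tendsto sig (𝓝[Icc 0 3] 0) (𝓝 0) := by
          have := h1.tendsto
          rwa [sig_zero] at this
        apply h2.mono_left
        rw [← nhdsWithin_Ioc_eq_nhdsGT (show (0 : ℝ) < 3 by norm_num)]
        exact nhdsWithin_mono _ Ioc_subset_Icc_self
      · filter_upwards [Ioc_mem_nhdsGT (show (0 : ℝ) < 3 by norm_num)] with t ht
        exact sig_pos ht.1 ht.2
    have hc : Tendsto (fun s : ℝ => 2 - Real.log s) (𝓝[>] 0) atTop := by
      have := Real.tendsto_log_nhdsGT_zero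
      exact tendsto_atTop_add_const_left _ 2 (tendsto_neg_atBot_atTop.comp this)
    have hd := (tendsto_inv_atTop_zero.comp (hc.comp (hb.comp ha))).abs.const_mul (Real.pi / 2)
    simpa [Function.comp_def] using hd
  have h2 : Tendsto (fun t : ℝ => (if t = 0 then 0 else
      Real.pi / 2 * |(2 - Real.log (sig |t|))⁻¹|)) (𝓝 0) (𝓝 0) := by
    have h3 : Tendsto (fun t : ℝ => (if t = 0 then 0 else
        Real.pi / 2 * |(2 - Real.log (sig |t|))⁻¹|)) (𝓝[≠] 0 ⊔ pure 0) (𝓝 0) := by
      rw [tendsto_sup]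
      refine ⟨?_, ?_⟩
      · apply h1.congr'
        filter_upwards [self_mem_nhdsWithin] with t ht
        rw [if_neg (show t ≠ 0 from ht)]
      · rw [tendsto_pure_left]
        intro s hs
        simpa using mem_of_mem_nhds hs
    rwa [nhdsNE_sup_pure] at h3
  exact squeeze_zero (fun _ => norm_nonneg _) hb h2

theorem dff_continuousAt {t : ℝ} (h : |t| < 3) : ContinuousAt dff t := by
  have hpos : ∀ s : ℝ, 0 < s → s < 3 → ContinuousAt dff s := by
    intro s h0 h3
    have h1 : ContinuousAt (fun s => Real.pi / 2 * (2 - Real.log (sig s))⁻¹) s := by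
      have h2 : ContinuousAt sig s := (hasDerivAt_sig h0 h3).continuousAt
      apply continuousAt_const.mul
      apply ContinuousAt.inv₀
      · exact continuousAt_const.sub (h2.log (sig_pos h0 h3.le).ne')
      · have := two_sub_pos h0.le h3.le
        linarith
    apply h1.congr
    filter_upwards [Ioo_mem_nhds h0 h3] with y hy
    rw [dff, abs_of_pos hy.1, div_self hy.1.ne', one_mul]
  rcases lt_trichotomy t 0 with h1 | h1 | h1
  · have h2 := hpos (-t) (by linarith) (by linarith [(abs_lt.1 h).1])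
    have h3 : ContinuousAt (fun s => - dff (-s)) t :=
      (ContinuousAt.comp (f := fun s : ℝ => -s) h2 continuous_neg.continuousAt).neg
    apply h3.congr
    filter_upwards with s
    rw [dff_odd, neg_neg]
  · rw [h1, ContinuousAt, dff_zero]; exact dff_tendsto
  · exact hpos t h1 (abs_lt.1 h).2

theorem hasDerivAt_ff {t : ℝ} (h : |t| < 3) : HasDerivAt ff (dff t) t := by
  rcases lt_trichotomy t 0 with h1 | h1 | h1
  · exact hasDerivAt_ff_neg h1 (abs_lt.1 h).1
  · rw [h1]
    have h2 : HasDerivWithinAt ff (dff 0) (Ioi 0) 0 ∨ True := Or.inr trivial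
    -- use the general lemma with the open neighbourhood
    have h5 : ∀ y : ℝ, y ≠ 0 → |y| < 3 → HasDerivAt ff (dff y) y := by
      intro y hy hy3
      rcases lt_or_gt_of_ne hy with h | h
      · exact hasDerivAt_ff_neg h (abs_lt.1 hy3).1
      · exact hasDerivAt_ff_pos h (abs_lt.1 hy3).2
    have hr : HasDerivWithinAt ff (dff 0) (Ici 0) 0 := by
      apply hasDerivWithinAt_Ici_of_tendsto_deriv (s := Ioo 0 3)
      · intro y hy
        exact (h5 y hy.1.ne' (by rw [abs_of_pos hy.1]; exact hy.2)).differentiableAt.differentiableWithinAt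
      · exact ff_continuous.continuousWithinAt
      · exact Ioo_mem_nhdsGT (by norm_num)
      · rw [dff_zero]
        apply (dff_tendsto.mono_left nhdsWithin_le_nhds).congr'
        filter_upwards [Ioo_mem_nhdsGT (show (0 : ℝ) < 3 by norm_num)] with y hy
        exact (h5 y hy.1.ne' (by rw [abs_of_pos hy.1]; exact hy.2)).deriv.symm
    have hl : HasDerivWithinAt ff (dff 0) (Iic 0) 0 := by
      apply hasDerivWithinAt_Iic_of_tendsto_deriv (s := Ioo (-3) 0)
      · intro y hy
        exact (h5 y hy.2.ne (by rw [abs_of_neg hy.2]; linarith [hy.1])).differentiableAt.differentiableWithinAt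
      · exact ff_continuous.continuousWithinAt
      · exact Ioo_mem_nhdsLT (by norm_num)
      · rw [dff_zero]
        apply (dff_tendsto.mono_left nhdsWithin_le_nhds).congr'
        filter_upwards [Ioo_mem_nhdsLT (show (-3 : ℝ) < 0 by norm_num)] with y hy
        exact (h5 y hy.2.ne (by rw [abs_of_neg hy.2]; linarith [hy.1])).deriv.symm
    have := hr.union hl
    rwa [Ici_union_Iic, hasDerivWithinAt_univ] at this
  · exact hasDerivAt_ff_pos h1 (abs_lt.1 h).2

theorem contDiffOn_ff : ContDiffOn ℝ 1 ff (Ioo (-3) 3) := by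
  have h : ∀ t ∈ Ioo (-3 : ℝ) 3, |t| < 3 := fun t ht => abs_lt.2 ht
  rw [show (1 : WithTop ℕ∞) = 0 + 1 by norm_num, contDiffOn_succ_iff_deriv_of_isOpen isOpen_Ioo]
  refine ⟨fun t ht => (hasDerivAt_ff (h t ht)).differentiableAt.differentiableWithinAt, by simp, ?_⟩
  rw [contDiffOn_zero]
  intro t ht
  apply ContinuousWithinAt.congr (f := dff)
  · exact (dff_continuousAt (h t ht)).continuousWithinAt
  · intro y hy; exact (hasDerivAt_ff (h y hy)).deriv
  · exact (hasDerivAt_ff (h t ht)).deriv

/-- the profile is not `O(t^{1+α})` -/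
theorem ff_lower {α C : ℝ} (hα : 0 < α) (hC : ∀ᶠ t in 𝓝[>] (0 : ℝ), ff t ≤ C * t ^ (1 + α)) :
    False := by
  have hmt : Tendsto mm (𝓝[>] 0) (𝓝[>] 0) := by
    apply tendsto_nhdsWithin_of_tendsto_nhds_of_eventually_within
    · have := continuous_mm.tendsto 0
      rw [mm_zero] at this
      exact this.mono_left nhdsWithin_le_nhds
    · filter_upwards [Ioc_mem_nhdsGT (show (0 : ℝ) < 1 by norm_num)] with s hs
      have := mm_expand le_rfl hs.1.le hs.2
      rw [mm_zero] at this
      have h1 := hs.1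
      change 0 < mm s
      linarith
  have h1 := hmt.eventually hC
  have h2 : ∀ᶠ s in 𝓝[>] (0 : ℝ), Real.pi / 2 ≤ C * (s ^ (α / (1 + α)) * (3 - Real.log s)) ^ (1 + α) := by
    filter_upwards [h1, Ioc_mem_nhdsGT (show (0 : ℝ) < 1 by norm_num)] with s hs hs1
    have hsI : s ∈ Icc (0 : ℝ) 1 := ⟨hs1.1.le, hs1.2⟩
    have hm0 : 0 ≤ mm s := by
      have := mm_expand le_rfl hsI.1 hsI.2
      rw [mm_zero] at this
      linarith [hsI.1]
    have hm3 : mm s ≤ 3 := by
      have := mm_expand hsI.1 hsI.2 le_rfl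
      rw [mm_one] at this
      linarith [hsI.2]
    rw [ff_eq (by rwa [abs_of_nonneg hm0]), abs_of_nonneg hm0, sig_mm hsI] at hs
    have hl : 0 ≤ 3 - Real.log s := by
      have := Real.log_nonpos hsI.1 hsI.2
      linarith
    have e1 : (s ^ (α / (1 + α)) * (3 - Real.log s)) ^ (1 + α) =
        s ^ α * (3 - Real.log s) ^ (1 + α) := by
      rw [Real.mul_rpow (Real.rpow_nonneg hs1.1.le _) hl, ← Real.rpow_mul hs1.1.le,
        div_mul_cancel₀ _ (by linarith)]
    have e2 : (mm s) ^ (1 + α) = s * (s ^ α * (3 - Real.log s) ^ (1 + α)) := by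
      rw [mm, Real.mul_rpow hs1.1.le hl, Real.rpow_add hs1.1, Real.rpow_one]
      ring
    rw [e2] at hs
    rw [e1]
    have h3 : s * (Real.pi / 2) ≤ s * (C * (s ^ α * (3 - Real.log s) ^ (1 + α))) := by
      linarith
    exact le_of_mul_le_mul_left h3 hs1.1
  have h3 : Tendsto (fun s : ℝ => C * (s ^ (α / (1 + α)) * (3 - Real.log s)) ^ (1 + α))
      (𝓝[>] 0) (𝓝 0) := by
    have ha : 0 < α / (1 + α) := by positivity
    have h4 : Tendsto (fun s : ℝ => s ^ (α / (1 + α))) (𝓝[>] 0) (𝓝 0) := by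
      have : ContinuousAt (fun s : ℝ => s ^ (α / (1 + α))) 0 :=
        Real.continuousAt_rpow_const _ _ (Or.inr ha.le)
      have h5 := this.tendsto
      simp only [Real.zero_rpow ha.ne'] at h5
      exact h5.mono_left nhdsWithin_le_nhds
    have h5 := tendsto_log_mul_rpow_nhdsGT_zero ha
    have h6 : Tendsto (fun s : ℝ => s ^ (α / (1 + α)) * (3 - Real.log s)) (𝓝[>] 0) (𝓝 0) := by
      have := (h4.mul_const 3).sub h5
      simp only [zero_mul, sub_zero] at this
      apply this.congr
      intro s; ring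
    have h7 : ContinuousAt (fun x : ℝ => x ^ (1 + α)) 0 :=
      Real.continuousAt_rpow_const _ _ (Or.inr (by linarith))
    have h8 := h7.tendsto.comp h6
    have e : (0 : ℝ) ^ (1 + α) = 0 := Real.zero_rpow (by linarith)
    rw [e] at h8
    have h9 := h8.const_mul C
    rw [mul_zero] at h9
    exact h9
  have h4 := ge_of_tendsto h3 h2
  linarith [Real.pi_pos]

end Pool.Agent.H18R3
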