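import Pool.Agent.H18R3.LogDom
set_option autoImplicit false
open Complex Metric Set Filter Topology

namespace Pool.Agent.H18R3

/-! ### gluing by zero -/

/-- exit point of a segment -/
theorem exit_point {D : Set ℂ} (hD : IsOpen D) {a c : ℂ} (hc : c ∉ D) :
    ∃ t ∈ Icc (0 : ℝ) 1, a + t * (c - a) ∉ D ∧ ∀ s ∈ Ico (0 : ℝ) t, a + s * (c - a) ∈ D := by
  set S : Set ℝ := {t | t ∈ Icc (0 : ℝ) 1 ∧ a + t * (c - a) ∉ D} with hS
  have hcont : Continuous (fun t : ℝ => a + t * (c - a)) := by fun_prop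
  have hclosed : IsClosed S := by
    have : S = Icc 0 1 ∩ (fun t : ℝ => a + t * (c - a)) ⁻¹' Dᶜ := rfl
    rw [this]
    exact isClosed_Icc.inter (hD.isClosed_compl.preimage hcont)
  have hne : S.Nonempty := ⟨1, ⟨zero_le_one, le_rfl⟩, by simpa using hc⟩
  have hbdd : BddBelow S := ⟨0, fun t ht => ht.1.1⟩
  have hmem := hclosed.csInf_mem hne hbdd
  refine ⟨sInf S, hmem.1, hmem.2, fun s hs => ?_⟩
  by_contra hcon
  have : s ∈ S := ⟨⟨hs.1, hs.2.le.trans hmem.1.2⟩, hcon⟩
  exact absurd (csInf_le hbdd this) (not_le.2 hs.2)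

/-- main estimate: values of a zero extended function along a segment leaving the domain -/
theorem seg_bound {E : Type*} [NormedAddCommGroup E] [NormedSpace ℝ E] {D B : Set ℂ}
    (hD : IsOpen D) (hB : Convex ℝ B) {W : ℂ → E}
    (hW : ContinuousOn W B) (hz : ∀ z ∈ B, z ∉ D → W z = 0) {W' : ℂ → ℂ →L[ℝ] E}
    (hd : ∀ z ∈ D ∩ B, HasFDerivAt W (W' z) z) {K : ℝ} {a c : ℂ} (ha : a ∈ B) (hc : c ∈ B)
    (hcD : c ∉ D) (hK : ∀ t ∈ Icc (0 : ℝ) 1, a + t * (c - a) ∈ D → ‖W' (a + t * (c - a))‖ ≤ K)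
    (hK0 : 0 ≤ K) : ‖W a‖ ≤ K * ‖a - c‖ := by
  obtain ⟨t, ht, htD, hlt⟩ := exit_point (a := a) hD hcD
  have hseg : ∀ s ∈ Icc (0 : ℝ) 1, a + s * (c - a) ∈ B := by
    intro s hs
    have := hB ha hc (a := 1 - s) (b := s) (by linarith [hs.2]) hs.1 (by ring)
    have h2 : (1 - s) • a + s • c = a + s * (c - a) := by
      simp only [Complex.real_smul]; push_cast; ring
    rwa [h2] at this
  set γ : ℝ → ℂ := fun s => a + s * (c - a) with hγ
  have hγd : ∀ s, HasDerivAt γ (c - a) s := by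
    intro s
    have := ((Complex.ofRealCLM.hasDerivAt (x := s)).mul_const (c - a)).const_add a
    simpa [hγ] using this
  have h1 : ContinuousOn (fun s => W (γ s)) (Icc 0 t) := by
    apply hW.comp (fun s _ => (hγd s).continuousAt.continuousWithinAt)
    intro s hs
    exact hseg s ⟨hs.1, hs.2.trans ht.2⟩
  have h2 : ∀ s ∈ Ico (0 : ℝ) t,
      HasDerivWithinAt (fun s => W (γ s)) (W' (γ s) (c - a)) (Ici s) s := by
    intro s hs
    have h3 := hd (γ s) ⟨hlt s hs, hseg s ⟨hs.1, hs.2.le.trans ht.2⟩⟩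
    exact (h3.comp_hasDerivAt s (hγd s)).hasDerivWithinAt
  have h3 : ∀ s ∈ Ico (0 : ℝ) t, ‖W' (γ s) (c - a)‖ ≤ K * ‖c - a‖ := by
    intro s hs
    refine ((W' (γ s)).le_opNorm _).trans ?_
    exact mul_le_mul_of_nonneg_right (hK s ⟨hs.1, hs.2.le.trans ht.2⟩ (hlt s hs)) (norm_nonneg _)
  have h4 := norm_image_sub_le_of_norm_deriv_right_le_segment h1 h2 h3 t ⟨ht.1, le_rfl⟩
  have h5 : W (γ t) = 0 := hz _ (hseg t ht) htD
  have h6 : γ 0 = a := by simp [hγ]
  rw [h5, h6, zero_sub, norm_neg, sub_zero] at h4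
  calc ‖W a‖ ≤ K * ‖c - a‖ * t := h4
    _ ≤ K * ‖c - a‖ * 1 := mul_le_mul_of_nonneg_left ht.2 (mul_nonneg hK0 (norm_nonneg _))
    _ = K * ‖a - c‖ := by rw [mul_one, norm_sub_rev]

theorem glue_lip {E : Type*} [NormedAddCommGroup E] [NormedSpace ℝ E] {D B : Set ℂ}
    (hD : IsOpen D) (hB : Convex ℝ B) {W : ℂ → E}
    (hW : ContinuousOn W B) (hz : ∀ z ∈ B, z ∉ D → W z = 0) {W' : ℂ → ℂ →L[ℝ] E}
    (hd : ∀ z ∈ D ∩ B, HasFDerivAt W (W' z) z) {K : ℝ} (hK : ∀ z ∈ D ∩ B, ‖W' z‖ ≤ K)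
    (hK0 : 0 ≤ K) {a b : ℂ} (ha : a ∈ B) (hb : b ∈ B) : ‖W a - W b‖ ≤ K * ‖a - b‖ := by
  have hseg : ∀ x ∈ B, ∀ y ∈ B, ∀ s ∈ Icc (0 : ℝ) 1, x + s * (y - x) ∈ B := by
    intro x hx y hy s hs
    have := hB hx hy (a := 1 - s) (b := s) (by linarith [hs.2]) hs.1 (by ring)
    have h2 : (1 - s) • x + s • y = x + s * (y - x) := by
      simp only [Complex.real_smul]; push_cast; ring
    rwa [h2] at this
  by_cases h : ∀ s ∈ Icc (0 : ℝ) 1, b + s * (a - b) ∈ D
  · have h1 := Convex.norm_image_sub_le_of_norm_hasFDerivWithin_le (𝕜 := ℝ) (f := W) (f' := W')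
      (s := segment ℝ b a) (C := K) (x := b) (y := a) (fun z hz' => ?_) (fun z hz' => ?_)
      (convex_segment b a) (left_mem_segment ℝ b a) (right_mem_segment ℝ b a)
    · exact h1
    · rw [segment_eq_image'] at hz'
      obtain ⟨s, hs, rfl⟩ := hz'
      have h2 : b + s • (a - b) = b + s * (a - b) := by simp
      simp only [h2]
      exact (hd _ ⟨h s hs, hseg b hb a ha s hs⟩).hasFDerivWithinAt
    · rw [segment_eq_image'] at hz'
      obtain ⟨s, hs, rfl⟩ := hz'
      have h2 : b + s • (a - b) = b + s * (a - b) := by simp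
      simp only [h2]
      exact hK _ ⟨h s hs, hseg b hb a ha s hs⟩
  · push Not at h
    obtain ⟨s, hs, hsD⟩ := h
    set c := b + s * (a - b) with hc
    have hcB : c ∈ B := hseg b hb a ha s hs
    have h1 := seg_bound hD hB hW hz hd ha hcB hsD
      (fun t ht h => hK _ ⟨h, hseg a ha c hcB t ht⟩) hK0
    have h2 := seg_bound hD hB hW hz hd hb hcB hsD
      (fun t ht h => hK _ ⟨h, hseg b hb c hcB t ht⟩) hK0
    have h3 : ‖a - c‖ = (1 - s) * ‖a - b‖ := by
      have : a - c = ((1 - s : ℝ) : ℂ) * (a - b) := by rw [hc]; push_cast; ring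
      rw [this, norm_mul, Complex.norm_real, Real.norm_of_nonneg (by linarith [hs.2])]
    have h4 : ‖b - c‖ = s * ‖a - b‖ := by
      have : b - c = -((s : ℝ) : ℂ) * (a - b) := by rw [hc]; ring
      rw [this, norm_mul, norm_neg, Complex.norm_real, Real.norm_of_nonneg hs.1]
    calc ‖W a - W b‖ ≤ ‖W a‖ + ‖W b‖ := norm_sub_le _ _
      _ ≤ K * ‖a - c‖ + K * ‖b - c‖ := add_le_add h1 h2
      _ = K * ‖a - b‖ := by rw [h3, h4]; ring

/-! ### the inverse map -/

/-- inverse of `Psi` on the half disc -/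
noncomputable def zet (z : ℂ) : ℂ := Function.invFunOn Psi HD z

theorem zet_mem {z : ℂ} (h : z ∈ Psi '' HD) : zet z ∈ HD := Function.invFunOn_mem h

theorem Psi_zet {z : ℂ} (h : z ∈ Psi '' HD) : Psi (zet z) = z := Function.invFunOn_eq h

theorem zet_Psi {η : ℂ} (h : η ∈ HD) : zet (Psi η) = η :=
  injOn_HD (zet_mem ⟨η, h, rfl⟩) h (Psi_zet ⟨η, h, rfl⟩)

theorem zet_memo {z : ℂ} (h : z ∈ DD ∩ BB) : zet z ∈ HDo := by
  obtain ⟨η, hη, h2⟩ := DD_subset_image h
  rw [← h2, zet_Psi (HDo_subset hη)]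
  exact hη

theorem zet_lip {z w : ℂ} (hz : z ∈ Psi '' HD) (hw : w ∈ Psi '' HD) :
    ‖zet z - zet w‖ ≤ ‖z - w‖ := by
  have h1 := zet_mem hz
  have h2 := zet_mem hw
  have := expand h2.1 h1.1 (lt_of_le_of_lt h2.2 one_lt_two) (lt_of_le_of_lt h1.2 one_lt_two)
  rwa [Psi_zet hz, Psi_zet hw] at this

theorem mem_of_DD {z : ℂ} (h : z ∈ DD ∩ BB) : z ∈ Psi '' HD :=
  image_mono HDo_subset (DD_subset_image h)

theorem continuousOn_zet : ContinuousOn zet (Psi '' HD) := by
  have : LipschitzOnWith 1 zet (Psi '' HD) := by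
    apply LipschitzOnWith.of_dist_le_mul
    intro z hz w hw
    rw [dist_eq_norm, dist_eq_norm, NNReal.coe_one, one_mul]
    exact zet_lip hz hw
  exact this.continuousOn

theorem hasDerivAt_zet {z : ℂ} (h : z ∈ DD ∩ BB) :
    HasDerivAt zet (2 - Complex.log (zet z))⁻¹ z := by
  have h1 := zet_memo h
  have hopen : DD ∩ BB ∈ 𝓝 z := (isOpen_DD.inter isOpen_BB).mem_nhds h
  apply HasDerivAt.of_local_left_inverse (f := Psi)
  · exact continuousOn_zet.continuousAt (Filter.mem_of_superset hopen fun y hy => mem_of_DD hy)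
  · exact hasDerivAt_Psi (Complex.mem_slitPlane_iff.2 (Or.inl h1.1))
  · exact two_sub_log_ne h1.2.le
  · filter_upwards [hopen] with y hy
    exact Psi_zet (mem_of_DD hy)

/-- the complex gradient `u₁ - i u₂` of the solution, inside the domain -/
noncomputable def WW (z : ℂ) : ℂ := ((z.re ^ 2 / 2 : ℝ) : ℂ) + Real.pi ^ 2 / 8 * (zet z) ^ 2

/-- the primitive -/
noncomputable def PP (η : ℂ) : ℂ := η ^ 3 * (7 / 3 - Complex.log η)

/-- the solution inside the domain -/
noncomputable def U0 (z : ℂ) : ℝ := z.re ^ 3 / 6 + Real.pi ^ 2 / 24 * (PP (zet z)).re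

theorem hasDerivAt_PP {η : ℂ} (h : η ∈ Complex.slitPlane) :
    HasDerivAt PP (3 * η ^ 2 * (2 - Complex.log η)) η := by
  have h0 : η ≠ 0 := Complex.slitPlane_ne_zero h
  have h1 := (hasDerivAt_pow 3 η).mul ((Complex.hasDerivAt_log h).const_sub (7 / 3))
  refine h1.congr_deriv ?_
  simp only [Nat.cast_ofNat]
  field_simp
  ring

theorem PP_zero : PP 0 = 0 := by simp [PP]

theorem continuousAt_PP {η : ℂ} (h : 0 ≤ η.re) : ContinuousAt PP η := by
  by_cases h0 : η = 0
  · rw [h0]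
    have : PP = fun η => η ^ 2 * Psi η - (2 / 3) * η ^ 3 := by
      funext η; simp only [PP, Psi]; ring
    rw [this]
    exact ((continuousAt_id.pow 2).mul continuousAt_Psi_zero).sub
      (continuousAt_const.mul (continuousAt_id.pow 3))
  · exact (hasDerivAt_PP (slit_of_re_nonneg h h0)).continuousAt

theorem continuousOn_WW : ContinuousOn WW (Psi '' HD) := by
  apply ContinuousOn.add
  · apply Continuous.continuousOn; fun_prop
  · exact continuousOn_const.mul (continuousOn_zet.pow 2)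

theorem continuousOn_U0 : ContinuousOn U0 (Psi '' HD) := by
  apply ContinuousOn.add
  · apply Continuous.continuousOn; fun_prop
  · apply continuousOn_const.mul
    apply Complex.continuous_re.comp_continuousOn
    intro z hz
    exact (continuousAt_PP (zet_mem hz).1).comp_continuousWithinAt (continuousOn_zet z hz)

/-- on the graph both vanish -/
theorem WW_graph {z : ℂ} (hz : z.re = ff z.im) (h3 : |z.im| ≤ 3) : WW z = 0 := by
  obtain ⟨η, hη, h0, rfl⟩ := exists_of_graph hz h3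
  have h1 := (graph_of_re_zero hη h0).2
  rw [WW, zet_Psi hη, h1]
  have hη2 : η = η.im * I := Complex.ext (by simp [h0]) (by simp)
  have hn : ‖η‖ ^ 2 = η.im ^ 2 := by
    rw [← Complex.normSq_eq_norm_sq, Complex.normSq_apply, h0]; ring
  have h4 : η ^ 2 = -((η.im ^ 2 : ℝ) : ℂ) := by
    conv_lhs => rw [hη2]
    rw [mul_pow, Complex.I_sq]; push_cast; ring
  rw [h4, ← hn]
  push_cast
  ring

theorem U0_graph {z : ℂ} (hz : z.re = ff z.im) (h3 : |z.im| ≤ 3) : U0 z = 0 := by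
  obtain ⟨η, hη, h0, rfl⟩ := exists_of_graph hz h3
  have h1 := (graph_of_re_zero hη h0).2
  rw [U0, zet_Psi hη, h1]
  have hη2 : η = η.im * I := Complex.ext (by simp [h0]) (by simp)
  have hn : ‖η‖ = |η.im| := by
    conv_lhs => rw [hη2]
    simp
  have h4 : η ^ 3 = -(((η.im ^ 3 : ℝ) : ℂ) * I) := by
    conv_lhs => rw [hη2]
    have := Complex.I_sq
    have h5 : I ^ 3 = -I := by rw [pow_succ, this]; ring
    rw [mul_pow, h5]; push_cast; ring
  have h6 : (PP η).re = - (η.im ^ 3 * η.arg) := by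
    rw [PP, h4]
    have : (-(((η.im ^ 3 : ℝ) : ℂ) * I) * (7 / 3 - Complex.log η)) =
        ((η.im ^ 3 : ℝ) : ℂ) * (-(I * (7 / 3 - Complex.log η))) := by ring
    rw [this, Complex.re_ofReal_mul]
    simp [Complex.log_im]
  rw [h6]
  rcases lt_trichotomy η.im 0 with h | h | h
  · have harg : η.arg = -(Real.pi / 2) := Complex.arg_eq_neg_pi_div_two_iff.2 ⟨h0, h⟩
    rw [harg, hn, abs_of_neg h]; ring
  · rw [hn, h]; simp
  · have harg : η.arg = Real.pi / 2 := Complex.arg_eq_pi_div_two_iff.2 ⟨h0, h⟩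
    rw [harg, hn, abs_of_pos h]; ring

open Classical in
/-- gradient extended by zero -/
noncomputable def Wt (z : ℂ) : ℂ := if z ∈ DD then WW z else 0

open Classical in
/-- solution extended by zero -/
noncomputable def Ut (z : ℂ) : ℝ := if z ∈ DD then U0 z else 0

theorem closed_le : IsClosed {z : ℂ | ff z.im ≤ z.re} :=
  isClosed_le (ff_continuous.comp Complex.continuous_im) Complex.continuous_re

theorem mem_image_of_le {z : ℂ} (h : ff z.im ≤ z.re) (hB : z ∈ BB) : z ∈ Psi '' HD := by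
  rcases h.lt_or_eq with h1 | h1
  · exact mem_of_DD ⟨h1, hB⟩
  · obtain ⟨η, hη, _, h2⟩ := exists_of_graph h1.symm (by linarith [hB.2])
    exact ⟨η, hη, h2⟩

theorem continuousOn_glue {E : Type*} [NormedAddCommGroup E] {F G : ℂ → E}
    (hF : ContinuousOn F (Psi '' HD)) (h0 : ∀ z : ℂ, z.re = ff z.im → |z.im| ≤ 3 → F z = 0)
    (hG : ∀ z ∈ DD, G z = F z) (hG0 : ∀ z, z ∉ DD → G z = 0) : ContinuousOn G BB := by
  have h1 : BB = (BB ∩ {z : ℂ | ff z.im ≤ z.re}) ∪ (BB ∩ {z : ℂ | z.re ≤ ff z.im}) := by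
    rw [← inter_union_distrib_left]
    ext z
    simp only [mem_inter_iff, mem_union, mem_setOf_eq]
    constructor
    · intro h; exact ⟨h, le_total _ _⟩
    · exact fun h => h.1
  intro z hz
  have hcl2 : IsClosed {z : ℂ | z.re ≤ ff z.im} :=
    isClosed_le Complex.continuous_re (ff_continuous.comp Complex.continuous_im)
  have hA : ContinuousOn G (BB ∩ {z : ℂ | ff z.im ≤ z.re}) := by
    apply (hF.mono (fun z hz => mem_image_of_le hz.2 hz.1)).congr
    intro y hy
    by_cases h : y ∈ DD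
    · exact hG y h
    · rw [hG0 y h, h0 y (le_antisymm (not_lt.1 h) hy.2) (by linarith [hy.1.2])]
  have hA' : ContinuousOn G (BB ∩ {z : ℂ | z.re ≤ ff z.im}) := by
    apply (continuousOn_const (c := (0 : E))).congr
    intro y hy
    exact hG0 y (fun h => absurd (show ff y.im < y.re from h) (not_lt.2 hy.2))
  have h3 : ContinuousWithinAt G ((BB ∩ {z : ℂ | ff z.im ≤ z.re}) ∪
      (BB ∩ {z : ℂ | z.re ≤ ff z.im})) z := by
    apply ContinuousWithinAt.union
    · by_cases h : z ∈ {z : ℂ | ff z.im ≤ z.re}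
      · exact hA z ⟨hz, h⟩
      · have : (BB ∩ {z : ℂ | ff z.im ≤ z.re}) ⊆ {z : ℂ | ff z.im ≤ z.re} := inter_subset_right
        have h2 : z ∉ closure (BB ∩ {z : ℂ | ff z.im ≤ z.re}) := fun h3 =>
          h ((closure_minimal this closed_le) h3)
        exact continuousWithinAt_of_notMem_closure h2
    · by_cases h : z ∈ {z : ℂ | z.re ≤ ff z.im}
      · exact hA' z ⟨hz, h⟩
      · have : (BB ∩ {z : ℂ | z.re ≤ ff z.im}) ⊆ {z : ℂ | z.re ≤ ff z.im} := inter_subset_right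
        have h2 : z ∉ closure (BB ∩ {z : ℂ | z.re ≤ ff z.im}) := fun h3 =>
          h ((closure_minimal this hcl2) h3)
        exact continuousWithinAt_of_notMem_closure h2
  rwa [← h1] at h3

theorem continuousOn_Wt : ContinuousOn Wt BB :=
  continuousOn_glue continuousOn_WW (fun _ h h' => WW_graph h h')
    (fun z hz => by simp [Wt, hz]) (fun z hz => by simp [Wt, hz])

theorem continuousOn_Ut : ContinuousOn Ut BB :=
  continuousOn_glue continuousOn_U0 (fun _ h h' => U0_graph h h')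
    (fun z hz => by simp [Ut, hz]) (fun z hz => by simp [Ut, hz])

/-- derivative of `WW` as real linear map -/
noncomputable def WW' (z : ℂ) : ℂ →L[ℝ] ℂ :=
  (Complex.ofRealCLM.comp (z.re • Complex.reCLM)) +
    ((ContinuousLinearMap.toSpanSingleton ℂ
      (Real.pi ^ 2 / 4 * zet z * (2 - Complex.log (zet z))⁻¹)).restrictScalars ℝ)

theorem hasFDerivAt_WW {z : ℂ} (h : z ∈ DD ∩ BB) : HasFDerivAt WW (WW' z) z := by
  have h1 := ((hasDerivAt_zet h).pow 2).const_mul ((Real.pi : ℂ) ^ 2 / 8)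
  have h2 : HasFDerivAt (fun z => (Real.pi : ℂ) ^ 2 / 8 * zet z ^ 2)
      ((ContinuousLinearMap.toSpanSingleton ℂ
      (Real.pi ^ 2 / 4 * zet z * (2 - Complex.log (zet z))⁻¹)).restrictScalars ℝ) z := by
    have h3 := (h1.hasFDerivAt).restrictScalars ℝ
    refine h3.congr_fderiv ?_
    congr 1
    congr 1
    simp only [Nat.cast_ofNat]
    ring
  have h4 : HasFDerivAt (fun z : ℂ => ((z.re ^ 2 / 2 : ℝ) : ℂ))
      (Complex.ofRealCLM.comp (z.re • Complex.reCLM)) z := by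
    have h5 : HasFDerivAt (fun z : ℂ => z.re ^ 2 / 2) (z.re • Complex.reCLM) z := by
      have := ((Complex.reCLM.hasFDerivAt (x := z)).pow 2).mul_const (1 / 2 : ℝ)
      have e : (fun z : ℂ => z.re ^ 2 / 2) = fun y => (Complex.reCLM y) ^ 2 * (1 / 2) := by
        funext y
        simp only [Complex.reCLM_apply]
        ring
      rw [e]
      refine this.congr_fderiv ?_
      ext v
      simp
      ring
    exact Complex.ofRealCLM.hasFDerivAt.comp z h5
  exact h4.add h2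

end Pool.Agent.H18R3
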