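import Pool.Agent.H18R3.LogSol
set_option autoImplicit false
open Complex Metric Set Filter Topology MeasureTheory

namespace Pool.Agent.H18R3

theorem norm_inv_le {η : ℂ} (h1 : ‖η‖ ≤ 1) : ‖(2 - Complex.log η)⁻¹‖ ≤ 1 / 2 := by
  rw [norm_inv]
  have h2 := two_sub_log_re h1
  have h3 := Complex.re_le_norm (2 - Complex.log η)
  have h4 : (2 : ℝ) ≤ ‖2 - Complex.log η‖ := h2.trans h3
  rw [one_div]
  exact inv_anti₀ (by norm_num) h4

theorem norm_WW' {z : ℂ} (h : z ∈ DD ∩ BB) : ‖WW' z‖ ≤ 4 := by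
  apply ContinuousLinearMap.opNorm_le_bound _ (by norm_num)
  intro v
  have h1 := zet_memo h
  have hv : WW' z v = ((z.re * v.re : ℝ) : ℂ) +
      v * (Real.pi ^ 2 / 4 * zet z * (2 - Complex.log (zet z))⁻¹) := by
    simp [WW']
  rw [hv]
  have h2 : ‖((z.re * v.re : ℝ) : ℂ)‖ ≤ 21 / 10 * ‖v‖ := by
    rw [Complex.norm_real, norm_mul, Real.norm_eq_abs, Real.norm_eq_abs]
    exact mul_le_mul h.2.1.le (Complex.abs_re_le_norm v) (abs_nonneg _) (by norm_num)
  have h3 : ‖(Real.pi : ℂ) ^ 2 / 4 * zet z * (2 - Complex.log (zet z))⁻¹‖ ≤ 13 / 10 := by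
    rw [norm_mul, norm_mul]
    have e1 : ‖(Real.pi : ℂ) ^ 2 / 4‖ ≤ 26 / 10 := by
      have : (Real.pi : ℂ) ^ 2 / 4 = ((Real.pi ^ 2 / 4 : ℝ) : ℂ) := by push_cast; ring
      rw [this, Complex.norm_real, Real.norm_of_nonneg (by positivity)]
      have := Real.pi_lt_d2
      have := Real.pi_pos
      nlinarith
    calc ‖(Real.pi : ℂ) ^ 2 / 4‖ * ‖zet z‖ * ‖(2 - Complex.log (zet z))⁻¹‖
        ≤ 26 / 10 * 1 * (1 / 2) := by
          apply mul_le_mul _ (norm_inv_le h1.2.le) (norm_nonneg _) (by norm_num)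
          exact mul_le_mul e1 h1.2.le (norm_nonneg _) (by norm_num)
      _ = 13 / 10 := by norm_num
  refine (norm_add_le _ _).trans ?_
  rw [norm_mul]
  have := norm_nonneg v
  nlinarith [mul_le_mul_of_nonneg_left h3 this]

theorem hasFDerivAt_Wt {z : ℂ} (h : z ∈ DD ∩ BB) : HasFDerivAt Wt (WW' z) z := by
  apply (hasFDerivAt_WW h).congr_of_eventuallyEq
  filter_upwards [isOpen_DD.mem_nhds h.1] with y hy
  simp [Wt, hy]

theorem Wt_lip {z w : ℂ} (hz : z ∈ BB) (hw : w ∈ BB) : ‖Wt z - Wt w‖ ≤ 4 * ‖z - w‖ :=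
  glue_lip isOpen_DD convex_BB continuousOn_Wt (fun z _ h => by simp [Wt, h])
    (fun z h => hasFDerivAt_Wt h) (fun z h => norm_WW' h) (by norm_num) hz hw

/-- the real linear functional `v ↦ Re (w v)` -/
noncomputable def LL (w : ℂ) : ℂ →L[ℝ] ℝ :=
  Complex.reCLM.comp ((ContinuousLinearMap.toSpanSingleton ℂ w).restrictScalars ℝ)

theorem LL_apply (w v : ℂ) : LL w v = (v * w).re := by simp [LL]

theorem LL_norm (w : ℂ) : ‖LL w‖ ≤ ‖w‖ := by
  apply ContinuousLinearMap.opNorm_le_bound _ (norm_nonneg _)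
  intro v
  rw [LL_apply, Real.norm_eq_abs]
  refine (Complex.abs_re_le_norm _).trans ?_
  rw [norm_mul, mul_comm]

theorem LL_sub (w w' : ℂ) : LL w - LL w' = LL (w - w') := by
  ext v
  simp only [ContinuousLinearMap.sub_apply, LL_apply]
  rw [← Complex.sub_re]; ring_nf

theorem hasDerivAt_PPzet {z : ℂ} (h : z ∈ DD ∩ BB) :
    HasDerivAt (fun z => PP (zet z)) (3 * zet z ^ 2) z := by
  have h1 := zet_memo h
  have h2 := (hasDerivAt_PP (Complex.mem_slitPlane_iff.2 (Or.inl h1.1))).comp z (hasDerivAt_zet h)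
  have h3 : 3 * zet z ^ 2 * (2 - Complex.log (zet z)) * (2 - Complex.log (zet z))⁻¹ =
      3 * zet z ^ 2 := by
    rw [mul_assoc, mul_inv_cancel₀ (two_sub_log_ne h1.2.le), mul_one]
  rw [h3] at h2
  exact h2

theorem hasFDerivAt_U0 {z : ℂ} (h : z ∈ DD ∩ BB) : HasFDerivAt U0 (LL (WW z)) z := by
  have h1 : HasFDerivAt (fun z => (PP (zet z)).re) (LL (3 * zet z ^ 2)) z :=
    Complex.reCLM.hasFDerivAt.comp z ((hasDerivAt_PPzet h).hasFDerivAt.restrictScalars ℝ)
  have h2 := (((Complex.reCLM.hasFDerivAt (x := z)).pow 3).mul_const (1 / 6 : ℝ)).add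
    (h1.const_mul (Real.pi ^ 2 / 24))
  have e : U0 = fun y => (Complex.reCLM y) ^ 3 * (1 / 6) + Real.pi ^ 2 / 24 * (PP (zet y)).re := by
    funext y
    simp only [Complex.reCLM_apply, U0]
    ring
  rw [e]
  refine h2.congr_fderiv ?_
  ext v
  simp only [ContinuousLinearMap.add_apply, ContinuousLinearMap.smul_apply, LL_apply, WW,
    Complex.reCLM_apply, smul_eq_mul]
  have e2 : v * (((z.re ^ 2 / 2 : ℝ) : ℂ) + (Real.pi : ℂ) ^ 2 / 8 * zet z ^ 2) =
      ((z.re ^ 2 / 2 : ℝ) : ℂ) * v + ((Real.pi ^ 2 / 8 : ℝ) : ℂ) * (v * zet z ^ 2) := by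
    push_cast; ring
  rw [e2, Complex.add_re, Complex.re_ofReal_mul, Complex.re_ofReal_mul]
  have e3 : v * (3 * zet z ^ 2) = ((3 : ℝ) : ℂ) * (v * zet z ^ 2) := by push_cast; ring
  rw [e3, Complex.re_ofReal_mul]
  simp only [nsmul_eq_mul, Nat.cast_ofNat]
  ring

theorem hasFDerivAt_Ut_mem {z : ℂ} (h : z ∈ DD ∩ BB) : HasFDerivAt Ut (LL (Wt z)) z := by
  have h2 : Wt z = WW z := by simp [Wt, h.1]
  rw [h2]
  apply (hasFDerivAt_U0 h).congr_of_eventuallyEq
  filter_upwards [isOpen_DD.mem_nhds h.1] with y hy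
  simp [Ut, hy]

theorem Ut_bound {z c : ℂ} (hz : z ∈ BB) (hc : c ∈ BB) (hcD : c ∉ DD) :
    ‖Ut z‖ ≤ 4 * ‖z - c‖ * ‖z - c‖ := by
  apply seg_bound isOpen_DD convex_BB continuousOn_Ut (fun z _ h => by simp [Ut, h])
    (W' := fun z => LL (Wt z)) (fun z h => hasFDerivAt_Ut_mem h) hz hc hcD
  · intro t ht h
    have h1 : z + t * (c - z) ∈ BB := by
      have := convex_BB hz hc (a := 1 - t) (b := t) (by linarith [ht.2]) ht.1 (by ring)
      have h2 : (1 - t) • z + t • c = z + t * (c - z) := by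
        simp only [Complex.real_smul]; push_cast; ring
      rwa [h2] at this
    refine (LL_norm _).trans ?_
    have h2 := Wt_lip h1 hc
    have h3 : Wt c = 0 := by simp [Wt, hcD]
    rw [h3, sub_zero] at h2
    refine h2.trans ?_
    have h4 : ‖z + t * (c - z) - c‖ = (1 - t) * ‖z - c‖ := by
      have : z + t * (c - z) - c = ((1 - t : ℝ) : ℂ) * (z - c) := by push_cast; ring
      rw [this, norm_mul, Complex.norm_real, Real.norm_of_nonneg (by linarith [ht.2])]
    rw [h4]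
    have := norm_nonneg (z - c)
    nlinarith [ht.1]
  · positivity

theorem hasFDerivAt_Ut {z : ℂ} (h : z ∈ BB) : HasFDerivAt Ut (LL (Wt z)) z := by
  by_cases hD : z ∈ DD
  · exact hasFDerivAt_Ut_mem ⟨hD, h⟩
  · have h0 : Wt z = 0 := by simp [Wt, hD]
    have h1 : LL (Wt z) = 0 := by rw [h0]; ext v; simp [LL_apply]
    rw [h1]
    apply Asymptotics.IsBigO.hasFDerivAt (n := 2) _ (by norm_num)
    apply Asymptotics.IsBigO.of_bound 4
    filter_upwards [isOpen_BB.mem_nhds h] with y hy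
    have := Ut_bound hy h hD
    rw [norm_pow, norm_norm]
    nlinarith

theorem fderiv_Ut {z : ℂ} (h : z ∈ BB) : fderiv ℝ Ut z = LL (Wt z) := (hasFDerivAt_Ut h).fderiv

theorem fderiv_Ut_lip : LipschitzOnWith 4 (fderiv ℝ Ut) BB := by
  apply LipschitzOnWith.of_dist_le_mul
  intro z hz w hw
  rw [dist_eq_norm, dist_eq_norm, fderiv_Ut hz, fderiv_Ut hw, LL_sub]
  exact (LL_norm _).trans (Wt_lip hz hw)

/-- the Laplacian -/
noncomputable def lap (u : ℂ → ℝ) (z : ℂ) : ℝ :=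
  fderiv ℝ (fun y => fderiv ℝ u y 1) z 1 + fderiv ℝ (fun y => fderiv ℝ u y I) z I

theorem lap_Ut {z : ℂ} (h : z ∈ DD ∩ BB) : lap Ut z = z.re := by
  have hW := hasFDerivAt_Wt h
  have key : ∀ v : ℂ, HasFDerivAt (fun y => fderiv ℝ Ut y v)
      (Complex.reCLM.comp (v • WW' z)) z := by
    intro v
    have h1 : HasFDerivAt (fun y => v * Wt y) (v • WW' z) z := hW.const_mul v
    have h2 := Complex.reCLM.hasFDerivAt.comp z h1
    apply h2.congr_of_eventuallyEq
    filter_upwards [isOpen_BB.mem_nhds h.2] with y hy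
    rw [fderiv_Ut hy, LL_apply]
    rfl
  rw [lap, (key 1).fderiv, (key I).fderiv]
  have hv : ∀ v, WW' z v = ((z.re * v.re : ℝ) : ℂ) +
      v * (Real.pi ^ 2 / 4 * zet z * (2 - Complex.log (zet z))⁻¹) := by
    intro v; simp [WW']
  simp only [ContinuousLinearMap.comp_apply, ContinuousLinearMap.smul_apply, hv,
    Complex.reCLM_apply, smul_eq_mul]
  have hI := Complex.I_mul_I
  set C := (Real.pi : ℂ) ^ 2 / 4 * zet z * (2 - Complex.log (zet z))⁻¹ with hC
  have e : I * (((z.re * I.re : ℝ) : ℂ) + I * C) = -C := by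
    simp only [Complex.I_re, mul_zero, Complex.ofReal_zero, zero_add]
    rw [← mul_assoc, hI]; ring
  rw [e]
  simp

theorem lap_zero {u : ℂ → ℝ} {z : ℂ} (h : u =ᶠ[𝓝 z] fun _ => 0) : lap u z = 0 := by
  have key : ∀ v : ℂ, (fun y => fderiv ℝ u y v) =ᶠ[𝓝 z] fun _ => 0 := by
    intro v
    have h2 := h.eventuallyEq_nhds
    filter_upwards [h2] with y hy
    rw [hy.fderiv_eq]
    simp
  rw [lap, (key 1).fderiv_eq, (key I).fderiv_eq]
  simp

theorem contDiffAt_Ut {z : ℂ} (h : z ∈ DD ∩ BB) : ContDiffAt ℝ 2 Ut z := by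
  have h1 : DifferentiableOn ℂ (fun z => PP (zet z)) (DD ∩ BB) := fun y hy =>
    (hasDerivAt_PPzet hy).differentiableAt.differentiableWithinAt
  have h2 : AnalyticAt ℂ (fun z => PP (zet z)) z :=
    h1.analyticAt ((isOpen_DD.inter isOpen_BB).mem_nhds h)
  have h3 : ContDiffAt ℝ 2 (fun z => PP (zet z)) z := (h2.contDiffAt (n := 2)).restrict_scalars ℝ
  have h4 : ContDiffAt ℝ 2 U0 z := by
    apply ContDiffAt.add
    · exact ((Complex.reCLM.contDiff.contDiffAt).pow 3).div_const 6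
    · exact contDiffAt_const.mul (Complex.reCLM.contDiff.contDiffAt.comp z h3)
  apply h4.congr_of_eventuallyEq
  filter_upwards [isOpen_DD.mem_nhds h.1] with y hy
  simp [Ut, hy]

/-! ### frontier -/

theorem closure_DD : closure DD = {z : ℂ | ff z.im ≤ z.re} := by
  apply Subset.antisymm
  · exact closure_minimal (fun z hz => le_of_lt (show ff z.im < z.re from hz)) closed_le
  · intro z hz
    have h1 : Tendsto (fun ε : ℝ => z + (ε : ℂ)) (𝓝[>] 0) (𝓝 z) := by
      have : Continuous (fun ε : ℝ => z + (ε : ℂ)) := by fun_prop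
      have h2 := this.tendsto 0
      simp only [Complex.ofReal_zero, add_zero] at h2
      exact h2.mono_left nhdsWithin_le_nhds
    apply mem_closure_of_tendsto h1
    filter_upwards [self_mem_nhdsWithin] with ε hε
    change ff (z + (ε : ℂ)).im < (z + (ε : ℂ)).re
    have h3 : ff z.im ≤ z.re := hz
    have h4 : (0 : ℝ) < ε := hε
    simp
    linarith

theorem frontier_DD : frontier DD = {z : ℂ | z.re = ff z.im} := by
  rw [isOpen_DD.frontier_eq, closure_DD]
  ext z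
  constructor
  · rintro ⟨h1, h2⟩
    have h1' : ff z.im ≤ z.re := h1
    have h2' : ¬ ff z.im < z.re := h2
    exact le_antisymm (not_lt.1 h2') h1'
  · intro h
    have h' : z.re = ff z.im := h
    exact ⟨h'.ge, fun h2 => absurd h' (ne_of_gt (show ff z.im < z.re from h2))⟩

theorem frontier_null : volume (frontier DD) = 0 := by
  rw [frontier_DD]
  have h1 : MeasurableSet {p : ℝ × ℝ | p.1 = ff p.2} :=
    (isClosed_eq continuous_fst (ff_continuous.comp continuous_snd)).measurableSet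
  have h2 : (volume : Measure (ℝ × ℝ)) {p : ℝ × ℝ | p.1 = ff p.2} = 0 := by
    rw [Measure.volume_eq_prod, Measure.prod_apply_symm h1]
    simp
  have h3 := (Complex.volume_preserving_equiv_real_prod).measure_preimage h1.nullMeasurableSet
  rw [h2] at h3
  exact h3

end Pool.Agent.H18R3
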