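import Pool.Agent.H18R3.CoreLim
import Pool.Agent.H18R3.GraphC1
set_option autoImplicit false
open Complex Metric Set Filter Topology

namespace Pool.Agent.H18R3

theorem graphC1_neg {α β f : ℝ → ℝ} {a m₀ : ℝ} (ha : 0 < a) (hα0 : α 0 = 0)
    (hαc : ContinuousAt α 0)
    (hα : ∀ x, x ≠ 0 → |x| < a → ContDiffAt ℝ 1 α x ∧ deriv α x < 0)
    (hβ : ∀ x, x ≠ 0 → |x| < a → ContDiffAt ℝ 1 β x)
    (hlim : Tendsto (fun x => deriv β x / deriv α x) (𝓝[≠] 0) (𝓝 m₀))
    (hf : ∀ x, |x| < a → f (α x) = β x) (hfc : Continuous f) :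
    ∃ ε : ℝ, 0 < ε ∧ ContDiffOn ℝ 1 f (Ioo (-ε) ε) := by
  have hd : ∀ g : ℝ → ℝ, ∀ x, deriv (fun y => g (-y)) x = -deriv g (-x) := fun g x => deriv_comp_neg g x
  apply graphC1 (α := fun x => α (-x)) (β := fun x => β (-x)) (a := a) (m₀ := m₀) ha
  · simpa using hα0
  · apply ContinuousAt.comp (g := α)
    · simpa using hαc
    · exact continuous_neg.continuousAt
  · intro x hx hxa
    have h := hα (-x) (neg_ne_zero.2 hx) (by rwa [abs_neg])
    refine ⟨?_, ?_⟩
    · exact ContDiffAt.comp (g := α) x h.1 contDiff_neg.contDiffAt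
    · rw [hd]; linarith [h.2]
  · intro x hx hxa
    have h := hβ (-x) (neg_ne_zero.2 hx) (by rwa [abs_neg])
    exact ContDiffAt.comp (g := β) x h contDiff_neg.contDiffAt
  · have hneg : Tendsto (fun x : ℝ => -x) (𝓝[≠] 0) (𝓝[≠] 0) := by
      apply tendsto_nhdsWithin_of_tendsto_nhds_of_eventually_within
      · have := (continuous_neg : Continuous (fun x : ℝ => -x)).tendsto 0
        rw [neg_zero] at this
        exact this.mono_left nhdsWithin_le_nhds
      · filter_upwards [self_mem_nhdsWithin] with x hx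
        exact neg_ne_zero.2 hx
    apply (hlim.comp hneg).congr
    intro x
    simp only [Function.comp, hd]
    rw [neg_div_neg_eq]
  · intro x hx
    exact hf (-x) (by rwa [abs_neg])
  · exact hfc

theorem profileC1 {Z : ℂ → ℂ} {a : ℝ} {b : ℂ} {f : ℝ → ℝ} {K : NNReal} (ha : 0 < a) (hb : b ≠ 0)
    (hZc : ContinuousOn Z {ζ | ‖ζ‖ < a ∧ 0 ≤ ζ.im})
    (hZd : DifferentiableOn ℂ Z {ζ | ‖ζ‖ < a ∧ 0 < ζ.im}) (hZ0 : Z 0 = 0) {ρ : ℂ → ℂ}
    (hρc : ContinuousOn ρ {ζ | ‖ζ‖ < a ∧ 0 ≤ ζ.im})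
    (hρd : DifferentiableOn ℂ ρ {ζ | ‖ζ‖ < a ∧ 0 < ζ.im})
    (hρ : ∀ x : ℝ, |x| < a → ρ x = (((2 * (b * Z x).re) ^ 2 : ℝ) : ℂ))
    {c κ : ℝ} (hc : 0 < c) (hκ : κ < 1)
    (hlow : ∀ᶠ y : ℝ in 𝓝[>] 0, c * y ^ κ ≤ ‖deriv Z (y * I)‖)
    (hfL : LipschitzWith K f) (hgraph : ∀ x : ℝ, |x| < a → (Z x).im = f (Z x).re) :
    ∃ ε : ℝ, 0 < ε ∧ ContDiffOn ℝ 1 f (Ioo (-ε) ε) := by
  obtain ⟨ε, hε, hεa, A₁, A₂, X, hA₁, hA₂, hX, hXZ⟩ := coreExt ha hb hZc hZd hZ0 hρc hρd hρ
  -- lower bound for A₁ + A₂ Lg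
  have hlow' : ∀ᶠ y : ℝ in 𝓝[>] 0, c * y ^ κ ≤ ‖A₁ (y * I) + A₂ (y * I) * Lg (y * I)‖ := by
    filter_upwards [hlow, Ioo_mem_nhdsGT hε] with y hy hy2
    have hn : ‖(y : ℂ) * I‖ = y := by
      rw [norm_mul, Complex.norm_I, mul_one, Complex.norm_real, Real.norm_of_nonneg hy2.1.le]
    have him : ((y : ℂ) * I).im = y := by simp
    have hsl : -I * ((y : ℂ) * I) ∈ Complex.slitPlane := by
      apply slit_of_im_nonneg (by rw [him]; exact hy2.1.le)
      intro h
      rw [h] at him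
      simp at him
      exact hy2.1.ne him
    have h1 := (hX _ (by rw [hn]; exact hy2.2) hsl).1
    have h2 : deriv Z (y * I) = A₁ (y * I) + A₂ (y * I) * Lg (y * I) := by
      rw [← h1.deriv]
      apply Filter.EventuallyEq.deriv_eq
      have ho : IsOpen {ζ : ℂ | ‖ζ‖ < ε ∧ 0 < ζ.im} :=
        (isOpen_lt continuous_norm continuous_const).inter
          (isOpen_lt continuous_const Complex.continuous_im)
      filter_upwards [ho.mem_nhds (show (y : ℂ) * I ∈ {ζ : ℂ | ‖ζ‖ < ε ∧ 0 < ζ.im} from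
        ⟨by rw [hn]; exact hy2.2, by rw [him]; exact hy2.1⟩)] with ζ hζ
      exact (hXZ ζ hζ.1 hζ.2.le).symm
    rwa [← h2]
  obtain ⟨v, hv, μ, hμ, hlim⟩ := coreLim hA₁ hA₂ hc hκ hlow'
  set w : ℝ → ℂ := fun x => A₁ x + A₂ x * Lg x with hw
  set α : ℝ → ℝ := fun x => (Z x).re with hα
  set β : ℝ → ℝ := fun x => (Z x).im with hβ
  have hslit : ∀ x : ℝ, x ≠ 0 → -I * (x : ℂ) ∈ Complex.slitPlane := by
    intro x hx
    exact slit_of_im_nonneg (by simp) (by exact_mod_cast hx)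
  have hevε : ∀ x : ℝ, |x| < ε → ∀ᶠ y : ℝ in 𝓝 x, |y| < ε := by
    intro x hx
    exact ((continuous_abs : Continuous (fun x : ℝ => |x|)).tendsto x).eventually (gt_mem_nhds hx)
  have hZX : ∀ x : ℝ, |x| < ε → Z x = X x := by
    intro x hx
    exact (hXZ x (by simpa using hx) (by simp)).symm
  have hXr : ∀ x : ℝ, x ≠ 0 → |x| < ε → HasDerivAt (fun y : ℝ => X y) (w x) x := by
    intro x hx hxε
    exact (hX x (by simpa using hxε) (hslit x hx)).1.comp_ofReal
  have hαd : ∀ x : ℝ, x ≠ 0 → |x| < ε → HasDerivAt α (w x).re x := by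
    intro x hx hxε
    have h1 : HasDerivAt (fun y : ℝ => (X y).re) (w x).re x :=
      Complex.reCLM.hasFDerivAt.comp_hasDerivAt x (hXr x hx hxε)
    apply h1.congr_of_eventuallyEq
    filter_upwards [hevε x hxε] with y hy
    simp only [hα, hZX y hy]
  have hβd : ∀ x : ℝ, x ≠ 0 → |x| < ε → HasDerivAt β (w x).im x := by
    intro x hx hxε
    have h1 : HasDerivAt (fun y : ℝ => (X y).im) (w x).im x :=
      Complex.imCLM.hasFDerivAt.comp_hasDerivAt x (hXr x hx hxε)
    apply h1.congr_of_eventuallyEq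
    filter_upwards [hevε x hxε] with y hy
    simp only [hβ, hZX y hy]
  have hXc : ∀ x : ℝ, x ≠ 0 → |x| < ε → ContDiffAt ℝ 1 (fun y : ℝ => X y) x := by
    intro x hx hxε
    have h1 := (hX x (by simpa using hxε) (hslit x hx)).2
    have h2 : ContDiffAt ℝ 1 X (x : ℂ) := (h1.contDiffAt (n := 1)).restrict_scalars ℝ
    exact ContDiffAt.comp (g := X) x h2 Complex.ofRealCLM.contDiff.contDiffAt
  have hαC : ∀ x : ℝ, x ≠ 0 → |x| < ε → ContDiffAt ℝ 1 α x := by
    intro x hx hxε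
    have h1 : ContDiffAt ℝ 1 (fun y : ℝ => (X y).re) x :=
      Complex.reCLM.contDiff.contDiffAt.comp x (hXc x hx hxε)
    apply h1.congr_of_eventuallyEq
    filter_upwards [hevε x hxε] with y hy
    simp only [hα, hZX y hy]
  have hβC : ∀ x : ℝ, x ≠ 0 → |x| < ε → ContDiffAt ℝ 1 β x := by
    intro x hx hxε
    have h1 : ContDiffAt ℝ 1 (fun y : ℝ => (X y).im) x :=
      Complex.imCLM.contDiff.contDiffAt.comp x (hXc x hx hxε)
    apply h1.congr_of_eventuallyEq
    filter_upwards [hevε x hxε] with y hy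
    simp only [hβ, hZX y hy]
  have hfab : ∀ x, |x| < a → f (α x) = β x := fun x hx => (hgraph x hx).symm
  -- Lipschitz bound on w
  have hwL : ∀ x : ℝ, x ≠ 0 → |x| < ε → |(w x).im| ≤ K * |(w x).re| := by
    intro x hx hxε
    have h1 := (hasDerivAt_iff_tendsto_slope.1 (hαd x hx hxε)).abs.const_mul (K : ℝ)
    have h2 := (hasDerivAt_iff_tendsto_slope.1 (hβd x hx hxε)).abs
    apply le_of_tendsto_of_tendsto h2 h1
    filter_upwards [(hevε x hxε).filter_mono nhdsWithin_le_nhds] with y hy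
    rw [slope_def_field, slope_def_field, abs_div, abs_div, ← mul_div_assoc]
    apply div_le_div_of_nonneg_right _ (abs_nonneg _)
    rw [← hfab y (lt_of_lt_of_le hy hεa), ← hfab x (lt_of_lt_of_le hxε hεa)]
    have := hfL.dist_le_mul (α y) (α x)
    rwa [Real.dist_eq, Real.dist_eq] at this
  have hre : Tendsto (fun x => (w x).re / μ x) (𝓝[≠] 0) (𝓝 v.re) := by
    have := (Complex.continuous_re.tendsto v).comp hlim
    apply this.congr
    intro x
    simp only [Function.comp]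
    rw [Complex.div_ofReal_re]
  have him : Tendsto (fun x => (w x).im / μ x) (𝓝[≠] 0) (𝓝 v.im) := by
    have := (Complex.continuous_im.tendsto v).comp hlim
    apply this.congr
    intro x
    simp only [Function.comp]
    rw [Complex.div_ofReal_im]
  have hsmall : ∀ᶠ x : ℝ in 𝓝[≠] 0, |x| < ε :=
    (hevε 0 (by simpa using hε)).filter_mono nhdsWithin_le_nhds
  have hvL : |v.im| ≤ K * |v.re| := by
    apply le_of_tendsto_of_tendsto him.abs (hre.abs.const_mul (K : ℝ))
    filter_upwards [hμ, hsmall, self_mem_nhdsWithin] with x h1 h2 h3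
    rw [abs_div, abs_div, ← mul_div_assoc]
    exact div_le_div_of_nonneg_right (hwL x h3 h2) (abs_nonneg _)
  have hvre : v.re ≠ 0 := by
    intro h
    rw [h, abs_zero, mul_zero] at hvL
    exact hv (Complex.ext h (abs_eq_zero.1 (le_antisymm hvL (abs_nonneg _))))
  have hquot : Tendsto (fun x => (w x).im / (w x).re) (𝓝[≠] 0) (𝓝 (v.im / v.re)) := by
    apply (him.div hre hvre).congr'
    filter_upwards [hμ] with x h1
    simp only [Pi.div_apply]
    rw [div_div_div_cancel_right₀ h1.ne']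
  have hα0 : α 0 = 0 := by simp [hα, hZ0]
  have hαc : ContinuousAt α 0 := by
    have h1 : ContinuousOn (fun x : ℝ => (Z x).re) (Ioo (-a) a) := by
      apply Complex.continuous_re.comp_continuousOn
      apply hZc.comp Complex.continuous_ofReal.continuousOn
      intro x hx
      exact ⟨by simpa using abs_lt.2 hx, by simp⟩
    exact h1.continuousAt (Ioo_mem_nhds (by linarith) ha)
  -- derivative quotient limit in terms of deriv
  have hlimd : Tendsto (fun x => deriv β x / deriv α x) (𝓝[≠] 0) (𝓝 (v.im / v.re)) := by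
    apply hquot.congr'
    filter_upwards [hsmall, self_mem_nhdsWithin] with x h1 h2
    rw [(hαd x h2 h1).deriv, (hβd x h2 h1).deriv]
  rcases lt_or_gt_of_ne hvre with hneg | hpos
  · have hs : ∀ᶠ x : ℝ in 𝓝[≠] 0, (w x).re < 0 ∧ |x| < ε := by
      filter_upwards [hre.eventually (gt_mem_nhds hneg), hμ, hsmall] with x h1 h2 h3
      refine ⟨?_, h3⟩
      by_contra hcon
      push Not at hcon
      exact absurd h1 (not_lt.2 (div_nonneg hcon h2.le))
    rw [eventually_nhdsWithin_iff] at hs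
    obtain ⟨δ, hδ, hδ2⟩ := Metric.eventually_nhds_iff.1 hs
    apply graphC1_neg (α := α) (β := β) (a := min δ a) (m₀ := v.im / v.re) (lt_min hδ ha) hα0 hαc
    · intro x hx hxa
      have h1 := hδ2 (y := x) (by simpa using lt_of_lt_of_le hxa (min_le_left _ _)) hx
      refine ⟨hαC x hx h1.2, ?_⟩
      rw [(hαd x hx h1.2).deriv]; exact h1.1
    · intro x hx hxa
      have h1 := hδ2 (y := x) (by simpa using lt_of_lt_of_le hxa (min_le_left _ _)) hx
      exact hβC x hx h1.2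
    · exact hlimd
    · intro x hx
      exact hfab x (lt_of_lt_of_le hx (min_le_right _ _))
    · exact hfL.continuous
  · have hs : ∀ᶠ x : ℝ in 𝓝[≠] 0, 0 < (w x).re ∧ |x| < ε := by
      filter_upwards [hre.eventually (lt_mem_nhds hpos), hμ, hsmall] with x h1 h2 h3
      refine ⟨?_, h3⟩
      by_contra hcon
      push Not at hcon
      exact absurd h1 (not_lt.2 (div_nonpos_of_nonpos_of_nonneg hcon h2.le))
    rw [eventually_nhdsWithin_iff] at hs
    obtain ⟨δ, hδ, hδ2⟩ := Metric.eventually_nhds_iff.1 hs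
    apply graphC1 (α := α) (β := β) (a := min δ a) (m₀ := v.im / v.re) (lt_min hδ ha) hα0 hαc
    · intro x hx hxa
      have h1 := hδ2 (y := x) (by simpa using lt_of_lt_of_le hxa (min_le_left _ _)) hx
      refine ⟨hαC x hx h1.2, ?_⟩
      rw [(hαd x hx h1.2).deriv]; exact h1.1
    · intro x hx hxa
      have h1 := hδ2 (y := x) (by simpa using lt_of_lt_of_le hxa (min_le_left _ _)) hx
      exact hβC x hx h1.2
    · exact hlimd
    · intro x hx
      exact hfab x (lt_of_lt_of_le hx (min_le_right _ _))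
    · exact hfL.continuous

end Pool.Agent.H18R3
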