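import Mathlib
set_option autoImplicit false
open Complex Metric Set Filter Topology MeasureTheory intervalIntegral
open scoped ComplexConjugate Interval

namespace Pool.Agent.H18R3

/-- boundary integral over a rectangle -/
noncomputable def bI (f : ℂ → ℂ) (z w : ℂ) : ℂ :=
  (∫ x : ℝ in z.re..w.re, f (x + z.im * I)) - (∫ x : ℝ in z.re..w.re, f (x + w.im * I)) +
    I • (∫ y : ℝ in z.im..w.im, f (w.re + y * I)) - I • (∫ y : ℝ in z.im..w.im, f (z.re + y * I))

theorem bI_eq_zero {f : ℂ → ℂ} {a : ℝ} (hf : ContinuousOn f (ball 0 a))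
    (hd : DifferentiableOn ℂ f {ζ | ζ ∈ ball (0 : ℂ) a ∧ ζ.im ≠ 0}) {z w : ℂ}
    (hR : Rectangle z w ⊆ ball 0 a) (h0 : (0 : ℝ) ∉ Ioo (min z.im w.im) (max z.im w.im)) :
    bI f z w = 0 := by
  apply integral_boundary_rect_eq_zero_of_continuousOn_of_differentiableOn f z w (hf.mono hR)
  apply hd.mono
  intro ζ hζ
  rw [mem_reProdIm] at hζ
  refine ⟨hR ?_, ?_⟩
  · rw [Rectangle, mem_reProdIm]
    exact ⟨Ioo_subset_Icc_self hζ.1, Ioo_subset_Icc_self hζ.2⟩
  · intro h
    rw [h] at hζ
    exact h0 hζ.2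

theorem bI_split {f : ℂ → ℂ} {a : ℝ} (hf : ContinuousOn f (ball 0 a)) {z w : ℂ}
    (hR : Rectangle z w ⊆ ball 0 a) (h0 : (0 : ℝ) ∈ [[z.im, w.im]]) :
    bI f z w = bI f z (w.re : ℂ) + bI f (z.re : ℂ) w := by
  have hint : ∀ c : ℝ, c ∈ [[z.re, w.re]] → ∀ p q : ℝ, p ∈ [[z.im, w.im]] → q ∈ [[z.im, w.im]] →
      IntervalIntegrable (fun y : ℝ => f (c + y * I)) volume p q := by
    intro c hc p q hp hq
    apply ContinuousOn.intervalIntegrable
    apply hf.comp (by fun_prop)
    intro y hy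
    apply hR
    rw [Rectangle, mem_reProdIm]
    refine ⟨by simpa using hc, ?_⟩
    have := uIcc_subset_uIcc hp hq hy
    simpa using this
  have hz : z.im ∈ [[z.im, w.im]] := left_mem_uIcc
  have hw : w.im ∈ [[z.im, w.im]] := right_mem_uIcc
  have e1 := integral_add_adjacent_intervals (hint w.re right_mem_uIcc _ _ hz h0)
    (hint w.re right_mem_uIcc _ _ h0 hw)
  have e2 := integral_add_adjacent_intervals (hint z.re left_mem_uIcc _ _ hz h0)
    (hint z.re left_mem_uIcc _ _ h0 hw)
  simp only [bI, ofReal_re, ofReal_im]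
  rw [← e1, ← e2]
  simp only [smul_eq_mul]
  ring

theorem holo_of_continuous {f : ℂ → ℂ} {a : ℝ} (hf : ContinuousOn f (ball 0 a))
    (hd : DifferentiableOn ℂ f {ζ | ζ ∈ ball (0 : ℂ) a ∧ ζ.im ≠ 0}) :
    DifferentiableOn ℂ f (ball 0 a) := by
  have hcons : IsConservativeOn f (ball 0 a) := by
    intro z w h
    rw [← add_eq_zero_iff_eq_neg, wedgeIntegral_add_wedgeIntegral_eq]
    change bI f z w = 0
    by_cases h0 : (0 : ℝ) ∈ Ioo (min z.im w.im) (max z.im w.im)
    · have h0' : (0 : ℝ) ∈ [[z.im, w.im]] := Ioo_subset_Icc_self h0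
      rw [bI_split hf h h0']
      have s1 : Rectangle z (w.re : ℂ) ⊆ Rectangle z w := by
        intro ζ hζ
        rw [Rectangle, mem_reProdIm] at hζ ⊢
        refine ⟨by simpa using hζ.1, ?_⟩
        have h3 : ζ.im ∈ [[z.im, 0]] := by simpa using hζ.2
        exact uIcc_subset_uIcc left_mem_uIcc h0' h3
      have s2 : Rectangle (z.re : ℂ) w ⊆ Rectangle z w := by
        intro ζ hζ
        rw [Rectangle, mem_reProdIm] at hζ ⊢
        refine ⟨by simpa using hζ.1, ?_⟩
        have h3 : ζ.im ∈ [[0, w.im]] := by simpa using hζ.2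
        exact uIcc_subset_uIcc h0' right_mem_uIcc h3
      rw [bI_eq_zero hf hd (s1.trans h), bI_eq_zero hf hd (s2.trans h), add_zero]
      · intro h3
        simp only [ofReal_im] at h3
        rcases le_total 0 w.im with h4 | h4
        · rw [min_eq_left h4] at h3; exact lt_irrefl _ h3.1
        · rw [max_eq_left h4] at h3; exact lt_irrefl _ h3.2
      · intro h3
        simp only [ofReal_im] at h3
        rcases le_total z.im 0 with h4 | h4
        · rw [max_eq_right h4] at h3; exact lt_irrefl _ h3.2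
        · rw [min_eq_right h4] at h3; exact lt_irrefl _ h3.1
    · exact bI_eq_zero hf hd h h0
  exact (hcons.isExactOn_ball hf).differentiableOn isOpen_ball

/-- Schwarz reflection across a real interval -/
theorem refl {h : ℂ → ℂ} {a : ℝ} (hc : ContinuousOn h {ζ | ‖ζ‖ < a ∧ 0 ≤ ζ.im})
    (hd : DifferentiableOn ℂ h {ζ | ‖ζ‖ < a ∧ 0 < ζ.im})
    (hr : ∀ x : ℝ, |x| < a → (h x).im = 0) :
    ∃ H : ℂ → ℂ, DifferentiableOn ℂ H (ball 0 a) ∧ ∀ ζ, ‖ζ‖ < a → 0 ≤ ζ.im → H ζ = h ζ := by
  classical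
  set H : ℂ → ℂ := fun ζ => if 0 ≤ ζ.im then h ζ else conj (h (conj ζ)) with hH
  have hup : ∀ ζ, 0 ≤ ζ.im → H ζ = h ζ := fun ζ h0 => by simp [hH, h0]
  have hlow : ∀ ζ, ‖ζ‖ < a → ζ.im ≤ 0 → H ζ = conj (h (conj ζ)) := by
    intro ζ hn h0
    rcases h0.lt_or_eq with h1 | h1
    · simp [hH, not_le.2 h1]
    · have e : conj ζ = ζ := Complex.conj_eq_iff_im.2 h1
      rw [hup ζ h1.ge, e]
      have hre : ζ = (ζ.re : ℂ) := Complex.ext (by simp) (by simp [h1])
      have h2 := hr ζ.re (lt_of_le_of_lt (Complex.abs_re_le_norm ζ) hn)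
      rw [← hre] at h2
      exact (Complex.conj_eq_iff_im.2 h2).symm
  have hcup : ContinuousOn H {ζ | ‖ζ‖ < a ∧ 0 ≤ ζ.im} := hc.congr fun ζ hζ => hup ζ hζ.2
  have hclow : ContinuousOn H {ζ | ‖ζ‖ < a ∧ ζ.im ≤ 0} := by
    have h1 : ContinuousOn (fun ζ => conj (h (conj ζ))) {ζ | ‖ζ‖ < a ∧ ζ.im ≤ 0} := by
      apply Complex.continuous_conj.comp_continuousOn
      apply hc.comp Complex.continuous_conj.continuousOn
      intro ζ hζ
      refine ⟨by simpa using hζ.1, ?_⟩
      simpa using hζ.2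
    exact h1.congr fun ζ hζ => hlow ζ hζ.1 hζ.2
  refine ⟨H, ?_, fun ζ _ h0 => hup ζ h0⟩
  apply holo_of_continuous
  · have hun : ball (0 : ℂ) a = {ζ | ‖ζ‖ < a ∧ 0 ≤ ζ.im} ∪ {ζ | ‖ζ‖ < a ∧ ζ.im ≤ 0} := by
      ext ζ
      simp only [mem_ball_zero_iff, mem_union, mem_setOf_eq]
      constructor
      · intro h1
        rcases le_total 0 ζ.im with h2 | h2
        · exact Or.inl ⟨h1, h2⟩
        · exact Or.inr ⟨h1, h2⟩
      · rintro (h1 | h1) <;> exact h1.1
    intro ζ hζ
    have hζ' : ‖ζ‖ < a := by simpa using hζ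
    rw [hun]
    apply ContinuousWithinAt.union
    · by_cases h0 : 0 ≤ ζ.im
      · exact hcup ζ ⟨hζ', h0⟩
      · apply continuousWithinAt_of_notMem_closure
        intro hcl
        have hcl2 : IsClosed {ζ : ℂ | 0 ≤ ζ.im} := isClosed_le continuous_const Complex.continuous_im
        have := closure_minimal (fun y (hy : y ∈ {ζ : ℂ | ‖ζ‖ < a ∧ 0 ≤ ζ.im}) => hy.2) hcl2 hcl
        exact h0 this
    · by_cases h0 : ζ.im ≤ 0
      · exact hclow ζ ⟨hζ', h0⟩
      · apply continuousWithinAt_of_notMem_closure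
        intro hcl
        have hcl2 : IsClosed {ζ : ℂ | ζ.im ≤ 0} := isClosed_le Complex.continuous_im continuous_const
        have := closure_minimal (fun y (hy : y ∈ {ζ : ℂ | ‖ζ‖ < a ∧ ζ.im ≤ 0}) => hy.2) hcl2 hcl
        exact h0 this
  · rintro ζ ⟨hζ, hne⟩
    have hζ' : ‖ζ‖ < a := by simpa using hζ
    apply DifferentiableAt.differentiableWithinAt
    have hnb : ∀ᶠ y in 𝓝 ζ, ‖y‖ < a := by
      filter_upwards [isOpen_ball.mem_nhds hζ] with y hy
      simpa using hy
    rcases lt_or_gt_of_ne hne with h0 | h0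
    · -- lower
      have hdc : DifferentiableAt ℂ h (conj ζ) := by
        apply hd.differentiableAt
        apply IsOpen.mem_nhds
        · exact (isOpen_lt continuous_norm continuous_const).inter
            (isOpen_lt continuous_const Complex.continuous_im)
        · refine ⟨by simpa using hζ', by simpa using h0⟩
 
      have h1 : DifferentiableAt ℂ (conj ∘ h ∘ conj) ζ := by
        have := DifferentiableAt.conj_conj (𝕜 := ℂ) hdc
        rwa [Complex.conj_conj] at this
      apply h1.congr_of_eventuallyEq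
      filter_upwards [hnb, (isOpen_lt Complex.continuous_im continuous_const).mem_nhds h0]
        with y hy hy2
      exact hlow y hy (le_of_lt hy2)
    · have h1 : DifferentiableAt ℂ h ζ := by
        apply hd.differentiableAt
        apply IsOpen.mem_nhds
        · exact (isOpen_lt continuous_norm continuous_const).inter
            (isOpen_lt continuous_const Complex.continuous_im)
        · exact ⟨hζ', h0⟩
      apply h1.congr_of_eventuallyEq
      filter_upwards [(isOpen_lt continuous_const Complex.continuous_im).mem_nhds h0] with y hy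
      exact hup y (le_of_lt hy)

end Pool.Agent.H18R3
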