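import Mathlib

set_option autoImplicit false

namespace Pool.Agent.H18R3.Switch

open Finset

/-- Greedy signing: process the row values from the largest to the smallest. -/
theorem greedy {ι : Type*} [DecidableEq ι] (ρ : ι → ℤ) :
    ∀ (N : ℕ) (s : Finset ι), s.card = N → (∀ i ∈ s, 0 ≤ ρ i) →
      (∀ j ∈ s, ρ j ≤ 2 + ∑ i ∈ s.filter (fun i => ρ i < ρ j), ρ i) →
      ∀ S : ℤ, |S| ≤ 2 + ∑ i ∈ s, ρ i →
        ∃ x : ι → ℤ, (∀ i, x i = 1 ∨ x i = -1) ∧ |S + ∑ i ∈ s, x i * ρ i| ≤ 2 := by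
  intro N
  induction N with
  | zero =>
    intro s hs _ _ S hS
    have : s = ∅ := Finset.card_eq_zero.mp hs
    subst this
    exact ⟨fun _ => 1, fun _ => Or.inl rfl, by simpa using hS⟩
  | succ N ih =>
    intro s hs hpos hchain S hS
    have hne : s.Nonempty := by
      rw [← Finset.card_pos]; omega
    obtain ⟨j, hj, hmax⟩ := s.exists_max_image ρ hne
    have hcard : (s.erase j).card = N := by
      rw [Finset.card_erase_of_mem hj]; omega
    have hsum : ∑ i ∈ s, ρ i = ρ j + ∑ i ∈ s.erase j, ρ i := (Finset.add_sum_erase s ρ hj).symm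
    have hle : ρ j ≤ 2 + ∑ i ∈ s.erase j, ρ i := by
      refine (hchain j hj).trans ?_
      have : ∑ i ∈ s.filter (fun i => ρ i < ρ j), ρ i ≤ ∑ i ∈ s.erase j, ρ i := by
        apply Finset.sum_le_sum_of_subset_of_nonneg
        · intro i hi
          rw [Finset.mem_filter] at hi
          rw [Finset.mem_erase]
          refine ⟨?_, hi.1⟩
          rintro rfl
          exact lt_irrefl _ hi.2
        · intro i hi _
          exact hpos i (Finset.mem_of_mem_erase hi)
      linarith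
    have hch' : ∀ k ∈ s.erase j,
        ρ k ≤ 2 + ∑ i ∈ (s.erase j).filter (fun i => ρ i < ρ k), ρ i := by
      intro k hk
      have hks := Finset.mem_of_mem_erase hk
      refine (hchain k hks).trans ?_
      apply le_of_eq
      congr 1
      apply Finset.sum_congr _ (fun _ _ => rfl)
      ext i
      simp only [Finset.mem_filter, Finset.mem_erase]
      constructor
      · rintro ⟨h1, h2⟩
        refine ⟨⟨?_, h1⟩, h2⟩
        rintro rfl
        exact absurd (hmax k hks) (not_le.mpr h2)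
      · rintro ⟨⟨_, h1⟩, h2⟩
        exact ⟨h1, h2⟩
    -- the sign at the maximal element
    obtain ⟨e, he, hSe⟩ : ∃ e : ℤ, (e = 1 ∨ e = -1) ∧ |S + e * ρ j| ≤ 2 + ∑ i ∈ s.erase j, ρ i := by
      have hρj := hpos j hj
      rw [hsum] at hS
      rcases le_total 0 S with h0 | h0
      · refine ⟨-1, Or.inr rfl, ?_⟩
        rw [abs_of_nonneg h0] at hS
        rw [abs_le]
        constructor <;> linarith
      · refine ⟨1, Or.inl rfl, ?_⟩
        rw [abs_of_nonpos h0] at hS
        rw [abs_le]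
        constructor <;> linarith
    obtain ⟨x, hx, hxS⟩ := ih (s.erase j) hcard
      (fun i hi => hpos i (Finset.mem_of_mem_erase hi)) hch' (S + e * ρ j) hSe
    refine ⟨fun i => if i = j then e else x i, ?_, ?_⟩
    · intro i
      by_cases hij : i = j
      · simp only [hij, if_true]; exact he
      · simp only [hij, if_false]; exact hx i
    · have : ∑ i ∈ s, (if i = j then e else x i) * ρ i
          = e * ρ j + ∑ i ∈ s.erase j, x i * ρ i := by
        rw [← Finset.add_sum_erase s _ hj]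
        congr 1
        · simp
        · apply Finset.sum_congr rfl
          intro i hi
          rw [if_neg (Finset.ne_of_mem_erase hi)]
      rw [this, ← add_assoc]
      exact hxS

/-- Sum over subsets of a function of the cardinality, after a symmetric difference. -/
theorem sum_symm {n : ℕ} (B : Finset (Fin n)) (f : ℕ → ℚ) :
    ∑ y : Finset (Fin n), f (symmDiff B y).card
      = ∑ k ∈ range (n + 1), (n.choose k : ℚ) * f k := by
  have h1 : ∑ y : Finset (Fin n), f (symmDiff B y).card = ∑ y : Finset (Fin n), f y.card := by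
    apply Fintype.sum_bijective (fun y => symmDiff B y)
    · exact Function.Involutive.bijective (fun y => by simp [symmDiff_symmDiff_cancel_left])
    · intro y; rfl
  rw [h1]
  have h2 := Finset.sum_powerset_apply_card (x := (univ : Finset (Fin n))) f
  rw [Finset.powerset_univ, Finset.card_univ, Fintype.card_fin] at h2
  rw [h2]
  apply Finset.sum_congr rfl
  intro k _
  rw [nsmul_eq_mul]

/-- Row sums in terms of symmetric differences. -/
theorem row_sum {n : ℕ} (a : Fin n → ℤ) (ha : ∀ j, a j = 1 ∨ a j = -1) (y : Finset (Fin n)) :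
    ∑ j, a j * (if j ∈ y then -1 else 1)
      = (n : ℤ) - 2 * ((symmDiff (univ.filter (fun j => a j = -1)) y).card : ℤ) := by
  have h : ∀ j, a j * (if j ∈ y then -1 else 1)
      = 1 - 2 * (if j ∈ symmDiff (univ.filter (fun j => a j = -1)) y then 1 else 0) := by
    intro j
    rcases ha j with h | h <;> by_cases hy : j ∈ y <;>
      simp [h, hy, Finset.mem_symmDiff]
  rw [Finset.sum_congr rfl (fun j _ => h j), Finset.sum_sub_distrib, ← Finset.mul_sum]
  simp

/-- If every index outside K has large weight, the total weight is at least n. -/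
theorem fail_bound {n : ℕ} (w : Fin n → ℚ) (K : Finset (Fin n)) (hK : K.card < n)
    (hw0 : ∀ i, 0 ≤ w i) (hw : ∀ i, i ∉ K → (n : ℚ) ≤ w i * ((n : ℚ) - K.card)) :
    (n : ℚ) ≤ ∑ i, w i := by
  have hd : (0 : ℚ) < (n : ℚ) - K.card := by
    have : (K.card : ℚ) < n := by exact_mod_cast hK
    linarith
  have h1 : ∑ i ∈ Kᶜ, w i ≤ ∑ i, w i :=
    Finset.sum_le_sum_of_subset_of_nonneg (Finset.subset_univ _) (fun i _ _ => hw0 i)
  have h2 : ∑ i ∈ Kᶜ, (n : ℚ) / ((n : ℚ) - K.card) ≤ ∑ i ∈ Kᶜ, w i := by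
    apply Finset.sum_le_sum
    intro i hi
    rw [div_le_iff₀ hd]
    exact hw i (Finset.mem_compl.mp hi)
  have h3 : ∑ i ∈ Kᶜ, (n : ℚ) / ((n : ℚ) - K.card) = n := by
    rw [Finset.sum_const, Finset.card_compl, Fintype.card_fin, nsmul_eq_mul,
      Nat.cast_sub hK.le]
    field_simp
  linarith

/-- The averaging step: some set y satisfies the chain condition. -/
theorem average {n : ℕ} (hn : 0 < n) (B : Fin n → Finset (Fin n)) (W : ℤ → ℚ)
    (hS : ∑ k ∈ range (n + 1), (n.choose k : ℚ) * W |(n : ℤ) - 2 * (k : ℤ)| < 2 ^ n)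
    (hfail : ∀ y : Finset (Fin n),
      (∃ j, ¬ (|(n : ℤ) - 2 * ((symmDiff (B j) y).card : ℤ)| ≤
        2 + ∑ i ∈ univ.filter (fun i => |(n : ℤ) - 2 * ((symmDiff (B i) y).card : ℤ)| <
            |(n : ℤ) - 2 * ((symmDiff (B j) y).card : ℤ)|),
              |(n : ℤ) - 2 * ((symmDiff (B i) y).card : ℤ)|)) →
      (n : ℚ) ≤ ∑ i, W |(n : ℤ) - 2 * ((symmDiff (B i) y).card : ℤ)|) :
    ∃ y : Finset (Fin n), ∀ j, |(n : ℤ) - 2 * ((symmDiff (B j) y).card : ℤ)| ≤
        2 + ∑ i ∈ univ.filter (fun i => |(n : ℤ) - 2 * ((symmDiff (B i) y).card : ℤ)| <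
            |(n : ℤ) - 2 * ((symmDiff (B j) y).card : ℤ)|),
              |(n : ℤ) - 2 * ((symmDiff (B i) y).card : ℤ)| := by
  by_contra hcon
  push Not at hcon
  have h1 : ∀ y : Finset (Fin n),
      (n : ℚ) ≤ ∑ i, W |(n : ℤ) - 2 * ((symmDiff (B i) y).card : ℤ)| := by
    intro y
    apply hfail y
    obtain ⟨j, hj⟩ := hcon y
    exact ⟨j, not_le.mpr hj⟩
  have h2 : ∑ _y : Finset (Fin n), (n : ℚ) ≤
      ∑ y : Finset (Fin n), ∑ i, W |(n : ℤ) - 2 * ((symmDiff (B i) y).card : ℤ)| :=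
    Finset.sum_le_sum (fun y _ => h1 y)
  rw [Finset.sum_comm] at h2
  have h3 : ∀ i : Fin n, ∑ y : Finset (Fin n), W |(n : ℤ) - 2 * ((symmDiff (B i) y).card : ℤ)|
      = ∑ k ∈ range (n + 1), (n.choose k : ℚ) * W |(n : ℤ) - 2 * (k : ℤ)| := by
    intro i
    exact sum_symm (B i) (fun k => W |(n : ℤ) - 2 * (k : ℤ)|)
  rw [Finset.sum_congr rfl (fun i _ => h3 i), Finset.sum_const, Finset.sum_const,
    Finset.card_univ, Finset.card_univ, Fintype.card_fin, Fintype.card_finset,
    Fintype.card_fin, nsmul_eq_mul, nsmul_eq_mul] at h2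
  push_cast at h2
  have hn' : (0 : ℚ) < n := by exact_mod_cast hn
  nlinarith [mul_lt_mul_of_pos_left hS hn']

/-- Symmetric sums, odd case. -/
theorem symm_odd (m : ℕ) (f : ℤ → ℚ) :
    ∑ k ∈ range (2 * m + 1 + 1), ((2 * m + 1).choose k : ℚ) * f |((2 * m + 1 : ℕ) : ℤ) - 2 * (k : ℤ)|
      = 2 * ∑ k ∈ range (m + 1), ((2 * m + 1).choose k : ℚ) * f (2 * m + 1 - 2 * (k : ℤ)) := by
  have e : 2 * m + 1 + 1 = (m + 1) + (m + 1) := by ring
  rw [e, Finset.sum_range_add]
  have h1 : ∑ k ∈ range (m + 1), ((2 * m + 1).choose k : ℚ) *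
        f |((2 * m + 1 : ℕ) : ℤ) - 2 * (k : ℤ)|
      = ∑ k ∈ range (m + 1), ((2 * m + 1).choose k : ℚ) * f (2 * m + 1 - 2 * (k : ℤ)) := by
    apply Finset.sum_congr rfl
    intro k hk
    rw [Finset.mem_range] at hk
    congr 2
    rw [abs_of_nonneg (by push_cast; omega)]
    push_cast; ring
  have h2 : ∑ k ∈ range (m + 1), ((2 * m + 1).choose (m + 1 + k) : ℚ) *
        f |((2 * m + 1 : ℕ) : ℤ) - 2 * ((m + 1 + k : ℕ) : ℤ)|
      = ∑ k ∈ range (m + 1), ((2 * m + 1).choose k : ℚ) * f (2 * m + 1 - 2 * (k : ℤ)) := by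
    rw [← Finset.sum_range_reflect]
    apply Finset.sum_congr rfl
    intro k hk
    rw [Finset.mem_range] at hk
    have h1 : (m + 1) + (m + 1 - 1 - k) = 2 * m + 1 - k := by omega
    rw [h1, Nat.choose_symm (by omega)]
    congr 2
    have h2 : ((2 * m + 1 - k : ℕ) : ℤ) = 2 * m + 1 - k := by
      rw [Nat.cast_sub (by omega)]; push_cast; ring
    rw [h2, abs_of_nonpos (by push_cast; omega)]
    push_cast; ring
  rw [h1, h2]
  ring

/-- Symmetric sums, even case. -/
theorem symm_even (m : ℕ) (f : ℤ → ℚ) :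
    ∑ k ∈ range (2 * m + 1), ((2 * m).choose k : ℚ) * f |((2 * m : ℕ) : ℤ) - 2 * (k : ℤ)|
      = 2 * ∑ k ∈ range m, ((2 * m).choose k : ℚ) * f (2 * m - 2 * (k : ℤ))
        + ((2 * m).choose m : ℚ) * f 0 := by
  have e : 2 * m + 1 = (m + 1) + m := by ring
  rw [e, Finset.sum_range_add, Finset.sum_range_succ]
  have h1 : ∑ k ∈ range m, ((2 * m).choose k : ℚ) * f |((2 * m : ℕ) : ℤ) - 2 * (k : ℤ)|
      = ∑ k ∈ range m, ((2 * m).choose k : ℚ) * f (2 * m - 2 * (k : ℤ)) := by
    apply Finset.sum_congr rfl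
    intro k hk
    rw [Finset.mem_range] at hk
    congr 2
    rw [abs_of_nonneg (by push_cast; omega)]
    push_cast; ring
  have h2 : ∑ k ∈ range m, ((2 * m).choose (m + 1 + k) : ℚ) *
        f |((2 * m : ℕ) : ℤ) - 2 * ((m + 1 + k : ℕ) : ℤ)|
      = ∑ k ∈ range m, ((2 * m).choose k : ℚ) * f (2 * m - 2 * (k : ℤ)) := by
    rw [← Finset.sum_range_reflect]
    apply Finset.sum_congr rfl
    intro k hk
    rw [Finset.mem_range] at hk
    have h1 : (m + 1) + (m - 1 - k) = 2 * m - k := by omega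
    rw [h1, Nat.choose_symm (by omega)]
    congr 2
    have h2 : ((2 * m - k : ℕ) : ℤ) = 2 * m - k := by
      rw [Nat.cast_sub (by omega)]; push_cast; ring
    rw [h2, abs_of_nonpos (by push_cast; omega)]
    push_cast; ring
  have h3 : |((2 * m : ℕ) : ℤ) - 2 * (m : ℤ)| = 0 := by
    rw [abs_eq_zero]; push_cast; ring
  rw [h1, h2, h3]
  ring

/-- Weights in the odd case. -/
def wOdd (m : ℕ) (s : ℤ) : ℚ := if s = 1 then 0 else 2 * m / (2 * m + 3 - s)

/-- Weights in the even case. -/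
def wEven (m : ℕ) (s : ℤ) : ℚ :=
  if s = 0 then 2 * m / (m + 2) else if s = 2 then 0 else 2 * (m - 1) / (2 * m + 2 - s)

theorem sum_odd (m : ℕ) :
    ∑ k ∈ range (2 * m + 1 + 1),
      ((2 * m + 1).choose k : ℚ) * wOdd m |((2 * m + 1 : ℕ) : ℤ) - 2 * (k : ℤ)|
      < 2 ^ (2 * m + 1) := by
  rw [symm_odd, Finset.sum_range_succ]
  have h0 : wOdd m (2 * m + 1 - 2 * (m : ℤ)) = 0 := by
    unfold wOdd
    rw [if_pos (by ring)]
  have h1 : ∑ k ∈ range m, ((2 * m + 1).choose k : ℚ) * wOdd m (2 * m + 1 - 2 * (k : ℤ))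
      = (m / (2 * m + 2)) * ∑ k ∈ range m, ((2 * m + 2).choose (k + 1) : ℚ) := by
    rw [Finset.mul_sum]
    apply Finset.sum_congr rfl
    intro k hk
    rw [Finset.mem_range] at hk
    unfold wOdd
    rw [if_neg (by omega)]
    have hc : ((2 * m + 1 + 1 : ℕ) : ℚ) * ((2 * m + 1).choose k : ℚ)
        = ((2 * m + 2).choose (k + 1) : ℚ) * ((k + 1 : ℕ) : ℚ) := by
      exact_mod_cast Nat.add_one_mul_choose_eq (2 * m + 1) k
    push_cast at hc ⊢
    have hk1 : (k : ℚ) + 1 ≠ 0 := by positivity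
    have hm1 : (2 * m : ℚ) + 2 ≠ 0 := by positivity
    have e1 : (2 * m + 3 - (2 * m + 1 - 2 * (k : ℚ))) = 2 * (k + 1) := by ring
    rw [e1]
    field_simp
    linear_combination (m : ℚ) * hc
  have h2 : ∑ k ∈ range m, ((2 * m + 2).choose (k + 1) : ℚ) ≤ 2 * 4 ^ m := by
    have hp : ∀ k, ((2 * m + 2).choose (k + 1) : ℚ)
        = ((2 * m + 1).choose k : ℚ) + ((2 * m + 1).choose (k + 1) : ℚ) := by
      intro k
      exact_mod_cast Nat.choose_succ_succ (2 * m + 1) k
    rw [Finset.sum_congr rfl (fun k _ => hp k), Finset.sum_add_distrib]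
    have hh : ∑ k ∈ range (m + 1), ((2 * m + 1).choose k : ℚ) = 4 ^ m := by
      exact_mod_cast Nat.sum_range_choose_halfway m
    have ha : ∑ k ∈ range m, ((2 * m + 1).choose k : ℚ) ≤ 4 ^ m := by
      rw [← hh, Finset.sum_range_succ]
      have : (0 : ℚ) ≤ ((2 * m + 1).choose m : ℚ) := by positivity
      linarith
    have hb : ∑ k ∈ range m, ((2 * m + 1).choose (k + 1) : ℚ) ≤ 4 ^ m := by
      rw [← hh, Finset.sum_range_succ']
      have : (0 : ℚ) ≤ ((2 * m + 1).choose 0 : ℚ) := by positivity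
      linarith
    linarith
  rw [h0, h1, mul_zero, add_zero]
  have h3 : (m : ℚ) / (2 * m + 2) < 1 / 2 := by
    rw [div_lt_div_iff₀ (by positivity) (by norm_num)]
    linarith
  have h4 : (2 : ℚ) ^ (2 * m + 1) = 2 * 4 ^ m := by
    rw [pow_succ, pow_mul]; norm_num; ring
  rw [h4]
  have h5 : (0 : ℚ) ≤ (m : ℚ) / (2 * m + 2) := by positivity
  have h6 : (0 : ℚ) < 4 ^ m := by positivity
  calc 2 * ((m : ℚ) / (2 * m + 2) * ∑ k ∈ range m, ((2 * m + 2).choose (k + 1) : ℚ))
      ≤ 2 * ((m : ℚ) / (2 * m + 2) * (2 * 4 ^ m)) := by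
        have := mul_le_mul_of_nonneg_left h2 h5
        linarith
    _ < 2 * (1 / 2 * (2 * 4 ^ m)) := by
        have := mul_lt_mul_of_pos_right h3 (show (0 : ℚ) < 2 * 4 ^ m by positivity)
        linarith
    _ = 2 * 4 ^ m := by ring

theorem sum_even (m : ℕ) :
    ∑ k ∈ range (2 * (m + 1) + 1),
      ((2 * (m + 1)).choose k : ℚ) * wEven (m + 1) |((2 * (m + 1) : ℕ) : ℤ) - 2 * (k : ℤ)|
      < 2 ^ (2 * (m + 1)) := by
  rw [symm_even, Finset.sum_range_succ]
  have h0 : wEven (m + 1) (2 * ((m + 1 : ℕ) : ℤ) - 2 * (m : ℤ)) = 0 := by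
    unfold wEven
    rw [if_neg (by push_cast; omega), if_pos (by push_cast; ring)]
  have h00 : wEven (m + 1) 0 = 2 * (m + 1) / (m + 3) := by
    unfold wEven
    rw [if_pos rfl]
    push_cast
    congr 1
    ring
  have h1 : ∑ k ∈ range m, ((2 * (m + 1)).choose k : ℚ) *
        wEven (m + 1) (2 * ((m + 1 : ℕ) : ℤ) - 2 * (k : ℤ))
      = (m / (2 * m + 3)) * ∑ k ∈ range m, ((2 * (m + 1) + 1).choose (k + 1) : ℚ) := by
    rw [Finset.mul_sum]
    apply Finset.sum_congr rfl
    intro k hk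
    rw [Finset.mem_range] at hk
    unfold wEven
    rw [if_neg (by push_cast; omega), if_neg (by push_cast; omega)]
    have hc : ((2 * (m + 1) + 1 : ℕ) : ℚ) * ((2 * (m + 1)).choose k : ℚ)
        = ((2 * (m + 1) + 1).choose (k + 1) : ℚ) * ((k + 1 : ℕ) : ℚ) := by
      exact_mod_cast Nat.add_one_mul_choose_eq (2 * (m + 1)) k
    push_cast at hc ⊢
    have hk1 : (k : ℚ) + 1 ≠ 0 := by positivity
    have hm1 : (2 * m : ℚ) + 3 ≠ 0 := by positivity
    have e1 : (2 * ((m : ℚ) + 1) + 2 - (2 * (m + 1) - 2 * (k : ℚ))) = 2 * (k + 1) := by ring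
    rw [e1]
    field_simp
    linear_combination (m : ℚ) * hc
  have h2 : ∑ k ∈ range m, ((2 * (m + 1) + 1).choose (k + 1) : ℚ)
      = 4 ^ (m + 1) - 1 - ((2 * (m + 1) + 1).choose (m + 1) : ℚ) := by
    have hh : ∑ k ∈ range (m + 1 + 1), ((2 * (m + 1) + 1).choose k : ℚ) = 4 ^ (m + 1) := by
      exact_mod_cast Nat.sum_range_choose_halfway (m + 1)
    rw [Finset.sum_range_succ, Finset.sum_range_succ'] at hh
    rw [← hh, Nat.choose_zero_right]
    push_cast
    ring
  have h3 : ((m : ℚ) + 2) * ((2 * (m + 1) + 1).choose (m + 1) : ℚ)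
      = (2 * m + 3) * ((2 * (m + 1)).choose (m + 1) : ℚ) := by
    have := Nat.add_one_mul_choose_eq (2 * (m + 1)) (m + 1)
    have hs : (2 * (m + 1) + 1).choose (m + 1 + 1) = (2 * (m + 1) + 1).choose (m + 1) := by
      rw [← Nat.choose_symm (show m + 1 + 1 ≤ 2 * (m + 1) + 1 by omega)]
      congr 1
      omega
    have h' : (2 * (m + 1) + 1) * (2 * (m + 1)).choose (m + 1)
        = (2 * (m + 1) + 1).choose (m + 1) * (m + 1 + 1) := by
      rw [← hs]; exact this
    have h'' : ((2 * (m + 1) + 1 : ℕ) : ℚ) * ((2 * (m + 1)).choose (m + 1) : ℚ)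
        = ((2 * (m + 1) + 1).choose (m + 1) : ℚ) * ((m + 1 + 1 : ℕ) : ℚ) := by
      exact_mod_cast h'
    push_cast at h''
    linear_combination -h''
  have h4 : ((2 * (m + 1)).choose (m + 1) : ℚ) ≤ 4 ^ (m + 1) := by
    have : (2 * (m + 1)).choose (m + 1) ≤ 2 ^ (2 * (m + 1)) := Nat.choose_le_two_pow _ _
    rw [pow_mul] at this
    exact_mod_cast this
  rw [h0, h1, h2, h00, mul_zero, add_zero]
  have h5 : (2 : ℚ) ^ (2 * (m + 1)) = 4 ^ (m + 1) := by
    rw [pow_mul]; norm_num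
  rw [h5]
  set C : ℚ := ((2 * (m + 1)).choose (m + 1) : ℚ) with hC
  set D : ℚ := ((2 * (m + 1) + 1).choose (m + 1) : ℚ) with hD
  set P : ℚ := 4 ^ (m + 1) with hP
  have hPpos : 0 < P := by positivity
  have hDeq : D = (2 * m + 3) * C / (m + 2) := by
    rw [eq_div_iff (by positivity)]
    linear_combination h3
  rw [hDeq]
  have hm0 : (0 : ℚ) ≤ m := by positivity
  have hC0 : 0 ≤ C := by positivity
  have e : P - (2 * ((m : ℚ) / (2 * m + 3) * (P - 1 - (2 * m + 3) * C / (m + 2))) +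
      C * (2 * (m + 1) / (m + 3)))
      = (3 * P * ((m + 2) * (m + 3)) + 2 * m * ((m + 2) * (m + 3)) - 4 * (2 * m + 3) * C)
        / ((2 * m + 3) * (m + 2) * (m + 3)) := by
    field_simp
    ring
  have hpos : 0 < P - (2 * ((m : ℚ) / (2 * m + 3) * (P - 1 - (2 * m + 3) * C / (m + 2))) +
      C * (2 * (m + 1) / (m + 3))) := by
    rw [e]
    apply div_pos
    · have h6 : 4 * (2 * (m : ℚ) + 3) * C ≤ 4 * (2 * m + 3) * P := by
        apply mul_le_mul_of_nonneg_left h4 (by positivity)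
      have h7 : 0 < P * (3 * ((m + 2) * (m + 3)) - 4 * (2 * (m : ℚ) + 3)) := by
        apply mul_pos hPpos
        nlinarith
      have h8 : 0 ≤ 2 * (m : ℚ) * ((m + 2) * (m + 3)) := by positivity
      nlinarith
    · positivity
  linarith

/-- Odd case: if the chain condition fails, the total weight is at least n. -/
theorem fail_odd (m : ℕ) (k : Fin (2 * m + 1) → ℕ) (hk : ∀ i, k i ≤ 2 * m + 1)
    (ρ : Fin (2 * m + 1) → ℤ) (hρ : ∀ i, ρ i = |((2 * m + 1 : ℕ) : ℤ) - 2 * (k i : ℤ)|)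
    (j : Fin (2 * m + 1))
    (hj : ¬ (ρ j ≤ 2 + ∑ i ∈ univ.filter (fun i => ρ i < ρ j), ρ i)) :
    ((2 * m + 1 : ℕ) : ℚ) ≤ ∑ i, wOdd m (ρ i) := by
  have hr1 : ∀ i, 1 ≤ ρ i := by
    intro i
    rw [hρ i]
    rcases abs_cases (((2 * m + 1 : ℕ) : ℤ) - 2 * (k i : ℤ)) with h | h <;> push_cast at h ⊢ <;> omega
  have hr2 : ∀ i, ρ i ≤ 2 * m + 1 := by
    intro i
    have := hk i
    rw [hρ i]
    rcases abs_cases (((2 * m + 1 : ℕ) : ℤ) - 2 * (k i : ℤ)) with h | h <;> push_cast at h ⊢ <;> omega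
  set K : Finset (Fin (2 * m + 1)) := univ.filter (fun i => ρ i < ρ j) with hK
  have hKc : (K.card : ℤ) ≤ ∑ i ∈ K, ρ i := by
    have h := Finset.sum_le_sum (fun (i : Fin (2 * m + 1)) (_ : i ∈ K) => hr1 i)
    simpa using h
  have hKj : (K.card : ℤ) + 3 ≤ ρ j := by
    have := not_le.mp hj
    omega
  have hjn := hr2 j
  have hw : ∀ i, i ∉ K → wOdd m (ρ i) = 2 * m / (2 * m + 3 - ρ i) ∧ ρ j ≤ ρ i := by
    intro i hi
    have h1 : ρ j ≤ ρ i := by
      by_contra hc
      exact hi (by rw [hK, Finset.mem_filter]; exact ⟨Finset.mem_univ _, not_le.mp hc⟩)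
    refine ⟨?_, h1⟩
    unfold wOdd
    rw [if_neg (by omega)]
  have hpos : ∀ i, (0 : ℚ) < 2 * m + 3 - ρ i := by
    intro i
    have : (ρ i : ℚ) ≤ 2 * m + 1 := by exact_mod_cast hr2 i
    linarith
  apply fail_bound (fun i => wOdd m (ρ i)) K
  · have : (K.card : ℤ) < (2 * m + 1 : ℕ) := by push_cast; omega
    exact_mod_cast this
  · intro i
    unfold wOdd
    split_ifs
    · exact le_refl _
    · exact div_nonneg (by positivity) (hpos i).le
  · intro i hi
    obtain ⟨h1, h2⟩ := hw i hi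
    show ((2 * m + 1 : ℕ) : ℚ) ≤ wOdd m (ρ i) * (((2 * m + 1 : ℕ) : ℚ) - K.card)
    rw [h1, div_mul_eq_mul_div, le_div_iff₀ (hpos i)]
    have h3 : (K.card : ℚ) + 3 ≤ ρ i := by
      have : (K.card : ℤ) + 3 ≤ ρ i := hKj.trans h2
      exact_mod_cast this
    have h4 : (3 : ℚ) ≤ ρ i := by
      have : (0 : ℚ) ≤ K.card := by positivity
      linarith
    push_cast
    have hm : (0 : ℚ) ≤ m := by positivity
    nlinarith [mul_nonneg hm (sub_nonneg.mpr h3)]

/-- Even case: if the chain condition fails, the total weight is at least n. -/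
theorem fail_even (m : ℕ) (hm1 : 1 ≤ m) (k : Fin (2 * m) → ℕ) (hk : ∀ i, k i ≤ 2 * m)
    (ρ : Fin (2 * m) → ℤ) (hρ : ∀ i, ρ i = |((2 * m : ℕ) : ℤ) - 2 * (k i : ℤ)|)
    (j : Fin (2 * m))
    (hj : ¬ (ρ j ≤ 2 + ∑ i ∈ univ.filter (fun i => ρ i < ρ j), ρ i)) :
    ((2 * m : ℕ) : ℚ) ≤ ∑ i, wEven m (ρ i) := by
  have hev : ∀ i, ∃ t : ℤ, ρ i = 2 * t ∧ 0 ≤ t ∧ t ≤ m := by
    intro i
    have := hk i
    rw [hρ i]
    rcases abs_cases (((2 * m : ℕ) : ℤ) - 2 * (k i : ℤ)) with h | h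
    · exact ⟨m - k i, by rw [h.1]; push_cast; ring, by push_cast at h; omega, by omega⟩
    · exact ⟨k i - m, by rw [h.1]; push_cast; ring, by push_cast at h; omega, by omega⟩
  choose t ht ht0 htm using hev
  set K : Finset (Fin (2 * m)) := univ.filter (fun i => 0 < ρ i ∧ ρ i < ρ j) with hK
  have hKc : 2 * (K.card : ℤ) ≤ ∑ i ∈ K, ρ i := by
    have h := Finset.sum_le_sum (fun (i : Fin (2 * m)) (hi : i ∈ K) =>
      (show (2 : ℤ) ≤ ρ i by
        rw [hK, Finset.mem_filter] at hi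
        have := hi.2.1
        have := ht i
        omega))
    simp at h
    linarith
  have hKs : ∑ i ∈ K, ρ i ≤ ∑ i ∈ univ.filter (fun i => ρ i < ρ j), ρ i := by
    apply Finset.sum_le_sum_of_subset_of_nonneg
    · intro i hi
      rw [hK, Finset.mem_filter] at hi
      rw [Finset.mem_filter]
      exact ⟨hi.1, hi.2.2⟩
    · intro i _ _
      have := ht i
      have := ht0 i
      omega
  have hKj : (K.card : ℤ) + 2 ≤ t j := by
    have h1 := not_le.mp hj
    have h2 := ht j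
    omega
  have hjn := htm j
  have hpos : ∀ i, (0 : ℚ) < 2 * m + 2 - ρ i := by
    intro i
    have : (ρ i : ℚ) ≤ 2 * m := by
      have : ρ i ≤ 2 * m := by have := ht i; have := htm i; omega
      exact_mod_cast this
    linarith
  have hmQ : (1 : ℚ) ≤ m := by exact_mod_cast hm1
  apply fail_bound (fun i => wEven m (ρ i)) K
  · have : (K.card : ℤ) < (2 * m : ℕ) := by push_cast; omega
    exact_mod_cast this
  · intro i
    unfold wEven
    split_ifs
    · positivity
    · exact le_refl _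
    · exact div_nonneg (by linarith) (hpos i).le
  · intro i hi
    show ((2 * m : ℕ) : ℚ) ≤ wEven m (ρ i) * (((2 * m : ℕ) : ℚ) - K.card)
    have hKjQ : (K.card : ℚ) + 2 ≤ t j := by exact_mod_cast hKj
    have hjnQ : (t j : ℚ) ≤ m := by exact_mod_cast hjn
    by_cases h0 : ρ i = 0
    · unfold wEven
      rw [if_pos h0, div_mul_eq_mul_div, le_div_iff₀ (by positivity)]
      push_cast
      have : (0 : ℚ) ≤ 2 * m * (m - K.card - 2) := by
        apply mul_nonneg (by positivity)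
        linarith
      nlinarith
    · have h1 : ρ j ≤ ρ i := by
        by_contra hc
        apply hi
        rw [hK, Finset.mem_filter]
        refine ⟨Finset.mem_univ _, ?_, not_le.mp hc⟩
        have := ht i
        have := ht0 i
        omega
      have h2 : ρ i ≠ 2 := by
        have := ht j
        omega
      have h3 : (t j : ℚ) ≤ t i := by
        have : t j ≤ t i := by
          have := ht j; have := ht i; omega
        exact_mod_cast this
      have h4 : (ρ i : ℚ) = 2 * t i := by exact_mod_cast ht i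
      have h5 := hpos i
      unfold wEven
      rw [if_neg h0, if_neg h2, div_mul_eq_mul_div, le_div_iff₀ h5]
      rw [h4]
      push_cast
      have h6 : (K.card : ℚ) + 2 ≤ t i := hKjQ.trans h3
      have h7 : (2 : ℚ) ≤ t i := by
        have : (0 : ℚ) ≤ K.card := by positivity
        linarith
      nlinarith [mul_nonneg (show (0 : ℚ) ≤ m - 1 by linarith) (sub_nonneg.mpr h6),
        mul_nonneg (show (0 : ℚ) ≤ m + 1 by linarith) (sub_nonneg.mpr h7)]

theorem main (n : ℕ) (A : Fin n → Fin n → ℤ) (hA : ∀ i j, A i j = 1 ∨ A i j = -1) :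
    ∃ r c : Fin n → ℤ, (∀ i, r i = 1 ∨ r i = -1) ∧ (∀ j, c j = 1 ∨ c j = -1) ∧
      |∑ i, ∑ j, r i * A i j * c j| ≤ 2 := by
  rcases Nat.eq_zero_or_pos n with hn | hn
  · subst hn
    exact ⟨fun _ => 1, fun _ => 1, fun _ => Or.inl rfl, fun _ => Or.inl rfl, by simp⟩
  set B : Fin n → Finset (Fin n) := fun i => univ.filter (fun j => A i j = -1) with hB
  have hcard : ∀ (i : Fin n) (y : Finset (Fin n)), (symmDiff (B i) y).card ≤ n := by
    intro i y
    have := Finset.card_le_univ (symmDiff (B i) y)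
    rwa [Fintype.card_fin] at this
  have key : ∃ y : Finset (Fin n), ∀ j, |(n : ℤ) - 2 * ((symmDiff (B j) y).card : ℤ)| ≤
        2 + ∑ i ∈ univ.filter (fun i => |(n : ℤ) - 2 * ((symmDiff (B i) y).card : ℤ)| <
            |(n : ℤ) - 2 * ((symmDiff (B j) y).card : ℤ)|),
              |(n : ℤ) - 2 * ((symmDiff (B i) y).card : ℤ)| := by
    clear_value B
    rcases Nat.even_or_odd' n with ⟨m, rfl | rfl⟩
    · have hm1 : 1 ≤ m := by omega
      apply average hn B (wEven m)
      · obtain ⟨m', rfl⟩ : ∃ m', m = m' + 1 := ⟨m - 1, by omega⟩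
        exact sum_even m'
      · rintro y ⟨j, hj⟩
        exact fail_even m hm1 (fun i => (symmDiff (B i) y).card) (fun i => hcard i y)
          (fun i => |((2 * m : ℕ) : ℤ) - 2 * ((symmDiff (B i) y).card : ℤ)|) (fun i => rfl) j hj
    · apply average hn B (wOdd m)
      · exact sum_odd m
      · rintro y ⟨j, hj⟩
        exact fail_odd m (fun i => (symmDiff (B i) y).card) (fun i => hcard i y)
          (fun i => |((2 * m + 1 : ℕ) : ℤ) - 2 * ((symmDiff (B i) y).card : ℤ)|) (fun i => rfl) j hj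
  obtain ⟨y, hy⟩ := key
  set R : Fin n → ℤ := fun i => (n : ℤ) - 2 * ((symmDiff (B i) y).card : ℤ) with hR
  obtain ⟨x, hx, hxS⟩ := greedy (fun i => |R i|) n univ (by simp) (fun i _ => abs_nonneg _)
    (fun j _ => hy j) 0 (by
      rw [abs_zero]
      have : 0 ≤ ∑ i, |R i| := Finset.sum_nonneg (fun i _ => abs_nonneg _)
      linarith)
  refine ⟨fun i => x i * (if 0 ≤ R i then 1 else -1), fun j => if j ∈ y then -1 else 1,
    ?_, ?_, ?_⟩
  · intro i
    show x i * (if 0 ≤ R i then 1 else -1) = 1 ∨ x i * (if 0 ≤ R i then 1 else -1) = -1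
    rcases hx i with h | h <;> rw [h] <;> split_ifs <;> simp
  · intro j
    show (if j ∈ y then (-1 : ℤ) else 1) = 1 ∨ (if j ∈ y then (-1 : ℤ) else 1) = -1
    split_ifs <;> simp
  · have hrow : ∀ i, ∑ j, x i * (if 0 ≤ R i then 1 else -1) * A i j * (if j ∈ y then -1 else 1)
        = x i * |R i| := by
      intro i
      have h1 := row_sum (A i) (hA i) y
      have h2 : ∑ j, x i * (if 0 ≤ R i then 1 else -1) * A i j * (if j ∈ y then -1 else 1)
          = x i * (if 0 ≤ R i then 1 else -1) * ∑ j, A i j * (if j ∈ y then -1 else 1) := by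
        rw [Finset.mul_sum]
        apply Finset.sum_congr rfl
        intro j _
        ring
      rw [h2, h1]
      have h3 : ((n : ℤ) - 2 * ((symmDiff (univ.filter (fun j => A i j = -1)) y).card : ℤ)) = R i :=
        rfl
      rw [h3]
      split_ifs with h
      · rw [abs_of_nonneg h]; ring
      · rw [abs_of_neg (not_le.mp h)]; ring
    have h4 : ∑ i, ∑ j, (fun i => x i * (if 0 ≤ R i then 1 else -1)) i * A i j *
        (fun j => if j ∈ y then (-1 : ℤ) else 1) j = ∑ i, x i * |R i| :=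
      Finset.sum_congr rfl (fun i _ => hrow i)
    rw [h4]
    simpa using hxS

end Pool.Agent.H18R3.Switch
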