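import Pool.Agent.Helper546.Weyl

/-!
Continuous weakly harmonic functions; the holomorphic function attached to a planar free
boundary problem with right-hand side equal to the first coordinate.
-/

set_option autoImplicit false
open MeasureTheory Metric Set Filter Topology
open scoped ContDiff InnerProductSpace

namespace Pool.Agent.H18R3
open Pool.Agent.Helper546

theorem lap_eq_zero_of_notMem {ψ : V → ℝ} {x : V} (hx : x ∉ tsupport ψ) : lap ψ x = 0 := by
  have h : ∀ i : Fin 2, dd i (dd i ψ) x = 0 := by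
    intro i
    apply image_eq_zero_of_notMem_tsupport
    intro h
    exact hx (tsupport_dd i ψ (tsupport_dd i (dd i ψ) h))
  rw [lap, h, h, add_zero]

theorem dd_congr {f g : V → ℝ} {x : V} (h : f =ᶠ[𝓝 x] g) (i : Fin 2) :
    dd i f =ᶠ[𝓝 x] dd i g := by
  filter_upwards [h.fderiv (𝕜 := ℝ)] with y hy
  rw [dd, dd, hy]

theorem lap_congr {f g : V → ℝ} {x : V} (h : f =ᶠ[𝓝 x] g) : lap f x = lap g x := by
  rw [lap, lap, (dd_congr (dd_congr h 0) 0).self_of_nhds, (dd_congr (dd_congr h 1) 1).self_of_nhds]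

/-- continuous weakly harmonic functions on an open set are smooth and harmonic -/
theorem weyl_cont {O : Set V} (hO : IsOpen O) {v : V → ℝ} (hv : ContinuousOn v O)
    (hw : ∀ ψ, Tst O ψ → ∫ x, v x * lap ψ x = 0) :
    ContDiffOn ℝ ∞ v O ∧ ∀ x ∈ O, lap v x = 0 := by
  have hloc : ∀ z ∈ O, ∃ s > 0, ball z s ⊆ O ∧ ContDiffOn ℝ ∞ v (ball z s) ∧
      ∀ x ∈ ball z s, lap v x = 0 := by
    intro z hz
    obtain ⟨s, hs, hsub⟩ := nhds_basis_closedBall.mem_iff.1 (hO.mem_nhds hz)
    refine ⟨s, hs, ball_subset_closedBall.trans hsub, ?_⟩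
    set u' : V → ℝ := (ball z s).indicator v with hu'
    have hc : ContinuousOn v (closedBall z s) := hv.mono hsub
    have hmem : MemLp u' 2 := by
      rw [hu', memLp_indicator_iff_restrict measurableSet_ball]
      obtain ⟨C, hC⟩ := (isCompact_closedBall z s).exists_bound_of_continuousOn hc
      have : IsFiniteMeasure ((volume : Measure V).restrict (ball z s)) :=
        ⟨by rw [Measure.restrict_apply_univ]; exact measure_ball_lt_top⟩
      refine MemLp.of_bound ?_ C ?_
      · exact (hc.mono ball_subset_closedBall).aestronglyMeasurable measurableSet_ball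
      · filter_upwards [ae_restrict_mem measurableSet_ball] with x hx
        exact hC x (ball_subset_closedBall hx)
    have hweak : ∀ ψ, Tst (ball z s) ψ → ∫ x, u' x * (lap ψ x + 0 * ψ x) = 0 := by
      intro ψ hψ
      have h1 : ∀ x, u' x * (lap ψ x + 0 * ψ x) = v x * lap ψ x := by
        intro x
        rw [zero_mul, add_zero]
        by_cases hx : x ∈ ball z s
        · rw [hu', indicator_of_mem hx]
        · rw [lap_eq_zero_of_notMem (fun h => hx (hψ.2.2 h)), mul_zero, mul_zero]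
      simp only [h1]
      exact hw ψ (hψ.mono (ball_subset_closedBall.trans hsub))
    obtain ⟨w, hw1, hw2, hw3, -⟩ := weyl isOpen_ball le_rfl hmem hweak
    have heq : EqOn w v (ball z s) := by
      refine Measure.eqOn_open_of_ae_eq (μ := volume) ?_ isOpen_ball hw1.continuousOn
        (hc.mono ball_subset_closedBall)
      rw [Filter.EventuallyEq, ae_restrict_iff' measurableSet_ball]
      filter_upwards [hw2] with x hx hxb
      rw [hx hxb, hu', indicator_of_mem hxb]
    refine ⟨hw1.congr fun x hx => (heq hx).symm, fun x hx => ?_⟩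
    have h2 := hw3 x hx
    have h3 : v =ᶠ[𝓝 x] w := by
      filter_upwards [isOpen_ball.mem_nhds hx] with y hy
      exact (heq hy).symm
    rw [lap_congr h3, h2]
    simp
  constructor
  · intro z hz
    obtain ⟨s, hs, -, h, -⟩ := hloc z hz
    exact ((h.contDiffAt (ball_mem_nhds z hs))).contDiffWithinAt
  · intro z hz
    obtain ⟨s, hs, -, -, h⟩ := hloc z hz
    exact h z (mem_ball_self hs)

/-- the plane as complex numbers -/
noncomputable def EE : ℂ ≃ₗᵢ[ℝ] V := Complex.orthonormalBasisOneI.repr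

theorem EE_zero (z : ℂ) : (EE z) 0 = z.re := by
  simp [EE, Complex.orthonormalBasisOneI_repr_apply]

theorem EE_one (z : ℂ) : (EE z) 1 = z.im := by
  simp [EE, Complex.orthonormalBasisOneI_repr_apply]

theorem EE_1 : EE 1 = ee 0 := by
  ext i; fin_cases i <;> simp [EE_zero, EE_one, ee]

theorem EE_I : EE Complex.I = ee 1 := by
  ext i; fin_cases i <;> simp [EE_zero, EE_one, ee]

theorem cube_dd0 (x : V) : dd 0 (fun y : V => y 0 ^ 3 / 6) x = x 0 ^ 2 / 2 := by
  have h := ((hasFDerivAt_coord 0 x).pow 3).mul_const (1 / 6 : ℝ)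
  have h2 : (fun y : V => y 0 ^ 3 / 6) = fun y : V => y 0 ^ 3 * (1 / 6) := by
    funext y; ring
  rw [dd, h2, h.fderiv]
  simp [ee]; ring

theorem cube_dd1 (x : V) : dd 1 (fun y : V => y 0 ^ 3 / 6) x = 0 := by
  have h := ((hasFDerivAt_coord 0 x).pow 3).mul_const (1 / 6 : ℝ)
  have h2 : (fun y : V => y 0 ^ 3 / 6) = fun y : V => y 0 ^ 3 * (1 / 6) := by
    funext y; ring
  rw [dd, h2, h.fderiv]
  simp [ee]

theorem cube_contDiff : ContDiff ℝ ∞ (fun y : V => y 0 ^ 3 / 6) :=
  ((contDiff_coord 0).pow 3).div_const 6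

theorem cube_lap (x : V) : lap (fun y : V => y 0 ^ 3 / 6) x = x 0 := by
  have h0 : dd 0 (fun y : V => y 0 ^ 3 / 6) = fun x => x 0 ^ 2 / 2 := funext cube_dd0
  have h1 : dd 1 (fun y : V => y 0 ^ 3 / 6) = fun x => 0 := funext cube_dd1
  rw [lap, h0, h1]
  have h := ((hasFDerivAt_coord 0 x).pow 2).mul_const (1 / 2 : ℝ)
  have h2 : (fun y : V => y 0 ^ 2 / 2) = fun y : V => y 0 ^ 2 * (1 / 2) := by
    funext y; ring
  rw [dd, dd, h2, h.fderiv]
  simp [ee]

/-- the holomorphic function of the free boundary problem -/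
noncomputable def QQ (u : V → ℝ) (z : ℂ) : ℂ :=
  ((4 * z.re ^ 2 : ℝ) : ℂ) - 8 * ((dd 0 u (EE z) : ℂ) - Complex.I * (dd 1 u (EE z) : ℂ))

/-- harmonic functions have holomorphic complex gradients -/
theorem grad_holo {O : Set V} (hO : IsOpen O) {v : V → ℝ} (hv : ContDiffOn ℝ ∞ v O)
    (hl : ∀ x ∈ O, lap v x = 0) :
    DifferentiableOn ℂ (fun z => ((dd 0 v (EE z) : ℝ) : ℂ) - Complex.I * ((dd 1 v (EE z) : ℝ) : ℂ))
      (EE ⁻¹' O) := by
  intro z hz
  apply DifferentiableAt.differentiableWithinAt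
  have hzO : EE z ∈ O := hz
  have hd : ∀ i : Fin 2, HasFDerivAt (dd i v) (fderiv ℝ (dd i v) (EE z)) (EE z) := fun i =>
    (((contDiffOn_dd hO i hv).contDiffAt (hO.mem_nhds hzO)).differentiableAt (by simp)).hasFDerivAt
  have hE : HasFDerivAt (fun z : ℂ => EE z) (EE.toContinuousLinearEquiv : ℂ →L[ℝ] V) z :=
    EE.toContinuousLinearEquiv.hasFDerivAt
  have hc : ∀ i : Fin 2, HasFDerivAt (fun z : ℂ => ((dd i v (EE z) : ℝ) : ℂ))
      (Complex.ofRealCLM.comp ((fderiv ℝ (dd i v) (EE z)).comp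
        (EE.toContinuousLinearEquiv : ℂ →L[ℝ] V))) z := fun i =>
    Complex.ofRealCLM.hasFDerivAt.comp z ((hd i).comp z hE)
  have hF := (hc 0).sub ((hc 1).const_mul Complex.I)
  have hsymm : fderiv ℝ (dd 0 v) (EE z) (ee 1) = fderiv ℝ (dd 1 v) (EE z) (ee 0) := by
    have hv2 : ContDiffAt ℝ 2 v (EE z) :=
      (hv.contDiffAt (hO.mem_nhds hzO)).of_le (by norm_cast)
    have h1 : DifferentiableAt ℝ (fderiv ℝ v) (EE z) :=
      (hv2.fderiv_right (m := 1) (by norm_num)).differentiableAt (by norm_num)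
    have h2 : ∀ i : Fin 2, ∀ w : V, fderiv ℝ (dd i v) (EE z) w =
        fderiv ℝ (fderiv ℝ v) (EE z) w (ee i) := by
      intro i w
      have h3 : dd i v = fun y => fderiv ℝ v y (ee i) := rfl
      rw [h3, fderiv_clm_apply h1 (by fun_prop)]
      simp
    rw [h2, h2]
    exact (hv2.isSymmSndFDerivAt (by simp)).eq _ _
  have hlz := hl _ hzO
  rw [lap] at hlz
  have hlz' : fderiv ℝ (dd 0 v) (EE z) (ee 0) + fderiv ℝ (dd 1 v) (EE z) (ee 1) = 0 := hlz
  refine differentiableAt_complex_iff_differentiableAt_real.2 ⟨hF.differentiableAt, ?_⟩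
  have hF' := hF.fderiv
  have hfun : (fun z : ℂ => ((dd 0 v (EE z) : ℝ) : ℂ) - Complex.I * ((dd 1 v (EE z) : ℝ) : ℂ)) =
    (fun z : ℂ => ((dd 0 v (EE z) : ℝ) : ℂ)) - fun z : ℂ => Complex.I * ((dd 1 v (EE z) : ℝ) : ℂ) := rfl
  rw [hfun, hF']
  simp only [sub_apply, ContinuousLinearMap.comp_apply,
    smul_apply, smul_eq_mul, Complex.ofRealCLM_apply]
  have e1 : (EE.toContinuousLinearEquiv : ℂ →L[ℝ] V) Complex.I = ee 1 := EE_I
  have e2 : (EE.toContinuousLinearEquiv : ℂ →L[ℝ] V) 1 = ee 0 := EE_1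
  rw [e1, e2, hsymm]
  have h5 : fderiv ℝ (dd 1 v) (EE z) (ee 1) = - fderiv ℝ (dd 0 v) (EE z) (ee 0) := by linarith
  rw [h5]
  push_cast
  linear_combination (((fderiv ℝ (dd 1 v) (EE z) (ee 0) : ℝ) : ℂ)) * Complex.I_mul_I

/-- The weak equation `lap u = x₀ 1_D` makes `QQ u` holomorphic over `D ∩ ball 0 2`. -/
theorem QQ_holo {D : Set V} (hD : IsOpen D) {u : V → ℝ}
    (hu : DifferentiableOn ℝ u (ball 0 2))
    (hw : ∀ φ : V → ℝ, ContDiff ℝ 2 φ → HasCompactSupport φ → tsupport φ ⊆ ball (0 : V) 2 →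
      ∫ x, u x * lap φ x = ∫ x, x 0 * D.indicator (fun _ => (1 : ℝ)) x * φ x) :
    DifferentiableOn ℂ (QQ u) (EE ⁻¹' (D ∩ ball 0 2)) := by
  set O : Set V := D ∩ ball 0 2 with hO
  have hOo : IsOpen O := hD.inter isOpen_ball
  have huc : ContinuousOn u O := hu.continuousOn.mono inter_subset_right
  set v : V → ℝ := fun x => u x - x 0 ^ 3 / 6 with hv
  have hvc : ContinuousOn v O := huc.sub cube_contDiff.continuous.continuousOn
  have hweak : ∀ ψ, Tst O ψ → ∫ x, v x * lap ψ x = 0 := by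
    intro ψ hψ
    have h1 := hw ψ (hψ.1.of_le (by norm_cast)) hψ.2.1
      (hψ.2.2.trans inter_subset_right)
    have h2 := ibp_lap isOpen_univ (cube_contDiff.contDiffOn) hψ.univ
    simp only [cube_lap] at h2
    have h3 : ∀ x : V, x 0 * D.indicator (fun _ => (1 : ℝ)) x * ψ x = x 0 * ψ x := by
      intro x
      by_cases hx : x ∈ D
      · rw [indicator_of_mem hx, mul_one]
      · have : ψ x = 0 := image_eq_zero_of_notMem_tsupport (fun h => hx (hψ.2.2 h).1)
        rw [this, mul_zero, mul_zero]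
    simp only [h3] at h1
    have hlc : Continuous (lap ψ) := (contDiff_lap hψ.1).continuous
    have hls : tsupport (lap ψ) ⊆ tsupport ψ := by
      refine closure_minimal (fun x hx => ?_) (isClosed_tsupport _)
      by_contra h
      exact hx (lap_eq_zero_of_notMem h)
    have hcs : HasCompactSupport (lap ψ) := hψ.2.1.of_isClosed_subset (isClosed_tsupport _) hls
    have i1 : Integrable (fun x => u x * lap ψ x) :=
      integrable_mul_of_tsupport hOo huc hlc (hls.trans hψ.2.2) hcs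
    have i2 : Integrable (fun x : V => x 0 ^ 3 / 6 * lap ψ x) :=
      integrable_mul_of_tsupport hOo cube_contDiff.continuous.continuousOn hlc
        (hls.trans hψ.2.2) hcs
    have h4 : ∫ x, v x * lap ψ x = (∫ x, u x * lap ψ x) - ∫ x : V, x 0 ^ 3 / 6 * lap ψ x := by
      rw [← integral_sub i1 i2]
      congr 1; funext x; simp only [hv]; ring
    rw [h4, h1, h2, sub_self]
  obtain ⟨hvs, hvl⟩ := weyl_cont hOo hvc hweak
  have hF := grad_holo hOo hvs hvl
  refine (hF.const_mul (-8)).congr ?_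
  intro z hz
  have hzO : EE z ∈ O := hz
  have hud : DifferentiableAt ℝ u (EE z) :=
    (hu _ hzO.2).differentiableAt (isOpen_ball.mem_nhds hzO.2)
  have hcd : DifferentiableAt ℝ (fun y : V => y 0 ^ 3 / 6) (EE z) :=
    cube_contDiff.differentiable (by simp) _
  have hdv : ∀ i : Fin 2, dd i v (EE z) = dd i u (EE z) - dd i (fun y : V => y 0 ^ 3 / 6) (EE z) := by
    intro i
    have : v = u - (fun y : V => y 0 ^ 3 / 6) := rfl
    rw [dd, this, fderiv_sub hud hcd]
    rfl
  simp only [QQ]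
  rw [hdv, hdv, cube_dd0, cube_dd1, EE_zero]
  push_cast
  ring

end Pool.Agent.H18R3
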