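import Pool.Agent.H18R3.WinU

set_option autoImplicit false

namespace Pool.Agent.H18R3.Win

open scoped RealInnerProductSpace

noncomputable def X (k l : ℕ) : ℝ := r k - r l
noncomputable def Y (k l : ℕ) : ℝ := r k * t k - r l * t l
noncomputable def d (k l : ℕ) : ℝ := √(X k l ^ 2 + Y k l ^ 2)

theorem r_lt_small {k l : ℕ} (h : k < l) : 10000 * r l ≤ t k * rho k := by
  have h1 := rem_small (S := k) (k := k) le_rfl
  have h2 : r l ≤ r (k + 1) := r_anti h
  linarith

theorem r_lt_small' {k l : ℕ} (h : k < l) : 10000 * r l ≤ t k * r k * r k := by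
  have h1 := gp_r (S := k) (a := t k) (b := r k) (c := r k) (d := 1)
    (w_le_t' (by omega)) (w_anti (by omega)) (w_anti (by omega)) (one_ge _)
  have h2 : r l ≤ r (k + 1) := r_anti h
  linarith

theorem X_ge {k l : ℕ} (h : k < l) : r k * (999 / 1000) ≤ X k l := by
  have h1 := r_lt_small' h
  have h2 := r_pos k
  have h3 := t_le_one k
  have h4 := r_le k
  have h5 := t_pos k
  unfold X
  have h6 : t k * r k * r k ≤ 1 * r k * 1 := by
    apply mul_le_mul _ (by linarith) h2.le (by linarith)
    apply mul_le_mul_of_nonneg_right h3 h2.le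
  linarith

theorem X_pos {k l : ℕ} (h : k < l) : 0 < X k l := by
  have h1 := X_ge h
  have h2 := r_pos k
  linarith

theorem X_le {k l : ℕ} : X k l ≤ r k := by
  have := r_pos l
  unfold X
  linarith

theorem Y_ge {k l : ℕ} (h : k < l) : t k * X k l ≤ Y k l := by
  have h1 := t_lt h
  have h2 := r_pos l
  have h3 := t_pos l
  unfold X Y
  nlinarith

theorem Y_le {k l : ℕ} (h : k < l) : Y k l ≤ t k * X k l * (1001 / 1000) := by
  have h1 := r_lt_small' h
  have h2 := r_pos l
  have h3 := t_pos l
  have h4 := X_ge h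
  have h5 := t_pos k
  have h6 := t_le_one k
  have h7 := r_pos k
  have h8 := r_le k
  have e : Y k l = t k * X k l + r l * (t k - t l) := by unfold X Y; ring
  rw [e]
  have h9 : r l * (t k - t l) ≤ r l * t k := by nlinarith
  have h10 : r l ≤ X k l / 1000 := by
    have h11 : t k * r k * r k ≤ r k := by
      have : t k * r k ≤ 1 := by nlinarith
      nlinarith
    linarith
  nlinarith

theorem Y_pos {k l : ℕ} (h : k < l) : 0 < Y k l := by
  have h1 := Y_ge h
  have h2 := mul_pos (t_pos k) (X_pos h)
  linarith

theorem Y_le' {k l : ℕ} (h : k < l) : Y k l ≤ X k l / 3 := by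
  have h1 := Y_le h
  have h2 := X_pos h
  have h3 := t_le k
  nlinarith

theorem d_pos {k l : ℕ} (h : k < l) : 0 < d k l := by
  unfold d
  apply Real.sqrt_pos.mpr
  have := X_pos h
  positivity

theorem d_sq {k l : ℕ} : d k l ^ 2 = X k l ^ 2 + Y k l ^ 2 := by
  unfold d
  exact Real.sq_sqrt (by positivity)

theorem X_le_d {k l : ℕ} : X k l ≤ d k l := by
  unfold d
  apply Real.le_sqrt_of_sq_le
  nlinarith [sq_nonneg (Y k l)]

theorem Y_le_d {k l : ℕ} : Y k l ≤ d k l := by
  unfold d
  apply Real.le_sqrt_of_sq_le
  nlinarith [sq_nonneg (X k l)]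

theorem d_le {k l : ℕ} (h : k < l) : d k l ≤ X k l * (11 / 10) := by
  have h1 := Y_le' h
  have h2 := Y_pos h
  have h3 := X_pos h
  have h4 := d_pos h
  have h5 := d_sq (k := k) (l := l)
  nlinarith

theorem d_le_one {k l : ℕ} (h : k < l) : d k l ≤ 1 := by
  have h1 := d_le h
  have h2 := X_le (k := k) (l := l)
  have h3 := r_le k
  linarith

theorem d_ge {k l : ℕ} (h : k < l) : r k / 2 ≤ d k l := by
  have h1 := X_ge h
  have h2 := X_le_d (k := k) (l := l)
  have h3 := r_pos k
  linarith

/-- The planar gap. -/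
theorem gap0 {k l k' l' : ℕ} (h : k < l) (h' : k' < l') :
    X k' l' * (Y k l / X k l - Y k' l' / X k' l') ^ 2 / 8
      ≤ d k' l' - (X k l * X k' l' + Y k l * Y k' l') / d k l := by
  have hX := X_pos h
  have hX' := X_pos h'
  have hY := Y_pos h
  have hY' := Y_pos h'
  have hd := d_pos h
  have hd' := d_pos h'
  have hdle := d_le h
  have hdle' := d_le h'
  have hs := d_sq (k := k) (l := l)
  have hs' := d_sq (k := k') (l := l')
  set x := X k l
  set x' := X k' l'
  set y := Y k l
  set y' := Y k' l'
  set e := d k l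
  set e' := d k' l'
  have key : (e * e' - (x * x' + y * y')) * (e * e' + (x * x' + y * y')) = (x * y' - x' * y) ^ 2 := by
    have : (e * e') ^ 2 = (x ^ 2 + y ^ 2) * (x' ^ 2 + y' ^ 2) := by rw [mul_pow, hs, hs']
    linear_combination this
  have hcs : x * x' + y * y' ≤ e * e' := by
    have h1 : (x * x' + y * y') ^ 2 ≤ (e * e') ^ 2 := by
      rw [mul_pow, hs, hs']
      nlinarith [sq_nonneg (x * y' - x' * y)]
    exact le_of_sq_le_sq h1 (by positivity)
  have h2 : (x * y' - x' * y) ^ 2 ≤ (e * e' - (x * x' + y * y')) * (2 * (e * e')) := by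
    rw [← key]
    apply mul_le_mul_of_nonneg_left _ (by linarith)
    linarith
  have h3 : (x * y' - x' * y) ^ 2 = (x * x') ^ 2 * (y / x - y' / x') ^ 2 := by
    field_simp
    ring
  have h4 : e' - (x * x' + y * y') / e = (e * e' - (x * x' + y * y')) / e := by
    field_simp
  rw [h4, le_div_iff₀ hd]
  have h5 : (x * x') ^ 2 * (y / x - y' / x') ^ 2 / (2 * (e * e')) ≤ e * e' - (x * x' + y * y') := by
    rw [← h3, div_le_iff₀ (by positivity)]
    exact h2
  refine le_trans ?_ h5
  rw [le_div_iff₀ (by positivity)]
  have h6 : e * e * e' ≤ x * x * x' * 4 := by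
    have h7 : e * e ≤ (x * (11 / 10)) * (x * (11 / 10)) := by
      apply mul_le_mul hdle hdle hd.le (by positivity)
    have h8 : e * e * e' ≤ (x * (11 / 10)) * (x * (11 / 10)) * (x' * (11 / 10)) := by
      apply mul_le_mul h7 hdle' hd'.le (by positivity)
    have h9 : 0 < x * x * x' := by positivity
    nlinarith
  have h10 : 0 ≤ x' * (y / x - y' / x') ^ 2 := by positivity
  nlinarith [mul_le_mul_of_nonneg_left h6 h10]

theorem ratio_ge {k l : ℕ} (h : k < l) : t k ≤ Y k l / X k l := by
  rw [le_div_iff₀ (X_pos h)]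
  exact Y_ge h

theorem ratio_le {k l : ℕ} (h : k < l) : Y k l / X k l ≤ t k * (1001 / 1000) := by
  rw [div_le_iff₀ (X_pos h)]
  have := Y_le h
  linarith

theorem ratio_eq {k l : ℕ} (h : k < l) : Y k l / X k l = t k + r l * (t k - t l) / X k l := by
  have hX := X_pos h
  have e : Y k l = t k * X k l + r l * (t k - t l) := by unfold X Y; ring
  rw [e]
  field_simp

/-- gap for different first indices -/
theorem gap_k {k l k' l' : ℕ} (h : k < l) (h' : k' < l') (hne : k ≠ k') :
    r k' * t (min k k') ^ 2 / 40 ≤ d k' l' - (X k l * X k' l' + Y k l * Y k' l') / d k l := by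
  refine le_trans ?_ (gap0 h h')
  have h1 := ratio_ge h
  have h2 := ratio_le h
  have h3 := ratio_ge h'
  have h4 := ratio_le h'
  have h5 := X_ge h'
  have h6 := r_pos k'
  set a := Y k l / X k l
  set a' := Y k' l' / X k' l'
  have h7 : (t (min k k') * (7 / 10)) ^ 2 ≤ (a - a') ^ 2 := by
    rcases lt_or_gt_of_ne hne with hlt | hlt
    · rw [min_eq_left hlt.le]
      have h8 := t_lt hlt
      have h9 := t_pos k
      have h10 := t_pos k'
      nlinarith
    · rw [min_eq_right hlt.le]
      have h8 := t_lt hlt
      have h9 := t_pos k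
      have h10 := t_pos k'
      nlinarith
  have h11 : r k' * (999 / 1000) * (t (min k k') * (7 / 10)) ^ 2 ≤ X k' l' * (a - a') ^ 2 := by
    apply mul_le_mul h5 h7 (by positivity)
    exact (X_pos h').le
  have h12 : 0 ≤ r k' * t (min k k') ^ 2 := by positivity
  nlinarith

/-- gap for the same first index -/
theorem gap_l {k l l' : ℕ} (h : k < l) (h' : k < l') (hne : l ≠ l') :
    r k * (r (min l l') * t k) ^ 2 / 40 ≤ d k l' - (X k l * X k l' + Y k l * Y k l') / d k l := by
  refine le_trans ?_ (gap0 h h')
  have key : ∀ m n : ℕ, k < m → m < n → r m * t k / 2 ≤ Y k m / X k m - Y k n / X k n := by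
    intro m n hm hmn
    have hn : k < n := hm.trans hmn
    rw [ratio_eq hm, ratio_eq hn]
    have hXm := X_pos hm
    have hXn := X_pos hn
    have hXm' : X k m ≤ 1 := by
      have := X_le (k := k) (l := m)
      have := r_le k
      linarith
    have h1 : r m * t k * (3 / 4) ≤ X k m * (r m * (t k - t m) / X k m) * (1 / X k m) := by
      have e : X k m * (r m * (t k - t m) / X k m) * (1 / X k m) = r m * (t k - t m) / X k m := by
        field_simp
      rw [e, le_div_iff₀ hXm]
      have h2 := t_lt hm
      have h3 := r_pos m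
      have h4 := t_pos k
      have h5 : 0 < r m * t k := mul_pos h3 h4
      nlinarith
    have h2 : r n * (t k - t n) / X k n ≤ r m * t k / 4 := by
      rw [div_le_iff₀ hXn]
      have h3 := r_lt_small' hmn
      have h4 : r m ≤ X k n := by
        have h5 := X_ge hn
        have h6 := r_lt_small' hm
        have h7 := r_pos k
        have h8 := r_le k
        have h9 := t_le_one k
        have h10 := t_pos k
        have h11 : t k * r k * r k ≤ r k := by
          have : t k * r k ≤ 1 := by nlinarith
          nlinarith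
        linarith
      have h5 := r_pos m
      have h6 := r_pos n
      have h7 := t_pos k
      have h8 := t_pos n
      have h9 := t_le_one m
      have h10 := t_pos m
      have h11 : t m * r m * r m ≤ r m * r m := by nlinarith
      have h12 : r n * (t k - t n) ≤ r n * t k := by nlinarith
      have h13 : r m * t k / 4 * r m ≤ r m * t k / 4 * X k n := by
        apply mul_le_mul_of_nonneg_left h4 (by positivity)
      nlinarith
    have h3 : X k m * (r m * (t k - t m) / X k m) * (1 / X k m) = r m * (t k - t m) / X k m := by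
      field_simp
    rw [h3] at h1
    linarith
  have h5 := X_ge h'
  have h6 := r_pos k
  have h7 : (r (min l l') * t k / 2) ^ 2 ≤ (Y k l / X k l - Y k l' / X k l') ^ 2 := by
    rcases lt_or_gt_of_ne hne with hlt | hlt
    · rw [min_eq_left hlt.le]
      have h8 := key l l' h hlt
      have h9 : 0 ≤ r l * t k / 2 := by
        have := r_pos l
        have := t_pos k
        positivity
      exact pow_le_pow_left₀ h9 h8 2
    · rw [min_eq_right hlt.le]
      have h8 := key l' l h' hlt
      have h9 : 0 ≤ r l' * t k / 2 := by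
        have := r_pos l'
        have := t_pos k
        positivity
      have h10 := pow_le_pow_left₀ h9 h8 2
      have e : (Y k l / X k l - Y k l' / X k l') ^ 2 = (Y k l' / X k l' - Y k l / X k l) ^ 2 := by ring
      rw [e]
      exact h10
  have h11 : r k * (999 / 1000) * (r (min l l') * t k / 2) ^ 2
      ≤ X k l' * (Y k l / X k l - Y k l' / X k l') ^ 2 := by
    apply mul_le_mul h5 h7 (by positivity)
    exact (X_pos h').le
  have h12 : 0 ≤ r k * (r (min l l') * t k) ^ 2 := by positivity
  nlinarith

end Pool.Agent.H18R3.Win
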