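import Pool.Agent.H18R3.WinUE

set_option autoImplicit false

namespace Pool.Agent.H18R3.Win

open scoped RealInnerProductSpace

theorem b_eq_sub (k l : ℕ) : b k - b l = P (beta k - beta l) := by
  unfold b
  exact P_sub _ _

/-- values on the first and second shifts -/
theorem fv_relation3 (p0 p1 p2 f : Fin 4 → ℝ) :
    ⟪fv p0 p1 p2, T (T (T (P f)))⟫ =
      -(⟪fv p0 p1 p2, P f⟫ + ⟪fv p0 p1 p2, T (P f)⟫ + ⟪fv p0 p1 p2, T (T (P f))⟫) / 2 := by
  rw [ev3, ev0, ev1, ev2]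

theorem fv_relation4 (p0 p1 p2 f : Fin 4 → ℝ) :
    ⟪fv p0 p1 p2, T (T (T (T (P f))))⟫ =
      -(⟪fv p0 p1 p2, P f⟫ + ⟪fv p0 p1 p2, T (P f)⟫ + ⟪fv p0 p1 p2, T (T (P f))⟫) / 2 := by
  rw [ev4, ev0, ev1, ev2]

theorem p_rel3 (q : Q) (f : Fin 4 → ℝ) : ⟪p q, T (T (T (P f)))⟫ =
    -(⟪p q, P f⟫ + ⟪p q, T (P f)⟫ + ⟪p q, T (T (P f))⟫) / 2 := by
  unfold p F0 tau
  simp only [inner_sub_left, inner_smul_left, fv_relation3, conj_trivial]
  ring

theorem p_rel4 (q : Q) (f : Fin 4 → ℝ) : ⟪p q, T (T (T (T (P f))))⟫ =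
    -(⟪p q, P f⟫ + ⟪p q, T (P f)⟫ + ⟪p q, T (T (P f))⟫) / 2 := by
  unfold p F0 tau
  simp only [inner_sub_left, inner_smul_left, fv_relation4, conj_trivial]
  ring

/-- the remainder in z q', after any isometry -/
theorem rem_z (q q' : Q) (S : V → V) (hS : ∀ x, ‖S x‖ = ‖x‖) :
    |⟪p q, S (A q'.k q'.j - A q'.l q'.j')⟫| ≤ d q'.k q'.l / 100 := by
  refine (inner_abs _ _).trans ?_
  rw [hS]
  have h3 := norm_sub_le (A q'.k q'.j) (A q'.l q'.j')
  have h4 := norm_A q'.k q'.j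
  have h5 := norm_A q'.l q'.j'
  have h6 := r_lt_small q'.hj
  have h7 := r_lt_small (q'.hkl.trans q'.hj')
  have h8 := trho_le (k := q'.k) (S := q'.k)
  have h9 : ‖A q'.k q'.j - A q'.l q'.j'‖ ≤ rho q'.k / 500 := by linarith
  have h10 := norm_p q
  have h11 := mul_le_mul h10 h9 (norm_nonneg _) (by norm_num)
  have h12 := rho_small q'.k
  have h13 := t_le_one q'.k
  have h14 := r_pos q'.k
  have h15 := d_ge q'.hkl
  have h16 : t q'.k * r q'.k ≤ r q'.k := by nlinarith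
  linarith

theorem base0 (q q' : Q) : |⟪p q, b q'.k - b q'.l⟫| ≤ d q'.k q'.l * (101 / 100) ∧
    -(d q'.k q'.l / 100) ≤ ⟪p q, b q'.k - b q'.l⟫ := by
  rw [inner_b_diff]
  have h1 := gap0 q.hkl q'.hkl
  have h2 := X_pos q'.hkl
  have h3 : 0 ≤ X q'.k q'.l * (Y q.k q.l / X q.k q.l - Y q'.k q'.l / X q'.k q'.l) ^ 2 / 8 := by positivity
  have h4 := d_pos q.hkl
  have h5 : 0 ≤ (X q.k q.l * X q'.k q'.l + Y q.k q.l * Y q'.k q'.l) / d q.k q.l := by
    have := X_pos q.hkl
    have := Y_pos q.hkl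
    have := Y_pos q'.hkl
    positivity
  have h6 := abs_le.mp (vp_small q)
  have h7 := rho_pos q'.k
  have h8 := rho_pos q'.l
  have h9 := rho_anti q'.hkl.le
  have h12 := rho_small q'.k
  have h13 := t_le_one q'.k
  have h14 := r_pos q'.k
  have h15 := d_ge q'.hkl
  have h16 : t q'.k * r q'.k ≤ r q'.k := by nlinarith
  have h17 : |vp q * (rho q'.k - rho q'.l)| ≤ d q'.k q'.l / 100 := by
    rw [abs_mul]
    have h18 : |rho q'.k - rho q'.l| ≤ rho q'.k := by
      rw [abs_le]; constructor <;> linarith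
    have h19 := mul_le_mul (vp_small q) h18 (abs_nonneg _) (by norm_num)
    linarith
  have h18 := abs_le.mp h17
  constructor
  · rw [abs_le]; constructor <;> linarith
  · linarith

theorem base1 (q q' : Q) : |⟪p q, T (b q'.k - b q'.l)⟫| ≤ d q'.k q'.l / 100 := by
  rw [map_sub, inner_sub_right, p_Tb, p_Tb]
  obtain ⟨c1, c2, c3⟩ := coef_bounds q.k q.l q.j q.j'
  have h1 : mu q.k q.l q.j q.j' * r q'.k + nu q.k q.l q.j q.j' * (r q'.k * t q'.k) -
      (mu q.k q.l q.j q.j' * r q'.l + nu q.k q.l q.j q.j' * (r q'.l * t q'.l))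
      = mu q.k q.l q.j q.j' * X q'.k q'.l + nu q.k q.l q.j q.j' * Y q'.k q'.l := by
    unfold X Y; ring
  rw [h1]
  have h2 := X_pos q'.hkl
  have h3 := Y_pos q'.hkl
  have h4 := X_le_d (k := q'.k) (l := q'.l)
  have h5 := Y_le_d (k := q'.k) (l := q'.l)
  have h6 := abs_add_le (mu q.k q.l q.j q.j' * X q'.k q'.l) (nu q.k q.l q.j q.j' * Y q'.k q'.l)
  rw [abs_mul, abs_mul, abs_of_pos h2, abs_of_pos h3] at h6
  have h7 : |mu q.k q.l q.j q.j'| * X q'.k q'.l ≤ 1 / 1000 * d q'.k q'.l :=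
    mul_le_mul c1 h4 h2.le (by norm_num)
  have h8 : |nu q.k q.l q.j q.j'| * Y q'.k q'.l ≤ 1 / 1000 * d q'.k q'.l :=
    mul_le_mul c2 h5 h3.le (by norm_num)
  have h9 := d_pos q'.hkl
  linarith

theorem base2 (q q' : Q) : |⟪p q, T (T (b q'.k - b q'.l))⟫| ≤ d q'.k q'.l / 100 := by
  rw [map_sub, map_sub, inner_sub_right, p_TTb, p_TTb]
  obtain ⟨c1, c2, c3⟩ := coef_bounds q.k q.l q.j q.j'
  obtain ⟨e1, e2, e3, e4⟩ := ratio_bounds q.hkl
  have h2 := X_pos q'.hkl
  have h4 := X_le_d (k := q'.k) (l := q'.l)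
  have h7 := rho_pos q'.k
  have h8 := rho_pos q'.l
  have h9 := rho_anti q'.hkl.le
  have h12 := rho_small q'.k
  have h13 := t_le_one q'.k
  have h14 := r_pos q'.k
  have h15 := d_ge q'.hkl
  have h16 : t q'.k * r q'.k ≤ r q'.k := by nlinarith
  have t1 := t_pos (kap q'.k)
  have t2 := t_le (kap q'.k)
  have t3 := t_pos (kap q'.l)
  have t4 := t_le (kap q'.l)
  have eq : lam q.k q.l q.j q.j' * r q'.k + Y q.k q.l / d q.k q.l * rho q'.k -
      X q.k q.l / d q.k q.l * (2 * rho q'.k * t (kap q'.k)) -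
      (lam q.k q.l q.j q.j' * r q'.l + Y q.k q.l / d q.k q.l * rho q'.l -
      X q.k q.l / d q.k q.l * (2 * rho q'.l * t (kap q'.l)))
      = lam q.k q.l q.j q.j' * X q'.k q'.l + Y q.k q.l / d q.k q.l * (rho q'.k - rho q'.l)
        - X q.k q.l / d q.k q.l * (2 * rho q'.k * t (kap q'.k) - 2 * rho q'.l * t (kap q'.l)) := by
    unfold X; ring
  rw [eq]
  have f1 : |lam q.k q.l q.j q.j' * X q'.k q'.l| ≤ 1 / 1000 * d q'.k q'.l := by
    rw [abs_mul, abs_of_pos h2]
    exact mul_le_mul c3 h4 h2.le (by norm_num)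
  have f2 : |Y q.k q.l / d q.k q.l * (rho q'.k - rho q'.l)| ≤ rho q'.k := by
    rw [abs_mul, abs_of_nonneg e3]
    have : |rho q'.k - rho q'.l| ≤ rho q'.k := by rw [abs_le]; constructor <;> linarith
    have := mul_le_mul e4 this (abs_nonneg _) (by norm_num)
    linarith
  have f3 : |X q.k q.l / d q.k q.l * (2 * rho q'.k * t (kap q'.k) - 2 * rho q'.l * t (kap q'.l))|
      ≤ rho q'.k := by
    rw [abs_mul, abs_of_nonneg e1]
    have : |2 * rho q'.k * t (kap q'.k) - 2 * rho q'.l * t (kap q'.l)| ≤ rho q'.k := by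
      rw [abs_le]; constructor <;> nlinarith
    have := mul_le_mul e2 this (abs_nonneg _) (by norm_num)
    linarith
  have g1 := abs_le.mp f1
  have g2 := abs_le.mp f2
  have g3 := abs_le.mp f3
  rw [abs_le]
  constructor <;> linarith

/-- values on the shifted vectors -/
theorem ori (q q' : Q) :
    -(d q'.k q'.l * (9 / 10)) ≤ ⟪p q, z q'⟫ ∧
    |⟪p q, T (z q')⟫| ≤ d q'.k q'.l * (9 / 10) ∧
    |⟪p q, T (T (z q'))⟫| ≤ d q'.k q'.l * (9 / 10) ∧
    |⟪p q, T (T (T (z q')))⟫| ≤ d q'.k q'.l * (9 / 10) ∧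
    |⟪p q, T (T (T (T (z q'))))⟫| ≤ d q'.k q'.l * (9 / 10) := by
  have hd := d_pos q'.hkl
  obtain ⟨a0, a0'⟩ := base0 q q'
  have a1 := base1 q q'
  have a2 := base2 q q'
  have hb := b_eq_sub q'.k q'.l
  have h3 := p_rel3 q (beta q'.k - beta q'.l)
  have h4 := p_rel4 q (beta q'.k - beta q'.l)
  rw [← hb] at h3 h4
  have r0 := abs_le.mp (rem_z q q' (fun x => x) (fun _ => rfl))
  have r1 := abs_le.mp (rem_z q q' (fun x => T x) (fun x => T.norm_map x))
  have r2 := abs_le.mp (rem_z q q' (fun x => T (T x)) (fun x => by rw [T.norm_map, T.norm_map]))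
  have r3 := abs_le.mp (rem_z q q' (fun x => T (T (T x))) (fun x => by rw [T.norm_map, T.norm_map, T.norm_map]))
  have r4 := abs_le.mp (rem_z q q' (fun x => T (T (T (T x))))
    (fun x => by rw [T.norm_map, T.norm_map, T.norm_map, T.norm_map]))
  have b0 := abs_le.mp a0
  have b1 := abs_le.mp a1
  have b2 := abs_le.mp a2
  beta_reduce at r0 r1 r2 r3 r4
  rw [z_eq q']
  simp only [map_add, inner_add_right]
  rw [h3, h4]
  refine ⟨by linarith, ?_, ?_, ?_, ?_⟩ <;> rw [abs_le] <;> constructor <;> linarith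

/-- The full family. -/
noncomputable def sg (e : Bool) : ℝ := if e then 1 else -1

theorem sg_mul_self (e : Bool) : sg e * sg e = 1 := by cases e <;> simp [sg]

theorem sg_not (e : Bool) : sg (!e) = - sg e := by cases e <;> simp [sg]

noncomputable def Tn (n : Fin 5) (x : V) : V := (⇑T)^[n.val] x

theorem inner_TT (x y : V) : ⟪T x, T y⟫ = ⟪x, y⟫ := T.inner_map_map x y

theorem Tn_inner (n m : Fin 5) (x y : V) : ⟪Tn n x, Tn m y⟫ = ⟪x, Tn (m - n) y⟫ := by
  have h5 := T5 y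
  have h5x := T5 x
  unfold Tn
  have key : ∀ a c : Fin 5, ⟪(⇑T)^[a.val] x, (⇑T)^[c.val] y⟫ = ⟪x, (⇑T)^[(c - a).val] y⟫ := by
    intro a c
    have hx : ∀ (k : ℕ) (x y : V), ⟪(⇑T)^[k] x, (⇑T)^[k] y⟫ = ⟪x, y⟫ := by
      intro k
      induction k with
      | zero => intro x y; rfl
      | succ k ih =>
        intro x y
        rw [Function.iterate_succ_apply, Function.iterate_succ_apply, ih, inner_TT]
    have hper : ∀ (k : ℕ) (y : V), (⇑T)^[k + 5] y = (⇑T)^[k] y := by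
      intro k y
      rw [Function.iterate_add_apply]
      have : (⇑T)^[5] y = y := T5 y
      rw [this]
    have hval : (⇑T)^[c.val] y = (⇑T)^[a.val] ((⇑T)^[(c - a).val] y) := by
      rw [← Function.iterate_add_apply]
      rcases le_or_gt a c with h | h
      · have : (c - a).val = c.val - a.val := Fin.sub_val_of_le h
        rw [this]
        congr 1
        have := Fin.le_def.mp h
        omega
      · have : (c - a).val = 5 - a.val + c.val := by
          rw [Fin.sub_def]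
          have h1 := Fin.lt_def.mp h
          have h2 := a.isLt
          show (5 - a.val + c.val) % 5 = _
          apply Nat.mod_eq_of_lt
          omega
        rw [this]
        have h2 := a.isLt
        have e : a.val + (5 - a.val + c.val) = c.val + 5 := by omega
        rw [e, hper]
    rw [hval, hx]
  exact key n m

abbrev Idx := Bool × Fin 5 × Q

noncomputable def zz (i : Idx) : V := sg i.1 • Tn i.2.1 (zh i.2.2)
noncomputable def pp (i : Idx) : V := sg i.1 • Tn i.2.1 (p i.2.2)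

theorem norm_Tn (n : Fin 5) (x : V) : ‖Tn n x‖ = ‖x‖ := norm_iter _ _

theorem abs_sg (e : Bool) : |sg e| = 1 := by cases e <;> simp [sg]

theorem zz_le (i : Idx) : ‖zz i‖ ≤ 40 := by
  unfold zz zh
  rw [norm_smul, Real.norm_eq_abs, abs_sg, one_mul, norm_Tn, norm_smul, Real.norm_eq_abs]
  have hd := d_pos i.2.2.hkl
  have h1 := norm_z i.2.2
  have h2 := d_ge i.2.2.hkl
  rw [abs_of_pos (by positivity)]
  rw [one_div, inv_mul_le_iff₀ hd]
  linarith

theorem pp_le (i : Idx) : ‖pp i‖ ≤ 40 := by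
  unfold pp
  rw [norm_smul, Real.norm_eq_abs, abs_sg, one_mul, norm_Tn]
  have := norm_p i.2.2
  linarith

theorem Tn_smul (n : Fin 5) (a : ℝ) (x : V) : Tn n (a • x) = a • Tn n x := by
  unfold Tn
  induction n.val with
  | zero => rfl
  | succ k ih => rw [Function.iterate_succ_apply', Function.iterate_succ_apply', ih, map_smul]

theorem Tn_zero (x : V) : Tn 0 x = x := rfl

theorem inner_family (i j : Idx) : ⟪pp i, zz j⟫ =
    sg i.1 * sg j.1 * (1 / d j.2.2.k j.2.2.l * ⟪p i.2.2, Tn (j.2.1 - i.2.1) (z j.2.2)⟫) := by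
  unfold pp zz zh
  rw [inner_smul_left, inner_smul_right, Tn_inner, Tn_smul, inner_smul_right]
  simp only [conj_trivial]
  ring

theorem one_family (i : Idx) : ⟪pp i, zz i⟫ = 1 := by
  rw [inner_family, sub_self, Tn_zero, p_z, sg_mul_self]
  have hd := d_pos i.2.2.hkl
  field_simp

theorem neg_family (i : Idx) : ∃ j, zz j = -zz i ∧ pp j = -pp i := by
  refine ⟨(!i.1, i.2.1, i.2.2), ?_, ?_⟩
  · unfold zz
    simp [sg_not]
  · unfold pp
    simp [sg_not]

theorem T_Tn (n : Fin 5) (x : V) : T (Tn n x) = Tn (n + 1) x := by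
  have hn : n = 0 ∨ n = 1 ∨ n = 2 ∨ n = 3 ∨ n = 4 := by
    fin_cases n <;> simp
  rcases hn with rfl | rfl | rfl | rfl | rfl
  · rfl
  · rfl
  · rfl
  · rfl
  · exact T5 x

theorem T_family (i : Idx) : ∃ j, zz j = T (zz i) ∧ pp j = T (pp i) := by
  refine ⟨(i.1, i.2.1 + 1, i.2.2), ?_, ?_⟩
  · unfold zz
    rw [map_smul, T_Tn]
  · unfold pp
    rw [map_smul, T_Tn]

theorem ori_n (q q' : Q) (n : Fin 5) (hn : n ≠ 0) : |⟪p q, Tn n (z q')⟫| ≤ d q'.k q'.l * (9 / 10) := by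
  obtain ⟨_, h1, h2, h3, h4⟩ := ori q q'
  have hn' : n = 1 ∨ n = 2 ∨ n = 3 ∨ n = 4 := by
    fin_cases n <;> simp_all
  rcases hn' with rfl | rfl | rfl | rfl
  · exact h1
  · exact h2
  · exact h3
  · exact h4

theorem UE : ∀ e > 0, ∃ δ > 0, ∀ i j : Idx, e ≤ ‖zz i - zz j‖ → ⟪pp i, zz j⟫ ≤ 1 - δ := by
  intro e he
  obtain ⟨m0, hm0⟩ : ∃ m0 : ℕ, 22 * t m0 < e := by
    obtain ⟨n, hn⟩ := exists_pow_lt_of_lt_one (show (0 : ℝ) < e / 22 by positivity)
      (show (1 / 4 : ℝ) < 1 by norm_num)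
    refine ⟨n, ?_⟩
    have : t n ≤ (1 / 4) ^ n := by
      unfold t
      exact pow_le_pow_of_le_one (by norm_num) (by norm_num) (by omega)
    linarith
  refine ⟨min (Gam m0) (1 / 10), lt_min (Gam_pos m0) (by norm_num), ?_⟩
  intro i j hij
  have hmin1 := min_le_left (Gam m0) (1 / 10)
  have hmin2 := min_le_right (Gam m0) (1 / 10)
  rw [inner_family]
  have hd := d_pos j.2.2.hkl
  by_cases hn : j.2.1 - i.2.1 = 0
  · have hn' : j.2.1 = i.2.1 := sub_eq_zero.mp hn
    rw [hn, Tn_zero]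
    by_cases hs : i.1 = j.1
    · rw [hs, sg_mul_self, one_mul]
      have hdist : ‖zz i - zz j‖ = ‖zh i.2.2 - zh j.2.2‖ := by
        unfold zz
        rw [hs, hn', ← smul_sub, norm_smul, Real.norm_eq_abs, abs_sg, one_mul]
        have : Tn i.2.1 (zh i.2.2) - Tn i.2.1 (zh j.2.2) = Tn i.2.1 (zh i.2.2 - zh j.2.2) := by
          unfold Tn
          generalize zh i.2.2 = x
          generalize zh j.2.2 = y
          induction (i.2.1).val with
          | zero => rfl
          | succ k ih =>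
            rw [Function.iterate_succ_apply', Function.iterate_succ_apply',
              Function.iterate_succ_apply', ← map_sub, ih]
        rw [this, norm_Tn]
      rw [hdist] at hij
      have hne : ¬ (i.2.2.k = j.2.2.k ∧ i.2.2.l = j.2.2.l ∧ i.2.2.j = j.2.2.j ∧ i.2.2.j' = j.2.2.j') := by
        rintro ⟨h1, h2, h3, h4⟩
        have : i.2.2 = j.2.2 := by
          rcases hi : i.2.2 with ⟨a1, a2, a3, a4, _, _, _⟩
          rcases hj : j.2.2 with ⟨c1, c2, c3, c4, _, _, _⟩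
          rw [hi, hj] at h1 h2 h3 h4
          simp only at h1 h2 h3 h4
          subst h1 h2 h3 h4
          rfl
        rw [this, sub_self, norm_zero] at hij
        linarith
      obtain ⟨m, hm, hle⟩ := expose i.2.2 j.2.2 hne
      have h1 := near_dist hm
      have h2 : m < m0 := by
        by_contra hc
        push Not at hc
        have := t_anti hc
        linarith
      have h3 : Gam m0 ≤ Gam m := by
        unfold Gam
        apply w_anti
        have : (m + 1) ^ 2 ≤ (m0 + 1) ^ 2 := Nat.pow_le_pow_left (by omega) 2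
        omega
      rw [one_div, inv_mul_le_iff₀ hd]
      have h4 : Gam m0 * d j.2.2.k j.2.2.l ≤ Gam m * d j.2.2.k j.2.2.l := by gcongr
      have h5 : min (Gam m0) (1 / 10) * d j.2.2.k j.2.2.l ≤ Gam m0 * d j.2.2.k j.2.2.l := by gcongr
      linarith
    · have hsg : sg i.1 * sg j.1 = -1 := by
        cases hi : i.1 <;> cases hj : j.1 <;> simp_all [sg]
      rw [hsg]
      have h1 := (ori i.2.2 j.2.2).1
      have h2 : -(9 / 10 : ℝ) ≤ 1 / d j.2.2.k j.2.2.l * ⟪p i.2.2, z j.2.2⟫ := by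
        rw [one_div, ← sub_nonneg]
        have : (d j.2.2.k j.2.2.l)⁻¹ * ⟪p i.2.2, z j.2.2⟫ - -(9 / 10)
          = (d j.2.2.k j.2.2.l)⁻¹ * (⟪p i.2.2, z j.2.2⟫ + d j.2.2.k j.2.2.l * (9 / 10)) := by
          field_simp
          ring
        rw [this]
        apply mul_nonneg (inv_nonneg.mpr hd.le)
        linarith
      linarith
  · have h1 := ori_n i.2.2 j.2.2 _ hn
    have h2 : |sg i.1 * sg j.1 * (1 / d j.2.2.k j.2.2.l * ⟪p i.2.2, Tn (j.2.1 - i.2.1) (z j.2.2)⟫)|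
        ≤ 9 / 10 := by
      rw [abs_mul, abs_mul, abs_sg, abs_sg, abs_mul, abs_of_pos (show 0 < 1 / d j.2.2.k j.2.2.l by positivity)]
      rw [one_mul, one_mul, one_div, inv_mul_le_iff₀ hd]
      exact h1
    have h3 := le_abs_self (sg i.1 * sg j.1 * (1 / d j.2.2.k j.2.2.l * ⟪p i.2.2, Tn (j.2.1 - i.2.1) (z j.2.2)⟫))
    linarith

end Pool.Agent.H18R3.Win
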