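import Pool.Agent.H18R3.WinRam
import Pool.Agent.H777R4.PartB

set_option autoImplicit false

namespace Pool.Agent.H18R3.Win

open scoped RealInnerProductSpace

theorem nonempty_Idx : Nonempty Idx := ⟨(true, 0, ⟨0, 1, 1, 2, by omega, by omega, by omega⟩)⟩

/-- The norm function on the twenty-dimensional space. -/
theorem exists_N : ∃ N : V → ℝ, (∀ x y, N (x + y) ≤ N x + N y) ∧ (∀ (a : ℝ) x, N (a • x) = |a| * N x) ∧
    (∀ x, N x = 0 → x = 0) ∧
    (∀ x y, x ≠ y → N x = 1 → N y = 1 → N ((1/2 : ℝ) • (x + y)) < 1) ∧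
    (∀ x, N (T x) = N x) ∧
    (∀ k l j j', k < l → k < j → l < j' → N (u k j - u l j') = d k l) := by
  haveI := nonempty_Idx
  obtain ⟨N, h1, h2, h3, h4, h5, h6⟩ := Pool.Agent.H777R4.PartB.exists_norm zz pp 40 zz_le pp_le
    one_family UE neg_family T T_family T5
  refine ⟨N, h1, h2, h3, h4, h6, ?_⟩
  intro k l j j' hkl hj hj'
  have hd := d_pos hkl
  have e1 := h5 (true, 0, ⟨k, l, j, j', hkl, hj, hj'⟩)
  have e2 : u k j - u l j' = d k l • zz (true, 0, ⟨k, l, j, j', hkl, hj, hj'⟩) := by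
    show u k j - u l j' = d k l • (sg true • Tn 0 (zh ⟨k, l, j, j', hkl, hj, hj'⟩))
    rw [Tn_zero]
    unfold zh z sg
    simp only [if_true, smul_smul]
    rw [one_mul, mul_one_div_cancel hd.ne', one_smul]
  rw [e2, h2, e1, mul_one, abs_of_pos hd]

/-- The type synonym which carries the new norm. -/
def W : Type := V

instance : AddCommGroup W := inferInstanceAs (AddCommGroup V)
instance : Module ℝ W := inferInstanceAs (Module ℝ V)
instance : FiniteDimensional ℝ W := inferInstanceAs (FiniteDimensional ℝ V)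

theorem finrank_W : Module.finrank ℝ W = 20 := by
  show Module.finrank ℝ V = 20
  rw [finrank_euclideanSpace]
  simp

theorem main : ∃ (E : Type) (_ : NormedAddCommGroup E) (_ : NormedSpace ℝ E) (_ : FiniteDimensional ℝ E)
    (_ : StrictConvexSpace ℝ E), 2 ≤ Module.finrank ℝ E ∧ ∃ M : Set E, M.Infinite ∧
      ∀ c : E → Fin 2, ∃ f : E → E, (∀ x ∈ M, ∀ y ∈ M, dist (f x) (f y) = dist x y) ∧
        ∀ x ∈ M, ∀ y ∈ M, c (f x) = c (f y) := by
  obtain ⟨N, h1, h2, h3, h4, h6, hN⟩ := exists_N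
  have h0 : N 0 = 0 := by
    have := h2 0 0
    rw [zero_smul, abs_zero, zero_mul] at this
    exact this
  have hneg : ∀ x, N (-x) = N x := by
    intro x
    have := h2 (-1) x
    rw [neg_one_smul, abs_neg, abs_one, one_mul] at this
    exact this
  have hnn : ∀ x, 0 ≤ N x := by
    intro x
    have := h1 x (-x)
    rw [add_neg_cancel, h0, hneg] at this
    linarith
  letI nW : Norm W := ⟨N⟩
  have core : NormedSpace.Core ℝ W :=
    { norm_nonneg := hnn
      norm_smul := fun a x => h2 a x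
      norm_triangle := fun x y => h1 x y
      norm_eq_zero_iff := fun x => ⟨h3 x, fun h => by rw [h]; exact h0⟩ }
  letI i1 : NormedAddCommGroup W := NormedAddCommGroup.ofCore core
  letI i2 : NormedSpace ℝ W := NormedSpace.ofCore core
  have hnorm : ∀ x : W, ‖x‖ = N x := fun _ => rfl
  have i4 : StrictConvexSpace ℝ W := by
    apply StrictConvexSpace.of_norm_combo_lt_one
    intro x y hx hy hxy
    refine ⟨1 / 2, 1 / 2, by norm_num, ?_⟩
    rw [← smul_add]
    exact h4 x y hxy hx hy
  have hdist : ∀ x y : W, dist x y = N (@HSub.hSub V V V _ x y) := by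
    intro x y
    rw [dist_eq_norm]
    rfl
  have i3 : @FiniteDimensional ℝ W _ i1.toAddCommGroup i2.toModule := instFiniteDimensionalRealW
  have hr : @Module.finrank ℝ W _ (@AddCommGroup.toAddCommMonoid W i1.toAddCommGroup) i2.toModule = 20 := finrank_W
  refine ⟨W, i1, i2, i3, i4, ?_, ?_⟩
  · rw [hr]; norm_num
  · refine ⟨Set.range mm, Set.infinite_range_of_injective (mm_inj N hN h0), ?_⟩
    intro c
    obtain ⟨f, hf1, hf2⟩ := ramsey N hneg h6 hN h0 c
    refine ⟨f, ?_, hf2⟩
    intro x hx y hy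
    have e1 := hdist (f x) (f y)
    have e2 := hdist x y
    exact e1.trans ((hf1 x hx y hy).trans e2.symm)

end Pool.Agent.H18R3.Win
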