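import Pool.Agent.H18R3.WinSeq

set_option autoImplicit false

namespace Pool.Agent.H18R3.Win

noncomputable def Gam (n : ℕ) : ℝ := w (2 * (n + 1) ^ 2)

theorem Gam_le {k n : ℕ} (h : k < n) : Gam n ≤ r (s k n + 1) := by
  unfold Gam r
  apply w_anti
  have := s_le h
  omega

theorem Gam_pos (n : ℕ) : 0 < Gam n := w_pos _

theorem r_succ_le (j : ℕ) : 10000 * r (j + 1) ≤ r j * r j := by
  have h := gp_r (S := j) (a := r j) (b := r j) (c := 1) (d := 1)
    (w_anti (by omega)) (w_anti (by omega)) (one_ge _) (one_ge _)
  simpa using h

theorem t_le_one (n : ℕ) : t n ≤ 1 := by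
  have := t_le n
  linarith

theorem trho_le {k S : ℕ} : t k * rho S ≤ rho S := by
  have h1 := rho_pos S
  have h2 := t_le_one k
  nlinarith

/-- basic remainder bounds for the k-sequence: below the diagonal. -/
theorem k_neg {k i : ℕ} (hi : k < i) {g R x : ℝ} (hg : g ≤ -(t k / 4))
    (hR : |R| ≤ 200 * r (s k i + 1)) (hx : x ≤ t k * rho (s k i) / 16) :
    x + rho (s k i) * g + R ≤ -(t k * rho (s k i) / 8) := by
  have h1 := rem_small (S := s k i) (k := k) (by have := lt_s k i; omega)
  have h2 := rho_pos (s k i)
  have h3 := abs_le.mp hR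
  have h4 : rho (s k i) * g ≤ rho (s k i) * (-(t k / 4)) := mul_le_mul_of_nonneg_left hg h2.le
  have h5 := mul_pos (t_pos k) h2
  nlinarith

theorem l_pos {k l i : ℕ} (hk : k < l) (hi : l < i) {g R x : ℝ} (hg : t k / 4 ≤ g)
    (hR : |R| ≤ 200 * r (s l i + 1)) (hx : -(t k * rho (s l i) / 16) ≤ x) :
    t k * rho (s l i) / 8 ≤ x + rho (s l i) * g + R := by
  have h1 := rem_small (S := s l i) (k := k) (by have := lt_s l i; omega)
  have h2 := rho_pos (s l i)
  have h3 := abs_le.mp hR
  have h4 : rho (s l i) * (t k / 4) ≤ rho (s l i) * g := mul_le_mul_of_nonneg_left hg h2.le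
  have h5 := mul_pos (t_pos k) h2
  nlinarith

/-- The remainder at index S is at most rho S / 16, in absolute value. -/
theorem R_small {S : ℕ} {R : ℝ} (hR : |R| ≤ 200 * r (S + 1)) : |R| ≤ rho S / 16 := by
  have h1 := rem_small (S := S) (k := 0) (by omega)
  have h2 := trho_le (k := 0) (S := S)
  have h3 := rho_pos S
  linarith

theorem Gam_le_k {k i : ℕ} (hi : k < i) : Gam i ≤ t k * rho (s k i) / 16 := by
  have h1 := rem_small (S := s k i) (k := k) (by have := lt_s k i; omega)
  have h2 := Gam_le hi
  have h3 := r_pos (s k i + 1)
  have h5 := mul_pos (t_pos k) (rho_pos (s k i))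
  linarith

theorem Gam_le_l {k l i : ℕ} (hk : k < l) (hi : l < i) : Gam i ≤ t k * rho (s l i) / 16 := by
  have h1 := rem_small (S := s l i) (k := k) (by have := lt_s l i; omega)
  have h2 := Gam_le hi
  have h3 := r_pos (s l i + 1)
  have h5 := mul_pos (t_pos k) (rho_pos (s l i))
  linarith

theorem Gam_le_rho {k i : ℕ} (hi : k < i) : Gam i ≤ rho (s k i) / 16 := by
  have h1 := Gam_le_k hi
  have h2 := trho_le (k := k) (S := s k i)
  linarith

section types

variable {k l j j' : ℕ} (hkl : k < l) (hj : k < j) (hj' : l < j')
  {gk gl : ℝ} (hgk : gk ≤ -(t k / 4)) (hgk1 : -1 ≤ gk) (hgl : t k / 4 ≤ gl) (hgl1 : gl ≤ 1)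
  {RK RL : ℕ → ℝ} (hRK : ∀ i, |RK i| ≤ 200 * r (s k i + 1)) (hRL : ∀ i, |RL i| ≤ 200 * r (s l i + 1))

include hkl hj hj' hgk hgk1 hgl hgl1 hRK hRL

/-- Type 1: j < j'. -/
theorem type1 (hjj : j < j') :
    (∀ i, k < i → i ≠ j →
      (rho (s k j) / r j ^ 2 * (r i * (t i - 2 * t j')) + rho (s k i) * gk + RK i) + Gam (min i j)
      ≤ rho (s k j) / r j ^ 2 * (r j * (t j - 2 * t j')) + rho (s k j) * gk + RK j) ∧
    (∀ i, l < i → i ≠ j' →
      (rho (s k j) / r j ^ 2 * (r j' * (t j' - 2 * t j')) + rho (s l j') * gl + RL j') + Gam (min i j')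
      ≤ rho (s k j) / r j ^ 2 * (r i * (t i - 2 * t j')) + rho (s l i) * gl + RL i) := by
  set S := s k j with hS
  set S' := s l j' with hS'
  set C := rho S / r j ^ 2 with hC
  clear_value C
  have hrj := r_pos j
  have hrj' := r_pos j'
  have hrho := rho_pos S
  have hrho' := rho_pos S'
  have hCeq : C * (r j * r j) = rho S := by
    rw [hC]; field_simp
  have hCpos : 0 < C := hC ▸ div_pos hrho (pow_pos hrj 2)
  have hjS : j < S := lt_s k j
  have hj'S' : j' < S' := lt_s l j'
  have hSS' : S < S' := s_lt_s hj hjj
  have ht4 : 4 * t j' ≤ t j := t_lt hjj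
  have htj' := t_pos j'
  -- C r_j t_j ≥ 1000 rho S
  have hbig : 1000 * rho S ≤ C * (r j * t j) := by
    have h1 := r_le_t j
    calc 1000 * rho S = C * (r j * (1000 * r j)) := by rw [← hCeq]; ring
      _ ≤ C * (r j * t j) := by gcongr
  have hgkS : -rho S ≤ rho S * gk := by nlinarith
  have hFj : 400 * rho S ≤ C * (r j * (t j - 2 * t j')) + rho S * gk + RK j := by
    have h1 : C * (r j * (t j - 2 * t j')) ≥ C * (r j * t j) / 2 := by
      have : C * (r j * (t j - 2 * t j')) - C * (r j * t j) / 2 = C * r j * (t j - 4 * t j') / 2 := by ring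
      have h2 : 0 ≤ C * r j * (t j - 4 * t j') := by
        apply mul_nonneg (mul_pos hCpos hrj).le
        linarith
      linarith
    have h3 := abs_le.mp (R_small (hRK j))
    linarith
  have hlow : 8 * rho S' ≤ C * (r j' * t j') / 1000 := by
    have h1 := gp_rho (S := S') (a := rho S) (b := r j') (c := t j') (d := 1)
      (w_anti (by omega)) (w_anti (by omega)) (w_le_t' (by omega)) (one_ge _)
    have h2 : rho S ≤ C / 10000 := by
      have h3 := r_le j
      have h4 : r j * r j ≤ 1 / 10000 := by nlinarith
      calc rho S = C * (r j * r j) := hCeq.symm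
        _ ≤ C * (1 / 10000) := by gcongr
        _ = C / 10000 := by ring
    have h5 : rho S * (r j' * t j') ≤ C / 10000 * (r j' * t j') := by gcongr
    nlinarith
  constructor
  · intro i hi hij
    rcases lt_or_gt_of_ne hij with h | h
    · rw [min_eq_left h.le]
      have h1 : C ≤ t k * rho (s k i) / 10000 := by
        have h2 := gp_rho (S := S) (a := t k) (b := rho (s k i)) (c := r j) (d := r j)
          (w_le_t' (by omega))
          (w_anti (by have : s k i < S := s_lt_s hi h
                      omega)) (w_anti (by omega)) (w_anti (by omega))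
        rw [hC, div_le_iff₀ (pow_pos hrj 2)]
        nlinarith
      have h3 : C * (r i * (t i - 2 * t j')) ≤ t k * rho (s k i) / 16 := by
        have h4 : r i * (t i - 2 * t j') ≤ 1 := by
          have h5 := r_le i
          have h6 := t_le i
          have h7 := r_pos i
          nlinarith
        have h8 : C * (r i * (t i - 2 * t j')) ≤ C * 1 := by gcongr
        have h9 := mul_pos (t_pos k) (rho_pos (s k i))
        linarith
      have h4 := k_neg hi hgk (hRK i) h3
      have h5 := Gam_le_k hi
      have h9 := mul_pos (t_pos k) (rho_pos (s k i))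
      linarith
    · rw [min_eq_right h.le]
      have h1 : C * (r i * (t i - 2 * t j')) ≤ rho S := by
        have h2 := r_succ_le j
        have h3 : r i ≤ r (j + 1) := r_anti h
        have h4 : r i * (t i - 2 * t j') ≤ r j * r j := by
          have h5 := t_le_one i
          have h6 := r_pos i
          nlinarith
        calc C * (r i * (t i - 2 * t j')) ≤ C * (r j * r j) := by gcongr
          _ = rho S := hCeq
      have h2 : rho (s k i) * gk ≤ 0 := by
        have := rho_pos (s k i)
        have := t_pos k
        nlinarith
      have h3 : |RK i| ≤ rho S := by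
        have h4 := R_small (hRK i)
        have h5 : s k j ≤ s k i := by
          have := s_lt_s (l := k) hj h
          omega
        have h6 := rho_anti h5
        have h7 := rho_pos (s k i)
        linarith
      have h4 := abs_le.mp h3
      have h5 := Gam_le_rho hj
      linarith
  · have hLj : C * (r j' * (t j' - 2 * t j')) + rho S' * gl + RL j' ≤ -(3 / 4) * (C * (r j' * t j')) := by
      have h1 : rho S' * gl ≤ rho S' := by nlinarith
      have h3 := abs_le.mp (R_small (hRL j'))
      have h4 : 0 < C * (r j' * t j') := mul_pos hCpos (mul_pos hrj' htj')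
      nlinarith
    have hpos : 0 < C * (r j' * t j') := mul_pos hCpos (mul_pos hrj' htj')
    intro i hi hij
    rcases lt_or_gt_of_ne hij with h | h
    · rw [min_eq_left h.le]
      have h1 : 0 ≤ C * (r i * (t i - 2 * t j')) := by
        have h2 := t_lt h
        have h3 := r_pos i
        apply mul_nonneg hCpos.le
        apply mul_nonneg h3.le
        linarith
      have h9 := mul_pos (t_pos k) (rho_pos (s l i))
      have h4 := l_pos hkl hi hgl (hRL i) (show -(t k * rho (s l i) / 16) ≤ C * (r i * (t i - 2 * t j')) by linarith)
      have h5 := Gam_le_l hkl hi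
      linarith
    · rw [min_eq_right h.le]
      have h1 : -(C * (r j' * t j')) / 4 ≤ C * (r i * (t i - 2 * t j')) := by
        have h2 := r_succ_le j'
        have h3 : r i ≤ r (j' + 1) := r_anti h
        have h4 := r_le j'
        have h5 : 8 * r i ≤ r j' := by nlinarith
        have h6 := r_pos i
        have h7 := t_pos i
        have h8 : -(r j' * t j') / 4 ≤ r i * (t i - 2 * t j') := by nlinarith
        calc -(C * (r j' * t j')) / 4 = C * (-(r j' * t j') / 4) := by ring
          _ ≤ _ := by gcongr
      have h2 : 0 ≤ rho (s l i) * gl := by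
        have := rho_pos (s l i)
        have := t_pos k
        apply mul_nonneg <;> linarith
      have h3 : |RL i| ≤ rho S' := by
        have h4 := R_small (hRL i)
        have h5 : s l j' ≤ s l i := by
          have := s_lt_s (l := l) hj' h
          omega
        have h6 := rho_anti h5
        have h7 := rho_pos (s l i)
        linarith
      have h4 := abs_le.mp h3
      have h5 := Gam_le_rho hj'
      linarith

/-- Type 2: j' < j. -/
theorem type2 (hjj : j' < j) :
    (∀ i, k < i → i ≠ j →
      (-(rho (s l j') / r j' ^ 2 * (r i * (t i - 2 * t j))) + rho (s k i) * gk + RK i) + Gam (min i j)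
      ≤ -(rho (s l j') / r j' ^ 2 * (r j * (t j - 2 * t j))) + rho (s k j) * gk + RK j) ∧
    (∀ i, l < i → i ≠ j' →
      (-(rho (s l j') / r j' ^ 2 * (r j' * (t j' - 2 * t j))) + rho (s l j') * gl + RL j') + Gam (min i j')
      ≤ -(rho (s l j') / r j' ^ 2 * (r i * (t i - 2 * t j))) + rho (s l i) * gl + RL i) := by
  set S := s k j with hS
  set S' := s l j' with hS'
  set C := rho S' / r j' ^ 2 with hC
  clear_value C
  have hrj := r_pos j
  have hrj' := r_pos j'
  have hrho := rho_pos S
  have hrho' := rho_pos S'
  have hCeq : C * (r j' * r j') = rho S' := by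
    rw [hC]; field_simp
  have hCpos : 0 < C := hC ▸ div_pos hrho' (pow_pos hrj' 2)
  have hjS : j < S := lt_s k j
  have hj'S' : j' < S' := lt_s l j'
  have hSS' : S' < S := s_lt_s hj' hjj
  have ht4 : 4 * t j ≤ t j' := t_lt hjj
  have htj := t_pos j
  have hbig : 1000 * rho S' ≤ C * (r j' * t j') := by
    have h1 := r_le_t j'
    calc 1000 * rho S' = C * (r j' * (1000 * r j')) := by rw [← hCeq]; ring
      _ ≤ C * (r j' * t j') := by gcongr
  have hlow : 8 * rho S ≤ C * (r j * t j) / 1000 := by
    have h1 := gp_rho (S := S) (a := rho S') (b := r j) (c := t j) (d := 1)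
      (w_anti (by omega)) (w_anti (by omega)) (w_le_t' (by omega)) (one_ge _)
    have h2 : rho S' ≤ C / 10000 := by
      have h3 := r_le j'
      have h4 : r j' * r j' ≤ 1 / 10000 := by nlinarith
      calc rho S' = C * (r j' * r j') := hCeq.symm
        _ ≤ C * (1 / 10000) := by gcongr
        _ = C / 10000 := by ring
    have h5 : rho S' * (r j * t j) ≤ C / 10000 * (r j * t j) := by gcongr
    nlinarith
  have hposj : 0 < C * (r j * t j) := mul_pos hCpos (mul_pos hrj htj)
  have hFj : C * (r j * t j) / 2 ≤ -(C * (r j * (t j - 2 * t j))) + rho S * gk + RK j := by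
    have h1 : -rho S ≤ rho S * gk := by nlinarith
    have h3 := abs_le.mp (R_small (hRK j))
    nlinarith
  constructor
  · intro i hi hij
    rcases lt_or_gt_of_ne hij with h | h
    · rw [min_eq_left h.le]
      have h1 : -(C * (r i * (t i - 2 * t j))) ≤ 0 := by
        have h2 := t_lt h
        have h3 := r_pos i
        have : 0 ≤ C * (r i * (t i - 2 * t j)) := by
          apply mul_nonneg hCpos.le
          apply mul_nonneg h3.le
          linarith
        linarith
      have h9 := mul_pos (t_pos k) (rho_pos (s k i))
      have h4 := k_neg hi hgk (hRK i) (show -(C * (r i * (t i - 2 * t j))) ≤ t k * rho (s k i) / 16 by linarith)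
      have h5 := Gam_le_k hi
      linarith
    · rw [min_eq_right h.le]
      have h1 : -(C * (r i * (t i - 2 * t j))) ≤ C * (r j * t j) / 4 := by
        have h2 := r_succ_le j
        have h3 : r i ≤ r (j + 1) := r_anti h
        have h4 := r_le j
        have h5 : 8 * r i ≤ r j := by nlinarith
        have h6 := r_pos i
        have h7 := t_pos i
        have h8 : -(r i * (t i - 2 * t j)) ≤ r j * t j / 4 := by nlinarith
        calc -(C * (r i * (t i - 2 * t j))) = C * (-(r i * (t i - 2 * t j))) := by ring
          _ ≤ C * (r j * t j / 4) := by gcongr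
          _ = _ := by ring
      have h2 : rho (s k i) * gk ≤ 0 := by
        have := rho_pos (s k i)
        have := t_pos k
        nlinarith
      have h3 : |RK i| ≤ rho S := by
        have h4 := R_small (hRK i)
        have h5 : s k j ≤ s k i := by
          have := s_lt_s (l := k) hj h
          omega
        have h6 := rho_anti h5
        have h7 := rho_pos (s k i)
        linarith
      have h4 := abs_le.mp h3
      have h5 := Gam_le_rho hj
      linarith
  · have hLj : -(C * (r j' * (t j' - 2 * t j))) + rho S' * gl + RL j' ≤ -(400 * rho S') := by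
      have h0 : C * (r j' * t j') / 2 ≤ C * (r j' * (t j' - 2 * t j)) := by
        have : C * (r j' * (t j' - 2 * t j)) - C * (r j' * t j') / 2 = C * r j' * (t j' - 4 * t j) / 2 := by ring
        have h2 : 0 ≤ C * r j' * (t j' - 4 * t j) := by
          apply mul_nonneg (mul_pos hCpos hrj').le
          linarith
        linarith
      have h1 : rho S' * gl ≤ rho S' := by nlinarith
      have h3 := abs_le.mp (R_small (hRL j'))
      linarith
    intro i hi hij
    rcases lt_or_gt_of_ne hij with h | h
    · rw [min_eq_left h.le]
      have h1 : C ≤ t k * rho (s l i) / 10000 := by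
        have h2 := gp_rho (S := S') (a := t k) (b := rho (s l i)) (c := r j') (d := r j')
          (w_le_t' (by omega))
          (w_anti (by have : s l i < S' := s_lt_s hi h
                      omega)) (w_anti (by omega)) (w_anti (by omega))
        rw [hC, div_le_iff₀ (pow_pos hrj' 2)]
        nlinarith
      have h9 := mul_pos (t_pos k) (rho_pos (s l i))
      have h3 : -(t k * rho (s l i) / 16) ≤ -(C * (r i * (t i - 2 * t j))) := by
        have h4 : r i * (t i - 2 * t j) ≤ 1 := by
          have h5 := r_le i
          have h6 := t_le i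
          have h7 := r_pos i
          nlinarith
        have h8 : C * (r i * (t i - 2 * t j)) ≤ C * 1 := by gcongr
        linarith
      have h4 := l_pos hkl hi hgl (hRL i) h3
      have h5 := Gam_le_l hkl hi
      linarith
    · rw [min_eq_right h.le]
      have h1 : -rho S' ≤ -(C * (r i * (t i - 2 * t j))) := by
        have h2 := r_succ_le j'
        have h3 : r i ≤ r (j' + 1) := r_anti h
        have h4 : r i * (t i - 2 * t j) ≤ r j' * r j' := by
          have h5 := t_le_one i
          have h6 := r_pos i
          nlinarith
        have h7 : C * (r i * (t i - 2 * t j)) ≤ rho S' := by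
          calc C * (r i * (t i - 2 * t j)) ≤ C * (r j' * r j') := by gcongr
            _ = rho S' := hCeq
        linarith
      have h2 : 0 ≤ rho (s l i) * gl := by
        have := rho_pos (s l i)
        have := t_pos k
        apply mul_nonneg <;> linarith
      have h3 : |RL i| ≤ rho S' := by
        have h4 := R_small (hRL i)
        have h5 : s l j' ≤ s l i := by
          have := s_lt_s (l := l) hj' h
          omega
        have h6 := rho_anti h5
        have h7 := rho_pos (s l i)
        linarith
      have h4 := abs_le.mp h3
      have h5 := Gam_le_rho hj'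
      linarith

/-- Type 3: j = j'. -/
theorem type3 (hjj : j = j') :
    (∀ i, k < i → i ≠ j →
      (-(4 * rho (s k j) / r j * r i) + 8 * rho (s k j) / r (s k j) * r (s k i)
        + rho (s k i) * gk + RK i) + Gam (min i j)
      ≤ -(4 * rho (s k j) / r j * r j) + 8 * rho (s k j) / r (s k j) * r (s k j)
        + rho (s k j) * gk + RK j) ∧
    (∀ i, l < i → i ≠ j' →
      (-(4 * rho (s k j) / r j * r j') + 8 * rho (s k j) / r (s k j) * r (s l j')
        + rho (s l j') * gl + RL j') + Gam (min i j')
      ≤ -(4 * rho (s k j) / r j * r i) + 8 * rho (s k j) / r (s k j) * r (s l i)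
        + rho (s l i) * gl + RL i) := by
  subst hjj
  set S := s k j with hS
  set S' := s l j with hS'
  set C := 4 * rho S / r j with hC
  clear_value C
  set L := 8 * rho S / r S with hL
  clear_value L
  have hrj := r_pos j
  have hrS := r_pos S
  have hrho := rho_pos S
  have hrho' := rho_pos S'
  have hCeq : C * r j = 4 * rho S := by rw [hC]; field_simp
  have hLeq : L * r S = 8 * rho S := by rw [hL]; field_simp
  have hCpos : 0 < C := hC ▸ div_pos (mul_pos (by norm_num) hrho) hrj
  have hLpos : 0 < L := hL ▸ div_pos (mul_pos (by norm_num) hrho) hrS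
  have hjS : j < S := lt_s k j
  have hSS' : S < S' := s_lt_s' hkl
  -- L times r of a larger index
  have hLr : ∀ n, S < n → L * r n ≤ rho S / 4 := by
    intro n hn
    have h1 : r n ≤ r (S + 1) := r_anti hn
    have h2 := r_succ_le S
    have h3 : L * r n ≤ L * (r S * r S / 10000) := by
      apply mul_le_mul_of_nonneg_left _ hLpos.le
      linarith
    have h4 : L * (r S * r S / 10000) = 8 * rho S * r S / 10000 := by
      rw [← hLeq]; ring
    have h5 := r_le S
    nlinarith
  have hrhoS' : rho S' ≤ rho S / 4 := by
    have h1 : rho S' ≤ r (S + 1) := by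
      unfold rho r
      apply w_anti
      omega
    have h2 := rem_small (S := S) (k := 0) (by omega)
    have h3 := trho_le (k := 0) (S := S)
    have h4 := r_pos (S + 1)
    linarith
  have hFj : 2 * rho S ≤ -(C * r j) + L * r S + rho S * gk + RK j := by
    have h1 : -rho S ≤ rho S * gk := by nlinarith
    have h3 := abs_le.mp (R_small (hRK j))
    linarith
  constructor
  · intro i hi hij
    rcases lt_or_gt_of_ne hij with h | h
    · rw [min_eq_left h.le]
      have hsi : s k i < S := s_lt_s hi h
      have h1 : L ≤ t k * rho (s k i) / 100 := by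
        have h2 := gp_rho (S := S) (a := t k) (b := rho (s k i)) (c := r S) (d := 1)
          (w_le_t' (by omega)) (w_anti (by omega)) (w_anti (by omega)) (one_ge _)
        rw [hL, div_le_iff₀ hrS]
        nlinarith
      have h9 := mul_pos (t_pos k) (rho_pos (s k i))
      have h3 : -(C * r i) + L * r (s k i) ≤ t k * rho (s k i) / 16 := by
        have h4 := r_le (s k i)
        have h5 : L * r (s k i) ≤ L * 1 := by
          apply mul_le_mul_of_nonneg_left _ hLpos.le
          linarith
        have h6 : 0 ≤ C * r i := mul_nonneg hCpos.le (r_pos i).le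
        linarith
      have h4 := k_neg hi hgk (hRK i) h3
      have h5 := Gam_le_k hi
      linarith
    · rw [min_eq_right h.le]
      have hsi : S < s k i := s_lt_s hj h
      have h1 := hLr _ hsi
      have h6 : 0 ≤ C * r i := mul_nonneg hCpos.le (r_pos i).le
      have h2 : rho (s k i) * gk ≤ 0 := by
        have := rho_pos (s k i)
        have := t_pos k
        nlinarith
      have h3 : |RK i| ≤ rho S / 16 := by
        have h4 := R_small (hRK i)
        have h6 := rho_anti hsi.le
        have h7 := rho_pos (s k i)
        linarith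
      have h4 := abs_le.mp h3
      have h5 := Gam_le_rho hj
      linarith
  · have hLj : -(C * r j) + L * r S' + rho S' * gl + RL j ≤ -(3 * rho S) := by
      have h1 : rho S' * gl ≤ rho S' := by nlinarith
      have h2 := hLr _ hSS'
      have h3 := abs_le.mp (R_small (hRL j))
      linarith
    intro i hi hij
    rcases lt_or_gt_of_ne hij with h | h
    · rw [min_eq_left h.le]
      have hsi : s l i < S := s_lt_s hi h
      have h1 : C ≤ t k * rho (s l i) / 100 := by
        have h2 := gp_rho (S := S) (a := t k) (b := rho (s l i)) (c := r j) (d := 1)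
          (w_le_t' (by omega)) (w_anti (by omega)) (w_anti (by omega)) (one_ge _)
        rw [hC, div_le_iff₀ hrj]
        nlinarith
      have h9 := mul_pos (t_pos k) (rho_pos (s l i))
      have h3 : -(t k * rho (s l i) / 16) ≤ -(C * r i) + L * r (s l i) := by
        have h4 := r_le i
        have h5 : C * r i ≤ C * 1 := by
          apply mul_le_mul_of_nonneg_left _ hCpos.le
          linarith
        have h6 : 0 ≤ L * r (s l i) := mul_nonneg hLpos.le (r_pos _).le
        linarith
      have h4 := l_pos hkl hi hgl (hRL i) h3
      have h5 := Gam_le_l hkl hi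
      linarith
    · rw [min_eq_right h.le]
      have h1 : C * r i ≤ rho S / 4 := by
        have h2 := r_succ_le j
        have h3 : r i ≤ r (j + 1) := r_anti h
        have h4 : C * r i ≤ C * (r j * r j / 10000) := by
          apply mul_le_mul_of_nonneg_left _ hCpos.le
          linarith
        have h5 : C * (r j * r j / 10000) = 4 * rho S * r j / 10000 := by
          rw [← hCeq]; ring
        have h6 := r_le j
        nlinarith
      have h6 : 0 ≤ L * r (s l i) := mul_nonneg hLpos.le (r_pos _).le
      have h2 : 0 ≤ rho (s l i) * gl := by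
        have := rho_pos (s l i)
        have := t_pos k
        apply mul_nonneg <;> linarith
      have h3 : |RL i| ≤ rho S / 4 := by
        have h4 := R_small (hRL i)
        have h5 : s l j < s l i := s_lt_s hj' h
        have h6 := rho_anti h5.le
        have h7 := rho_pos (s l i)
        linarith
      have h4 := abs_le.mp h3
      have h5 := Gam_le_rho hj'
      linarith

end types

end Pool.Agent.H18R3.Win
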