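import Pool.Agent.H18R3.WinF

set_option autoImplicit false

namespace Pool.Agent.H18R3.Win

open scoped RealInnerProductSpace

structure Q where
  k : ℕ
  l : ℕ
  j : ℕ
  j' : ℕ
  hkl : k < l
  hj : k < j
  hj' : l < j'

noncomputable def mu (k l j j' : ℕ) : ℝ :=
  if j < j' then -(rho (s k j) / r j ^ 2 * (2 * t j'))
  else if j' < j then rho (s l j') / r j' ^ 2 * (2 * t j)
  else -(4 * rho (s k j) / r j)

noncomputable def nu (k l j j' : ℕ) : ℝ :=
  if j < j' then rho (s k j) / r j ^ 2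
  else if j' < j then -(rho (s l j') / r j' ^ 2)
  else 0

noncomputable def lam (k _l j j' : ℕ) : ℝ :=
  if j < j' then 0
  else if j' < j then 0
  else 8 * rho (s k j) / r (s k j)

theorem KL {k l j j' : ℕ} (hkl : k < l) (hj : k < j) (hj' : l < j')
    {gk gl : ℝ} (hgk : gk ≤ -(t k / 4)) (hgk1 : -1 ≤ gk) (hgl : t k / 4 ≤ gl) (hgl1 : gl ≤ 1)
    {RK RL : ℕ → ℝ} (hRK : ∀ i, |RK i| ≤ 200 * r (s k i + 1)) (hRL : ∀ i, |RL i| ≤ 200 * r (s l i + 1)) :
    (∀ i, k < i → i ≠ j →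
      (mu k l j j' * r i + nu k l j j' * (r i * t i) + lam k l j j' * r (s k i)
        + rho (s k i) * gk + RK i) + Gam (min i j)
      ≤ mu k l j j' * r j + nu k l j j' * (r j * t j) + lam k l j j' * r (s k j)
        + rho (s k j) * gk + RK j) ∧
    (∀ i, l < i → i ≠ j' →
      (mu k l j j' * r j' + nu k l j j' * (r j' * t j') + lam k l j j' * r (s l j')
        + rho (s l j') * gl + RL j') + Gam (min i j')
      ≤ mu k l j j' * r i + nu k l j j' * (r i * t i) + lam k l j j' * r (s l i)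
        + rho (s l i) * gl + RL i) := by
  rcases lt_trichotomy j j' with h | h | h
  · have h1 := type1 hkl hj hj' hgk hgk1 hgl hgl1 hRK hRL h
    have e1 : mu k l j j' = -(rho (s k j) / r j ^ 2 * (2 * t j')) := by unfold mu; rw [if_pos h]
    have e2 : nu k l j j' = rho (s k j) / r j ^ 2 := by unfold nu; rw [if_pos h]
    have e3 : lam k l j j' = 0 := by unfold lam; rw [if_pos h]
    rw [e1, e2, e3]
    constructor
    · intro i hi hij
      have h2 := h1.1 i hi hij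
      linarith
    · intro i hi hij
      have h2 := h1.2 i hi hij
      linarith
  · have h1 := type3 hkl hj hj' hgk hgk1 hgl hgl1 hRK hRL h
    have hn1 : ¬ j < j' := by omega
    have hn2 : ¬ j' < j := by omega
    have e1 : mu k l j j' = -(4 * rho (s k j) / r j) := by unfold mu; rw [if_neg hn1, if_neg hn2]
    have e2 : nu k l j j' = 0 := by unfold nu; rw [if_neg hn1, if_neg hn2]
    have e3 : lam k l j j' = 8 * rho (s k j) / r (s k j) := by unfold lam; rw [if_neg hn1, if_neg hn2]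
    rw [e1, e2, e3]
    constructor
    · intro i hi hij
      have h2 := h1.1 i hi hij
      linarith
    · intro i hi hij
      have h2 := h1.2 i hi hij
      linarith
  · have h1 := type2 hkl hj hj' hgk hgk1 hgl hgl1 hRK hRL h
    have hn1 : ¬ j < j' := by omega
    have e1 : mu k l j j' = rho (s l j') / r j' ^ 2 * (2 * t j) := by
      unfold mu; rw [if_neg hn1, if_pos h]
    have e2 : nu k l j j' = -(rho (s l j') / r j' ^ 2) := by unfold nu; rw [if_neg hn1, if_pos h]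
    have e3 : lam k l j j' = 0 := by unfold lam; rw [if_neg hn1, if_pos h]
    rw [e1, e2, e3]
    constructor
    · intro i hi hij
      have h2 := h1.1 i hi hij
      linarith
    · intro i hi hij
      have h2 := h1.2 i hi hij
      linarith

/-- coefficient bounds -/
theorem C_small {S j : ℕ} (h : j < S) : rho S / r j ^ 2 ≤ 1 / 10000 ∧ 0 < rho S / r j ^ 2 := by
  have h1 := gp_rho (S := S) (a := r j) (b := r j) (c := 1) (d := 1)
    (w_anti (by omega)) (w_anti (by omega)) (one_ge _) (one_ge _)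
  have h2 := r_pos j
  constructor
  · rw [div_le_iff₀ (pow_pos h2 2)]
    linarith
  · exact div_pos (rho_pos S) (pow_pos h2 2)

theorem coef_bounds (k l j j' : ℕ) :
    |mu k l j j'| ≤ 1 / 1000 ∧ |nu k l j j'| ≤ 1 / 1000 ∧ |lam k l j j'| ≤ 1 / 1000 := by
  have hS := C_small (lt_s k j)
  have hS' := C_small (lt_s l j')
  have ht1 := t_le j
  have ht2 := t_le j'
  have ht3 := t_pos j
  have ht4 := t_pos j'
  have h3 : 4 * rho (s k j) / r j ≤ 1 / 1000 ∧ 0 ≤ 4 * rho (s k j) / r j := by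
    have h1 := gp_rho (S := s k j) (a := r j) (b := 1) (c := 1) (d := 1)
      (w_anti (by have := lt_s k j; omega)) (one_ge _) (one_ge _) (one_ge _)
    have h2 := r_pos j
    have h4 := rho_pos (s k j)
    constructor
    · rw [div_le_iff₀ h2]
      linarith
    · exact div_nonneg (by linarith) h2.le
  have h4 : 8 * rho (s k j) / r (s k j) ≤ 1 / 1000 ∧ 0 ≤ 8 * rho (s k j) / r (s k j) := by
    have h1 := gp_rho (S := s k j) (a := r (s k j)) (b := 1) (c := 1) (d := 1)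
      le_rfl (one_ge _) (one_ge _) (one_ge _)
    have h2 := r_pos (s k j)
    have h4 := rho_pos (s k j)
    constructor
    · rw [div_le_iff₀ h2]
      linarith
    · exact div_nonneg (by linarith) h2.le
  refine ⟨?_, ?_, ?_⟩
  · unfold mu
    split_ifs
    · rw [abs_neg, abs_of_nonneg (mul_nonneg hS.2.le (by linarith))]
      nlinarith [hS.1, hS.2]
    · rw [abs_of_nonneg (mul_nonneg hS'.2.le (by linarith))]
      nlinarith [hS'.1, hS'.2]
    · rw [abs_neg, abs_of_nonneg h3.2]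
      exact h3.1
  · unfold nu
    split_ifs
    · rw [abs_of_pos hS.2]; linarith [hS.1]
    · rw [abs_neg, abs_of_pos hS'.2]; linarith [hS'.1]
    · norm_num
  · unfold lam
    split_ifs
    · norm_num
    · norm_num
    · rw [abs_of_nonneg h4.2]; exact h4.1

noncomputable def F0 (q : Q) : V :=
  fv ![X q.k q.l / d q.k q.l, Y q.k q.l / d q.k q.l, 0, 0]
    ![mu q.k q.l q.j q.j', nu q.k q.l q.j q.j', 0, 0]
    ![lam q.k q.l q.j q.j', 0, Y q.k q.l / d q.k q.l, -(X q.k q.l / d q.k q.l)]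

noncomputable def tau : V := fv ![0, 0, 1, 0] ![0, 0, 0, 0] ![0, 0, 0, 0]

theorem F0_0 (q : Q) (n : ℕ) :
    ⟪F0 q, b n⟫ = X q.k q.l / d q.k q.l * r n + Y q.k q.l / d q.k q.l * (r n * t n) := by
  unfold F0 b
  rw [ev0]
  simp [Fin.sum_univ_four, beta]

theorem F0_1 (q : Q) (n : ℕ) :
    ⟪F0 q, T (b n)⟫ = mu q.k q.l q.j q.j' * r n + nu q.k q.l q.j q.j' * (r n * t n) := by
  unfold F0 b
  rw [ev1]
  simp [Fin.sum_univ_four, beta]

theorem F0_2 (q : Q) (n : ℕ) :
    ⟪F0 q, T (T (b n))⟫ = lam q.k q.l q.j q.j' * r n + Y q.k q.l / d q.k q.l * rho n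
      - X q.k q.l / d q.k q.l * (2 * rho n * t (kap n)) := by
  unfold F0 b
  rw [ev2]
  simp [Fin.sum_univ_four, beta]
  ring

theorem tau_0 (n : ℕ) : ⟪tau, b n⟫ = rho n := by
  unfold tau b
  rw [ev0]
  simp [Fin.sum_univ_four, beta]

theorem tau_1 (n : ℕ) : ⟪tau, T (b n)⟫ = 0 := by
  unfold tau b
  rw [ev1]
  simp [Fin.sum_univ_four]

theorem tau_2 (n : ℕ) : ⟪tau, T (T (b n))⟫ = 0 := by
  unfold tau b
  rw [ev2]
  simp [Fin.sum_univ_four]

noncomputable def A (k i : ℕ) : V := T (u i (s k i))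

theorem u_A {k i : ℕ} (h : k < i) : u k i = b k + A k i := u_eq h

noncomputable def z (q : Q) : V := u q.k q.j - u q.l q.j'

theorem z_eq (q : Q) : z q = (b q.k - b q.l) + (A q.k q.j - A q.l q.j') := by
  unfold z
  rw [u_A q.hj, u_A q.hj']
  abel

theorem norm_A (k i : ℕ) : ‖A k i‖ ≤ 10 * r i := by
  unfold A
  rw [T.norm_map]
  exact norm_u_le (lt_s k i)

noncomputable def vp (q : Q) : ℝ := (⟪F0 q, z q⟫ - d q.k q.l) / ⟪tau, z q⟫

noncomputable def p (q : Q) : V := F0 q - vp q • tau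

theorem ratio_bounds {k l : ℕ} (h : k < l) :
    0 ≤ X k l / d k l ∧ X k l / d k l ≤ 1 ∧ 0 ≤ Y k l / d k l ∧ Y k l / d k l ≤ 1 := by
  have h1 := X_pos h
  have h2 := Y_pos h
  have h3 := d_pos h
  refine ⟨by positivity, ?_, by positivity, ?_⟩
  · rw [div_le_one h3]; exact X_le_d
  · rw [div_le_one h3]; exact Y_le_d

theorem norm_F0 (q : Q) : ‖F0 q‖ ≤ 10 := by
  obtain ⟨h1, h2, h3, h4⟩ := ratio_bounds q.hkl
  obtain ⟨c1, c2, c3⟩ := coef_bounds q.k q.l q.j q.j'
  apply norm_fv_le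
  · intro a
    fin_cases a
    · show |X q.k q.l / d q.k q.l| ≤ 1
      rw [abs_of_nonneg h1]; exact h2
    · show |Y q.k q.l / d q.k q.l| ≤ 1
      rw [abs_of_nonneg h3]; exact h4
    · show |(0 : ℝ)| ≤ 1
      simp
    · show |(0 : ℝ)| ≤ 1
      simp
  · intro a
    fin_cases a
    · show |mu q.k q.l q.j q.j'| ≤ 1
      linarith
    · show |nu q.k q.l q.j q.j'| ≤ 1
      linarith
    · show |(0 : ℝ)| ≤ 1
      simp
    · show |(0 : ℝ)| ≤ 1
      simp
  · intro a
    fin_cases a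
    · show |lam q.k q.l q.j q.j'| ≤ 1
      linarith
    · show |(0 : ℝ)| ≤ 1
      simp
    · show |Y q.k q.l / d q.k q.l| ≤ 1
      rw [abs_of_nonneg h3]; exact h4
    · show |-(X q.k q.l / d q.k q.l)| ≤ 1
      rw [abs_neg, abs_of_nonneg h1]; exact h2

theorem norm_tau : ‖tau‖ ≤ 10 := by
  apply norm_fv_le <;> intro a <;> fin_cases a <;> simp

theorem inner_abs (x y : V) : |⟪x, y⟫| ≤ ‖x‖ * ‖y‖ := abs_real_inner_le_norm x y

theorem F0_z (q : Q) : ⟪F0 q, z q⟫ = d q.k q.l + (⟪F0 q, A q.k q.j⟫ - ⟪F0 q, A q.l q.j'⟫) := by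
  rw [z_eq, inner_add_right, inner_sub_right, inner_sub_right, F0_0, F0_0]
  have h3 := d_pos q.hkl
  have h4 := d_sq (k := q.k) (l := q.l)
  have e : X q.k q.l / d q.k q.l * r q.k + Y q.k q.l / d q.k q.l * (r q.k * t q.k) -
      (X q.k q.l / d q.k q.l * r q.l + Y q.k q.l / d q.k q.l * (r q.l * t q.l)) = d q.k q.l := by
    have e1 : X q.k q.l / d q.k q.l * r q.k + Y q.k q.l / d q.k q.l * (r q.k * t q.k) -
      (X q.k q.l / d q.k q.l * r q.l + Y q.k q.l / d q.k q.l * (r q.l * t q.l))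
      = (X q.k q.l ^ 2 + Y q.k q.l ^ 2) / d q.k q.l := by
      unfold X Y
      ring
    rw [e1, ← h4]
    field_simp
  rw [e]

theorem tau_z (q : Q) : rho q.k / 2 ≤ ⟪tau, z q⟫ := by
  rw [z_eq, inner_add_right, inner_sub_right, inner_sub_right, tau_0, tau_0]
  have h1 := abs_le.mp (inner_abs tau (A q.k q.j))
  have h2 := abs_le.mp (inner_abs tau (A q.l q.j'))
  have h3 := norm_A q.k q.j
  have h4 := norm_A q.l q.j'
  have h5 := norm_tau
  have h6 := norm_nonneg (A q.k q.j)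
  have h7 := norm_nonneg (A q.l q.j')
  have h8 : ‖tau‖ * ‖A q.k q.j‖ ≤ 10 * (10 * r q.j) := mul_le_mul h5 h3 h6 (by norm_num)
  have h9 : ‖tau‖ * ‖A q.l q.j'‖ ≤ 10 * (10 * r q.j') := mul_le_mul h5 h4 h7 (by norm_num)
  have h10 := r_lt_small q.hj
  have h11 := r_lt_small (q.hkl.trans q.hj')
  have h12 := r_lt_small q.hkl
  have h13 := rho_le_r q.l
  have h14 := trho_le (k := q.k) (S := q.k)
  have h15 := rho_pos q.k
  linarith

theorem vp_small (q : Q) : |vp q| ≤ 1 := by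
  unfold vp
  have h1 := tau_z q
  have h2 := rho_pos q.k
  have h3 : (0 : ℝ) < ⟪tau, z q⟫ := by linarith
  rw [abs_div, abs_of_pos h3, div_le_one h3, F0_z, add_sub_cancel_left]
  have h4 := abs_le.mp (inner_abs (F0 q) (A q.k q.j))
  have h5 := abs_le.mp (inner_abs (F0 q) (A q.l q.j'))
  have h6 : ‖F0 q‖ * ‖A q.k q.j‖ ≤ 10 * (10 * r q.j) :=
    mul_le_mul (norm_F0 q) (norm_A _ _) (norm_nonneg _) (by norm_num)
  have h7 : ‖F0 q‖ * ‖A q.l q.j'‖ ≤ 10 * (10 * r q.j') :=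
    mul_le_mul (norm_F0 q) (norm_A _ _) (norm_nonneg _) (by norm_num)
  have h10 := r_lt_small q.hj
  have h11 := r_lt_small (q.hkl.trans q.hj')
  have h14 := trho_le (k := q.k) (S := q.k)
  rw [abs_le]
  constructor <;> linarith

theorem p_z (q : Q) : ⟪p q, z q⟫ = d q.k q.l := by
  unfold p
  rw [inner_sub_left, inner_smul_left]
  have h1 := tau_z q
  have h2 := rho_pos q.k
  have h3 : (⟪tau, z q⟫ : ℝ) ≠ 0 := by
    have : (0 : ℝ) < ⟪tau, z q⟫ := by linarith
    exact this.ne'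
  simp only [conj_trivial]
  unfold vp
  field_simp
  ring

theorem norm_p (q : Q) : ‖p q‖ ≤ 20 := by
  unfold p
  have h1 := norm_sub_le (F0 q) (vp q • tau)
  rw [norm_smul, Real.norm_eq_abs] at h1
  have h2 := norm_F0 q
  have h3 := norm_tau
  have h4 := vp_small q
  have h5 : |vp q| * ‖tau‖ ≤ 1 * 10 := mul_le_mul h4 h3 (norm_nonneg _) (by norm_num)
  linarith

theorem p_b (q : Q) (n : ℕ) :
    ⟪p q, b n⟫ = X q.k q.l / d q.k q.l * r n + Y q.k q.l / d q.k q.l * (r n * t n) - vp q * rho n := by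
  unfold p
  rw [inner_sub_left, inner_smul_left, F0_0, tau_0]
  simp

theorem p_Tb (q : Q) (n : ℕ) :
    ⟪p q, T (b n)⟫ = mu q.k q.l q.j q.j' * r n + nu q.k q.l q.j q.j' * (r n * t n) := by
  unfold p
  rw [inner_sub_left, inner_smul_left, F0_1, tau_1]
  simp

theorem p_TTb (q : Q) (n : ℕ) :
    ⟪p q, T (T (b n))⟫ = lam q.k q.l q.j q.j' * r n + Y q.k q.l / d q.k q.l * rho n
      - X q.k q.l / d q.k q.l * (2 * rho n * t (kap n)) := by
  unfold p
  rw [inner_sub_left, inner_smul_left, F0_2, tau_2]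
  simp

noncomputable def g (q : Q) (kk : ℕ) : ℝ := Y q.k q.l / d q.k q.l - 2 * (X q.k q.l / d q.k q.l) * t kk

noncomputable def Rm (q : Q) (kk i : ℕ) : ℝ :=
  ⟪p q, T (T (T (u (s i (s kk i)) (s (s kk i) (s i (s kk i))))))⟫

theorem Rm_le (q : Q) (kk i : ℕ) : |Rm q kk i| ≤ 200 * r (s kk i + 1) := by
  unfold Rm
  refine (inner_abs _ _).trans ?_
  rw [T.norm_map, T.norm_map, T.norm_map]
  have h1 := norm_p q
  have h2 := norm_u_le (lt_s (s kk i) (s i (s kk i)))
  have h3 : r (s i (s kk i)) ≤ r (s kk i + 1) := r_anti (by have := lt_s i (s kk i); omega)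
  have h4 := mul_le_mul h1 h2 (norm_nonneg _) (by norm_num)
  linarith

theorem p_A (q : Q) {kk i : ℕ} (h : kk < i) :
    ⟪p q, A kk i⟫ = mu q.k q.l q.j q.j' * r i + nu q.k q.l q.j q.j' * (r i * t i)
      + lam q.k q.l q.j q.j' * r (s kk i) + rho (s kk i) * g q kk + Rm q kk i := by
  have e : A kk i = T (b i) + T (T (b (s kk i))) + T (T (T (u (s i (s kk i)) (s (s kk i) (s i (s kk i)))))) := by
    unfold A
    rw [u_eq (lt_s kk i), u_eq (lt_s i (s kk i))]
    simp only [map_add]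
    abel
  rw [e, inner_add_right, inner_add_right, p_Tb, p_TTb, kap_s h]
  unfold g Rm
  ring

theorem p_A_crude (q : Q) (kk i : ℕ) : |⟪p q, A kk i⟫| ≤ 200 * r i := by
  refine (inner_abs _ _).trans ?_
  have h4 := mul_le_mul (norm_p q) (norm_A kk i) (norm_nonneg _) (by norm_num)
  linarith

theorem g_k (q : Q) : g q q.k ≤ -(t q.k / 4) ∧ -1 ≤ g q q.k := by
  unfold g
  have h3 := d_pos q.hkl
  have hX := X_pos q.hkl
  have hd := d_le q.hkl
  have hY := Y_le q.hkl
  have hY0 := Y_pos q.hkl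
  have ht := t_pos q.k
  have ht1 := t_le q.k
  have hXd := X_le_d (k := q.k) (l := q.l)
  constructor
  · have e : Y q.k q.l / d q.k q.l - 2 * (X q.k q.l / d q.k q.l) * t q.k
        = (Y q.k q.l - 2 * X q.k q.l * t q.k) / d q.k q.l := by ring
    rw [e, div_le_iff₀ h3]
    have h1 : t q.k * d q.k q.l ≤ t q.k * (X q.k q.l * (11 / 10)) := by gcongr
    have h2 : 0 < t q.k * X q.k q.l := mul_pos ht hX
    nlinarith
  · have e : Y q.k q.l / d q.k q.l - 2 * (X q.k q.l / d q.k q.l) * t q.k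
        = (Y q.k q.l - 2 * X q.k q.l * t q.k) / d q.k q.l := by ring
    rw [e, le_div_iff₀ h3]
    nlinarith

theorem g_l (q : Q) : t q.k / 4 ≤ g q q.l ∧ g q q.l ≤ 1 := by
  unfold g
  have h3 := d_pos q.hkl
  have hX := X_pos q.hkl
  have hd := d_le q.hkl
  have hY := Y_ge q.hkl
  have hY0 := Y_pos q.hkl
  have ht := t_pos q.k
  have htl := t_lt q.hkl
  have ht1 := t_pos q.l
  have hYd := Y_le_d (k := q.k) (l := q.l)
  constructor
  · have e : Y q.k q.l / d q.k q.l - 2 * (X q.k q.l / d q.k q.l) * t q.l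
        = (Y q.k q.l - 2 * X q.k q.l * t q.l) / d q.k q.l := by ring
    rw [e, le_div_iff₀ h3]
    have h1 : t q.k * d q.k q.l ≤ t q.k * (X q.k q.l * (11 / 10)) := by gcongr
    have h2 : 0 < t q.k * X q.k q.l := mul_pos ht hX
    have h4 : X q.k q.l * (4 * t q.l) ≤ X q.k q.l * t q.k := by gcongr
    nlinarith
  · have e : Y q.k q.l / d q.k q.l - 2 * (X q.k q.l / d q.k q.l) * t q.l
        = (Y q.k q.l - 2 * X q.k q.l * t q.l) / d q.k q.l := by ring
    rw [e, div_le_iff₀ h3]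
    have : 0 < X q.k q.l * t q.l := mul_pos hX ht1
    nlinarith

/-- exposure in the first window -/
theorem expK (q : Q) {i : ℕ} (hi : q.k < i) (hne : i ≠ q.j) :
    ⟪p q, A q.k i⟫ + Gam (min i q.j) ≤ ⟪p q, A q.k q.j⟫ := by
  have h := (KL q.hkl q.hj q.hj' (g_k q).1 (g_k q).2 (g_l q).1 (g_l q).2
    (RK := Rm q q.k) (RL := Rm q q.l) (Rm_le q q.k) (Rm_le q q.l)).1 i hi hne
  rw [p_A q hi, p_A q q.hj]
  exact h

/-- exposure in the second window -/
theorem expL (q : Q) {i : ℕ} (hi : q.l < i) (hne : i ≠ q.j') :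
    ⟪p q, A q.l q.j'⟫ + Gam (min i q.j') ≤ ⟪p q, A q.l i⟫ := by
  have h := (KL q.hkl q.hj q.hj' (g_k q).1 (g_k q).2 (g_l q).1 (g_l q).2
    (RK := Rm q q.k) (RL := Rm q q.l) (Rm_le q q.k) (Rm_le q q.l)).2 i hi hne
  rw [p_A q hi, p_A q q.hj']
  exact h

end Pool.Agent.H18R3.Win
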