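import Pool.Agent.H18R3.WinFam

set_option autoImplicit false

namespace Pool.Agent.H18R3.Win

open scoped RealInnerProductSpace

section ramsey

variable (N : V → ℝ) (hneg : ∀ x, N (-x) = N x) (hTN : ∀ x, N (T x) = N x)
  (hN : ∀ k l j j', k < l → k < j → l < j' → N (u k j - u l j') = d k l)
  (h0 : N 0 = 0)

theorem iter_add (n : ℕ) (x y : V) : (⇑T)^[n] (x + y) = (⇑T)^[n] x + (⇑T)^[n] y := by
  induction n with
  | zero => rfl
  | succ n ih => rw [Function.iterate_succ_apply', Function.iterate_succ_apply',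
      Function.iterate_succ_apply', ih, map_add]

theorem iter_sub (n : ℕ) (x y : V) : (⇑T)^[n] (x - y) = (⇑T)^[n] x - (⇑T)^[n] y := by
  induction n with
  | zero => rfl
  | succ n ih => rw [Function.iterate_succ_apply', Function.iterate_succ_apply',
      Function.iterate_succ_apply', ih, map_sub]

include hTN in
theorem N_iter (n : ℕ) (x : V) : N ((⇑T)^[n] x) = N x := by
  induction n with
  | zero => rfl
  | succ n ih => rw [Function.iterate_succ_apply', hTN, ih]

/-- The base set. -/
noncomputable def mm (k : ℕ) : V := u k (k + 1)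

include hN h0 in
theorem mm_inj : Function.Injective mm := by
  intro k l hkl
  by_contra hne
  rcases lt_or_gt_of_ne hne with h | h
  · have h1 := hN k l (k + 1) (l + 1) h (by omega) (by omega)
    have h2 := d_pos h
    unfold mm at hkl
    rw [hkl, sub_self, h0] at h1
    linarith
  · have h1 := hN l k (l + 1) (k + 1) h (by omega) (by omega)
    have h2 := d_pos h
    unfold mm at hkl
    rw [hkl, sub_self, h0] at h1
    linarith

/-- A selection gives an isometric copy. -/
theorem fin2 {a x : Fin 2} (h : x ≠ a) : x = a + 1 := by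
  revert h
  revert a x
  decide

theorem five (a : Fin 2) : a ≠ a + 1 + 1 + 1 + 1 + 1 := by
  revert a
  decide

def Mono (c : V → Fin 2) (k n : ℕ) (p : V) (a : Fin 2) : Prop :=
  ∀ j, k < j → c (p + (⇑T)^[n] (u k j)) = a

include hneg hTN hN h0 in
theorem avoid (c : V → Fin 2)
    (hc : ∀ f : V → V, (∀ x ∈ Set.range mm, ∀ y ∈ Set.range mm, N (f x - f y) = N (x - y)) →
      ∃ x ∈ Set.range mm, ∃ y ∈ Set.range mm, c (f x) ≠ c (f y))
    (n : ℕ) (p : V) (a : Fin 2) : ∃ k, ∀ j, k < j → c (p + (⇑T)^[n] (u k j)) ≠ a := by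
  classical
  by_contra hcon
  push Not at hcon
  choose sel hsel hcol using hcon
  have hinj := mm_inj N hN h0
  let f : V → V := fun x => if h : ∃ k, mm k = x then p + (⇑T)^[n] (u h.choose (sel h.choose)) else x
  have hf : ∀ k, f (mm k) = p + (⇑T)^[n] (u k (sel k)) := by
    intro k
    have h : ∃ k', mm k' = mm k := ⟨k, rfl⟩
    have h1 : f (mm k) = p + (⇑T)^[n] (u h.choose (sel h.choose)) := by
      show (if h : ∃ k', mm k' = mm k then _ else _) = _
      rw [dif_pos h]
    have h2 : h.choose = k := hinj h.choose_spec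
    rw [h1, h2]
  have hiso : ∀ k l, N (f (mm k) - f (mm l)) = N (mm k - mm l) := by
    intro k l
    rw [hf, hf, add_sub_add_left_eq_sub, ← iter_sub, N_iter N hTN]
    rcases lt_trichotomy k l with h | h | h
    · rw [hN k l _ _ h (hsel k) (hsel l)]
      unfold mm
      rw [hN k l _ _ h (by omega) (by omega)]
    · rw [h, sub_self, sub_self]
    · rw [← neg_sub, hneg, hN l k _ _ h (hsel l) (hsel k), ← neg_sub (mm l), hneg]
      unfold mm
      rw [hN l k _ _ h (by omega) (by omega)]
  obtain ⟨x, ⟨k, rfl⟩, y, ⟨l, rfl⟩, hne⟩ := hc f (by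
    rintro x ⟨k, rfl⟩ y ⟨l, rfl⟩
    exact hiso k l)
  apply hne
  rw [hf, hf, hcol, hcol]

include hneg hTN hN h0 in
theorem ramsey (c : V → Fin 2) : ∃ f : V → V,
    (∀ x ∈ Set.range mm, ∀ y ∈ Set.range mm, N (f x - f y) = N (x - y)) ∧
      ∀ x ∈ Set.range mm, ∀ y ∈ Set.range mm, c (f x) = c (f y) := by
  classical
  by_contra hcon
  push Not at hcon
  have hav := avoid N hneg hTN hN h0 c hcon
  have hex : ∃ k, ∃ n p a, Mono c k n p a := by
    obtain ⟨k, hk⟩ := hav 0 0 0
    exact ⟨k, 0, 0, 0 + 1, fun j hj => fin2 (hk j hj)⟩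
  set k0 := Nat.find hex with hk0
  obtain ⟨n, p, a, hm⟩ := Nat.find_spec hex
  rw [← hk0] at hm
  have hmin : ∀ k, k < k0 → ∀ n p a, ¬ Mono c k n p a := by
    intro k hk n p a h
    exact Nat.find_min hex hk ⟨n, p, a, h⟩
  have step : ∀ n p a, Mono c k0 n p a → Mono c k0 (n + 1) (p + (⇑T)^[n] (b k0)) (a + 1) := by
    intro n p a hm
    obtain ⟨k, hk⟩ := hav (n + 1) (p + (⇑T)^[n] (b k0)) a
    have hkk : k = k0 := by
      rcases lt_trichotomy k k0 with h | h | h
      · exact absurd (fun j hj => fin2 (hk j hj)) (hmin k h (n + 1) (p + (⇑T)^[n] (b k0)) (a + 1))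
      · exact h
      · exfalso
        have h1 := hk (s k0 k) (lt_s k0 k)
        apply h1
        have h2 := hm k h
        rw [← h2]
        congr 1
        rw [u_eq h, iter_add, Function.iterate_succ_apply]
        abel
    intro j hj
    have h2 := hk j (by rw [hkk]; exact hj)
    have h3 := fin2 h2
    rw [hkk] at h3
    exact h3
  have h1 := step n p a hm
  have h2 := step _ _ _ h1
  have h3 := step _ _ _ h2
  have h4 := step _ _ _ h3
  have h5 := step _ _ _ h4
  have hp : p + (⇑T)^[n] (b k0) + (⇑T)^[n + 1] (b k0) + (⇑T)^[n + 1 + 1] (b k0)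
      + (⇑T)^[n + 1 + 1 + 1] (b k0) + (⇑T)^[n + 1 + 1 + 1 + 1] (b k0) = p := by
    have e := sum_T (beta k0)
    have e2 : (⇑T)^[n] (b k0) + (⇑T)^[n + 1] (b k0) + (⇑T)^[n + 1 + 1] (b k0)
      + (⇑T)^[n + 1 + 1 + 1] (b k0) + (⇑T)^[n + 1 + 1 + 1 + 1] (b k0) = 0 := by
      rw [Function.iterate_succ_apply, Function.iterate_succ_apply, Function.iterate_succ_apply,
        Function.iterate_succ_apply, Function.iterate_succ_apply, Function.iterate_succ_apply,
        Function.iterate_succ_apply, Function.iterate_succ_apply, Function.iterate_succ_apply,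
        Function.iterate_succ_apply, ← iter_add, ← iter_add, ← iter_add, ← iter_add]
      unfold b
      rw [e]
      have : ∀ m : ℕ, (⇑T)^[m] (0 : V) = 0 := by
        intro m
        induction m with
        | zero => rfl
        | succ m ih => rw [Function.iterate_succ_apply', ih, map_zero]
      exact this n
    calc _ = p + ((⇑T)^[n] (b k0) + (⇑T)^[n + 1] (b k0) + (⇑T)^[n + 1 + 1] (b k0)
      + (⇑T)^[n + 1 + 1 + 1] (b k0) + (⇑T)^[n + 1 + 1 + 1 + 1] (b k0)) := by abel
      _ = p := by rw [e2, add_zero]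
  rw [hp] at h5
  have h6 := h5 (k0 + 1) (by omega)
  have h7 := hm (k0 + 1) (by omega)
  have h8 : (⇑T)^[n + 1 + 1 + 1 + 1 + 1] (u k0 (k0 + 1)) = (⇑T)^[n] (u k0 (k0 + 1)) := by
    have e : n + 1 + 1 + 1 + 1 + 1 = n + 5 := by ring
    rw [e, Function.iterate_add_apply]
    congr 1
    exact T5 _
  rw [h8, h7] at h6
  exact five a h6

end ramsey

end Pool.Agent.H18R3.Win
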