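import Mathlib

set_option autoImplicit false

namespace Pool.Agent.H18R3.Win

/-- The fast decreasing sequence. -/
noncomputable def w (n : ℕ) : ℝ := (1 / 10000) ^ (20 ^ n)

noncomputable def r (n : ℕ) : ℝ := w (2 * n)
noncomputable def rho (n : ℕ) : ℝ := w (2 * n + 1)
noncomputable def t (n : ℕ) : ℝ := (1 / 4) ^ (n + 1)

def s (k j : ℕ) : ℕ := j ^ 2 + k + 1

def kap (n : ℕ) : ℕ := (n - 1) - (Nat.sqrt (n - 1)) ^ 2

theorem kap_s {k j : ℕ} (h : k < j) : kap (s k j) = k := by
  unfold kap s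
  have h1 : j ^ 2 + k + 1 - 1 = j ^ 2 + k := by omega
  rw [h1]
  have h2 : Nat.sqrt (j ^ 2 + k) = j := by
    rw [pow_two]
    exact Nat.sqrt_add_eq j (by omega)
  rw [h2]
  omega

theorem lt_s (k j : ℕ) : j < s k j := by
  unfold s
  nlinarith [Nat.zero_le j, Nat.zero_le k, sq_nonneg ((j : ℤ) - 1), Nat.le_self_pow (n := 2) (by norm_num) j]

theorem s_lt_s {k l i j : ℕ} (hk : k < i) (hij : i < j) : s k i < s l j := by
  unfold s
  have : (i + 1) ^ 2 ≤ j ^ 2 := Nat.pow_le_pow_left hij 2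
  nlinarith

theorem s_lt_s' {k l j : ℕ} (hk : k < l) : s k j < s l j := by
  unfold s
  omega

theorem s_le {k j : ℕ} (hk : k < j) : s k j < (j + 1) ^ 2 := by
  unfold s
  nlinarith

theorem w_pos (n : ℕ) : 0 < w n := by unfold w; positivity

theorem w_succ (n : ℕ) : w (n + 1) = w n ^ 20 := by
  unfold w
  rw [← pow_mul, pow_succ]

theorem w_le (n : ℕ) : w n ≤ 1 / 10000 := by
  unfold w
  exact pow_le_of_le_one (by norm_num) (by norm_num) (by positivity)

theorem w_anti {m n : ℕ} (h : m ≤ n) : w n ≤ w m := by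
  unfold w
  apply pow_le_pow_of_le_one (by norm_num) (by norm_num)
  exact Nat.pow_le_pow_right (by norm_num) h

theorem w_succ_le (n : ℕ) : 10000 * w (n + 1) ≤ w n ^ 5 := by
  rw [w_succ]
  have h1 := w_pos n
  have h2 := w_le n
  have h3 : w n ^ 15 ≤ 1 / 10000 := by
    calc w n ^ 15 ≤ w n ^ 1 := pow_le_pow_of_le_one h1.le (by linarith) (by norm_num)
      _ = w n := pow_one _
      _ ≤ 1 / 10000 := h2
  calc 10000 * w n ^ 20 = w n ^ 5 * (10000 * w n ^ 15) := by ring
    _ ≤ w n ^ 5 * 1 := by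
        apply mul_le_mul_of_nonneg_left _ (by positivity)
        linarith
    _ = w n ^ 5 := mul_one _

theorem t_pos (n : ℕ) : 0 < t n := by unfold t; positivity

theorem t_le (n : ℕ) : t n ≤ 1 / 4 := by
  unfold t
  exact pow_le_of_le_one (by norm_num) (by norm_num) (by omega)

theorem t_succ (n : ℕ) : t (n + 1) = t n / 4 := by
  unfold t
  rw [pow_succ]
  ring

theorem t_anti {m n : ℕ} (h : m ≤ n) : t n ≤ t m := by
  unfold t
  exact pow_le_pow_of_le_one (by norm_num) (by norm_num) (by omega)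

theorem t_lt {m n : ℕ} (h : m < n) : 4 * t n ≤ t m := by
  have h1 := t_anti (show m + 1 ≤ n from h)
  rw [t_succ] at h1
  linarith

theorem w_le_t (n : ℕ) : 1000 * w n ≤ t n := by
  induction n with
  | zero =>
    unfold w t
    norm_num
  | succ n ih =>
    rw [t_succ]
    have h1 := w_succ_le n
    have h2 := w_pos n
    have h3 := w_le n
    have h4 : w n ^ 5 ≤ w n := by
      calc w n ^ 5 ≤ w n ^ 1 := pow_le_pow_of_le_one h2.le (by linarith) (by norm_num)
        _ = w n := pow_one _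
    linarith

theorem r_pos (n : ℕ) : 0 < r n := w_pos _
theorem rho_pos (n : ℕ) : 0 < rho n := w_pos _
theorem r_le (n : ℕ) : r n ≤ 1 / 10000 := w_le _
theorem rho_le (n : ℕ) : rho n ≤ 1 / 10000 := w_le _

theorem r_le_t (n : ℕ) : 1000 * r n ≤ t n := by
  have h1 : w (2 * n) ≤ w n := w_anti (by omega)
  have h2 := w_le_t n
  unfold r
  linarith

theorem r_anti {m n : ℕ} (h : m ≤ n) : r n ≤ r m := w_anti (by omega)
theorem rho_anti {m n : ℕ} (h : m ≤ n) : rho n ≤ rho m := w_anti (by omega)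

/-- General comparison: a product of four numbers above w n dominates w (n+1). -/
theorem gp {n : ℕ} {a b c d : ℝ} (ha : w n ≤ a) (hb : w n ≤ b) (hc : w n ≤ c) (hd : w n ≤ d) :
    10000 * w (n + 1) ≤ a * b * c * d := by
  have h0 := w_pos n
  have h1 := w_succ_le n
  have h2 : w n ^ 5 ≤ w n * w n * w n * w n := by
    have h3 := w_le n
    calc w n ^ 5 = (w n * w n * w n * w n) * w n := by ring
      _ ≤ (w n * w n * w n * w n) * 1 := by
          apply mul_le_mul_of_nonneg_left _ (by positivity)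
          linarith
      _ = _ := mul_one _
  have h3 : w n * w n * w n * w n ≤ a * b * c * d := by
    have ha0 : 0 ≤ a := h0.le.trans ha
    have hb0 : 0 ≤ b := h0.le.trans hb
    have hc0 : 0 ≤ c := h0.le.trans hc
    gcongr
  linarith

theorem w_le_t' {m n : ℕ} (h : m ≤ n) : w n ≤ t m := by
  have h1 := w_anti h
  have h2 := w_le_t m
  have h3 := w_pos m
  linarith

/-- Comparison for rho. -/
theorem gp_rho {S : ℕ} {a b c d : ℝ} (ha : w (2 * S) ≤ a) (hb : w (2 * S) ≤ b)
    (hc : w (2 * S) ≤ c) (hd : w (2 * S) ≤ d) : 10000 * rho S ≤ a * b * c * d := gp ha hb hc hd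

/-- Comparison for r. -/
theorem gp_r {S : ℕ} {a b c d : ℝ} (ha : w (2 * S + 1) ≤ a) (hb : w (2 * S + 1) ≤ b)
    (hc : w (2 * S + 1) ≤ c) (hd : w (2 * S + 1) ≤ d) : 10000 * r (S + 1) ≤ a * b * c * d := gp ha hb hc hd

theorem one_ge (n : ℕ) : w n ≤ 1 := by
  have := w_le n
  linarith

/-- The remainder after index S is negligible against rho S. -/
theorem rem_small {S : ℕ} {k : ℕ} (hk : k ≤ S) : 10000 * r (S + 1) ≤ t k * rho S := by
  have h := gp_r (S := S) (a := t k) (b := rho S) (c := 1) (d := 1)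
    (w_le_t' (by omega)) le_rfl (one_ge _) (one_ge _)
  simpa using h

end Pool.Agent.H18R3.Win
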