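import Pool.Agent.H18R3.WinVec

set_option autoImplicit false

namespace Pool.Agent.H18R3.Win

open scoped RealInnerProductSpace

noncomputable def beta (n : ℕ) : Fin 4 → ℝ := ![r n, r n * t n, rho n, 2 * rho n * t (kap n)]

noncomputable def b (n : ℕ) : V := P (beta n)

theorem rho_le_r (n : ℕ) : rho n ≤ r n := w_anti (by omega)

theorem norm_b_le (n : ℕ) : ‖b n‖ ≤ 5 * r n := by
  apply norm_P_le _ _ (r_pos n).le
  intro a
  have h1 := r_pos n
  have h2 := rho_pos n
  have h3 := rho_le_r n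
  have h4 := t_pos n
  have h5 := t_le n
  have h6 := t_pos (kap n)
  have h7 := t_le (kap n)
  fin_cases a
  · show |r n| ≤ r n
    rw [abs_of_pos h1]
  · show |r n * t n| ≤ r n
    rw [abs_of_pos (mul_pos h1 h4)]
    nlinarith
  · show |rho n| ≤ r n
    rw [abs_of_pos h2]
    exact h3
  · show |2 * rho n * t (kap n)| ≤ r n
    rw [abs_of_pos (by positivity)]
    nlinarith

def step (p : ℕ × ℕ) : ℕ × ℕ := (p.2, s p.1 p.2)

def c (p : ℕ × ℕ) (n : ℕ) : ℕ := (step^[n] p).1

theorem c_zero (p : ℕ × ℕ) : c p 0 = p.1 := rfl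

theorem c_succ (p : ℕ × ℕ) (n : ℕ) : c p (n + 1) = c (step p) n := rfl

theorem step_lt (p : ℕ × ℕ) : (step p).1 < (step p).2 := lt_s _ _

theorem c_ge (n : ℕ) : ∀ p : ℕ × ℕ, p.1 < p.2 → p.1 + n ≤ c p n := by
  induction n with
  | zero => intro p _; simp [c_zero]
  | succ n ih =>
    intro p hp
    rw [c_succ]
    have h1 := ih (step p) (step_lt p)
    have h2 : (step p).1 = p.2 := rfl
    omega

theorem r_half (n : ℕ) : r (n + 1) ≤ r n / 2 := by
  have h1 := r_succ_le n
  have h2 := r_le n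
  have h3 := r_pos n
  nlinarith

theorem r_geom (m n : ℕ) : r (m + n) ≤ r m * (1 / 2) ^ n := by
  induction n with
  | zero => simp
  | succ n ih =>
    have h := r_half (m + n)
    rw [pow_succ]
    have e : m + (n + 1) = m + n + 1 := by ring
    rw [e]
    linarith

theorem norm_iter (n : ℕ) (x : V) : ‖(⇑T)^[n] x‖ = ‖x‖ := by
  induction n with
  | zero => rfl
  | succ n ih =>
    rw [Function.iterate_succ_apply']
    rw [T.norm_map, ih]

theorem term_bound {p : ℕ × ℕ} (hp : p.1 < p.2) (n : ℕ) :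
    ‖(⇑T)^[n] (b (c p n))‖ ≤ 5 * r p.1 * (1 / 2) ^ n := by
  rw [norm_iter]
  calc ‖b (c p n)‖ ≤ 5 * r (c p n) := norm_b_le _
    _ ≤ 5 * r (p.1 + n) := by
        have := r_anti (c_ge n p hp)
        linarith
    _ ≤ 5 * (r p.1 * (1 / 2) ^ n) := by
        have := r_geom p.1 n
        linarith
    _ = _ := by ring

theorem summable_geo (a : ℝ) : Summable (fun n : ℕ => a * (1 / 2 : ℝ) ^ n) :=
  (summable_geometric_of_lt_one (by norm_num) (by norm_num)).mul_left a

theorem summable_u {p : ℕ × ℕ} (hp : p.1 < p.2) : Summable (fun n => (⇑T)^[n] (b (c p n))) :=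
  Summable.of_norm_bounded (summable_geo _) (term_bound hp)

noncomputable def U (p : ℕ × ℕ) : V := ∑' n, (⇑T)^[n] (b (c p n))

theorem norm_U_le {p : ℕ × ℕ} (hp : p.1 < p.2) : ‖U p‖ ≤ 10 * r p.1 := by
  have h1 := tsum_of_norm_bounded (f := fun n => (⇑T)^[n] (b (c p n)))
    (summable_geo (5 * r p.1)).hasSum (term_bound hp)
  have h2 : ∑' n : ℕ, 5 * r p.1 * (1 / 2 : ℝ) ^ n = 10 * r p.1 := by
    rw [tsum_mul_left, tsum_geometric_of_lt_one (by norm_num) (by norm_num)]
    ring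
  rw [h2] at h1
  exact h1

theorem U_eq {p : ℕ × ℕ} (hp : p.1 < p.2) : U p = b p.1 + T (U (step p)) := by
  unfold U
  rw [(summable_u hp).tsum_eq_zero_add]
  congr 1
  have h1 := (summable_u (step_lt p)).hasSum
  have h2 := (T.toContinuousLinearEquiv : V →L[ℝ] V).hasSum h1
  have h3 : ∑' n, T ((⇑T)^[n] (b (c (step p) n))) = T (∑' n, (⇑T)^[n] (b (c (step p) n))) := h2.tsum_eq
  rw [← h3]
  apply tsum_congr
  intro n
  rw [c_succ, Function.iterate_succ_apply']

noncomputable def u (k j : ℕ) : V := U (k, j)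

theorem u_eq {k j : ℕ} (h : k < j) : u k j = b k + T (u j (s k j)) := U_eq (p := (k, j)) h

theorem norm_u_le {k j : ℕ} (h : k < j) : ‖u k j‖ ≤ 10 * r k := norm_U_le (p := (k, j)) h

/-- three steps -/
theorem u_eq3 {k j : ℕ} (h : k < j) :
    u k j = b k + T (b j) + T (T (b (s k j))) + T (T (T (u (s j (s k j)) (s (s k j) (s j (s k j)))))) := by
  rw [u_eq h, u_eq (lt_s k j), u_eq (lt_s j (s k j))]
  simp only [map_add]
  abel

end Pool.Agent.H18R3.Win
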