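import Pool.Agent.H18R3.WinX

set_option autoImplicit false

namespace Pool.Agent.H18R3.Win

open scoped RealInnerProductSpace

noncomputable def zh (q : Q) : V := (1 / d q.k q.l) • z q

theorem P_smul (a : ℝ) (f : Fin 4 → ℝ) : a • P f = P (a • f) := by
  ext ⟨i, b⟩
  show a * P f (i, b) = P (a • f) (i, b)
  rw [P_apply, P_apply, Pi.smul_apply, smul_eq_mul]
  ring

theorem rho_small (k : ℕ) : 10000 * rho k ≤ t k * r k := by
  have h := gp_rho (S := k) (a := t k) (b := r k) (c := 1) (d := 1)
    (w_le_t' (by omega)) le_rfl (one_ge _) (one_ge _)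
  linarith

theorem near_e (q : Q) : ‖zh q - P ![1, 0, 0, 0]‖ ≤ 11 * t q.k := by
  have hd := d_pos q.hkl
  have hdg := d_ge q.hkl
  have hr := r_pos q.k
  have hX := X_pos q.hkl
  have hY := Y_pos q.hkl
  have hYle := Y_le q.hkl
  have hXd := X_le_d (k := q.k) (l := q.l)
  have hdsq := d_sq (k := q.k) (l := q.l)
  have ht := t_pos q.k
  have hρ := rho_small q.k
  have hρ0 := rho_pos q.k
  have hρl := rho_pos q.l
  have hρle := rho_anti q.hkl.le
  have hYd : Y q.k q.l / d q.k q.l ≤ 2 * t q.k := by
    rw [div_le_iff₀ hd]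
    nlinarith
  have hρd : rho q.k / d q.k q.l ≤ t q.k := by
    rw [div_le_iff₀ hd]
    nlinarith
  have e : zh q - P ![1, 0, 0, 0]
      = P ((1 / d q.k q.l) • (beta q.k - beta q.l) - ![1, 0, 0, 0])
        + (1 / d q.k q.l) • (A q.k q.j - A q.l q.j') := by
    unfold zh
    rw [z_eq, smul_add, ← P_sub, ← P_smul, ← P_sub]
    unfold b
    abel
  rw [e]
  have h1 : ‖P ((1 / d q.k q.l) • (beta q.k - beta q.l) - ![1, 0, 0, 0])‖ ≤ 5 * (2 * t q.k) := by
    apply norm_P_le _ _ (by positivity)
    intro a
    fin_cases a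
    · show |1 / d q.k q.l * (r q.k - r q.l) - 1| ≤ 2 * t q.k
      have e1 : 1 / d q.k q.l * (r q.k - r q.l) - 1 = -((d q.k q.l - X q.k q.l) / d q.k q.l) := by
        unfold X
        field_simp
        ring
      rw [e1, abs_neg, abs_of_nonneg (by apply div_nonneg _ hd.le; linarith)]
      refine le_trans ?_ hYd
      apply div_le_div_of_nonneg_right _ hd.le
      nlinarith
    · show |1 / d q.k q.l * (r q.k * t q.k - r q.l * t q.l) - 0| ≤ 2 * t q.k
      have e1 : 1 / d q.k q.l * (r q.k * t q.k - r q.l * t q.l) - 0 = Y q.k q.l / d q.k q.l := by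
        unfold Y
        ring
      rw [e1, abs_of_pos (by positivity)]
      exact hYd
    · show |1 / d q.k q.l * (rho q.k - rho q.l) - 0| ≤ 2 * t q.k
      have e1 : 1 / d q.k q.l * (rho q.k - rho q.l) - 0 = (rho q.k - rho q.l) / d q.k q.l := by ring
      rw [e1, abs_of_nonneg (by apply div_nonneg _ hd.le; linarith)]
      have h2 : (rho q.k - rho q.l) / d q.k q.l ≤ rho q.k / d q.k q.l := by
        apply div_le_div_of_nonneg_right _ hd.le
        linarith
      linarith
    · show |1 / d q.k q.l * (2 * rho q.k * t (kap q.k) - 2 * rho q.l * t (kap q.l)) - 0| ≤ 2 * t q.k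
      have h3 := t_pos (kap q.k)
      have h4 := t_le (kap q.k)
      have h5 := t_pos (kap q.l)
      have h6 := t_le (kap q.l)
      have e1 : 1 / d q.k q.l * (2 * rho q.k * t (kap q.k) - 2 * rho q.l * t (kap q.l)) - 0
        = (2 * rho q.k * t (kap q.k) - 2 * rho q.l * t (kap q.l)) / d q.k q.l := by ring
      rw [e1, abs_div, abs_of_pos hd]
      have h7 : |2 * rho q.k * t (kap q.k) - 2 * rho q.l * t (kap q.l)| ≤ rho q.k := by
        rw [abs_le]
        constructor <;> nlinarith
      have h8 : |2 * rho q.k * t (kap q.k) - 2 * rho q.l * t (kap q.l)| / d q.k q.l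
          ≤ rho q.k / d q.k q.l := div_le_div_of_nonneg_right h7 hd.le
      linarith
  have h2 : ‖(1 / d q.k q.l) • (A q.k q.j - A q.l q.j')‖ ≤ t q.k := by
    rw [norm_smul, Real.norm_eq_abs, abs_of_pos (by positivity)]
    have h3 := norm_sub_le (A q.k q.j) (A q.l q.j')
    have h4 := norm_A q.k q.j
    have h5 := norm_A q.l q.j'
    have h6 := r_lt_small q.hj
    have h7 := r_lt_small (q.hkl.trans q.hj')
    have h8 := trho_le (k := q.k) (S := q.k)
    have h9 : ‖A q.k q.j - A q.l q.j'‖ ≤ rho q.k := by linarith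
    calc 1 / d q.k q.l * ‖A q.k q.j - A q.l q.j'‖ ≤ 1 / d q.k q.l * rho q.k := by gcongr
      _ = rho q.k / d q.k q.l := by ring
      _ ≤ t q.k := hρd
  have h3 := norm_add_le (P ((1 / d q.k q.l) • (beta q.k - beta q.l) - ![1, 0, 0, 0]))
    ((1 / d q.k q.l) • (A q.k q.j - A q.l q.j'))
  linarith

theorem norm_z (q : Q) : ‖z q‖ ≤ 20 * r q.k := by
  unfold z
  have h1 := norm_sub_le (u q.k q.j) (u q.l q.j')
  have h2 := norm_u_le q.hj
  have h3 := norm_u_le q.hj'
  have h4 := r_anti q.hkl.le
  linarith

theorem d_lip {k l l' : ℕ} (h : k < l) (h' : k < l') {a : ℝ} (hl : r l ≤ a) (hl' : r l' ≤ a) :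
    |d k l' - d k l| ≤ 2 * a := by
  have hd := d_pos h
  have hd' := d_pos h'
  have hs := d_sq (k := k) (l := l)
  have hs' := d_sq (k := k) (l := l')
  have hX := X_le_d (k := k) (l := l)
  have hX' := X_le_d (k := k) (l := l')
  have hY := Y_le_d (k := k) (l := l)
  have hY' := Y_le_d (k := k) (l := l')
  have h1 := X_pos h
  have h2 := X_pos h'
  have h3 := Y_pos h
  have h4 := Y_pos h'
  have h5 := r_pos l
  have h6 := r_pos l'
  have e1 : |X k l' - X k l| ≤ a := by
    unfold X
    rw [abs_le]
    constructor <;> linarith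
  have e2 : |Y k l' - Y k l| ≤ a := by
    unfold Y
    have h7 := t_pos l
    have h8 := t_le_one l
    have h9 := t_pos l'
    have h10 := t_le_one l'
    rw [abs_le]
    constructor <;> nlinarith
  have e1' := abs_le.mp e1
  have e2' := abs_le.mp e2
  have key : (d k l' - d k l) * (d k l' + d k l)
      = (X k l' - X k l) * (X k l' + X k l) + (Y k l' - Y k l) * (Y k l' + Y k l) := by
    linear_combination hs' - hs
  have ha : 0 ≤ a := by linarith
  have hsum : 0 < d k l' + d k l := by linarith
  rw [abs_le]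
  constructor
  · by_contra hc
    push Not at hc
    have h11 : (d k l' - d k l) * (d k l' + d k l) < -(2 * a) * (d k l' + d k l) :=
      mul_lt_mul_of_pos_right hc hsum
    have h12 : -a * (X k l' + X k l) ≤ (X k l' - X k l) * (X k l' + X k l) :=
      mul_le_mul_of_nonneg_right e1'.1 (by linarith)
    have h13 : -a * (Y k l' + Y k l) ≤ (Y k l' - Y k l) * (Y k l' + Y k l) :=
      mul_le_mul_of_nonneg_right e2'.1 (by linarith)
    nlinarith
  · by_contra hc
    push Not at hc
    have h11 : 2 * a * (d k l' + d k l) < (d k l' - d k l) * (d k l' + d k l) :=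
      mul_lt_mul_of_pos_right hc hsum
    have h12 : (X k l' - X k l) * (X k l' + X k l) ≤ a * (X k l' + X k l) :=
      mul_le_mul_of_nonneg_right e1'.2 (by linarith)
    have h13 : (Y k l' - Y k l) * (Y k l' + Y k l) ≤ a * (Y k l' + Y k l) :=
      mul_le_mul_of_nonneg_right e2'.2 (by linarith)
    nlinarith

theorem near_dist {q q' : Q} {m : ℕ} (h : Near q q' m) : ‖zh q - zh q'‖ ≤ 22 * t m := by
  rcases h with ⟨hk, hm⟩ | ⟨hk, hkm, hl, hj, hj'⟩
  · have h1 := near_e q
    have h2 := near_e q'
    have h3 : ‖zh q - zh q'‖ ≤ ‖zh q - P ![1, 0, 0, 0]‖ + ‖zh q' - P ![1, 0, 0, 0]‖ := by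
      have : zh q - zh q' = (zh q - P ![1, 0, 0, 0]) - (zh q' - P ![1, 0, 0, 0]) := by abel
      rw [this]
      exact norm_sub_le _ _
    have h4 : t q.k ≤ t m := t_anti (by rw [hm]; exact min_le_left _ _)
    have h5 : t q'.k ≤ t m := t_anti (by rw [hm]; exact min_le_right _ _)
    linarith
  · have hrm := r_pos m
    -- the difference of the unnormalised vectors
    have hz : ‖z q - z q'‖ ≤ 40 * r m := by
      have e : z q - z q' = (u q.k q.j - u q'.k q'.j) - (u q.l q.j' - u q'.l q'.j') := by
        unfold z; abel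
      rw [e]
      have h1 : ‖u q.k q.j - u q'.k q'.j‖ ≤ 20 * r m := by
        by_cases hjj : q.j = q'.j
        · rw [hk, hjj, sub_self, norm_zero]
          linarith
        · have h2 := hj hjj
          rw [u_A q.hj, u_A q'.hj, ← hk]
          have h3 : b q.k + A q.k q.j - (b q.k + A q.k q'.j) = A q.k q.j - A q.k q'.j := by abel
          rw [h3]
          have h4 := norm_sub_le (A q.k q.j) (A q.k q'.j)
          have h5 := norm_A q.k q.j
          have h6 := norm_A q.k q'.j
          have h7 : r q.j ≤ r m := r_anti (h2.trans (min_le_left _ _))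
          have h8 : r q'.j ≤ r m := r_anti (h2.trans (min_le_right _ _))
          linarith
      have h2 : ‖u q.l q.j' - u q'.l q'.j'‖ ≤ 20 * r m := by
        by_cases hll : q.l = q'.l
        · by_cases hjj : q.j' = q'.j'
          · rw [hll, hjj, sub_self, norm_zero]
            linarith
          · have h2 := hj' hll hjj
            rw [u_A q.hj', u_A q'.hj', ← hll]
            have h3 : b q.l + A q.l q.j' - (b q.l + A q.l q'.j') = A q.l q.j' - A q.l q'.j' := by abel
            rw [h3]
            have h4 := norm_sub_le (A q.l q.j') (A q.l q'.j')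
            have h5 := norm_A q.l q.j'
            have h6 := norm_A q.l q'.j'
            have h7 : r q.j' ≤ r m := r_anti (h2.trans (min_le_left _ _))
            have h8 : r q'.j' ≤ r m := r_anti (h2.trans (min_le_right _ _))
            linarith
        · have h2 := hl hll
          have h4 := norm_sub_le (u q.l q.j') (u q'.l q'.j')
          have h5 := norm_u_le q.hj'
          have h6 := norm_u_le q'.hj'
          have h7 : r q.l ≤ r m := r_anti (h2.trans (min_le_left _ _))
          have h8 : r q'.l ≤ r m := r_anti (h2.trans (min_le_right _ _))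
          linarith
      have h3 := norm_sub_le (u q.k q.j - u q'.k q'.j) (u q.l q.j' - u q'.l q'.j')
      linarith
    have hdd : |d q'.k q'.l - d q.k q.l| ≤ 2 * r m := by
      by_cases hll : q.l = q'.l
      · rw [hk, hll, sub_self, abs_zero]
        linarith
      · have h2 := hl hll
        rw [← hk]
        exact d_lip q.hkl (by rw [hk]; exact q'.hkl) (r_anti (h2.trans (min_le_left _ _)))
          (r_anti (h2.trans (min_le_right _ _)))
    have hd := d_pos q.hkl
    have hd' := d_pos q'.hkl
    have hdg := d_ge q.hkl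
    have hdg' : r q.k / 2 ≤ d q'.k q'.l := by rw [hk]; exact d_ge q'.hkl
    have hr := r_pos q.k
    have hz' := norm_z q'
    rw [← hk] at hz'
    have e : zh q - zh q' = (1 / d q.k q.l) • (z q - z q')
        + ((d q'.k q'.l - d q.k q.l) / (d q.k q.l * d q'.k q'.l)) • z q' := by
      unfold zh
      rw [smul_sub]
      have : (d q'.k q'.l - d q.k q.l) / (d q.k q.l * d q'.k q'.l)
          = 1 / d q.k q.l - 1 / d q'.k q'.l := by
        field_simp
      rw [this, sub_smul]
      abel
    rw [e]
    refine (norm_add_le _ _).trans ?_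
    rw [norm_smul, norm_smul, Real.norm_eq_abs, Real.norm_eq_abs, abs_of_pos (by positivity), abs_div,
      abs_of_pos (mul_pos hd hd')]
    obtain ⟨m', rfl⟩ : ∃ m', m = m' + 1 := ⟨m - 1, by omega⟩
    have hsmall : 10000 * r (m' + 1) ≤ t (m' + 1) * r q.k := by
      have h := gp_r (S := m') (a := t (m' + 1)) (b := r q.k) (c := 1) (d := 1)
        (by
          by_cases h0 : m' = 0
          · subst h0
            have h1 := w_succ_le 0
            have h2 := w_le 0
            have h3 := w_pos 0
            have h4 : w 0 ^ 5 ≤ 1 := pow_le_one₀ h3.le (by linarith)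
            have h5 : t (0 + 1) = 1 / 16 := by unfold t; norm_num
            rw [h5]
            have h6 : w (2 * 0 + 1) = w (0 + 1) := by norm_num
            rw [h6]
            linarith
          · exact w_le_t' (by omega)) (w_anti (by omega)) (one_ge _) (one_ge _)
      linarith
    have h1 : 1 / d q.k q.l * ‖z q - z q'‖ ≤ 80 * (r (m' + 1) / r q.k) := by
      have h2 : 1 / d q.k q.l ≤ 2 / r q.k := by
        rw [div_le_div_iff₀ hd hr]
        linarith
      calc 1 / d q.k q.l * ‖z q - z q'‖ ≤ 2 / r q.k * (40 * r (m' + 1)) := by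
            apply mul_le_mul h2 hz (norm_nonneg _) (by positivity)
        _ = 80 * (r (m' + 1) / r q.k) := by ring
    have h2 : |d q'.k q'.l - d q.k q.l| / (d q.k q.l * d q'.k q'.l) * ‖z q'‖
        ≤ 160 * (r (m' + 1) / r q.k) := by
      have h3 : r q.k * r q.k / 4 ≤ d q.k q.l * d q'.k q'.l := by
        have := mul_le_mul hdg hdg' (by positivity) hd.le
        linarith
      have h4 : |d q'.k q'.l - d q.k q.l| / (d q.k q.l * d q'.k q'.l)
          ≤ 2 * r (m' + 1) / (r q.k * r q.k / 4) := by
        apply div_le_div₀ (by positivity) hdd (by positivity) h3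
      calc |d q'.k q'.l - d q.k q.l| / (d q.k q.l * d q'.k q'.l) * ‖z q'‖
          ≤ 2 * r (m' + 1) / (r q.k * r q.k / 4) * (20 * r q.k) := by
            apply mul_le_mul h4 hz' (norm_nonneg _) (by positivity)
        _ = 160 * (r (m' + 1) / r q.k) := by field_simp; ring
    have h3 : r (m' + 1) / r q.k ≤ t (m' + 1) / 10000 := by
      rw [div_le_iff₀ hr]
      linarith
    have h4 := t_pos (m' + 1)
    linarith

end Pool.Agent.H18R3.Win
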