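import Pool.Agent.H18R3.WinKL

set_option autoImplicit false

namespace Pool.Agent.H18R3.Win

open scoped RealInnerProductSpace

abbrev V := EuclideanSpace ℝ (Fin 5 × Fin 4)

def shiftE : Fin 5 × Fin 4 ≃ Fin 5 × Fin 4 where
  toFun := fun ia => (ia.1 + 1, ia.2)
  invFun := fun ia => (ia.1 - 1, ia.2)
  left_inv := fun ia => by simp
  right_inv := fun ia => by simp

theorem q0 : (0 : Fin 5) - 1 = 4 := rfl
theorem q1 : (1 : Fin 5) - 1 = 0 := rfl
theorem q2 : (2 : Fin 5) - 1 = 1 := rfl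
theorem q3 : (3 : Fin 5) - 1 = 2 := rfl
theorem q4 : (4 : Fin 5) - 1 = 3 := rfl

/-- The shift, an isometry of order five. -/
noncomputable def T : V ≃ₗᵢ[ℝ] V := LinearIsometryEquiv.piLpCongrLeft 2 ℝ ℝ shiftE

theorem T_apply (x : V) (i : Fin 5) (a : Fin 4) : T x (i, a) = x (i - 1, a) := rfl

/-- The embedding of the first factor. -/
noncomputable def P (f : Fin 4 → ℝ) : V :=
  WithLp.toLp 2 (fun ia : Fin 5 × Fin 4 => f ia.2 * ((if ia.1 = 0 then 1 else 0) - 1 / 5))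

theorem P_apply (f : Fin 4 → ℝ) (i : Fin 5) (a : Fin 4) :
    P f (i, a) = f a * ((if i = 0 then 1 else 0) - 1 / 5) := rfl

theorem P_sub (f g : Fin 4 → ℝ) : P f - P g = P (f - g) := by
  ext ⟨i, a⟩
  show P f (i, a) - P g (i, a) = _
  rw [P_apply, P_apply, P_apply, Pi.sub_apply]
  ring

theorem T5 (x : V) : T (T (T (T (T x)))) = x := by
  ext ⟨i, a⟩
  simp only [T_apply]
  have h : i - 1 - 1 - 1 - 1 - 1 = i := by
    fin_cases i <;> rfl
  rw [h]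

theorem sum_T (f : Fin 4 → ℝ) :
    P f + T (P f) + T (T (P f)) + T (T (T (P f))) + T (T (T (T (P f)))) = 0 := by
  ext ⟨i, a⟩
  simp only [PiLp.add_apply, T_apply, P_apply, PiLp.zero_apply]
  have h : ∀ i : Fin 5, ((if i = 0 then (1 : ℝ) else 0) + (if i - 1 = 0 then 1 else 0) + (if i - 1 - 1 = 0 then 1 else 0)
      + (if i - 1 - 1 - 1 = 0 then 1 else 0) + (if i - 1 - 1 - 1 - 1 = 0 then 1 else 0)) = 1 := by
    intro i
    have h0 : i = 0 ∨ i = 1 ∨ i = 2 ∨ i = 3 ∨ i = 4 := by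
      fin_cases i <;> simp
    rcases h0 with rfl | rfl | rfl | rfl | rfl <;> simp only [q0, q1, q2, q3, q4] <;> simp
  have h1 := h i
  linear_combination (f a) * h1

/-- The vectors representing functionals. -/
noncomputable def fv (p0 p1 p2 : Fin 4 → ℝ) : V :=
  WithLp.toLp 2 (fun ia : Fin 5 × Fin 4 =>
    (![p0, p1, p2, fun a => -(p0 a + p1 a + p2 a) / 2, fun a => -(p0 a + p1 a + p2 a) / 2] : Fin 5 → Fin 4 → ℝ)
      ia.1 ia.2)

theorem fv_apply (p0 p1 p2 : Fin 4 → ℝ) (i : Fin 5) (a : Fin 4) :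
    fv p0 p1 p2 (i, a) = (![p0, p1, p2, fun a => -(p0 a + p1 a + p2 a) / 2,
      fun a => -(p0 a + p1 a + p2 a) / 2] : Fin 5 → Fin 4 → ℝ) i a := rfl

theorem inner_eq (x y : V) : ⟪x, y⟫ = ∑ i : Fin 5, ∑ a : Fin 4, x (i, a) * y (i, a) := by
  rw [PiLp.inner_apply, Fintype.sum_prod_type]
  apply Finset.sum_congr rfl
  intro i _
  apply Finset.sum_congr rfl
  intro a _
  simp [mul_comm]

theorem ev0 (p0 p1 p2 f : Fin 4 → ℝ) : ⟪fv p0 p1 p2, P f⟫ = ∑ a, p0 a * f a := by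
  rw [inner_eq, Finset.sum_comm]
  apply Finset.sum_congr rfl
  intro a _
  simp only [fv_apply, P_apply, Fin.sum_univ_five]
  simp
  ring

theorem ev1 (p0 p1 p2 f : Fin 4 → ℝ) : ⟪fv p0 p1 p2, T (P f)⟫ = ∑ a, p1 a * f a := by
  rw [inner_eq, Finset.sum_comm]
  apply Finset.sum_congr rfl
  intro a _
  simp only [fv_apply, T_apply, P_apply, Fin.sum_univ_five, q0, q1, q2, q3, q4]
  simp
  ring

theorem ev2 (p0 p1 p2 f : Fin 4 → ℝ) : ⟪fv p0 p1 p2, T (T (P f))⟫ = ∑ a, p2 a * f a := by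
  rw [inner_eq, Finset.sum_comm]
  apply Finset.sum_congr rfl
  intro a _
  simp only [fv_apply, T_apply, P_apply, Fin.sum_univ_five, q0, q1, q2, q3, q4]
  simp
  ring

theorem ev3 (p0 p1 p2 f : Fin 4 → ℝ) :
    ⟪fv p0 p1 p2, T (T (T (P f)))⟫ = -(∑ a, p0 a * f a + ∑ a, p1 a * f a + ∑ a, p2 a * f a) / 2 := by
  rw [inner_eq, Finset.sum_comm, ← Finset.sum_add_distrib, ← Finset.sum_add_distrib, neg_div,
    Finset.sum_div, ← Finset.sum_neg_distrib]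
  apply Finset.sum_congr rfl
  intro a _
  simp only [fv_apply, T_apply, P_apply, Fin.sum_univ_five, q0, q1, q2, q3, q4]
  simp
  ring

theorem ev4 (p0 p1 p2 f : Fin 4 → ℝ) :
    ⟪fv p0 p1 p2, T (T (T (T (P f))))⟫ = -(∑ a, p0 a * f a + ∑ a, p1 a * f a + ∑ a, p2 a * f a) / 2 := by
  rw [inner_eq, Finset.sum_comm, ← Finset.sum_add_distrib, ← Finset.sum_add_distrib, neg_div,
    Finset.sum_div, ← Finset.sum_neg_distrib]
  apply Finset.sum_congr rfl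
  intro a _
  simp only [fv_apply, T_apply, P_apply, Fin.sum_univ_five, q0, q1, q2, q3, q4]
  simp
  ring

/-- coordinatewise norm bounds -/
theorem norm_le_of_coord (x : V) (c : ℝ) (hc : 0 ≤ c) (h : ∀ i a, |x (i, a)| ≤ c) : ‖x‖ ≤ 5 * c := by
  rw [EuclideanSpace.norm_eq]
  have h1 : ∑ ia : Fin 5 × Fin 4, ‖x ia‖ ^ 2 ≤ (5 * c) ^ 2 := by
    have h2 : ∀ ia : Fin 5 × Fin 4, ‖x ia‖ ^ 2 ≤ c ^ 2 := by
      rintro ⟨i, a⟩
      rw [Real.norm_eq_abs]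
      exact pow_le_pow_left₀ (abs_nonneg _) (h i a) 2
    calc ∑ ia : Fin 5 × Fin 4, ‖x ia‖ ^ 2 ≤ ∑ _ia : Fin 5 × Fin 4, c ^ 2 :=
          Finset.sum_le_sum (fun ia _ => h2 ia)
      _ = 20 * c ^ 2 := by
          rw [Finset.sum_const, Finset.card_univ, Fintype.card_prod, Fintype.card_fin,
            Fintype.card_fin, nsmul_eq_mul]
          norm_num
      _ ≤ (5 * c) ^ 2 := by nlinarith [sq_nonneg c]
  calc √(∑ ia : Fin 5 × Fin 4, ‖x ia‖ ^ 2) ≤ √((5 * c) ^ 2) := Real.sqrt_le_sqrt h1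
    _ = 5 * c := Real.sqrt_sq (by positivity)

theorem norm_P_le (f : Fin 4 → ℝ) (c : ℝ) (hc : 0 ≤ c) (h : ∀ a, |f a| ≤ c) : ‖P f‖ ≤ 5 * c := by
  apply norm_le_of_coord _ c hc
  intro i a
  rw [P_apply, abs_mul]
  have h1 : |((if i = 0 then 1 else 0) - 1 / 5 : ℝ)| ≤ 1 := by
    split_ifs <;> norm_num [abs_le]
  calc |f a| * |((if i = 0 then 1 else 0) - 1 / 5 : ℝ)| ≤ c * 1 := by
        apply mul_le_mul (h a) h1 (abs_nonneg _) hc
    _ = c := mul_one c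

theorem norm_fv_le (p0 p1 p2 : Fin 4 → ℝ) (h0 : ∀ a, |p0 a| ≤ 1) (h1 : ∀ a, |p1 a| ≤ 1)
    (h2 : ∀ a, |p2 a| ≤ 1) : ‖fv p0 p1 p2‖ ≤ 10 := by
  have h := norm_le_of_coord (fv p0 p1 p2) 2 (by norm_num) (by
    intro i a
    have e0 := abs_le.mp (h0 a)
    have e1 := abs_le.mp (h1 a)
    have e2 := abs_le.mp (h2 a)
    rw [fv_apply]
    fin_cases i <;> simp <;> rw [abs_le] <;> constructor <;> linarith)
  linarith

end Pool.Agent.H18R3.Win
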