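import Pool.Agent.H18R3.WinP

set_option autoImplicit false

namespace Pool.Agent.H18R3.Win

open scoped RealInnerProductSpace

/-- The relation between two quadruples which agree up to level m. -/
def Near (q q' : Q) (m : ℕ) : Prop :=
  (q.k ≠ q'.k ∧ m = min q.k q'.k) ∨
  (q.k = q'.k ∧ q.k < m ∧ (q.l ≠ q'.l → m ≤ min q.l q'.l) ∧ (q.j ≠ q'.j → m ≤ min q.j q'.j) ∧
    (q.l = q'.l → q.j' ≠ q'.j' → m ≤ min q.j' q'.j'))

theorem Gam_le_t (m : ℕ) : 10000 * Gam m ≤ t m * t m := by
  have h1 : Gam m ≤ w (2 * m + 1) := by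
    unfold Gam
    apply w_anti
    nlinarith
  have h2 := gp (n := 2 * m) (a := t m) (b := t m) (c := 1) (d := 1)
    (w_le_t' (by omega)) (w_le_t' (by omega)) (one_ge _) (one_ge _)
  linarith

theorem inner_b_diff (q : Q) (k' l' : ℕ) :
    ⟪p q, b k' - b l'⟫ = (X q.k q.l * X k' l' + Y q.k q.l * Y k' l') / d q.k q.l
      - vp q * (rho k' - rho l') := by
  rw [inner_sub_right, p_b, p_b]
  unfold X Y
  ring

theorem p_z' (q q' : Q) : ⟪p q, z q'⟫ =
    (X q.k q.l * X q'.k q'.l + Y q.k q.l * Y q'.k q'.l) / d q.k q.l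
      - vp q * (rho q'.k - rho q'.l) + ⟪p q, A q'.k q'.j⟫ - ⟪p q, A q'.l q'.j'⟫ := by
  rw [z_eq q', inner_add_right, inner_b_diff, inner_sub_right]
  ring

/-- normalisation: the value at z q is d. -/
theorem norml (q : Q) : vp q * (rho q.k - rho q.l) = ⟪p q, A q.k q.j⟫ - ⟪p q, A q.l q.j'⟫ := by
  have h1 := p_z' q q
  rw [p_z] at h1
  have h3 := d_pos q.hkl
  have h4 := d_sq (k := q.k) (l := q.l)
  have e : (X q.k q.l * X q.k q.l + Y q.k q.l * Y q.k q.l) / d q.k q.l = d q.k q.l := by
    rw [div_eq_iff h3.ne']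
    linarith
  rw [e] at h1
  linarith

theorem expose_k (q q' : Q) (hne : q.k ≠ q'.k) :
    ⟪p q, z q'⟫ ≤ d q'.k q'.l - Gam (min q.k q'.k) * d q'.k q'.l := by
  rw [p_z']
  have h1 := gap_k q.hkl q'.hkl hne
  have h2 := abs_le.mp (vp_small q)
  have h3 := abs_le.mp (p_A_crude q q'.k q'.j)
  have h4 := abs_le.mp (p_A_crude q q'.l q'.j')
  have h5 : 10000 * r q'.j ≤ t q'.k * rho q'.k := r_lt_small q'.hj
  have h6 : 10000 * r q'.j' ≤ t q'.k * rho q'.k := r_lt_small (q'.hkl.trans q'.hj')
  have h7 := rho_pos q'.k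
  have h8 := rho_pos q'.l
  have h9 := rho_anti q'.hkl.le
  have h10 := trho_le (k := q'.k) (S := q'.k)
  set m := min q.k q'.k with hm
  have hmk : m ≤ q'.k := min_le_right _ _
  have h11 : 10000 * rho q'.k ≤ t m * t m * r q'.k * 1 :=
    gp_rho (w_le_t' (by omega)) (w_le_t' (by omega)) le_rfl (one_ge _)
  have h12 := Gam_le_t m
  have h13 := d_le q'.hkl
  have h14 := X_le (k := q'.k) (l := q'.l)
  have h15 := Gam_pos m
  have h16 := d_pos q'.hkl
  have h17 := r_pos q'.k
  have h18 : Gam m * d q'.k q'.l ≤ t m * t m / 10000 * (r q'.k * (11 / 10)) := by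
    apply mul_le_mul _ _ h16.le _
    · linarith
    · linarith
    · have := t_pos m
      positivity
  have h19 : -(vp q * (rho q'.k - rho q'.l)) ≤ rho q'.k := by
    nlinarith
  have h20 : r q'.k * t m ^ 2 = t m * t m * r q'.k * 1 := by ring
  have h21 : t m * t m / 10000 * (r q'.k * (11 / 10)) = t m * t m * r q'.k * 1 * (11 / 100000) := by ring
  rw [h21] at h18
  rw [h20] at h1
  linarith

theorem Gam_le_gap {k l0 : ℕ} (h : k < l0) :
    1000 * Gam l0 + 1000 * rho l0 + 1000 * (400 * r (l0 + 1)) ≤ r k * (r l0 * t k) ^ 2 / 40 := by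
  have h1 : Gam l0 ≤ rho l0 := by
    unfold Gam rho
    apply w_anti
    nlinarith
  have h2 := rem_small (S := l0) (k := k) h.le
  have h3 := trho_le (k := k) (S := l0)
  have h5 := r_pos (l0 + 1)
  -- rho l0 is far below r_k r_l0^2 t_k^2
  have h4 : 10000 * rho l0 ≤ r k * r l0 * (r l0 * t k) * t k := by
    have ha : w (2 * l0) ≤ r k := w_anti (by omega)
    have hc : w (2 * l0) * w (2 * l0) ≤ r l0 * t k := by
      have h6 : w (2 * l0) ≤ t k := w_le_t' (by omega)
      have h7 := w_pos (2 * l0)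
      exact mul_le_mul le_rfl h6 h7.le h7.le
    have hd : w (2 * l0) ≤ t k := w_le_t' (by omega)
    have h0 := w_pos (2 * l0)
    have h6 := w_succ_le (2 * l0)
    have h7 : w (2 * l0) ^ 5 = w (2 * l0) * w (2 * l0) * (w (2 * l0) * w (2 * l0)) * w (2 * l0) := by ring
    have h8 : w (2 * l0) * w (2 * l0) * (w (2 * l0) * w (2 * l0)) * w (2 * l0)
        ≤ r k * r l0 * (r l0 * t k) * t k := by
      have hk := r_pos k
      have hl := r_pos l0
      have htk := t_pos k
      have h9 : w (2 * l0) * w (2 * l0) ≤ r k * r l0 := mul_le_mul ha le_rfl h0.le hk.le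
      have h10 : w (2 * l0) * w (2 * l0) * (w (2 * l0) * w (2 * l0)) ≤ r k * r l0 * (r l0 * t k) :=
        mul_le_mul h9 hc (by positivity) (by positivity)
      exact mul_le_mul h10 hd h0.le (by positivity)
    unfold rho
    linarith
  have h9 : r k * r l0 * (r l0 * t k) * t k = r k * (r l0 * t k) ^ 2 := by ring
  rw [h9] at h4
  have h11 := w_pos
  -- we need an extra factor 100
  have h12 : r l0 * t k ≤ 1 := by
    have := r_le l0
    have := r_pos l0
    have := t_le_one k
    have := t_pos k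
    nlinarith
  have h13 : 100000 * rho l0 ≤ r k * (r l0 * t k) ^ 2 := by
    have ha : w (2 * l0) ≤ r k := w_anti (by omega)
    have h6 := w_succ_le (2 * l0)
    have h0 := w_pos (2 * l0)
    have hle := w_le (2 * l0)
    have h14 : w (2 * l0 + 1) = w (2 * l0) ^ 20 := w_succ _
    have h15 : w (2 * l0) ^ 15 ≤ 1 / 10000 * (1 / 10000) := by
      calc w (2 * l0) ^ 15 ≤ w (2 * l0) ^ 2 := pow_le_pow_of_le_one h0.le (by linarith) (by norm_num)
        _ = w (2 * l0) * w (2 * l0) := by ring
        _ ≤ 1 / 10000 * (1 / 10000) := mul_le_mul hle hle h0.le (by norm_num)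
    have h16 : w (2 * l0) ^ 5 ≤ r k * (r l0 * t k) ^ 2 := by
      have h6 : w (2 * l0) ≤ t k := w_le_t' (by omega)
      have h8 : w (2 * l0) * w (2 * l0) ≤ r l0 * t k := mul_le_mul le_rfl h6 h0.le h0.le
      have h10 : (w (2 * l0) * w (2 * l0)) ^ 2 ≤ (r l0 * t k) ^ 2 :=
        pow_le_pow_left₀ (by positivity) h8 2
      calc w (2 * l0) ^ 5 = w (2 * l0) * (w (2 * l0) * w (2 * l0)) ^ 2 := by ring
        _ ≤ r k * (r l0 * t k) ^ 2 := mul_le_mul ha h10 (by positivity) (r_pos k).le
    calc 100000 * rho l0 = 100000 * (w (2 * l0) ^ 5 * w (2 * l0) ^ 15) := by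
          unfold rho; rw [h14]; ring
      _ ≤ 100000 * (w (2 * l0) ^ 5 * (1 / 10000 * (1 / 10000))) := by gcongr
      _ ≤ w (2 * l0) ^ 5 := by
          have : 0 < w (2 * l0) ^ 5 := by positivity
          linarith
      _ ≤ _ := h16
  linarith

theorem expose_kk (q q' : Q) (hk : q.k = q'.k) (hne : ¬ (q.l = q'.l ∧ q.j = q'.j ∧ q.j' = q'.j')) :
    ∃ m, Near q q' m ∧ ⟪p q, z q'⟫ ≤ d q'.k q'.l - Gam m * d q'.k q'.l := by
  have hd1 := d_le_one q'.hkl
  have hd0 := d_pos q'.hkl
  have hGd : ∀ m, Gam m * d q'.k q'.l ≤ Gam m := by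
    intro m
    have := Gam_pos m
    nlinarith
  have hK : q.j ≠ q'.j → ⟪p q, A q.k q'.j⟫ + Gam (min q'.j q.j) ≤ ⟪p q, A q.k q.j⟫ := by
    intro h
    exact expK q (by rw [hk]; exact q'.hj) (Ne.symm h)
  have hK' : ⟪p q, A q.k q'.j⟫ ≤ ⟪p q, A q.k q.j⟫ := by
    by_cases h : q.j = q'.j
    · rw [h]
    · have := hK h
      have := Gam_pos (min q'.j q.j)
      linarith
  have hn := norml q
  by_cases hl : q.l = q'.l
  · -- same l
    have hL : q.j' ≠ q'.j' → ⟪p q, A q.l q.j'⟫ + Gam (min q'.j' q.j') ≤ ⟪p q, A q.l q'.j'⟫ := by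
      intro h
      exact expL q (by rw [hl]; exact q'.hj') (Ne.symm h)
    have hL' : ⟪p q, A q.l q.j'⟫ ≤ ⟪p q, A q.l q'.j'⟫ := by
      by_cases h : q.j' = q'.j'
      · rw [h]
      · have := hL h
        have := Gam_pos (min q'.j' q.j')
        linarith
    have hval : ⟪p q, z q'⟫ = d q'.k q'.l - (⟪p q, A q.k q.j⟫ - ⟪p q, A q.k q'.j⟫)
        - (⟪p q, A q.l q'.j'⟫ - ⟪p q, A q.l q.j'⟫) := by
      rw [p_z', ← hk, ← hl]
      have h3 := d_pos q.hkl
      have h4 := d_sq (k := q.k) (l := q.l)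
      have e : (X q.k q.l * X q.k q.l + Y q.k q.l * Y q.k q.l) / d q.k q.l = d q.k q.l := by
        rw [div_eq_iff h3.ne']
        linarith
      rw [e]
      linarith
    by_cases hj : q.j = q'.j
    · have hj' : q.j' ≠ q'.j' := by
        intro h
        exact hne ⟨hl, hj, h⟩
      refine ⟨min q.j' q'.j', Or.inr ⟨hk, ?_, ?_, ?_, ?_⟩, ?_⟩
      · have := q.hkl
        have := q.hj'
        have := q'.hj'
        rw [lt_min_iff]
        constructor <;> omega
      · intro h; exact absurd hl h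
      · intro h; exact absurd hj h
      · intro _ _; exact le_rfl
      · have h1 := hL hj'
        rw [min_comm] at h1
        have h2 := hGd (min q.j' q'.j')
        rw [hval]
        linarith
    · by_cases hj' : q.j' = q'.j'
      · refine ⟨min q.j q'.j, Or.inr ⟨hk, ?_, ?_, ?_, ?_⟩, ?_⟩
        · have := q.hj
          have := q'.hj
          rw [lt_min_iff]
          constructor <;> omega
        · intro h; exact absurd hl h
        · intro _; exact le_rfl
        · intro _ h; exact absurd hj' h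
        · have h1 := hK hj
          rw [min_comm] at h1
          have h2 := hGd (min q.j q'.j)
          rw [hval]
          linarith
      · refine ⟨min (min q.j q'.j) (min q.j' q'.j'), Or.inr ⟨hk, ?_, ?_, ?_, ?_⟩, ?_⟩
        · have := q.hj
          have := q'.hj
          have := q.hkl
          have := q.hj'
          have := q'.hj'
          rw [lt_min_iff, lt_min_iff, lt_min_iff]
          refine ⟨⟨?_, ?_⟩, ?_, ?_⟩ <;> omega
        · intro h; exact absurd hl h
        · intro _; exact min_le_left _ _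
        · intro _ _; exact min_le_right _ _
        · have h1 := hK hj
          rw [min_comm] at h1
          have h2 := hL hj'
          rw [min_comm] at h2
          rw [hval]
          rcases le_total (min q.j q'.j) (min q.j' q'.j') with hh | hh
          · rw [min_eq_left hh]
            have h3 := hGd (min q.j q'.j)
            linarith
          · rw [min_eq_right hh]
            have h3 := hGd (min q.j' q'.j')
            linarith
  · -- different l
    have hq'k : q.k < q'.l := by rw [hk]; exact q'.hkl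
    have hg := gap_l q.hkl hq'k hl
    set l0 := min q.l q'.l with hl0
    have hkl0 : q.k < l0 := by rw [hl0, lt_min_iff]; exact ⟨q.hkl, hq'k⟩
    have hsm := Gam_le_gap hkl0
    have hv := abs_le.mp (vp_small q)
    have hrl : rho q.l ≤ rho l0 := rho_anti (min_le_left _ _)
    have hrl' : rho q'.l ≤ rho l0 := rho_anti (min_le_right _ _)
    have hc1 := abs_le.mp (p_A_crude q q'.l q'.j')
    have hc2 := abs_le.mp (p_A_crude q q.l q.j')
    have hr1 : r q'.j' ≤ r (l0 + 1) := r_anti (by
      have := q'.hj'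
      have : l0 ≤ q'.l := min_le_right _ _
      omega)
    have hr2 : r q.j' ≤ r (l0 + 1) := r_anti (by
      have := q.hj'
      have : l0 ≤ q.l := min_le_left _ _
      omega)
    have hval : ⟪p q, z q'⟫ = (X q.k q.l * X q.k q'.l + Y q.k q.l * Y q.k q'.l) / d q.k q.l
        - vp q * (rho q.k - rho q.l) - vp q * (rho q.l - rho q'.l)
        + ⟪p q, A q.k q'.j⟫ - ⟪p q, A q'.l q'.j'⟫ := by
      rw [p_z', ← hk]
      ring
    have hvv : -(vp q * (rho q.l - rho q'.l)) ≤ rho l0 := by
      have h1 := rho_pos q.l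
      have h2 := rho_pos q'.l
      rcases le_total (rho q.l) (rho q'.l) with h | h
      · nlinarith
      · nlinarith
    have hGl0 := Gam_pos l0
    have hrl0 := rho_pos l0
    have hr0 := r_pos (l0 + 1)
    have hmain : ⟪p q, z q'⟫ ≤ d q'.k q'.l - Gam l0 - (⟪p q, A q.k q.j⟫ - ⟪p q, A q.k q'.j⟫) := by
      rw [hval, hn, ← hk]
      linarith
    by_cases hj : q.j = q'.j
    · refine ⟨l0, Or.inr ⟨hk, hkl0, ?_, ?_, ?_⟩, ?_⟩
      · intro _; exact le_rfl
      · intro h; exact absurd hj h
      · intro h; exact absurd h hl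
      · have h3 := hGd l0
        linarith
    · refine ⟨min l0 (min q.j q'.j), Or.inr ⟨hk, ?_, ?_, ?_, ?_⟩, ?_⟩
      · have := q.hj
        have := q'.hj
        apply lt_min hkl0
        apply lt_min <;> omega
      · intro _; exact min_le_left _ _
      · intro _; exact min_le_right _ _
      · intro h; exact absurd h hl
      · have h1 := hK hj
        rw [min_comm] at h1
        rcases le_total l0 (min q.j q'.j) with hh | hh
        · rw [min_eq_left hh]
          have h3 := hGd l0
          have h4 := Gam_pos (min q.j q'.j)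
          linarith
        · rw [min_eq_right hh]
          have h3 := hGd (min q.j q'.j)
          linarith

theorem expose (q q' : Q) (hne : ¬ (q.k = q'.k ∧ q.l = q'.l ∧ q.j = q'.j ∧ q.j' = q'.j')) :
    ∃ m, Near q q' m ∧ ⟪p q, z q'⟫ ≤ d q'.k q'.l - Gam m * d q'.k q'.l := by
  by_cases hk : q.k = q'.k
  · exact expose_kk q q' hk (fun h => hne ⟨hk, h⟩)
  · exact ⟨min q.k q'.k, Or.inl ⟨hk, rfl⟩, expose_k q q' hk⟩

end Pool.Agent.H18R3.Win
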